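import Pool.Agent.TInc.EmbA
import Pool.Agent.Dess.Galois
import Pool.Agent.EFC.Util

/-!
# Automorphisms of `Om k` and embeddings of the function field of a curve
-/

set_option autoImplicit false

noncomputable section

namespace Pool.Agent.QTC

open Pool.Agent.ZCyc Pool.Agent.Dess
open Pool.Agent.VFP (Om tt)
open scoped Classical

variable {k L : Type} [Field k] [IsAlgClosed k] [CharZero k] [Field L] [Algebra k L]

/-- `Om k` is algebraic over the image of a function field -/
theorem alg_range (hL : IsCurve k L) (σ : L →ₐ[k] Om k) :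
    Algebra.IsAlgebraic σ.fieldRange (Om k) := by
  obtain ⟨t, ht, -⟩ := hL
  have hσt : Transcendental k (σ t) := by
    intro h
    exact ht ((isAlgebraic_algHom_iff σ σ.injective).1 h)
  have h1 := TInc.alg_adjoin hσt
  have hle : IntermediateField.adjoin k {σ t} ≤ σ.fieldRange := by
    rw [IntermediateField.adjoin_simple_le_iff]
    exact ⟨t, rfl⟩
  constructor
  intro x
  obtain ⟨p, hp, hp0⟩ := h1.isAlgebraic x
  refine ⟨p.map (IntermediateField.inclusion hle).toRingHom, ?_, ?_⟩
  · rwa [Ne, Polynomial.map_eq_zero_iff (IntermediateField.inclusion hle).injective]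
  · rw [← hp0, Polynomial.aeval_def, Polynomial.eval₂_map, Polynomial.aeval_def]
    rfl

/-- **Two embeddings of the function field of a curve differ by an automorphism of `Om k`.** -/
theorem exists_lift (hL : IsCurve k L) (s s' : L →ₐ[k] Om k) :
    ∃ τ : Om k ≃ₐ[k] Om k, ∀ f, τ (s f) = s' f := by
  have h1 := alg_range hL s
  have h2 := alg_range hL s'
  have c1 : IsAlgClosure s.fieldRange (Om k) := ⟨inferInstance, h1⟩
  have c2 : IsAlgClosure s'.fieldRange (Om k) := ⟨inferInstance, h2⟩
  let e1 : L ≃ₐ[k] s.fieldRange := AlgEquiv.ofInjectiveField s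
  let e2 : L ≃ₐ[k] s'.fieldRange := AlgEquiv.ofInjectiveField s'
  let e : s.fieldRange ≃ₐ[k] s'.fieldRange := e1.symm.trans e2
  let τ := IsAlgClosure.equivOfEquiv (Om k) (Om k) (e : s.fieldRange ≃+* s'.fieldRange)
  have hτ : ∀ x : s.fieldRange, τ (algebraMap s.fieldRange (Om k) x) =
      algebraMap s'.fieldRange (Om k) (e x) := fun x =>
    IsAlgClosure.equivOfEquiv_algebraMap (Om k) (Om k) (e : s.fieldRange ≃+* s'.fieldRange) x
  have hs : ∀ f, τ (s f) = s' f := by
    intro f
    have h3 := hτ (e1 f)
    have h4 : e (e1 f) = e2 f := by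
      change e2 (e1.symm (e1 f)) = e2 f
      rw [AlgEquiv.symm_apply_apply]
    rw [h4] at h3
    exact h3
  refine ⟨AlgEquiv.ofRingEquiv (f := τ) fun c => ?_, hs⟩
  have h3 := hs (algebraMap k L c)
  rwa [s.commutes, s'.commutes] at h3

end Pool.Agent.QTC
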