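import Pool.Agent.EFC.Util
import Pool.Agent.GT.BadDef
import Pool.Agent.KEx.Line

/-!
# A minimal Weierstrass equation over a curve has bad reduction somewhere
-/

set_option autoImplicit false

noncomputable section

namespace Pool.Agent.QTC

open Pool.Agent.ZCyc Pool.Agent.TInc
open Pool.Agent.EFC (unif mem_unif_iff)
open scoped Classical

variable {k L : Type} [Field k] [Field L] [Algebra k L] [IsAlgClosed k] [CharZero k]

omit [IsAlgClosed k] [CharZero k] in
/-- the degree as a sum -/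
theorem deg_sum (F : Place k L →₀ ℤ) (T : Finset (Place k L)) (h : F.support ⊆ T) :
    TInc.deg F = ∑ v ∈ T, F v := by
  unfold TInc.deg
  rw [Finsupp.sum_of_support_subset F h _ fun _ _ => rfl]

/-- **A minimal Weierstrass equation with a divisor of positive degree has bad reduction at some
place.** -/
theorem exists_bad (hL : EFC.IsCurve k L) {a b : L} (hd : b ^ 2 ≠ 4 * a ^ 3)
    {D : Place k L →₀ ℤ} (hD : 0 < TInc.deg D)
    (hmin : ∀ v : Place k L, ¬ (a * unif v ^ (4 * D v - 4) ∈ v.ring ∧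
      b * unif v ^ (6 * D v - 6) ∈ v.ring)) : ∃ δ : Place k L, GT.BadAt δ a b := by
  by_contra hcon
  push Not at hcon
  have hLd := hL.dess
  have h1 : ∀ δ : Place k L, ∃ u : L, u ≠ 0 ∧ u ^ 4 * a ∈ δ.ring ∧
      u ^ 6 * b ∈ δ.ring ∧ (u ^ 12 * (b ^ 2 - 4 * a ^ 3))⁻¹ ∈ δ.ring := by
    intro δ
    have h2 := hcon δ
    unfold GT.BadAt at h2
    push Not at h2
    obtain ⟨u, hu, h3⟩ := h2
    exact ⟨u, hu, h3.1, h3.2.1, h3.2.2⟩
  choose u hu0 hua hub hud using h1
  set Δ : L := b ^ 2 - 4 * a ^ 3 with hΔ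
  have hΔ0 : Δ ≠ 0 := sub_ne_zero.2 hd
  have hord : ∀ δ : Place k L, ord δ Δ = -(12 * ord δ (u δ)) := by
    intro δ
    have h0 : (u δ) ^ 12 * Δ ≠ 0 := mul_ne_zero (pow_ne_zero _ (hu0 δ)) hΔ0
    have h2 : (u δ) ^ 12 * Δ ∈ δ.ring := by
      have h3 : (u δ) ^ 12 * Δ = ((u δ) ^ 6 * b) ^ 2 - 4 * ((u δ) ^ 4 * a) ^ 3 := by
        rw [hΔ]
        ring
      rw [h3]
      have h4 : (4 : L) ∈ δ.ring := by
        have := (Place.at_const (v := δ) (4 : k)).mem
        rwa [map_ofNat] at this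
      exact sub_mem (pow_mem (hub δ) 2) (mul_mem h4 (pow_mem (hua δ) 3))
    have h3 := (ord_eq_zero_iff hLd h0).2 ⟨h2, hud δ⟩
    rw [ord_mul hLd δ (pow_ne_zero _ (hu0 δ)) hΔ0, ord_pow hLd] at h3
    push_cast at h3
    linarith
  have hle : ∀ δ : Place k L, D δ ≤ ord δ (u δ) := by
    intro δ
    by_contra hlt
    push Not at hlt
    refine hmin δ ⟨(mem_unif_iff hL δ a _).2 fun ha => ?_, (mem_unif_iff hL δ b _).2 fun hb => ?_⟩
    · have h2 := (mem_iff_ord hLd (mul_ne_zero (pow_ne_zero 4 (hu0 δ)) ha)).1 (hua δ)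
      rw [ord_mul hLd δ (pow_ne_zero _ (hu0 δ)) ha, ord_pow hLd] at h2
      push_cast at h2
      linarith
    · have h2 := (mem_iff_ord hLd (mul_ne_zero (pow_ne_zero 6 (hu0 δ)) hb)).1 (hub δ)
      rw [ord_mul hLd δ (pow_ne_zero _ (hu0 δ)) hb, ord_pow hLd] at h2
      push_cast at h2
      linarith
  have h2 := deg_dv hLd Δ
  rw [deg_sum _ (D.support ∪ (dv hLd Δ).support) Finset.subset_union_right] at h2
  rw [deg_sum D (D.support ∪ (dv hLd Δ).support) Finset.subset_union_left] at hD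
  have h3 : ∑ v ∈ D.support ∪ (dv hLd Δ).support, (12 * D v + (dv hLd Δ) v) ≤ 0 := by
    refine Finset.sum_nonpos fun v _ => ?_
    rw [dv_apply, hord]
    linarith [hle v]
  rw [Finset.sum_add_distrib, ← Finset.mul_sum, h2] at h3
  linarith

end Pool.Agent.QTC
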