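import Pool.Agent.KEx.Conj

/-!
# The conjugates of the map have the same limit homomorphisms

This is `Pool.Agent.KEx.Conj` for a field `L` over which `Om k` is algebraic.
-/

set_option autoImplicit false

noncomputable section

namespace Pool.Agent.QTC

open Pool.Agent.ZCyc Pool.Agent.Dess Pool.Agent.GT Pool.Agent.KAll Pool.Agent.KEx Polynomial
open Pool.Agent.VFP (Om tt)
open scoped Classical LinearAlgebra.Projectivization

variable {k L : Type} [Field k] [Field L] [Algebra k L] [Algebra L (Om k)]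
  [IsScalarTower k L (Om k)] {m : ℕ}

variable (L) in
/-- The family of elliptic curves `E : y ^ 2 = x ^ 3 - 3 * α * x + B`, where `α` and `B` are
elements of `L`, with the map `φ(x, y) = G_i(x) + H_i(x) y` to the variety with the equations `X`.
The conjugates of `φ` over `L` differ from `φ` by translations. -/
structure FibL (X : Set (MvPolynomial (Fin (m + 1)) k)) (α B : Om k) (M : GT.Mp (Om k) m) :
    Prop extends Fam X α B M where
  coef : ∃ a b : L, α = algebraMap L (Om k) a ∧ B = algebraMap L (Om k) b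
  conj : ∀ τ : Om k ≃ₐ[L] Om k, ∃ A : (GT.Ec α B).Point,
    ∀ (x y x' y' : Om k) (h : (GT.Ec α B).Nonsingular (τ x) (τ y))
      (h' : (GT.Ec α B).Nonsingular x' y'),
      WeierstrassCurve.Affine.Point.some (τ x) (τ y) h + A = .some x' y' h' → M.co x' y' ≠ 0 →
        ∃ c : Om k, ∀ i, τ (M.co x y i) = c * M.co x' y' i

variable {X : Set (MvPolynomial (Fin (m + 1)) k)}

omit [Algebra k L] [IsScalarTower k L (Om k)] in
/-- the coordinates of the conjugate map -/
theorem map_co (τ : Om k ≃ₐ[L] Om k) (M : Mp (Om k) m) (x y : Om k) (i : Fin (m + 1)) :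
    (M.map (τ : Om k →+* Om k)).co (τ x) (τ y) i = τ (M.co x y i) := by
  have h : ∀ (p : (Om k)[X]) (z : Om k), (p.map (τ : Om k →+* Om k)).eval (τ z) = τ (p.eval z) :=
    fun p z => by
      rw [Polynomial.eval_map]
      exact Polynomial.eval₂_at_apply (τ : Om k →+* Om k) z
  change ((M.G i).map (τ : Om k →+* Om k)).eval (τ x) +
    ((M.H i).map (τ : Om k →+* Om k)).eval (τ x) * τ y =
    τ ((M.G i).eval x + (M.H i).eval x * y)
  rw [h, h, map_add, map_mul]

variable {α B : Om k} {M : Mp (Om k) m}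

omit [Algebra k L] [IsScalarTower k L (Om k)] in
/-- the coefficients are fixed -/
theorem fix_coef (h : FibL L X α B M) (τ : Om k ≃ₐ[L] Om k) : τ α = α ∧ τ B = B := by
  obtain ⟨a, b, ha, hb⟩ := h.coef
  exact ⟨by rw [ha]; exact τ.commutes a, by rw [hb]; exact τ.commutes b⟩

variable [IsAlgClosed k] [CharZero k]

theorem ok_map (h : FibL L X α B M) (τ : Om k ≃ₐ[L] Om k) :
    (M.map (τ : Om k →+* Om k)).Ok α B X :=
  ok_conj (τ.restrictScalars k) (fix_coef h τ).1 (fix_coef h τ).2 rfl h.ok

/-- the images of the points under the conjugate map -/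
theorem cyc_conj (h : FibL L X α B M) (τ : Om k ≃ₐ[L] Om k) :
    ∃ A : (Ec α B).Point, ∀ P : (Ec α B).Point, (M.map (τ : Om k →+* Om k)).Ns P → M.Ns (P + A) →
      cyc h.hom (ok_map h τ) P = cyc h.hom h.ok (P + A) := by
  obtain ⟨A, hA⟩ := h.conj τ
  refine ⟨A, fun P hP hQ => ?_⟩
  obtain ⟨u, w, hu, rfl⟩ : ∃ u w h, P = .some u w h := by
    cases P with
    | zero => exact hP.elim
    | some u w h => exact ⟨u, w, h, rfl⟩
  obtain ⟨x, rfl⟩ := τ.surjective u
  obtain ⟨y, rfl⟩ := τ.surjective w
  obtain ⟨x', y', h', e⟩ : ∃ x' y' h', (.some (τ x) (τ y) hu : (Ec α B).Point) + A =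
      .some x' y' h' := by
    revert hQ
    generalize (.some (τ x) (τ y) hu : (Ec α B).Point) + A = R
    intro hQ
    cases R with
    | zero => exact hQ.elim
    | some x y h => exact ⟨x, y, h, rfl⟩
  rw [e] at hQ ⊢
  have hQ' : M.co x' y' ≠ 0 := hQ
  obtain ⟨c, hc⟩ := hA x y x' y' hu h' e hQ'
  have hco : ∀ i, (M.map (τ : Om k →+* Om k)).co (τ x) (τ y) i = c * M.co x' y' i := fun i => by
    rw [map_co, hc]
  have h1 : cyc h.hom (ok_map h τ) (.some (τ x) (τ y) hu) =
      Finsupp.single (phi h.hom (ok_map h τ) (.some (τ x) (τ y) hu) hP) 1 := dif_pos hP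
  have h2 : cyc h.hom h.ok (.some x' y' h') =
      Finsupp.single (phi h.hom h.ok (.some x' y' h') hQ) 1 := dif_pos hQ
  rw [h1, h2]
  congr 1
  apply Subtype.ext
  refine (Projectivization.mk_eq_mk_iff' _ _ _ _ _).2 ⟨c, ?_⟩
  funext i
  exact (hco i).symm

/-- **The conjugates of the map have the same limit homomorphisms.** -/
theorem hV_map (h : FibL L X α B M) (τ : Om k ≃ₐ[L] Om k) (v : Place k (Om k))
    (P : (Ec α B).Point) : hV h.hom (ok_map h τ) v P = hV h.hom h.ok v P := by
  obtain ⟨A, hA⟩ := cyc_conj h τ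
  have hinf := infinite_points h.ok.disc
  have hM' := ok_map h τ
  obtain ⟨Q, hQ⟩ := (((finite_bad (α := α) (B := B) hM'.ne).union
    ((finite_bad (α := α) (B := B) hM'.ne).preimage (f := fun Q => P + Q)
      (add_right_injective P).injOn)).union
    (((finite_bad (α := α) (B := B) h.ok.ne).preimage (f := fun Q => Q + A)
      (add_left_injective A).injOn).union
    ((finite_bad (α := α) (B := B) h.ok.ne).preimage (f := fun Q => P + (Q + A))
      (fun Q _ Q' _ e => add_left_injective A (add_right_injective P e))))).exists_notMem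
  have h1 : (M.map (τ : Om k →+* Om k)).Ns Q := by
    by_contra hc
    exact hQ (Or.inl (Or.inl hc))
  have h2 : (M.map (τ : Om k →+* Om k)).Ns (P + Q) := by
    by_contra hc
    exact hQ (Or.inl (Or.inr hc))
  have h3 : M.Ns (Q + A) := by
    by_contra hc
    exact hQ (Or.inr (Or.inl hc))
  have h4 : M.Ns (P + (Q + A)) := by
    by_contra hc
    exact hQ (Or.inr (Or.inr hc))
  have e1 := hA Q h1 h3
  have e2 := hA (P + Q) h2 (by rwa [add_assoc])
  rw [← hV_spec h.hom hM' v h1 h2, ← hV_spec h.hom h.ok v h3 h4]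
  unfold lmp
  rw [e1, e2, add_assoc]

end Pool.Agent.QTC
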