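import Pool.Agent.QTF.Mix
import Pool.Agent.QTC.ModelL
import Pool.Agent.QTC.ConjL
import Pool.Agent.QTC.BadL

/-!
# The mixed relation over a curve

Let `X j`, `j < n`, be surfaces with fibrations in curves of genus one over the same curve `C` of
genus `g` with the function field `L`, which belong to the same elliptic curve `E` over `L`, with
`χ(O) = r`, `r + g ≤ n`. The alternating sum of the exterior products of the classes
`hV_j (v (π j)) (P (π j))` on `X j` is zero (`mix`). This is `Pool.Agent.QTF.Mix` over `C`.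
-/

set_option autoImplicit false

noncomputable section

namespace Pool.Agent.QTC

open Pool.Agent.ZCyc Pool.Agent.Dess Pool.Agent.GT Pool.Agent.KAll
open Pool.Agent.TInc Polynomial
open Pool.Agent.QTF (IsProd exists_isProd prU prN prU_hV prN_Ext Extm sEq hom_sEq sN)
open Pool.Agent.VFP (Om tt)
open scoped Classical LinearAlgebra.Projectivization

variable {k L : Type} [Field k] [Field L] [Algebra k L] [Algebra L (Om k)]
  [IsScalarTower k L (Om k)] {n : ℕ} {m : Fin n → ℕ}
  {X : ∀ j, Set (MvPolynomial (Fin (m j + 1)) k)}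

/-- The Weierstrass equation `y ^ 2 = x ^ 3 - 3 * a * x + b` over the curve with the function field
`L` is minimal, and `deg D = r > 0`, where `a` and `b` are sections of `O(4 D)` and `O(6 D)`. -/
structure BaseL (a b : L) (D : Place k L →₀ ℤ) (r : ℕ) : Prop where
  curve : EFC.IsCurve k L
  disc : b ^ 2 ≠ 4 * a ^ 3
  pos : 0 < r
  deg : EFC.deg D = r
  regA : ∀ v : Place k L, a * EFC.unif v ^ (4 * D v) ∈ v.ring
  regB : ∀ v : Place k L, b * EFC.unif v ^ (6 * D v) ∈ v.ring
  minimal : ∀ v : Place k L, ¬ (a * EFC.unif v ^ (4 * D v - 4) ∈ v.ring ∧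
    b * EFC.unif v ^ (6 * D v - 6) ∈ v.ring)

omit [Algebra k L] [IsScalarTower k L (Om k)] in
/-- the conjugate of the product of the maps -/
theorem IsProd_conj {α B : Om k} {M : ∀ j, Mp (Om k) (m j)} {W : Mp (Om k) (sN m)}
    (h : IsProd α B M W) (τ : Om k ≃ₐ[L] Om k) (hα : τ α = α) (hB : τ B = B) :
    IsProd α B (fun j => (M j).map (τ : Om k →+* Om k)) (W.map (τ : Om k →+* Om k)) := by
  intro x' y' hxy i
  obtain ⟨x, rfl⟩ := τ.surjective x'
  obtain ⟨y, rfl⟩ := τ.surjective y'
  have h1 : y ^ 2 = x ^ 3 - 3 * α * x + B := by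
    apply τ.injective
    rw [map_pow, map_add, map_sub, map_mul, map_mul, map_pow, hα, hB, map_ofNat]
    exact hxy
  rw [map_co, h x y h1 i, map_prod]
  refine Finset.prod_congr rfl fun j _ => ?_
  exact (map_co τ (M j) x y _).symm

variable [IsAlgClosed k] [CharZero k]

/-- the class of the sum over all conjugates -/
private def Mix_cl {N : ℕ} {Y : Set (MvPolynomial (Fin (N + 1)) k)} (hY : Hom Y)
    {d : GD L N} (hd : d.Ok Y) (v : Place k (Om k))
    (P : (Ec (algebraMap L (Om k) d.α) (algebraMap L (Om k) d.B)).Point) :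
    CH Y Unit :=
  ∑ θ : {θ // θ ∈ d.rts (algebraMap L (Om k))},
    hV hY (hd.mp_ok (IsScalarTower.toAlgHom k L (Om k)) θ.2) v P

/-- the theorem `mainC` for a family over the line: the relation for the classes `Mix_cl` -/
private theorem Mix_main {N : ℕ} {Y : Set (MvPolynomial (Fin (N + 1)) k)} (hY : Hom Y)
    {d : GD L N} (hd : d.Ok Y) {r : ℕ} {n : ℕ} {a b : L} {D : Place k L →₀ ℤ}
    (hb : BaseL a b D r) (hn : r + EFC.genus k L ≤ n)
    (hdα : d.α = a) (hdB : d.B = b)
    (v : Fin n → Place k (Om k))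
    (P : Fin n → (Ec (algebraMap L (Om k) d.α)
      (algebraMap L (Om k) d.B)).Point) :
    Alt (Ext hY n) (fun i => Mix_cl hY hd (v i) (P i)) = 0 := by
  have hL := hb.curve
  obtain ⟨δ, hδ⟩ := exists_bad hL hb.disc (D := D) (by
    rw [← EFC.deg_eq_deg, hb.deg]
    exact_mod_cast hb.pos) hb.minimal
  set S : Set (CH Y Unit) := {c | ∃ v P, c = Mix_cl hY hd v P} with hS
  refine mainC hY hL.dess hd (D := D) hb.deg hb.pos (fun h0 v => ?_) (fun h0 v => ?_)
    (EFC.riemann_genus hL (TInc.exists_genus hL.dess)) hn (δ := δ) (by rwa [hdα, hdB]) S ?_ _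
      fun j => Submodule.subset_span ⟨v j, P j, rfl⟩
  · have h1 := (EFC.mem_unif_iff hL v a _).1 (hb.regA v)
    rw [hdα] at h0 ⊢
    exact h1 h0
  · have h1 := (EFC.mem_unif_iff hL v b _).1 (hb.regB v)
    rw [hdB] at h0 ⊢
    exact h1 h0
  rintro U d' hd' hmap _ ⟨v, P, rfl⟩
  let j : L →ₐ[k] Om k := IsScalarTower.toAlgHom k L (Om k)
  have hSj : ((j.comp (regU U).val : regU U →ₐ[k] Om k) : regU U →+* Om k) =
      (algebraMap L (Om k)).comp ((regU U).val : regU U →+* L) := rfl
  have ea : algebraMap L (Om k) d.α = (j.comp (regU U).val) d'.α := by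
    rw [← congrArg GD.α hmap]
    rfl
  have eb : algebraMap L (Om k) d.B = (j.comp (regU U).val) d'.B := by
    rw [← congrArg GD.B hmap]
    rfl
  have hr' : d'.rts ((j.comp (regU U).val : regU U →ₐ[k] Om k) : regU U →+* Om k) =
      d.rts (algebraMap L (Om k)) := by
    rw [hSj, ← rts_map, hmap]
  refine ⟨j, v, castE ea eb P, ?_⟩
  unfold TV Mix_cl
  rw [AddMonoidHom.finsetSum_apply]
  refine Fintype.sum_equiv (Equiv.subtypeEquivRight fun θ => by rw [hr']) _ _ fun θ => ?_
  have h1 : θ.1 ∈ d'.rts ((j.comp (regU U).val : regU U →ₐ[k] Om k) : regU U →+* Om k) := by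
    rw [hr']
    exact θ.2
  have h2 : ∀ t : Om k, d'.mp ((j.comp (regU U).val : regU U →ₐ[k] Om k) :
      regU U →+* Om k) t = d.mp (algebraMap L (Om k)) t := fun t => by
    rw [hSj, ← mp_map, hmap]
  exact hV_cast hY _ (hd'.mp_ok (j.comp (regU U).val) h1) ea eb (h2 θ.1).symm v P

/-- **The mixed relation.** -/
theorem mix [Algebra.IsAlgebraic L (Om k)] [CharZero L] {a b : L} {M : ∀ j, Mp (Om k) (m j)}
    {D : Place k L →₀ ℤ} {r : ℕ} (hb : BaseL a b D r)
    (h : ∀ j, FibL L (X j) (algebraMap L (Om k) a) (algebraMap L (Om k) b) (M j))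
    (hn : r + EFC.genus k L ≤ n)
    (v : Fin n → Place k (Om k))
    (P : Fin n → (Ec (algebraMap L (Om k) a) (algebraMap L (Om k) b)).Point) :
    ∑ π : Equiv.Perm (Fin n), ((Equiv.Perm.sign π : ℤˣ) : ℤ) •
      Extm (fun j => (h j).hom) (fun j => hV (h j).hom (h j).ok (v (π j)) (P (π j))) = 0 := by
  have hX : ∀ j, Hom (X j) := fun j => (h j).hom
  have hM : ∀ j, (M j).Ok (algebraMap L (Om k) a) (algebraMap L (Om k) b) (X j) :=
    fun j => (h j).ok
  let j₀ : Fin n := ⟨0, by have := hb.pos; omega⟩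
  obtain ⟨W, hWM, hW⟩ := exists_isProd hM (hM j₀).disc hX
  have hfix := fix_coef (h j₀)
  obtain ⟨d, θ, hd, hdα, hdB, hdh, hmp⟩ := exists_gd hW
  -- the number of the conjugates
  set N : ℕ := (d.rts (algebraMap L (Om k))).card with hN
  have hθ : θ ∈ d.rts (algebraMap L (Om k)) := by
    have hint : IsIntegral L θ := Algebra.IsIntegral.isIntegral θ
    rw [GD.rts, Multiset.mem_toFinset, hdh, Polynomial.mem_roots
      ((minpoly.monic hint).map _).ne_zero, Polynomial.IsRoot, Polynomial.eval_map]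
    exact minpoly.aeval L θ
  have hN0 : (N : ℚ) ≠ 0 := by
    rw [Nat.cast_ne_zero, hN, Finset.card_ne_zero]
    exact ⟨θ, hθ⟩
  have ea : algebraMap L (Om k) a = algebraMap L (Om k) d.α := by rw [hdα]
  have eb : algebraMap L (Om k) b = algebraMap L (Om k) d.B := by rw [hdB]
  -- the images of the classes
  have key : ∀ (v : Place k (Om k)) P (j : Fin n),
      prU hX j (Mix_cl (hom_sEq hX) hd v (castE ea eb P)) =
        N • hV (hX j) (hM j) v P := by
    intro v P j
    have h1 : ∀ t : {t // t ∈ d.rts (algebraMap L (Om k))},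
        prU hX j (hV (hom_sEq hX)
          (hd.mp_ok (IsScalarTower.toAlgHom k L (Om k)) t.2) v (castE ea eb P)) =
          hV (hX j) (hM j) v P := by
      intro t
      obtain ⟨τ, hτ⟩ := mp_conj hdh hmp t.2
      have hok : (W.map (τ : Om k →+* Om k)).Ok (algebraMap L (Om k) a)
          (algebraMap L (Om k) b) (sEq X) :=
        ok_conj (τ.restrictScalars k) (hfix τ).1 (hfix τ).2 rfl hW
      have h2 := hV_cast (hom_sEq hX) hok
        (hd.mp_ok (IsScalarTower.toAlgHom k L (Om k)) t.2) ea eb hτ.symm v P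
      refine (congrArg (prU hX j) h2.symm).trans ?_
      rw [prU_hV hX (fun j => ok_map (h j) τ) hok (IsProd_conj hWM τ (hfix τ).1 (hfix τ).2),
        hV_map (h j) τ v P]
    unfold Mix_cl
    rw [map_sum, Finset.sum_congr rfl fun t _ => h1 t, Finset.sum_const, Finset.card_univ,
      Fintype.card_coe]
  have h3 := Mix_main (hom_sEq hX) hd hb hn hdα hdB v fun i => castE ea eb (P i)
  have h4 := congrArg (prN hX) h3
  rw [Alt_apply, map_sum, map_zero] at h4
  have h5 : ∀ π : Equiv.Perm (Fin n), prN hX (((Equiv.Perm.sign π : ℤˣ) : ℤ) •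
      Ext (hom_sEq hX) n fun j => Mix_cl (hom_sEq hX) hd (v (π j)) (castE ea eb (P (π j)))) =
      ((N : ℚ) ^ n) • (((Equiv.Perm.sign π : ℤˣ) : ℤ) •
        Extm hX (fun j => hV (hX j) (hM j) (v (π j)) (P (π j)))) := by
    intro π
    rw [map_zsmul, prN_Ext, smul_comm]
    congr 1
    have h6 : (fun j => prU hX j (Mix_cl (hom_sEq hX) hd (v (π j)) (castE ea eb (P (π j))))) =
        fun j => (N : ℚ) • hV (hX j) (hM j) (v (π j)) (P (π j)) := by
      funext j
      rw [key, Nat.cast_smul_eq_nsmul]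
    rw [h6, MultilinearMap.map_smul_univ, Finset.prod_const, Finset.card_univ, Fintype.card_fin]
  rw [Finset.sum_congr rfl fun π _ => h5 π, ← Finset.smul_sum] at h4
  exact (smul_eq_zero.1 h4).resolve_left (pow_ne_zero _ hN0)

end Pool.Agent.QTC
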