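import Pool.Agent.QTC.ConjL

/-!
# A good point of the elliptic curve

All conjugates of the image of the point are images of points outside a given finite set.
-/

set_option autoImplicit false

noncomputable section

namespace Pool.Agent.QTC

open Pool.Agent.ZCyc Pool.Agent.Dess Pool.Agent.GT Pool.Agent.KAll Polynomial
open Pool.Agent.VFP (Om tt)
open scoped Classical LinearAlgebra.Projectivization

variable {k L : Type} [Field k] [Field L] [Algebra k L] [Algebra L (Om k)]
  [IsScalarTower k L (Om k)] [Algebra.IsAlgebraic L (Om k)] {m : ℕ}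
  {X : Set (MvPolynomial (Fin (m + 1)) k)} {α B : Om k} {M : Mp (Om k) m}

omit [Algebra k L] [IsScalarTower k L (Om k)] in
/-- finitely many translations are sufficient -/
private theorem exists_Aset (h : FibL L X α B M) : ∃ T : Set (Ec α B).Point, T.Finite ∧
    ∀ τ : Om k ≃ₐ[L] Om k, ∃ A ∈ T, ∀ (x y x' y' : Om k)
      (h : (GT.Ec α B).Nonsingular (τ x) (τ y)) (h' : (GT.Ec α B).Nonsingular x' y'),
      WeierstrassCurve.Affine.Point.some (τ x) (τ y) h + A = .some x' y' h' → M.co x' y' ≠ 0 →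
        ∃ c : Om k, ∀ i, τ (M.co x y i) = c * M.co x' y' i := by
  set S : Finset (Om k) := (Finset.univ.biUnion fun i => (M.G i).coeffs) ∪
    (Finset.univ.biUnion fun i => (M.H i).coeffs) with hS
  set F := IntermediateField.adjoin L (S : Set (Om k)) with hF
  have hfd : FiniteDimensional L F :=
    IntermediateField.finiteDimensional_adjoin fun x _ => Algebra.IsIntegral.isIntegral x
  have hcl : IsAlgClosure L (Om k) := ⟨inferInstance, inferInstance⟩
  have hnorm : Normal L (Om k) := inferInstance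
  have hext : ∀ σ : F →ₐ[L] Om k, ∃ τ : Om k ≃ₐ[L] Om k, ∀ f : F, τ f = σ f := fun σ =>
    ⟨AlgEquiv.ofBijective (σ.liftNormal (Om k)) (Algebra.IsAlgebraic.algHom_bijective _),
      fun f => AlgHom.liftNormal_commutes σ (Om k) f⟩
  choose t ht using hext
  choose A hA using fun σ : F →ₐ[L] Om k => h.conj (t σ)
  refine ⟨Set.range A, Set.finite_range A, fun τ => ?_⟩
  set σ : F →ₐ[L] Om k := (τ : Om k →ₐ[L] Om k).comp F.val with hσ
  refine ⟨A σ, ⟨σ, rfl⟩, fun x y x' y' hn hn' he hne => ?_⟩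
  -- the two automorphisms agree on the coefficients
  have hpol : ∀ q : (Om k)[X], (∀ c ∈ q.coeffs, c ∈ S) →
      q.map (τ : Om k →+* Om k) = q.map ((t σ : Om k ≃ₐ[L] Om k) : Om k →+* Om k) := by
    intro q hq
    ext n
    rw [coeff_map, coeff_map]
    by_cases hn : q.coeff n = 0
    · rw [hn, map_zero, map_zero]
    · have h1 : q.coeff n ∈ F :=
        IntermediateField.subset_adjoin L _ (hq _ (coeff_mem_coeffs hn))
      exact (ht σ ⟨q.coeff n, h1⟩).symm
  have hmap : M.map (τ : Om k →+* Om k) =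
      M.map ((t σ : Om k ≃ₐ[L] Om k) : Om k →+* Om k) := by
    have h1 : ∀ i, (M.G i).map (τ : Om k →+* Om k) =
        (M.G i).map ((t σ : Om k ≃ₐ[L] Om k) : Om k →+* Om k) := fun i =>
      hpol _ fun c hc => Finset.mem_union_left _
        (Finset.mem_biUnion.2 ⟨i, Finset.mem_univ i, hc⟩)
    have h2 : ∀ i, (M.H i).map (τ : Om k →+* Om k) =
        (M.H i).map ((t σ : Om k ≃ₐ[L] Om k) : Om k →+* Om k) := fun i =>
      hpol _ fun c hc => Finset.mem_union_right _
        (Finset.mem_biUnion.2 ⟨i, Finset.mem_univ i, hc⟩)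
    unfold Mp.map
    rw [funext h1, funext h2]
  obtain ⟨x₁, hx₁⟩ := (t σ).surjective (τ x)
  obtain ⟨y₁, hy₁⟩ := (t σ).surjective (τ y)
  have hn₁ : (GT.Ec α B).Nonsingular (t σ x₁) (t σ y₁) := by rwa [hx₁, hy₁]
  have he₁ : WeierstrassCurve.Affine.Point.some (t σ x₁) (t σ y₁) hn₁ + A σ =
      .some x' y' hn' := by
    rw [← he]
    congr 1
    simp only [hx₁, hy₁]
  obtain ⟨c, hc⟩ := hA σ x₁ y₁ x' y' hn₁ hn' he₁ hne
  refine ⟨c, fun i => ?_⟩
  rw [← hc, ← map_co, ← map_co, hmap, hx₁, hy₁]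

omit [Algebra k L] [IsScalarTower k L (Om k)] in
variable [CharZero k] in
/-- **A good point.** -/
theorem exists_good (h : FibL L X α B M) {bad : Set (Ec α B).Point} (hbad : bad.Finite) :
    ∃ (x₀ y₀ : Om k) (_ : (Ec α B).Nonsingular x₀ y₀), M.co x₀ y₀ ≠ 0 ∧
      ∀ τ : Om k ≃ₐ[L] Om k, ∃ (x' y' : Om k) (h' : (Ec α B).Nonsingular x' y'),
        .some x' y' h' ∉ bad ∧ M.co x' y' ≠ 0 ∧
          ∃ c : Om k, ∀ i, τ (M.co x₀ y₀ i) = c * M.co x' y' i := by
  obtain ⟨T, hT, hTA⟩ := exists_Aset h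
  set bad' : Set (Ec α B).Point := bad ∪ {Q | ¬ M.Ns Q} with hbad'
  have hfin' : bad'.Finite := hbad.union (finite_bad h.ok.ne)
  -- the conjugates of a point
  have hcj : ∀ R : (Ec α B).Point, {P : (Ec α B).Point | ∃ (τ : Om k ≃ₐ[L] Om k) (x y : Om k)
      (h : (Ec α B).Nonsingular x y) (h' : (Ec α B).Nonsingular (τ x) (τ y)),
        P = .some x y h ∧ .some (τ x) (τ y) h' = R}.Finite := by
    intro R
    rcases R with _ | ⟨u, w, huw⟩
    · convert Set.finite_empty
      ext P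
      simp only [Set.mem_ofPred_eq, Set.mem_empty_iff_false, iff_false]
      rintro ⟨τ, x, y, h, h', -, h2⟩
      exact absurd h2 (by simp)
    · have hroot : ∀ (τ : Om k ≃ₐ[L] Om k) (x : Om k), x ∈ (minpoly L (τ x)).rootSet (Om k) := by
        intro τ x
        rw [Polynomial.mem_rootSet]
        refine ⟨minpoly.ne_zero (Algebra.IsIntegral.isIntegral _), ?_⟩
        rw [minpoly.algEquiv_eq τ x]
        exact minpoly.aeval L x
      let f : Om k × Om k → (Ec α B).Point := fun p =>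
        if h : (Ec α B).Nonsingular p.1 p.2 then .some p.1 p.2 h else 0
      refine ((((minpoly L u).rootSet_finite (Om k)).prod
        ((minpoly L w).rootSet_finite (Om k))).image f).subset ?_
      rintro P ⟨τ, x, y, h, h', rfl, h2⟩
      rw [WeierstrassCurve.Affine.Point.some.injEq] at h2
      obtain ⟨rfl, rfl⟩ := h2
      exact ⟨(x, y), ⟨hroot τ x, hroot τ y⟩, dif_pos h⟩
  have hinf := infinite_points (α := α) (B := B) h.ok.disc
  have hfinT : (⋃ A ∈ T, ⋃ Q ∈ bad', {P : (Ec α B).Point | ∃ (τ : Om k ≃ₐ[L] Om k) (x y : Om k)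
      (h : (Ec α B).Nonsingular x y) (h' : (Ec α B).Nonsingular (τ x) (τ y)),
        P = .some x y h ∧ .some (τ x) (τ y) h' = Q - A}).Finite :=
    hT.biUnion fun A _ => hfin'.biUnion fun Q _ => hcj (Q - A)
  obtain ⟨P, hP⟩ := (hfinT.union (finite_bad (α := α) (B := B) h.ok.ne)).exists_notMem
  rw [Set.mem_union, not_or] at hP
  obtain ⟨hP1, hP2⟩ := hP
  have hP3 : M.Ns P := by
    by_contra hc
    exact hP2 hc
  rcases P with _ | ⟨x₀, y₀, h₀⟩
  · exact hP3.elim
  refine ⟨x₀, y₀, h₀, hP3, fun τ => ?_⟩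
  obtain ⟨A, hAT, hA⟩ := hTA τ
  have hns : (Ec α B).Nonsingular (τ x₀) (τ y₀) := by
    have h1 := eqn_iff.1 h₀.1
    refine nonsing h.ok.disc ?_
    have h2 := congrArg τ h1
    rw [map_pow, map_add, map_sub, map_pow, map_mul, map_mul, map_ofNat, (fix_coef h τ).1,
      (fix_coef h τ).2] at h2
    exact h2
  have hQ : ((.some (τ x₀) (τ y₀) hns : (Ec α B).Point) + A) ∉ bad' := by
    intro hQ
    apply hP1
    refine Set.mem_iUnion₂.2 ⟨A, hAT, Set.mem_iUnion₂.2 ⟨_, hQ, τ, x₀, y₀, h₀, hns, rfl, ?_⟩⟩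
    rw [add_sub_cancel_right]
  obtain ⟨x', y', h', e⟩ : ∃ x' y' h', (.some (τ x₀) (τ y₀) hns : (Ec α B).Point) + A =
      .some x' y' h' := by
    revert hQ
    generalize (.some (τ x₀) (τ y₀) hns : (Ec α B).Point) + A = R
    intro hQ
    cases R with
    | zero => exact absurd (Or.inr fun hc => hc.elim) hQ
    | some x y h => exact ⟨x, y, h, rfl⟩
  rw [e] at hQ
  have hne : M.co x' y' ≠ 0 := by
    by_contra hc
    exact hQ (Or.inr fun h2 => h2 hc)
  exact ⟨x', y', h', fun hb => hQ (Or.inl hb), hne, hA x₀ y₀ x' y' hns h' e hne⟩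

end Pool.Agent.QTC
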