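import Pool.Agent.QTC.MSec
import Pool.Agent.QTC.GoodP

/-!
# Multisections of fibrations in curves of genus one
-/

set_option autoImplicit false

noncomputable section

namespace Pool.Agent.QTC

open Pool.Agent.ZCyc Pool.Agent.Dess Pool.Agent.GT Pool.Agent.KAll
open Pool.Agent.VFP (Om tt)
open scoped Classical LinearAlgebra.Projectivization

variable {k L : Type} [Field k] [Field L] [Algebra k L] [Algebra L (Om k)]
  [IsScalarTower k L (Om k)] [Algebra.IsAlgebraic L (Om k)] [IsAlgClosed k] [CharZero k] {N : ℕ}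
  {X : Set (MvPolynomial (Fin (N + 1)) k)} {α B : Om k} {M : Mp (Om k) N}

/-- **Multisections.** There is a multisection such that the points over the generic point of the
curve are images of points of the elliptic curve outside a given finite set. -/
theorem exists_sec (hL : IsCurve k L) (h : FibL L X α B M) {bad : Set (Ec α B).Point}
    (hbad : bad.Finite) : ∃ (m : ℕ) (S : MSec L h.hom m), 0 < m ∧ ∀ i,
      ∃ (x y : Om k) (hxy : (Ec α B).Nonsingular x y), .some x y hxy ∉ bad ∧ M.co x y ≠ 0 ∧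
        ∃ c : Om k, ∀ j, (S.R i (Sum.inl (IsScalarTower.toAlgHom k L (Om k)))).1.rep j =
          c * M.co x y j := by
  obtain ⟨x₀, y₀, h₀, hne, hgood⟩ := exists_good h hbad
  obtain ⟨m, S, hm, hS⟩ := exists_msec hL h.hom
    (mkPt h.hom (M.co x₀ y₀) hne fun f hf => h.ok.onX f hf x₀ y₀ (eqn_iff.1 h₀.1))
  refine ⟨m, S, hm, fun i => ?_⟩
  obtain ⟨τ, hτ⟩ := hS i
  obtain ⟨x', y', h', hb, hne', c, hc⟩ := hgood τ
  refine ⟨x', y', h', hb, hne', ?_⟩
  rw [hτ]
  obtain ⟨d, hd⟩ := Projectivization.exists_smul_eq_mk_rep (Om k) (M.co x₀ y₀) hne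
  have hne2 : (fun j => τ (d * M.co x₀ y₀ j)) ≠ 0 := by
    intro h0
    apply hne
    funext j
    have h1 := congrFun h0 j
    have h2 : (d : Om k) * M.co x₀ y₀ j = 0 := (map_eq_zero τ).1 h1
    exact (mul_eq_zero.1 h2).resolve_left d.ne_zero
  obtain ⟨e, he⟩ := Projectivization.exists_smul_eq_mk_rep (Om k)
    (fun j => τ (d * M.co x₀ y₀ j)) hne2
  refine ⟨e * (τ d * c), fun j => ?_⟩
  have h3 : (gm h.hom (τ.restrictScalars k) (mkPt h.hom (M.co x₀ y₀) hne fun f hf =>
      h.ok.onX f hf x₀ y₀ (eqn_iff.1 h₀.1))).1 =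
      Projectivization.mk (Om k) (fun j => τ (d * M.co x₀ y₀ j)) hne2 := by
    refine (Projectivization.mk_eq_mk_iff' _ _ _ _ _).2 ⟨1, ?_⟩
    funext j
    rw [one_smul]
    have h4 := congrFun hd j
    change _ = τ ((Projectivization.mk (Om k) (M.co x₀ y₀) hne).rep j)
    rw [← h4]
    rfl
  rw [h3, ← he]
  change (e : Om k) * τ (d * M.co x₀ y₀ j) = _
  rw [map_mul, hc j]
  ring

end Pool.Agent.QTC
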