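import Pool.Agent.QTC.Defs
import Pool.Agent.QTC.SecL
import Pool.Agent.QTC.MixC

/-!
# The fibrations of the surfaces of the class `TS`
-/

set_option autoImplicit false

noncomputable section

namespace Pool.Agent.QTC

open Pool.Agent.ZCyc
open Pool.Agent.VFP (Om tt)
open Pool.Agent.EFC (IsCurve deg genus)
open Pool.Agent.WFC
open scoped Classical

variable {k : Type} [Field k]

/-- the first coefficient -/
abbrev EL.A (E : EL k) : Om k := algebraMap E.L (Om k) E.a

/-- the second coefficient -/
abbrev EL.B (E : EL k) : Om k := algebraMap E.L (Om k) E.b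

/-- the degree of the divisor `D` -/
def EL.r (E : EL k) : ℕ := (deg E.D).toNat

theorem EL.r_eq (E : EL k) : deg E.D = E.r := (Int.toNat_of_nonneg E.weier.pos.le).symm

theorem EL.baseL (E : EL k) : BaseL E.a E.b E.D E.r where
  curve := E.curve
  disc := E.weier.disc
  pos := by
    have h := E.weier.pos
    rw [E.r_eq] at h
    exact_mod_cast h
  deg := E.r_eq
  regA := E.weier.regA
  regB := E.weier.regB
  minimal := E.weier.minimal

/-- the map `φ` of a surface -/
def TS.M (W : TS k) : GT.Mp (Om k) W.m := ⟨W.G, W.H⟩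

theorem TS.hom (W : TS k) : GT.Hom W.X := W.fibration.hom

theorem TS.fib (W : TS k) : FibL W.E.L W.X W.E.A W.E.B W.M where
  hom := W.hom
  ok :=
  { disc := fun h => W.E.weier.disc (by
      apply (algebraMap W.E.L (Om k)).injective
      rw [map_pow, map_mul, map_pow, map_ofNat]
      exact h)
    ne := W.fibration.ne
    onX := fun f hf x y h => W.fibration.onX f hf x y (GT.eqn_iff.2 h) }
  dom := fun f d hf h => W.fibration.dom f d hf fun x y hxy => h x y (GT.eqn_iff.1 hxy)
  coef := ⟨W.E.a, W.E.b, rfl, rfl⟩
  conj := W.fibration.conj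

variable [IsAlgClosed k] [CharZero k]

instance EL.algebraic (E : EL k) : Algebra.IsAlgebraic E.L (Om k) := by
  have h := alg_range E.curve (IsScalarTower.toAlgHom k E.L (Om k))
  constructor
  intro x
  obtain ⟨p, hp, hp0⟩ := h.isAlgebraic x
  let e : E.L ≃ₐ[k] (IsScalarTower.toAlgHom k E.L (Om k)).fieldRange :=
    AlgEquiv.ofInjectiveField _
  let f : (IsScalarTower.toAlgHom k E.L (Om k)).fieldRange →+* E.L :=
    (e.symm : _ →ₐ[k] E.L).toRingHom
  refine ⟨p.map f, ?_, ?_⟩
  · rwa [Ne, Polynomial.map_eq_zero_iff f.injective]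
  · rw [← hp0, Polynomial.aeval_def, Polynomial.eval₂_map, Polynomial.aeval_def]
    congr 1
    ext y
    exact congrArg Subtype.val (e.apply_symm_apply y)

instance EL.charZero (E : EL k) : CharZero E.L :=
  charZero_of_injective_algebraMap (algebraMap k E.L).injective

end Pool.Agent.QTC
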