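import Pool.Agent.QTC.Stmt
import Pool.Agent.QTC.Fib
import Pool.Agent.WFC.FFil
import Pool.Agent.KEx.Defs

/-!
# The classes of points on the products

`ratEq_eq` compares the group `ratEq` of `Pool.Agent.QTC.Defs` with the same definition by means of
the definitions of `Pool.Agent.WFC.Defs` and `Pool.Agent.GT.Defs`.
-/

set_option autoImplicit false

noncomputable section

namespace Pool.Agent.QTC

open Pool.Agent.ZCyc
open Pool.Agent.VFP (Om tt)
open Pool.Agent.WFC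
open scoped Classical

variable {k : Type} [Field k] {m m' l l' : ℕ}

/-- The point `(P, Q)` over `Om k` specialises to the point `p` at the place `v`. -/
def IsValM {Z : Fin l → TS k} (v : Place k (Om k)) (P : Fin m → PtO k) (Q : ∀ j, (Z j).PtO)
    (p : PtM m Z) : Prop :=
  (∀ i, IsVal v (P i) (p.1 i)) ∧ ∀ j, GT.IsVal v (Q j) (p.2 j)

/-- `z` is given by a family of effective zero-cycles over the line. -/
def IsFamO (X : Fin m → WC k) (Z : Fin l → TS k) (z : PtM m Z →₀ ℚ) : Prop :=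
  ∃ (n : ℕ) (P : Fin n → Fin m → PtO k) (Q : Fin n → ∀ j, (Z j).PtO)
    (c c' : k) (v v' : Place k (Om k)) (p p' : Fin n → PtM m Z),
    (∀ a, OnPO X (P a)) ∧
    (∀ g : Om k ≃ₐ[RatFunc k] Om k, ∃ e : Equiv.Perm (Fin n), ∀ a,
      (∀ i, P (e a) i = (P a i).map (g.restrictScalars k)) ∧ ∀ j, IsConj g (Q a j) (Q (e a) j)) ∧
    v.Vanishes (tt k - algebraMap k (Om k) c) ∧ v'.Vanishes (tt k - algebraMap k (Om k) c') ∧
    (∀ a, OnP X (p a).1 ∧ IsValM v (P a) (Q a) (p a)) ∧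
    (∀ a, OnP X (p' a).1 ∧ IsValM v' (P a) (Q a) (p' a)) ∧
    z = ∑ a, (Finsupp.single (p a) 1 - Finsupp.single (p' a) 1)

/-- `z` is the difference of two conjugate points. -/
def IsActO (X : Fin m → WC k) (Z : Fin l → TS k) (z : PtM m Z →₀ ℚ) : Prop :=
  ∃ p p' : PtM m Z, OnP X p.1 ∧
    (∀ i, ∃ g : El (p.1 i).1.G, p'.1 i = ⟨(p.1 i).1, (p.1 i).2.act g⟩) ∧ p'.2 = p.2 ∧
    z = Finsupp.single p 1 - Finsupp.single p' 1

theorem onO_iff {X : WC k} {P : CrdO X} : OnO P ↔ P.On := Iff.rfl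

theorem isSp_iff {Z : TS k} {v : Place k (Om k)} {Q : Z.PtO} {z : Z.Pt} :
    IsSp v Q z ↔ GT.IsVal v Q z := Iff.rfl

theorem spW_iff {X : WC k} {v : Place k (Om k)} {P : CrdO X} {p : Crd X} :
    SpW v P p ↔ X.IsValue v P p := Iff.rfl

theorem isVal_mk {X : WC k} {v : Place k (Om k)} {P : CrdO X} {p : Crd X} :
    IsVal v ⟨X, P⟩ ⟨X, p⟩ ↔ SpW v P p := by
  constructor
  · rintro ⟨X', P', p', h1, h2, h3⟩
    obtain ⟨rfl, h1⟩ := Sigma.mk.inj_iff.1 h1
    obtain ⟨-, h2⟩ := Sigma.mk.inj_iff.1 h2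
    rw [eq_of_heq h1, eq_of_heq h2]
    exact h3
  · intro h
    exact ⟨X, P, p, rfl, rfl, h⟩

theorem cjW_iff {X : WC k} {g : Gal k} {P P' : CrdO X} :
    CjW g P P' ↔ (⟨X, P'⟩ : PtO k) = PtO.map (g.restrictScalars k) ⟨X, P⟩ := by
  have h : PtO.map (g.restrictScalars k) ⟨X, P⟩ = ⟨X, P.map (g.restrictScalars k)⟩ := rfl
  rw [h, Sigma.mk.inj_iff]
  constructor
  · rintro ⟨h1, h2, h3, h4⟩
    refine ⟨rfl, heq_of_eq (CrdO.ext h1 (funext h2) (funext h3) (funext h4))⟩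
  · rintro ⟨-, h1⟩
    have h2 := eq_of_heq h1
    subst h2
    exact ⟨rfl, fun _ => rfl, fun _ => rfl, fun _ => rfl⟩

theorem exists_crdO {X : Fin m → WC k} {P : Fin m → PtO k} (h : OnPO X P) :
    ∃ P' : ∀ i, CrdO (X i), (∀ i, OnO (P' i)) ∧ P = fun i => ⟨X i, P' i⟩ := by
  have h1 : ∀ i, ∃ w : CrdO (X i), OnO w ∧ P i = ⟨X i, w⟩ := by
    intro i
    obtain ⟨h2, h3⟩ := h i
    revert h2 h3
    generalize P i = R
    intro h2 h3
    obtain ⟨Y, w⟩ := R
    simp only at h2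
    subst h2
    exact ⟨w, h3, rfl⟩
  choose P' h2 h3 using h1
  exact ⟨P', h2, funext h3⟩

theorem exists_crd {X : Fin m → WC k} {p : Pts m k} (h : OnP X p) :
    ∃ p' : ∀ i, Crd (X i), (∀ i, (p' i).On) ∧ p = fun i => ⟨X i, p' i⟩ := by
  have h1 : ∀ i, ∃ w : Crd (X i), w.On ∧ p i = ⟨X i, w⟩ := by
    intro i
    obtain ⟨h2, h3⟩ := h i
    revert h2 h3
    generalize p i = R
    intro h2 h3
    obtain ⟨Y, w⟩ := R
    simp only at h2
    subst h2
    exact ⟨w, h3, rfl⟩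
  choose p' h2 h3 using h1
  exact ⟨p', h2, funext h3⟩

variable {X : Fin m → WC k} {Z : Fin l → TS k}

theorem isFam_iff {z : PtM m Z →₀ ℚ} : IsFam X Z z ↔ IsFamO X Z z := by
  constructor
  · rintro ⟨n, P, Q, c, c', v, v', p, p', q, q', h1, h2, h3, h4, h5, h6, rfl⟩
    refine ⟨n, fun a i => ⟨X i, P a i⟩, Q, c, c', v, v', fun a => mkP (p a) (q a),
      fun a => mkP (p' a) (q' a), fun a i => ⟨rfl, h1 a i⟩, fun g => ?_, h3, h4,
      fun a => ⟨fun i => ⟨rfl, ((h5 a).1 i).1⟩, fun i => isVal_mk.2 ((h5 a).1 i).2, (h5 a).2⟩,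
      fun a => ⟨fun i => ⟨rfl, ((h6 a).1 i).1⟩, fun i => isVal_mk.2 ((h6 a).1 i).2, (h6 a).2⟩, rfl⟩
    obtain ⟨e, he⟩ := h2 g
    exact ⟨e, fun a => ⟨fun i => cjW_iff.1 ((he a).1 i), (he a).2⟩⟩
  · rintro ⟨n, P, Q, c, c', v, v', p, p', h1, h2, h3, h4, h5, h6, rfl⟩
    choose P' hP' hP using fun a => exists_crdO (h1 a)
    choose r hr hr' using fun a => exists_crd (h5 a).1
    choose r' hs hs' using fun a => exists_crd (h6 a).1
    have e1 : ∀ a, p a = mkP (r a) (p a).2 := fun a => Prod.ext (hr' a) rfl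
    have e2 : ∀ a, p' a = mkP (r' a) (p' a).2 := fun a => Prod.ext (hs' a) rfl
    refine ⟨n, P', Q, c, c', v, v', r, r', fun a => (p a).2, fun a => (p' a).2, hP', fun g => ?_,
      h3, h4, fun a => ⟨fun i => ⟨hr a i, ?_⟩, (h5 a).2.2⟩,
      fun a => ⟨fun i => ⟨hs a i, ?_⟩, (h6 a).2.2⟩, ?_⟩
    · obtain ⟨e, he⟩ := h2 g
      refine ⟨e, fun a => ⟨fun i => cjW_iff.2 ?_, (he a).2⟩⟩
      have h7 := (he a).1 i
      rw [hP (e a), hP a] at h7
      exact h7
    · have h7 := (h5 a).2.1 i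
      rw [hP a, hr' a] at h7
      exact isVal_mk.1 h7
    · have h7 := (h6 a).2.1 i
      rw [hP a, hs' a] at h7
      exact isVal_mk.1 h7
    · refine Finset.sum_congr rfl fun a _ => ?_
      change _ = dif (mkP (r a) (p a).2) (mkP (r' a) (p' a).2)
      rw [← e1, ← e2]

theorem isAct_iff {z : PtM m Z →₀ ℚ} : IsAct X Z z ↔ IsActO X Z z := by
  constructor
  · rintro ⟨p, g, q, h1, rfl⟩
    exact ⟨mkP p q, mkP (fun i => (p i).act (g i)) q, fun i => ⟨rfl, h1 i⟩,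
      fun i => ⟨g i, rfl⟩, rfl, rfl⟩
  · rintro ⟨p, p', h1, h2, h3, rfl⟩
    obtain ⟨r, hr, hr'⟩ := exists_crd h1
    obtain ⟨x, q⟩ := p
    obtain ⟨x', q'⟩ := p'
    simp only at hr' h2 h3
    subst hr'
    choose g hg using h2
    have e : x' = fun i => ⟨X i, (r i).act (g i)⟩ := funext hg
    subst e
    refine ⟨r, g, q, hr, ?_⟩
    rw [h3]

/-- the definition of rational equivalence by means of the definitions for the two classes -/
theorem ratEq_eq : ratEq X Z =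
    Submodule.span ℚ {z | ∃ (n : ℕ) (P : Fin n → Fin m → PtO k) (Q : Fin n → ∀ j, (Z j).PtO)
      (c c' : k) (v v' : Place k (Om k)) (p p' : Fin n → PtM m Z),
      (∀ a, OnPO X (P a)) ∧
      (∀ g : Om k ≃ₐ[RatFunc k] Om k, ∃ e : Equiv.Perm (Fin n), ∀ a,
        (∀ i, P (e a) i = (P a i).map (g.restrictScalars k)) ∧
          ∀ j, IsConj g (Q a j) (Q (e a) j)) ∧
      v.Vanishes (tt k - algebraMap k (Om k) c) ∧ v'.Vanishes (tt k - algebraMap k (Om k) c') ∧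
      (∀ a, OnP X (p a).1 ∧ IsValM v (P a) (Q a) (p a)) ∧
      (∀ a, OnP X (p' a).1 ∧ IsValM v' (P a) (Q a) (p' a)) ∧
      z = ∑ a, (Finsupp.single (p a) 1 - Finsupp.single (p' a) 1)} ⊔
    Submodule.span ℚ {z | ∃ p p' : PtM m Z, OnP X p.1 ∧
      (∀ i, ∃ g : El (p.1 i).1.G, p'.1 i = ⟨(p.1 i).1, (p.1 i).2.act g⟩) ∧ p'.2 = p.2 ∧
      z = Finsupp.single p 1 - Finsupp.single p' 1} := by
  rw [← Submodule.span_union]
  unfold ratEq
  congr 1
  ext z
  exact or_congr isFam_iff isAct_iff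

theorem mem_fam {z : PtM m Z →₀ ℚ} (h : IsFamO X Z z) : z ∈ ratEq X Z :=
  Submodule.subset_span (Or.inl (isFam_iff.2 h))

theorem mem_act {z : PtM m Z →₀ ℚ} (h : IsActO X Z z) : z ∈ ratEq X Z :=
  Submodule.subset_span (Or.inr (isAct_iff.2 h))

theorem ratEq_le {S : Submodule ℚ (PtM m Z →₀ ℚ)} (h1 : ∀ z, IsFamO X Z z → z ∈ S)
    (h2 : ∀ z, IsActO X Z z → z ∈ S) : ratEq X Z ≤ S := by
  refine Submodule.span_le.2 ?_
  rintro z (h | h)
  · exact h1 z (isFam_iff.1 h)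
  · exact h2 z (isAct_iff.1 h)

/-- zero-cycles on the product modulo rational equivalence -/
abbrev V (X : Fin m → WC k) (Z : Fin l → TS k) : Type 1 := (PtM m Z →₀ ℚ) ⧸ ratEq X Z

/-- the class of a point -/
def cl (X : Fin m → WC k) (Z : Fin l → TS k) (p : PtM m Z) : V X Z :=
  Submodule.Quotient.mk (Finsupp.single p 1)

/-- the empty family of varieties of the class `WC` -/
abbrev e0 (k : Type) [Field k] : Fin 0 → WC k := Fin.elim0

/-- the point of the empty product -/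
abbrev p0 (k : Type) [Field k] : Pts 0 k := Fin.elim0

/-- zero-cycles on a product of surfaces modulo rational equivalence -/
abbrev VT (Z : Fin l → TS k) : Type 1 := V (e0 k) Z

/-- the class of a point on a product of surfaces -/
def clT (Z : Fin l → TS k) (z : ∀ j, (Z j).Pt) : VT Z := cl (e0 k) Z (p0 k, z)

/-- zero-cycles on a surface modulo rational equivalence -/
abbrev V1 (W : TS k) : Type 1 := VT (fun _ : Fin 1 => W)

/-- the class of a point on a surface -/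
def clS (W : TS k) (w : W.Pt) : V1 W := clT (fun _ : Fin 1 => W) fun _ => w

/-- the class of a zero-cycle on a surface -/
def mkS (W : TS k) : (W.Pt →₀ ℚ) →ₗ[ℚ] V1 W := Finsupp.linearCombination ℚ (clS W)

theorem mkS_eq (W : TS k) (x : W.Pt →₀ ℚ) : mkS W x = Submodule.Quotient.mk
    (x.mapDomain fun z => ((p0 k, fun _ => z) : PtM 0 (fun _ : Fin 1 => W))) := by
  induction x using Finsupp.induction_linear with
  | zero => rw [map_zero, Finsupp.mapDomain_zero, Submodule.Quotient.mk_zero]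
  | add x y hx hy => rw [map_add, hx, hy, Finsupp.mapDomain_add, Submodule.Quotient.mk_add]
  | single z c =>
    rw [mkS, Finsupp.linearCombination_single, Finsupp.mapDomain_single, clS, clT, cl,
      ← Submodule.Quotient.mk_smul, Finsupp.smul_single, smul_eq_mul, mul_one]

theorem TS.co_M (W : TS k) : W.M.co = co W.G W.H := rfl

theorem clT_eq (Z : Fin l → TS k) (p : PtM 0 Z) : cl (e0 k) Z p = clT Z p.2 := by
  have h : p.1 = p0 k := Subsingleton.elim _ _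
  obtain ⟨x, z⟩ := p
  simp only at h
  subst h
  rfl

theorem equivalent_iff {W : TS k} {x y : W.Pt →₀ ℚ} : Equivalent x y ↔ mkS W x = mkS W y := by
  rw [mkS_eq, mkS_eq, Submodule.Quotient.eq, ← Finsupp.mapDomain_sub]
  exact Iff.rfl

theorem EL.eqn_iff (E : EL k) {x y : Om k} :
    E.Ec.Equation x y ↔ y ^ 2 = x ^ 3 - 3 * E.A * x + E.B := GT.eqn_iff

end Pool.Agent.QTC
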