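import Pool.Agent.QTC.Cmb

/-!
# The maps between the classes on a surface and on its base curve
-/

set_option autoImplicit false

noncomputable section

namespace Pool.Agent.QTC

open Pool.Agent.ZCyc Pool.Agent.GT Pool.Agent.WFC
open Pool.Agent.VFP (Om tt)
open Pool.Agent.EFC (BaseValue IsCurve)
open scoped Classical

variable {k : Type} [Field k] [IsAlgClosed k] [CharZero k] {m l : ℕ}

omit [IsAlgClosed k] [CharZero k] in
/-- the exterior product with one factor -/
theorem mulT_one (W : TS k) (x : V1 W) : mulT (fun _ : Fin 1 => W) (fun _ => x) = x := by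
  obtain ⟨z, rfl⟩ := mkS_surj W x
  have h1 : ∀ y : V1 W, (fun _ : Fin 1 => y) = Function.update (fun _ : Fin 1 => (0 : V1 W)) 0 y :=
    fun y => by
      funext j
      rw [Subsingleton.elim j 0, Function.update_self]
  induction z using Finsupp.induction_linear with
  | zero =>
    rw [map_zero]
    exact (mulT fun _ : Fin 1 => W).map_coord_zero 0 rfl
  | add x y hx hy =>
    rw [map_add, h1, MultilinearMap.map_update_add, ← h1, ← h1, hx, hy]
  | single w a =>
    have h2 := mulT_cl (Z := fun _ : Fin 1 => W) fun _ => w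
    rw [mkS_single, h1, MultilinearMap.map_update_smul, ← h1]
    congr 1

/-- **The map from the classes on the base curve** to the classes on the surface which is given by the
multisection. -/
def del (W : TS k) : VC W.E →ₗ[ℚ] V1 W :=
  (cmb (fun _ : Fin 1 => W) ∅).flip (clS W (W.ms.b W.i0 W.E.c0))

theorem del_clC (W : TS k) (c : Place k W.E.L) : del W (clC W.E c) = delP W c := by
  have h1 := cmb_cl (Z := fun _ : Fin 1 => W) ∅ (fun _ => c) fun _ => W.ms.b W.i0 W.E.c0
  have h2 : del W (clC W.E c) = mulT (fun _ : Fin 1 => W) fun _ => delP W c := by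
    refine Eq.trans h1 ?_
    congr 1
  rw [h2, mulT_one]

/-- equivalent points of the base curve have the same image -/
theorem delP_eqv (W : TS k) {c c' : Place k W.E.L} (h : Eqv c c') : delP W c = delP W c' := by
  rw [← del_clC, ← del_clC, clC_eqv h]

/-- every point of a curve over `Om k` has a value -/
theorem exists_base {L : Type} [Field L] [Algebra k L] (hL : IsCurve k L) (v : PlO k)
    (s : (L →ₐ[k] Om k) ⊕ Place k L) : ∃ c, IsBaseVal v s c := by
  rcases s with σ | c
  · obtain ⟨γ, hγ⟩ := TInc.exists_below hL.dess v σ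
    exact ⟨γ, hγ.symm⟩
  · exact ⟨c, rfl⟩

/-- the images in the base curve of rationally equivalent cycles -/
theorem bas_ratEq (W : TS k) : ratEq (e0 k) (fun _ : Fin 1 => W) ≤ LinearMap.ker
    (Finsupp.linearCombination ℚ fun q : PtM 0 (fun _ : Fin 1 => W) =>
      clC W.E (W.bas (q.2 0))) := by
  refine ratEq_le ?_ ?_
  · rintro _ ⟨n, P, Q, c, c', v, v', p, p', hP, hg, hv, hv', hp, hp', rfl⟩
    rw [LinearMap.mem_ker, map_sum]
    choose γ hγ using fun a => exists_base W.E.curve v (W.basO (Q a 0))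
    choose γ' hγ' using fun a => exists_base W.E.curve v' (W.basO (Q a 0))
    have h1 : ∀ a, clC W.E (W.bas ((p a).2 0)) = clC W.E (γ a) := fun a =>
      (clC_eqv (W.base.val v _ _ _ ((hp a).2.2 0) (hγ a))).symm
    have h1' : ∀ a, clC W.E (W.bas ((p' a).2 0)) = clC W.E (γ' a) := fun a =>
      (clC_eqv (W.base.val v' _ _ _ ((hp' a).2.2 0) (hγ' a))).symm
    have h2 : ∑ a, (Finsupp.single (fun _ : Fin 1 => W.E.pt (γ a)) (1 : ℚ) -
        Finsupp.single (fun _ => W.E.pt (γ' a)) 1) ∈ ratEqW (fun _ : Fin 1 => W.E.cur) := by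
      refine Submodule.mem_sup_left (Submodule.subset_span ⟨n, fun a _ => W.E.ptO
        (W.basO (Q a 0)), c, c', v, v', fun a _ => W.E.pt (γ a), fun a _ => W.E.pt (γ' a),
        fun a _ => ⟨rfl, on_ptO _ _⟩, fun g => ?_, hv, hv',
        fun a => ⟨fun _ => ⟨rfl, on_pt _ _⟩, fun _ => isVal_pt.2 (hγ a)⟩,
        fun a => ⟨fun _ => ⟨rfl, on_pt _ _⟩, fun _ => isVal_pt.2 (hγ' a)⟩, rfl⟩)
      obtain ⟨e, he⟩ := hg g
      refine ⟨e, fun a _ => ?_⟩
      change W.E.ptO (W.basO (Q (e a) 0)) = (W.E.ptO (W.basO (Q a 0))).map _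
      rw [ptO_map, W.base.conj g _ _ ((he a).2 0)]
      rfl
    rw [← Submodule.Quotient.mk_eq_zero, ← Submodule.mkQ_apply, map_sum] at h2
    refine Eq.trans (Finset.sum_congr rfl fun a _ => ?_) h2
    rw [map_sub, map_sub, Finsupp.linearCombination_single, Finsupp.linearCombination_single,
      one_smul, one_smul, h1, h1']
    rfl
  · rintro _ ⟨p, p', -, -, h2, rfl⟩
    rw [LinearMap.mem_ker, map_sub, Finsupp.linearCombination_single,
      Finsupp.linearCombination_single, h2, sub_self]

/-- **The push-forward to the base curve.** -/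
def basL (W : TS k) : V1 W →ₗ[ℚ] VC W.E :=
  (ratEq (e0 k) fun _ : Fin 1 => W).liftQ (Finsupp.linearCombination ℚ fun q =>
    clC W.E (W.bas (q.2 0))) (bas_ratEq W)

theorem basL_clS (W : TS k) (w : W.Pt) : basL W (clS W w) = clC W.E (W.bas w) := by
  unfold basL clS clT cl
  rw [Submodule.liftQ_apply, Finsupp.linearCombination_single, one_smul]

theorem basL_mkS (W : TS k) (x : W.Pt →₀ ℚ) : basL W (mkS W x) =
    Finsupp.linearCombination ℚ (fun z => clC W.E (W.bas z)) x := by
  rw [mkS, Finsupp.linearCombination_apply, Finsupp.linearCombination_apply, Finsupp.sum,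
    map_sum, Finsupp.sum]
  exact Finset.sum_congr rfl fun z _ => by rw [map_smul, basL_clS]

theorem basL_delP (W : TS k) (c : Place k W.E.L) : basL W (delP W c) = clC W.E c := by
  rw [← mkS_secC, basL_mkS, lc_secC]

/-- The parts of the class of a point with the labels `0`, `1` and `2`. -/
def eS (W : TS k) (n : Fin 3) (z : W.Pt) : V1 W :=
  if n = 0 then delP W W.E.c0 else if n = 1 then delP W (W.bas z) - delP W W.E.c0 else
    clS W z - delP W (W.bas z)

theorem eS_zero (W : TS k) (z : W.Pt) : eS W 0 z = delP W W.E.c0 := rfl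

theorem eS_one (W : TS k) (z : W.Pt) : eS W 1 z = delP W (W.bas z) - delP W W.E.c0 := rfl

theorem eS_two (W : TS k) (z : W.Pt) : eS W 2 z = clS W z - delP W (W.bas z) := rfl

theorem sum_eS (W : TS k) (z : W.Pt) : ∑ n, eS W n z = clS W z := by
  rw [Fin.sum_univ_three, eS_zero, eS_one, eS_two]
  abel

theorem basL_two (W : TS k) (z : W.Pt) : basL W (eS W 2 z) = 0 := by
  rw [eS_two, map_sub, basL_clS, basL_delP, sub_self]

/-- the class of a point is the sum of its parts -/
theorem clT_eS {Z : Fin l → TS k} (z : ∀ j, (Z j).Pt) :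
    clT Z z = ∑ lam : Fin l → Fin 3, mulT Z fun j => eS (Z j) (lam j) (z j) := by
  have h1 : (fun j => clS (Z j) (z j)) = fun j => ∑ n : Fin 3, eS (Z j) n (z j) :=
    funext fun j => (sum_eS _ _).symm
  rw [← mulT_cl, h1, (mulT Z).map_sum]

end Pool.Agent.QTC
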