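import Pool.Agent.QTC.Core
import Pool.Agent.QTC.Del
import Pool.Agent.WFC.FPush

/-!
# The parts of the value of a component

The class of the value of a component is the sum of the parts `pA f n ζ`, `n < 3`: the class of the
multisection over the base point of the target, the difference of the multisections, and the rest.
-/

set_option autoImplicit false

noncomputable section

namespace Pool.Agent.QTC

open Pool.Agent.ZCyc Pool.Agent.GT Pool.Agent.WFC
open Pool.Agent.VFP (Om tt)
open scoped Classical

variable {k : Type} [Field k] {l l' : ℕ} {Z : Fin l → TS k} {W : Fin l' → TS k}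

/-- transport of points between equal curves -/
def castPl {E E' : EL k} (h : E = E') (c : Place k E.L) : Place k E'.L := h ▸ c

/-- transport of classes between equal curves -/
def castVC {E E' : EL k} (h : E = E') : VC E →ₗ[ℚ] VC E' := h ▸ LinearMap.id

theorem castPl_rfl {E : EL k} (h : E = E) (c : Place k E.L) : castPl h c = c := rfl

theorem pt_castPl {E E' : EL k} (h : E = E') (c : Place k E.L) : E'.pt (castPl h c) = E.pt c := by
  subst h
  rfl

theorem castVC_clC {E E' : EL k} (h : E = E') (c : Place k E.L) :
    castVC h (clC E c) = clC E' (castPl h c) := by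
  subst h
  rfl

theorem castPl_c0 {E E' : EL k} (h : E = E') : castPl h E.c0 = E'.c0 := by
  subst h
  rfl

/-- the image of a point in the base curve of the target of a component -/
def CompT.bp {V : TS k} (f : CompT Z V) (ζ : ∀ j, (Z j).Pt) : Place k V.E.L :=
  match f with
  | .const w => V.bas w
  | .fac i u => castPl u.same ((Z i).bas (ζ i))

theorem CompT.bp_fac {V : TS k} (f : CompT Z V) {i : Fin l} (hs : f.src = some i) :
    ∃ h : (Z i).E = V.E, ∀ ζ, f.bp ζ = castPl h ((Z i).bas (ζ i)) := by
  cases f with
  | const w => simp [CompT.src] at hs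
  | fac i' u =>
    rw [CompT.src, Option.some.injEq] at hs
    subst hs
    exact ⟨u.same, fun ζ => rfl⟩

theorem CompT.bp_const {V : TS k} (f : CompT Z V) (hs : f.src = none) (ζ ζ' : ∀ j, (Z j).Pt) :
    f.bp ζ = f.bp ζ' := by
  cases f with
  | const w => rfl
  | fac i' u => simp [CompT.src] at hs

/-- the morphism between the products of the base curves -/
theorem base_app (f : MorT Z W) (ζ : ∀ j, (Z j).Pt) :
    Mor.app (MorT.base f) (ptsC Z fun i => (Z i).bas (ζ i)) =
      ptsC W fun j => (f j).bp ζ := by
  funext j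
  change (f j).base.app _ = (W j).E.pt ((f j).bp ζ)
  cases f j with
  | const w => rfl
  | fac i u =>
    change ((Z i).E.pt ((Z i).bas (ζ i))).mul _ = (W j).E.pt (castPl u.same _)
    rw [pt_castPl, pt_mul]

variable [IsAlgClosed k] [CharZero k]

/-- the parts of the class of the value of a component -/
def pA {V : TS k} (f : CompT Z V) (n : Fin 3) (ζ : ∀ j, (Z j).Pt) : V1 V :=
  if n = 0 then f.d • delP V V.E.c0 else if n = 1 then f.d • (delP V (f.bp ζ) - delP V V.E.c0) else
    mkS V (f.cyc ζ) - f.d • delP V (f.bp ζ)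

variable {V : TS k}

theorem pA_zero (f : CompT Z V) (ζ : ∀ j, (Z j).Pt) : pA f 0 ζ = f.d • delP V V.E.c0 := rfl

theorem pA_one (f : CompT Z V) (ζ : ∀ j, (Z j).Pt) :
    pA f 1 ζ = f.d • (delP V (f.bp ζ) - delP V V.E.c0) := rfl

theorem pA_two (f : CompT Z V) (ζ : ∀ j, (Z j).Pt) :
    pA f 2 ζ = mkS V (f.cyc ζ) - f.d • delP V (f.bp ζ) := rfl

theorem sum_pA (f : CompT Z V) (ζ : ∀ j, (Z j).Pt) : ∑ n, pA f n ζ = mkS V (f.cyc ζ) := by
  rw [Fin.sum_univ_three, pA_zero, pA_one, pA_two, smul_sub]
  abel

/-- the image in the base curve of the value of a component -/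
theorem basL_cyc (f : CompT Z V) (ζ : ∀ j, (Z j).Pt) :
    basL V (mkS V (f.cyc ζ)) = f.d • clC V.E (f.bp ζ) := by
  cases f with
  | const w =>
    change basL V (mkS V (Finsupp.single w 1)) = (1 : ℚ) • clC V.E (V.bas w)
    rw [mkS_single, one_smul, one_smul, basL_clS]
  | fac i u =>
    change basL V (mkS V (u.u (ζ i))) = u.d • clC V.E (castPl u.same ((Z i).bas (ζ i)))
    rw [← pushS_clS, bas_pushS u (basL_clS (Z i)) (basL_clS V)]
    congr 1
    unfold clC
    rw [pt_castPl]

/-- the parts of the class of the value of a component are combinations of the parts of classes of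
points -/
theorem pA_mem (f : CompT Z V) (n : Fin 3) (ζ : ∀ j, (Z j).Pt) :
    pA f n ζ ∈ Submodule.span ℚ (Set.range (eS V n)) := by
  have hb : ∀ c, delP V (V.bas (V.ms.b V.i0 c)) = delP V c := fun c =>
    (delP_eqv V (V.bas_b V.i0 c)).symm
  fin_cases n
  · exact Submodule.smul_mem _ _ (Submodule.subset_span ⟨V.ms.b V.i0 V.E.c0, rfl⟩)
  · refine Submodule.smul_mem _ _ (Submodule.subset_span ⟨V.ms.b V.i0 (f.bp ζ), ?_⟩)
    change delP V (V.bas _) - _ = _
    rw [hb]
  · change mkS V (f.cyc ζ) - f.d • delP V (f.bp ζ) ∈ _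
    have h1 : f.d • delP V (f.bp ζ) = del V (basL V (mkS V (f.cyc ζ))) := by
      rw [basL_cyc, map_smul, del_clC]
    have h2 : ∀ x : V.Pt →₀ ℚ, mkS V x - del V (basL V (mkS V x)) ∈
        Submodule.span ℚ (Set.range (eS V 2)) := by
      intro x
      induction x using Finsupp.induction_linear with
      | zero =>
        rw [map_zero, map_zero, map_zero, sub_zero]
        exact Submodule.zero_mem _
      | add x y hx hy =>
        rw [map_add, map_add, map_add, add_sub_add_comm]
        exact Submodule.add_mem _ hx hy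
      | single w a =>
        rw [mkS_single, map_smul, map_smul, ← smul_sub, basL_clS, del_clC]
        exact Submodule.smul_mem _ _ (Submodule.subset_span ⟨w, rfl⟩)
    rw [h1]
    exact h2 _

end Pool.Agent.QTC
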