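import Pool.Agent.QTC.Base

/-!
# Supports and degrees
-/

set_option autoImplicit false

noncomputable section

namespace Pool.Agent.QTC

open Pool.Agent.ZCyc
open Pool.Agent.VFP (Om tt)
open Pool.Agent.WFC
open scoped Classical

variable {k : Type} [Field k] {m l : ℕ} {X : Fin m → WC k} {Z : Fin l → TS k}

/-- conjugates of points of the product are points of the product -/
theorem onP_act [IsAlgClosed k] [CharZero k] {p p' : Pts m k} (hp : OnP X p)
    (h : ∀ j, ∃ g : (p j).1.G, p' j = ⟨(p j).1, (p j).2.act g⟩) : OnP X p' := by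
  intro j
  obtain ⟨g, hg⟩ := h j
  rw [hg]
  exact ⟨(hp j).1, on_act (hp j).2 g⟩

/-- The cycles on the product of degree zero. -/
def deg0 (X : Fin m → WC k) (Z : Fin l → TS k) : Submodule ℚ (PtM m Z →₀ ℚ) where
  carrier := {z | (∀ p ∈ z.support, OnP X p.1) ∧ (z.sum fun _ c => c) = 0}
  zero_mem' := by simp
  add_mem' := by
    rintro z z' ⟨h1, h2⟩ ⟨h3, h4⟩
    refine ⟨fun p hp => ?_, ?_⟩
    · rcases Finset.mem_union.1 (Finsupp.support_add hp) with h | h
      · exact h1 p h
      · exact h3 p h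
    · rw [Finsupp.sum_add_index' (fun _ => rfl) (fun _ _ _ => rfl), h2, h4, add_zero]
  smul_mem' := by
    rintro c z ⟨h1, h2⟩
    refine ⟨fun p hp => h1 p (Finsupp.support_smul hp), ?_⟩
    rw [Finsupp.sum_smul_index' (fun _ => rfl)]
    simp only [smul_eq_mul]
    rw [← Finsupp.mul_sum, h2, mul_zero]

theorem single_mem_deg0 {p q : PtM m Z} (hp : OnP X p.1) (hq : OnP X q.1) :
    (Finsupp.single p (1 : ℚ) - Finsupp.single q 1) ∈ deg0 X Z := by
  refine ⟨fun r hr => ?_, ?_⟩
  · rcases Finset.mem_union.1 (Finsupp.support_sub hr) with h | h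
    · rw [Finset.mem_singleton.1 (Finsupp.support_single_subset h)]
      exact hp
    · rw [Finset.mem_singleton.1 (Finsupp.support_single_subset h)]
      exact hq
  · rw [Finsupp.sum_sub_index (fun _ _ _ => rfl), Finsupp.sum_single_index rfl,
      Finsupp.sum_single_index rfl, sub_self]

/-- The support of a cycle in `ratEq X Z`, and its degree. -/
theorem ratEq_supp [IsAlgClosed k] [CharZero k] {z : PtM m Z →₀ ℚ} (hz : z ∈ ratEq X Z) :
    (∀ p ∈ z.support, OnP X p.1) ∧ (z.sum fun _ c => c) = 0 := by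
  have key : ratEq X Z ≤ deg0 X Z := by
    rw [ratEq_eq]
    refine sup_le ?_ ?_
    · rw [Submodule.span_le]
      rintro z ⟨n, P, Q, c, c', v, v', p, p', hOn, hG, hv, hv', hp, hp', rfl⟩
      exact (deg0 X Z).sum_mem fun a _ => single_mem_deg0 (hp a).1 (hp' a).1
    · rw [Submodule.span_le]
      rintro z ⟨p, p', hp, h, -, rfl⟩
      exact single_mem_deg0 hp (onP_act hp h)
  exact key hz

/-- zero-cycles on the product -/
def onM (X : Fin m → WC k) (Z : Fin l → TS k) : Submodule ℚ (PtM m Z →₀ ℚ) where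
  carrier := {z | ∀ p ∈ z.support, OnP X p.1}
  zero_mem' := by simp
  add_mem' := by
    intro z w h1 h3 p hp
    rcases Finset.mem_union.1 (Finsupp.support_add hp) with h | h
    · exact h1 p h
    · exact h3 p h
  smul_mem' := fun c z h p hp => h p (Finsupp.support_smul hp)

theorem mapDomain_onM {m' l' : ℕ} {Y : Fin m' → WC k} {W : Fin l' → TS k}
    {F : PtM m Z → PtM m' W} (hF : ∀ p, OnP X p.1 → OnP Y (F p).1) {z : PtM m Z →₀ ℚ}
    (hz : ∀ p ∈ z.support, OnP X p.1) : ∀ p ∈ (z.mapDomain F).support, OnP Y p.1 := by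
  intro p hp
  obtain ⟨q, hq, rfl⟩ := Finset.mem_image.1 (Finsupp.mapDomain_support hp)
  exact hF q (hz q hq)

/-- the push-forward as a linear map -/
def pushL {m' l' : ℕ} {Y : Fin m' → WC k} {W : Fin l' → TS k} (γ : MorM X Z Y W →₀ ℚ) :
    (PtM m Z →₀ ℚ) →ₗ[ℚ] (PtM m' W →₀ ℚ) :=
  γ.sum fun f c => c • Finsupp.linearCombination ℚ (MorM.cyc f)

theorem push_eq {m' l' : ℕ} {Y : Fin m' → WC k} {W : Fin l' → TS k}
    (γ : MorM X Z Y W →₀ ℚ) (z : PtM m Z →₀ ℚ) : push γ z = pushL γ z := by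
  rw [push, bil, pushL, Finsupp.sum, Finsupp.sum, LinearMap.sum_apply]
  refine Finset.sum_congr rfl fun f _ => ?_
  rw [LinearMap.smul_apply, Finsupp.linearCombination_apply, Finsupp.smul_sum]
  refine Finset.sum_congr rfl fun p _ => ?_
  exact (smul_smul _ _ _).symm

/-- the push-forward by one correspondence -/
theorem push_single {m' l' : ℕ} {Y : Fin m' → WC k} {W : Fin l' → TS k}
    (f : MorM X Z Y W) (z : PtM m Z →₀ ℚ) :
    push (Finsupp.single f 1) z = Finsupp.linearCombination ℚ (MorM.cyc f) z := by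
  rw [push_eq, pushL, Finsupp.sum_single_index (by rw [zero_smul]), one_smul]

/-- the support of a product of zero-cycles -/
theorem prodC_supp {l : ℕ} {T : Fin l → Type} (z : ∀ j, T j →₀ ℚ) {x : ∀ j, T j}
    (hx : x ∈ (prodC z).support) (j : Fin l) : x j ∈ (z j).support := by
  have h1 := Finsupp.support_finsetSum hx
  obtain ⟨y, hy, h2⟩ := Finset.mem_biUnion.1 h1
  rw [Finset.mem_singleton.1 (Finsupp.support_single_subset h2)]
  exact Fintype.mem_piFinset.1 hy j

/-- the points of the value of a correspondence -/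
theorem cyc_supp {m' l' : ℕ} {Y : Fin m' → WC k} {W : Fin l' → TS k} (f : MorM X Z Y W)
    {p : PtM m Z} {q : PtM m' W} (hq : q ∈ (f.cyc p).support) : q.1 = Mor.app f.1 p.1 := by
  obtain ⟨w, -, rfl⟩ := Finset.mem_image.1 (Finsupp.mapDomain_support hq)
  rfl

/-- the support of a push-forward -/
theorem push_supp {m' l' : ℕ} {Y : Fin m' → WC k} {W : Fin l' → TS k}
    (γ : MorM X Z Y W →₀ ℚ) {z : PtM m Z →₀ ℚ} (hz : ∀ p ∈ z.support, OnP X p.1) :
    ∀ p ∈ (push γ z).support, OnP Y p.1 := by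
  have h1 : push γ z ∈ onM Y W := by
    rw [push, bil, Finsupp.sum]
    refine Submodule.sum_mem _ fun f _ => Submodule.sum_mem _ fun p hp =>
      Submodule.smul_mem _ _ fun q hq => ?_
    rw [cyc_supp f hq]
    exact Mor.onP f.1 (hz p hp)
  exact h1

end Pool.Agent.QTC
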