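import Pool.Agent.QTC.SecM
import Pool.Agent.QTC.Supp
import Pool.Agent.QTF.GradT

/-!
# The combination for exterior products
-/

set_option autoImplicit false

noncomputable section

namespace Pool.Agent.QTC

open Pool.Agent.ZCyc Pool.Agent.GT Pool.Agent.WFC
open Pool.Agent.VFP (Om tt)
open Pool.Agent.EFC (BaseValue)

open scoped Classical

variable {k : Type} [Field k] [IsAlgClosed k] [CharZero k] {m l : ℕ} {Z : Fin l → TS k}

variable (Z) in
/-- the degree of a class -/
def dgT : VT Z →ₗ[ℚ] ℚ :=
  (ratEq (e0 k) Z).liftQ (Finsupp.linearCombination ℚ fun _ => (1 : ℚ)) fun z hz => by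
    rw [LinearMap.mem_ker, Finsupp.linearCombination_apply]
    refine Eq.trans (Finsupp.sum_congr fun _ _ => ?_) (ratEq_supp hz).2
    rw [smul_eq_mul, mul_one]

theorem dgT_cl (z : ∀ j, (Z j).Pt) : dgT Z (clT Z z) = 1 := by
  unfold dgT clT cl
  rw [Submodule.liftQ_apply, Finsupp.linearCombination_single, one_smul]

/-- the degree of a class on a surface -/
def dgS (W : TS k) : V1 W →ₗ[ℚ] ℚ := dgT fun _ : Fin 1 => W

theorem dgS_clS (W : TS k) (w : W.Pt) : dgS W (clS W w) = 1 := dgT_cl _

theorem dgS_delP (W : TS k) (c : Place k W.E.L) : dgS W (delP W c) = 1 := by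
  rw [delP, map_smul, map_sum, Finset.sum_congr rfl fun i _ => dgS_clS W _, Finset.sum_const,
    Finset.card_univ, Fintype.card_fin, nsmul_eq_mul, mul_one, smul_eq_mul,
    inv_mul_cancel₀ W.sm_ne]

/-- the combination of a point and of an exterior product -/
theorem cmb_mul (S : Finset (Fin l)) (c : ∀ j, Place k (Z j).E.L) (w : ∀ j, V1 (Z j)) :
    cmb Z S (clP (curs Z) (ptsC Z c)) (mulT Z w) =
      mulT Z fun j => if j ∈ S then w j else dgS (Z j) (w j) • delP (Z j) (c j) := by
  have h : (cmb Z S (clP (curs Z) (ptsC Z c))).compMultilinearMap (mulT Z) =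
      (mulT Z).compLinearMap fun j => if j ∈ S then LinearMap.id else
        (dgS (Z j)).smulRight (delP (Z j) (c j)) := by
    refine mul_ext fun z => ?_
    rw [LinearMap.compMultilinearMap_apply, mulT_cl, cmb_cl, MultilinearMap.compLinearMap_apply]
    congr 1
    funext j
    split_ifs with hj
    · rfl
    · rw [LinearMap.smulRight_apply, dgS_clS, one_smul]
  have h1 := congrArg (fun E => E w) h
  rw [LinearMap.compMultilinearMap_apply, MultilinearMap.compLinearMap_apply] at h1
  rw [h1]
  congr 1
  funext j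
  split_ifs with hj
  · rfl
  · rfl

/-- the pairs `(j, none)` -/
def bT (B : Finset (Fin l)) : Finset (Fin l × Option ℕ) := B.image fun j => (j, none)

omit [IsAlgClosed k] [CharZero k] in
theorem mem_bT {B : Finset (Fin l)} {j : Fin l} : (j, none) ∈ bT B ↔ j ∈ B := by
  simp [bT]

omit [IsAlgClosed k] [CharZero k] in
theorem bT_inj : Function.Injective (bT (l := l)) :=
  Finset.image_injective fun _ _ h => (Prod.mk.inj h).1

omit [IsAlgClosed k] [CharZero k] in
theorem bT_card (B : Finset (Fin l)) : (bT B).card = B.card :=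
  Finset.card_image_of_injective _ fun _ _ h => (Prod.mk.inj h).1

omit [IsAlgClosed k] [CharZero k] in
theorem bT_sdiff (B U : Finset (Fin l)) : bT B \ bT U = bT (B \ U) :=
  (Finset.image_sdiff B U fun _ _ h => (Prod.mk.inj h).1).symm

omit [IsAlgClosed k] [CharZero k] in
theorem bT_powerset (B : Finset (Fin l)) : (bT B).powerset = B.powerset.image bT :=
  Finset.powerset_image

omit [IsAlgClosed k] [CharZero k] in
/-- multiplications are trivial on the base curves -/
theorem pt_mul (E : EL k) (ε : ℕ → SignType) (c : Place k E.L) :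
    (E.pt c).mul ε = E.pt c := by
  have h : (E.pt c).2.mul ε = (E.pt c).2 :=
    Crd.ext rfl (funext fun i => i.elim0) (funext fun i => i.elim0) (funext fun i => i.elim0)
  exact congrArg (fun w : Crd E.cur => (⟨E.cur, w⟩ : WFC.Pt k)) h

omit [IsAlgClosed k] [CharZero k] in
theorem pt_oo (E : EL k) : (⟨E.cur, E.cur.oo⟩ : WFC.Pt k) = E.pt E.c0 := by
  have h : E.cur.oo = (E.pt E.c0).2 :=
    Crd.ext rfl (funext fun i => i.elim0) (funext fun i => i.elim0) (funext fun i => i.elim0)
  exact congrArg (fun w : Crd E.cur => (⟨E.cur, w⟩ : WFC.Pt k)) h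

omit [IsAlgClosed k] [CharZero k] in
/-- projections of points of the product of the base curves -/
theorem proj_ptsC (U : Finset (Fin l)) (c : ∀ j, Place k (Z j).E.L) :
    proj (bT U) (ptsC Z c) = ptsC Z fun j => if j ∈ U then c j else (Z j).E.c0 := by
  funext j
  unfold proj
  change (if (j, none) ∈ bT U then ((Z j).E.pt (c j)).mul _ else
    (⟨(Z j).E.cur, (Z j).E.cur.oo⟩ : WFC.Pt k)) = (Z j).E.pt (if j ∈ U then c j else (Z j).E.c0)
  split_ifs with h1 h2 h2
  · exact pt_mul _ _ _
  · exact absurd (mem_bT.1 h1) h2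
  · exact absurd (mem_bT.2 h2) h1
  · exact pt_oo _

omit [IsAlgClosed k] [CharZero k] in
/-- the parts of the class of a point of the product of the base curves -/
theorem eP_ptsC (B : Finset (Fin l)) (c : ∀ j, Place k (Z j).E.L) :
    eP (curs Z) (bT B) (ptsC Z c) = ∑ U ∈ B.powerset, ((-1 : ℚ) ^ (B \ U).card) •
      clP (curs Z) (ptsC Z fun j => if j ∈ U then c j else (Z j).E.c0) := by
  rw [eP, bT_powerset, Finset.sum_image fun _ _ _ _ h => bT_inj h]
  refine Finset.sum_congr rfl fun U _ => ?_
  rw [bT_sdiff, bT_card, proj_ptsC]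

/-- **The combination of a part of the class of a point of the product of the base curves and of an
exterior product.** -/
theorem cmb_eP {S B : Finset (Fin l)} (hd : Disjoint S B) (c : ∀ j, Place k (Z j).E.L)
    (w : ∀ j, V1 (Z j)) :
    cmb Z S (eP (curs Z) (bT B) (ptsC Z c)) (mulT Z w) =
      mulT Z fun j => if j ∈ S then w j else dgS (Z j) (w j) •
        (if j ∈ B then delP (Z j) (c j) - delP (Z j) (Z j).E.c0 else delP (Z j) (Z j).E.c0) := by
  rw [eP_ptsC, map_sum, LinearMap.sum_apply]
  have h1 : (fun j => if j ∈ S then w j else dgS (Z j) (w j) •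
        (if j ∈ B then delP (Z j) (c j) - delP (Z j) (Z j).E.c0 else
          delP (Z j) (Z j).E.c0)) = fun j => if j ∈ B then
        dgS (Z j) (w j) • delP (Z j) (c j) -
          (if j ∈ S then w j else dgS (Z j) (w j) • delP (Z j) (Z j).E.c0) else
        (if j ∈ S then w j else dgS (Z j) (w j) • delP (Z j) (Z j).E.c0) := by
    funext j
    by_cases hB : j ∈ B
    · have hS : j ∉ S := fun h => Finset.disjoint_left.1 hd h hB
      rw [if_neg hS, if_pos hB, if_pos hB, if_neg hS, smul_sub]
    · rw [if_neg hB, if_neg hB]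
  rw [h1, Pool.Agent.QTF.mul_sub]
  refine Finset.sum_congr rfl fun U hU => ?_
  rw [map_smul, LinearMap.smul_apply, cmb_mul]
  congr 2
  funext j
  by_cases hS : j ∈ S
  · have hU' : j ∉ U := fun h => Finset.disjoint_left.1 hd hS (Finset.mem_powerset.1 hU h)
    rw [if_pos hS, if_neg hU', if_pos hS]
  · rw [if_neg hS, if_neg hS]
    split_ifs <;> rfl

end Pool.Agent.QTC
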