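import Pool.Agent.QTC.TM
import Pool.Agent.QTC.Del

/-!
# The fibres and the base curves

`bas_over`: the points over the place `v` of `Om k` have equivalent images in the base curve.
`bas_pushS`: correspondences multiply the images in the base curve by `u.d`. `clS_sub_sec`: the
difference of a point and of a multisection is a combination of the classes `hh v P`.
-/

set_option autoImplicit false

noncomputable section

namespace Pool.Agent.QTC

open Pool.Agent.ZCyc Pool.Agent.WFC
open Pool.Agent.VFP (Om tt)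
open scoped Classical

variable {k : Type} [Field k] [IsAlgClosed k] [CharZero k]

/-- the generic point of the base curve -/
abbrev EL.gen (E : EL k) : E.L →ₐ[k] Om k := IsScalarTower.toAlgHom k E.L (Om k)

/-- the place of `L` below the place `v` -/
theorem exists_plc (E : EL k) (v : Place k (Om k)) :
    ∃ c : Place k E.L, c.ring = v.ring.comap E.gen.toRingHom := by
  obtain ⟨c, hc⟩ := TInc.exists_below E.curve v E.gen
  exact ⟨c, hc.symm⟩

variable {Z W : TS k}

/-- **The image in the base curve of the points over the place `v`.** -/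
theorem bas_over {v : Place k (Om k)} {z : Z.Pt} (hz : Over v z) {c : Place k Z.E.L}
    (hc : c.ring = v.ring.comap Z.E.gen.toRingHom) : clC Z.E (Z.bas z) = clC Z.E c := by
  obtain ⟨_, ⟨Q, h, rfl⟩, hz⟩ := hz
  have h2 : Z.basO (GT.phi Z.fib.hom Z.fib.ok Q h) = .inl Z.E.gen := by
    refine Z.base.gen Q _ ?_
    cases Q with
    | zero => exact h.elim
    | some x y hxy =>
      refine ⟨x, y, hxy, rfl, ?_⟩
      obtain ⟨c, hc⟩ := Projectivization.exists_smul_eq_mk_rep (Om k) (Z.M.co x y) h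
      refine ⟨c, fun i => ?_⟩
      change (Projectivization.mk (Om k) (Z.M.co x y) h).rep i = c * co Z.G Z.H x y i
      rw [← hc]
      rfl
  refine (clC_eqv (Z.base.val v _ z c hz ?_)).symm
  rw [h2]
  exact hc

/-- the classes of the limit homomorphisms have the image zero in the base curve -/
theorem bas_hh {β : V1 Z →ₗ[ℚ] VC Z.E} (hβ : ∀ z, β (clS Z z) = clC Z.E (Z.bas z))
    (v : Place k (Om k)) (P : (GT.Ec Z.E.A Z.E.B).Point) : β (hh Z v P) = 0 := by
  obtain ⟨z, z', h1, h2, h3⟩ := hh_over Z v P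
  obtain ⟨c, hc⟩ := exists_plc Z.E v
  rw [h3, map_sub, hβ, hβ, bas_over h1 hc, bas_over h2 hc, sub_self]

/-- **The push-forward and the base curves.** The class `clC` of the image of `u z` is the multiple
`u.d` of the class of the image of `z`. -/
theorem bas_pushS (u : TCor Z W) {β : V1 Z →ₗ[ℚ] VC Z.E}
    (hβ : ∀ z, β (clS Z z) = clC Z.E (Z.bas z)) {β' : V1 W →ₗ[ℚ] VC W.E}
    (hβ' : ∀ w, β' (clS W w) = clC W.E (W.bas w)) (z : Z.Pt) :
    β' (pushS u (clS Z z)) = u.d • clP (fun _ : Fin 1 => W.E.cur) (fun _ => Z.E.pt (Z.bas z)) := by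
  obtain ⟨E, m, X, G, H, basO, bas, f, b⟩ := W
  have h1 : Z.E = E := u.same
  subst h1
  choose c hc using exists_plc Z.E
  have h2 := push_gamma u β β' (fun v => clC Z.E (c v))
    (fun v z hz => (hβ z).trans (bas_over hz (hc v)))
    (fun v w hw => (hβ' w).trans (bas_over hw (hc v))) (clS Z z)
  rw [h2, hβ]
  rfl

/-- **The difference of a point and of a multisection.** -/
theorem clS_sub_sec {n : ℕ} (S : MSec Z.E.L Z.hom n) (hn : 0 < n)
    (hS : ∀ i, Gen (S.R i (Sum.inl Z.E.gen) : Z.PtO)) {v : Place k (Om k)} {z : Z.Pt}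
    (hz : Over v z) {c : Place k Z.E.L} (hc : c.ring = v.ring.comap Z.E.gen.toRingHom) :
    clS Z z - (n : ℚ)⁻¹ • ∑ i, clS Z (S.b i c) ∈
      Submodule.span ℚ (Set.range fun x : Place k (Om k) ×
        (GT.Ec Z.E.A Z.E.B).Point => hh Z x.1 x.2) := by
  obtain ⟨ρ, hρ⟩ := S.val v Z.E.gen c hc
  refine clS_sub_avg hz hn fun i => ?_
  obtain ⟨j, rfl⟩ := ρ.surjective i
  exact ⟨_, hS j, hρ j⟩

/-- **The parts of the class of a point with the label `2`.** -/
theorem eS_two_hh (W : TS k) (w : W.Pt) : eS W 2 w ∈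
    Submodule.span ℚ (Set.range fun x : Place k (Om k) × (GT.Ec W.E.A W.E.B).Point =>
      hh W x.1 x.2) := by
  obtain ⟨v, hv⟩ := exists_over w
  obtain ⟨c, hc⟩ := exists_plc W.E v
  have h1 : delP W (W.bas w) = delP W c := by
    rw [← del_clC, ← del_clC, bas_over hv hc]
  rw [eS_two, h1]
  refine clS_sub_sec W.ms W.sm_pos (fun i => ?_) hv hc
  obtain ⟨P, x, y, hxy, rfl, hR⟩ := W.phi_ms i
  have hne : co W.G W.H x y ≠ 0 := by
    intro h0
    obtain ⟨e, he⟩ := hR
    refine (W.ms.R i W.E.gpt).1.rep_nonzero (funext fun j => ?_)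
    have h2 : (W.ms.R i W.E.gpt).1.rep j = e * co W.G W.H x y j := he j
    rw [h2, h0]
    simp
  have hN : W.M.Ns (.some x y hxy : (GT.Ec W.E.A W.E.B).Point) := hne
  refine ⟨_, hN, ?_⟩
  obtain ⟨e, he⟩ := hR
  obtain ⟨d, hd⟩ := Projectivization.exists_smul_eq_mk_rep (Om k) (W.M.co x y) hne
  apply Subtype.ext
  change (W.ms.R i W.E.gpt).1 = Projectivization.mk (Om k) (W.M.co x y) hne
  rw [← Projectivization.mk_rep (W.ms.R i W.E.gpt).1, Projectivization.mk_eq_mk_iff']
  exact ⟨e, funext fun j => (he j).symm⟩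

/-- **The image in the base curve of a push-forward.** -/
theorem basL_pushS (u : TCor Z W) (z : Z.Pt) : basL W (pushS u (clS Z z)) =
    u.d • clP (fun _ : Fin 1 => W.E.cur) (fun _ => Z.E.pt (Z.bas z)) :=
  bas_pushS u (basL_clS Z) (basL_clS W) z

end Pool.Agent.QTC
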