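import Pool.Agent.QTC.MSec

/-!
# Multisections: families of points
-/

set_option autoImplicit false

noncomputable section

namespace Pool.Agent.QTC

open Pool.Agent.ZCyc Pool.Agent.Dess Pool.Agent.GT
open Pool.Agent.EFC (BaseValue)
open Pool.Agent.VFP (Om tt)
open scoped Classical LinearAlgebra.Projectivization

variable {k : Type} [Field k] {N m : ℕ} {L : Type} [Field L] [Algebra k L]
  {X : Set (MvPolynomial (Fin (N + 1)) k)} {hX : Hom X}

/-- the image of a point of the curve over `Om k` under an automorphism -/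
abbrev gs (g : Om k ≃ₐ[k] Om k) (s : (L →ₐ[k] Om k) ⊕ Place k L) :
    (L →ₐ[k] Om k) ⊕ Place k L :=
  s.map (fun σ => (g : Om k →ₐ[k] Om k).comp σ) id

theorem gm_const (hX : Hom X) (g : Om k ≃ₐ[k] Om k) (x : Pt X k) :
    gm hX g (x.map (Algebra.ofId k (Om k)) hX) = x.map (Algebra.ofId k (Om k)) hX := by
  unfold gm
  rw [map_comp]
  congr 1
  exact Subsingleton.elim _ _

theorem MSec.conj' (S : MSec L hX m) (g : Om k ≃ₐ[k] Om k) (s : (L →ₐ[k] Om k) ⊕ Place k L) :
    ∃ ρ : Equiv.Perm (Fin m), ∀ i, S.R (ρ i) (gs g s) = gm hX g (S.R i s) := by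
  rcases s with σ | c
  · exact S.conj g σ
  · refine ⟨1, fun i => ?_⟩
    change S.R i (Sum.inr c) = gm hX g (S.R i (Sum.inr c))
    rw [S.const, gm_const]

theorem MSec.val' (S : MSec L hX m) {V : Place k (Om k)} {s : (L →ₐ[k] Om k) ⊕ Place k L}
    {c : Place k L} (h : BaseValue V s c) :
    ∃ ρ : Equiv.Perm (Fin m), ∀ i, GT.IsVal V (S.R i s) (S.b (ρ i) c) := by
  rcases s with σ | c'
  · exact S.val V σ c h
  · have h1 : c' = c := h
    subst h1
    refine ⟨1, fun i => ?_⟩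
    rw [S.const]
    exact isVal_const

variable {l : ℕ} {Nn mm : Fin l → ℕ} {LL : Fin l → Type} [∀ j, Field (LL j)]
  [∀ j, Algebra k (LL j)] {XX : ∀ j, Set (MvPolynomial (Fin (Nn j + 1)) k)}
  {hXX : ∀ j, Hom (XX j)}

/-- the family of the points of the multisections over a Galois invariant family -/
theorem fam_sec (S : ∀ j, MSec (LL j) (hXX j) (mm j)) (g : Om k ≃ₐ[k] Om k) {n : ℕ}
    (s : Fin n → ∀ j, (LL j →ₐ[k] Om k) ⊕ Place k (LL j)) (e : Equiv.Perm (Fin n))
    (he : ∀ a j, s (e a) j = gs g (s a j)) :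
    ∃ e' : Equiv.Perm (Fin n × ∀ j, Fin (mm j)), (∀ x, (e' x).1 = e x.1) ∧
      ∀ x j, (S j).R ((e' x).2 j) (s (e' x).1 j) = gm (hXX j) g ((S j).R (x.2 j) (s x.1 j)) := by
  choose ρ hρ using fun (a : Fin n) (j : Fin l) => (S j).conj' g (s a j)
  refine ⟨Equiv.prodShear e fun a => Equiv.piCongrRight fun j => ρ a j, fun x => rfl,
    fun x j => ?_⟩
  change (S j).R (ρ x.1 j (x.2 j)) (s (e x.1) j) = _
  rw [he, hρ]

/-- the values of the points of the multisections -/
theorem val_sec (S : ∀ j, MSec (LL j) (hXX j) (mm j)) {V : Place k (Om k)}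
    {s : ∀ j, (LL j →ₐ[k] Om k) ⊕ Place k (LL j)} {c : ∀ j, Place k (LL j)}
    (h : ∀ j, BaseValue V (s j) (c j)) : ∃ ρ : Equiv.Perm (∀ j, Fin (mm j)), ∀ x j,
      GT.IsVal V ((S j).R (x j) (s j)) ((S j).b (ρ x j) (c j)) := by
  choose ρ hρ using fun j => (S j).val' (h j)
  exact ⟨Equiv.piCongrRight ρ, fun x j => hρ j (x j)⟩

end Pool.Agent.QTC
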