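import Pool.Agent.QTC.Fib
import Pool.Agent.QTC.MSecB
import Pool.Agent.WFC.FMapW

/-!
# Points of the base curves
-/

set_option autoImplicit false

noncomputable section

namespace Pool.Agent.QTC

open Pool.Agent.ZCyc Pool.Agent.WFC
open Pool.Agent.EFC (BaseValue)
open Pool.Agent.VFP (Om tt)
open scoped Classical

variable {k : Type} [Field k] {l : ℕ}

/-- a point of the curve -/
def EL.c0 (E : EL k) : Place k E.L := E.cur.pt0

/-- a point of the curve over `Om k` -/
def EL.ptO (E : EL k) (s : (E.L →ₐ[k] Om k) ⊕ Place k E.L) : WFC.PtO k :=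
  ⟨E.cur, ⟨s, Fin.elim0, Fin.elim0, Fin.elim0⟩⟩

/-- the point of the curve which belongs to a point of the class `WC` -/
def plc (E : EL k) (p : WFC.Pt k) : Place k E.L :=
  if h : p.1 = E.cur then (cast (congrArg Crd h) p.2).c else E.c0

/-- the point over `Om k` -/
def plO (E : EL k) (p : WFC.PtO k) : (E.L →ₐ[k] Om k) ⊕ Place k E.L :=
  if h : p.1 = E.cur then (cast (congrArg CrdO h) p.2).s else Sum.inr E.c0

theorem plc_pt (E : EL k) (c : Place k E.L) : plc E (E.pt c) = c := dif_pos rfl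

theorem plO_ptO (E : EL k) (s : (E.L →ₐ[k] Om k) ⊕ Place k E.L) : plO E (E.ptO s) = s :=
  dif_pos rfl

/-- all points of the curve -/
theorem pt_plc {E : EL k} {p : WFC.Pt k} (h : p.1 = E.cur) : E.pt (plc E p) = p := by
  obtain ⟨X, w⟩ := p
  simp only at h
  subst h
  have h1 : plc E ⟨E.cur, w⟩ = w.c := dif_pos rfl
  rw [h1]
  unfold EL.pt
  congr 1
  exact Crd.ext rfl (funext fun i => i.elim0) (funext fun i => i.elim0) (funext fun i => i.elim0)

theorem ptO_plO {E : EL k} {p : WFC.PtO k} (h : p.1 = E.cur) : E.ptO (plO E p) = p := by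
  obtain ⟨X, w⟩ := p
  simp only at h
  subst h
  have h1 : plO E ⟨E.cur, w⟩ = w.s := dif_pos rfl
  rw [h1]
  unfold EL.ptO
  congr 1
  exact CrdO.ext rfl (funext fun i => i.elim0) (funext fun i => i.elim0)
    (funext fun i => i.elim0)

theorem on_pt (E : EL k) (c : Place k E.L) : (E.pt c).2.On :=
  ⟨fun i => i.elim0, fun b => b.elim0⟩

theorem on_ptO (E : EL k) (s : (E.L →ₐ[k] Om k) ⊕ Place k E.L) : (E.ptO s).2.On :=
  ⟨fun i => i.elim0, fun b => b.elim0⟩

theorem ptO_map (E : EL k) (g : Om k ≃ₐ[k] Om k) (s : (E.L →ₐ[k] Om k) ⊕ Place k E.L) :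
    (E.ptO s).map g = E.ptO (gs g s) := by
  have h : (E.ptO s).2.map g = (E.ptO (gs g s)).2 :=
    CrdO.ext rfl (funext fun i => i.elim0) (funext fun i => i.elim0) (funext fun i => i.elim0)
  exact congrArg (fun w : CrdO E.cur => (⟨E.cur, w⟩ : WFC.PtO k)) h

/-- values of points of the curve -/
theorem isVal_pt {E : EL k} {v : Place k (Om k)} {s : (E.L →ₐ[k] Om k) ⊕ Place k E.L}
    {c : Place k E.L} : IsVal v (E.ptO s) (E.pt c) ↔ IsBaseVal v s c := by
  constructor
  · rintro ⟨X, P, p, h1, h2, h3⟩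
    have hX : E.cur = X := congrArg Sigma.fst h1
    subst hX
    have h4 : P = (E.ptO s).2 := (eq_of_heq (Sigma.mk.inj h1).2).symm
    have h5 : p = (E.pt c).2 := (eq_of_heq (Sigma.mk.inj h2).2).symm
    subst h4 h5
    exact h3.1
  · intro h
    exact ⟨E.cur, _, _, rfl, rfl, h, fun _ => 1, fun i => i.elim0, fun i => i.elim0,
      fun b => b.elim0⟩

variable {Z : Fin l → TS k}

/-- a point of the product of the base curves -/
def ptsC (Z : Fin l → TS k) (c : ∀ j, Place k (Z j).E.L) : Pts l k := fun j => (Z j).E.pt (c j)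

theorem onP_ptsC (c : ∀ j, Place k (Z j).E.L) : OnP (curs Z) (ptsC Z c) := fun _ =>
  ⟨rfl, on_pt _ _⟩

theorem ptsC_plc {p : Pts l k} (h : OnP (curs Z) p) : ptsC Z (fun j => plc (Z j).E (p j)) = p :=
  funext fun j => pt_plc (h j).1

/-- the classes on the curve -/
abbrev VC (E : EL k) : Type 1 := VP (fun _ : Fin 1 => E.cur)

/-- the class of a point of the curve -/
def clC (E : EL k) (c : Place k E.L) : VC E := clP (fun _ : Fin 1 => E.cur) fun _ => E.pt c

end Pool.Agent.QTC
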