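import Pool.Agent.WFC.Defs
import Pool.Agent.GT.Defs

/-!
# Products of quotients of fibre products and of elliptic surfaces without section

Let `k` be an algebraically closed field of characteristic `0`. `TS` is the class of all projective
surfaces with a fibration in curves of genus one over a smooth projective curve `C` with `χ(O) > 0`
(with or without section, with or without multiple fibres; all smooth surfaces, and all singular
ones for which the fibration is a morphism to `C`, or for which `C` is the line). We consider the
products of varieties of the class `WC` and of surfaces of the class `TS`, their zero-cycles, and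
the correspondences between such products whose components are morphisms of the class `WC` (see
`Pool.Agent.WFC.Comp`), constants, and relative correspondences between the surfaces of the class
`TS`, and we define the properties `Conds` and `IsBB` of a Bloch-Beilinson filtration.

The definitions of rational equivalence, of the points over `Om k` and of their specialisations are
the same as in `Pool.Agent.WFC.Defs`, in a form which is independent of the field `Om k`.
-/

set_option autoImplicit false

noncomputable section

namespace Pool.Agent.QTC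

open Pool.Agent.ZCyc
open Pool.Agent.VFP (Om tt)
open Pool.Agent.EFC (IsCurve unif val deg genus fac)
open Pool.Agent.WFC
open scoped Classical

universe u v w

section cycles

variable {T : Type u} {T' : Type v} {M : Type w} {n : ℕ}

/-- the groups of zero-cycles with rational coefficients -/
abbrev Grp (T : Type u) : Type u := Submodule ℚ (T →₀ ℚ)

/-- The zero-cycle `z` is in the group `S`. -/
abbrev In (S : Grp T) (z : T →₀ ℚ) : Prop := z ∈ S

/-- The push-forward of the zero-cycle `z` by the map `f` is in the group `S`. -/
abbrev MapIn (S : Grp T') (f : T → T') (z : T →₀ ℚ) : Prop := z.mapDomain f ∈ S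

/-- The push-forward of the zero-cycle `x - y` by the map `f` is in the group `S`. -/
abbrev Cong (S : Grp T') (f : T → T') (x y : T →₀ ℚ) : Prop := (x - y).mapDomain f ∈ S

/-- the group spanned by the zero-cycles with the property `P` -/
abbrev spanQ (P : (T →₀ ℚ) → Prop) : Grp T := Submodule.span ℚ {z | P z}

/-- All points of the zero-cycle have the property `P`. -/
abbrev Supp (P : T → Prop) (z : T →₀ ℚ) : Prop := ∀ x ∈ z.support, P x

/-- the degree of a zero-cycle -/
abbrev dg (z : T →₀ ℚ) : ℚ := z.sum fun _ e => e

/-- the zero-cycle `p - p'` -/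
abbrev dif (p p' : T) : T →₀ ℚ := Finsupp.single p 1 - Finsupp.single p' 1

/-- the zero-cycle `∑ i, (p i - p' i)` -/
abbrev difs (p p' : Fin n → T) : T →₀ ℚ := ∑ i, dif (p i) (p' i)

/-- the zero-cycle `∑ i, e i * p i` -/
abbrev comb (e : Fin n → ℚ) (p : Fin n → T) : T →₀ ℚ := ∑ i, Finsupp.single (p i) (e i)

/-- the product of the zero-cycles `z j` -/
def prodC {T : Fin n → Type u} (z : ∀ j, T j →₀ ℚ) : (∀ j, T j) →₀ ℚ :=
  ∑ x ∈ Fintype.piFinset fun j => (z j).support, Finsupp.single x (∏ j, z j (x j))

/-- the bilinear extension of the map `f` -/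
def bil (f : M → T → (T' →₀ ℚ)) (γ : M →₀ ℚ) (z : T →₀ ℚ) : T' →₀ ℚ :=
  γ.sum fun g c => z.sum fun p e => (c * e) • f g p

end cycles

section general

variable {k L F K : Type} [Field k] [Field L] [Field F] [Field K] [Algebra k L] [Algebra k F]
  [Algebra k K] [Algebra L K] [Algebra F K] {m m' N r : ℕ}

/-- The vector `a` is a multiple of the vector `b`. -/
def IsMul (a b : Fin m → K) : Prop := ∃ e : K, ∀ i, a i = e * b i

/-- The image under the automorphism `g` of `K` of a point over `K` of the curve with the function
field `L`: such a point is an embedding of `L` into `K` or a constant point. -/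
def act [IsScalarTower k F K] (g : K ≃ₐ[F] K) (s : (L →ₐ[k] K) ⊕ Place k L) :
    (L →ₐ[k] K) ⊕ Place k L :=
  s.map (fun σ => ((g.restrictScalars k : K ≃ₐ[k] K) : K →ₐ[k] K).comp σ) id

/-- The point `s` of the curve over `K` specialises at the place `v` to the point `c`. -/
def IsBaseVal (v : Place k K) (s : (L →ₐ[k] K) ⊕ Place k L) (c : Place k L) : Prop :=
  s.elim (fun σ => c.ring = v.ring.comap σ.toRingHom) fun c' => c' = c

/-- the value of the section `A` of `O(e D)` at the point `s` of the curve over `K` -/
def coef (e : ℤ) (A : L) (D : Place k L →₀ ℤ) (s : (L →ₐ[k] K) ⊕ Place k L) : K :=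
  s.elim (fun σ => σ A) fun c => algebraMap k K (val c (A * unif c ^ (e * D c)))

/-- the element `σ(π)`, where `σ` is the point `s` of the curve over `K`, and `π` is a uniformizer
at `c`; it is `1` for constant points `s` -/
def unifK (s : (L →ₐ[k] K) ⊕ Place k L) (c : Place k L) : K :=
  s.elim (fun σ => σ (unif c)) fun _ => 1

/-- the equations of a variety of the class `WC`, with the coefficients `A` and `B` -/
def OnEqs (blk : Fin N → Fin r) (A B x z : Fin N → K) (y : Fin r → K) : Prop :=
  (∀ i, x i ≠ 0 ∨ z i ≠ 0) ∧ ∀ b, y b ^ 2 = ∏ i with blk i = b, fac (A i) (B i) (x i) (z i)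

/-- The homogeneous coordinates `x, z, y` over `K` of a point of a variety of the class `WC`
specialise at the place `v` to `x', z', y'`, see `Pool.Agent.WFC.WC.IsValue`. -/
def SpCrd (blk : Fin N → Fin r) (D : Fin N → ℤ) (v : Place k K) (π : K) (x z : Fin N → K)
    (y : Fin r → K) (x' z' : Fin N → k) (y' : Fin r → k) : Prop :=
  ∃ m : Fin N → K,
    (∀ i, v.Vanishes (m i * π ^ D i * x i - algebraMap k K (x' i))) ∧
    (∀ i, v.Vanishes (m i * z i - algebraMap k K (z' i))) ∧
    ∀ b, v.Vanishes ((∏ i with blk i = b, m i) ^ 2 *
      π ^ (3 * ((∑ i with blk i = b, D i) / 2)) * y b - algebraMap k K (y' b))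

/-- The point `(s, x, z, y)` over `K` of a variety of the class `WC` is mapped to the point
`(s', x', z', y')` by the automorphism `g`. -/
def CjCrd [IsScalarTower k F K] (g : K ≃ₐ[F] K) (s s' : (L →ₐ[k] K) ⊕ Place k L)
    (x x' z z' : Fin N → K) (y y' : Fin r → K) : Prop :=
  s' = act g s ∧ (∀ i, x' i = g (x i)) ∧ (∀ i, z' i = g (z i)) ∧ ∀ b, y' b = g (y b)

/-- The Weierstrass equation `y ² = x ³ - 3 a x + b` over the curve with the function field `L`,
where `a` and `b` are sections of the line bundles `O(4 D)` and `O(6 D)`, i.e. elements of `L` with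
`div a + 4 D ≥ 0` and `div b + 6 D ≥ 0`. The discriminant is not zero, the equation is minimal at
all points of the curve, and the degree of `D`, which is the Euler characteristic `χ(O)` of the
elliptic surface, is positive. -/
structure IsWeier (a b : L) (D : Place k L →₀ ℤ) : Prop where
  disc : b ^ 2 ≠ 4 * a ^ 3
  regA : ∀ c : Place k L, a * unif c ^ (4 * D c) ∈ c.ring
  regB : ∀ c : Place k L, b * unif c ^ (6 * D c) ∈ c.ring
  minimal : ∀ c : Place k L, ¬ (a * unif c ^ (4 * D c - 4) ∈ c.ring ∧
    b * unif c ^ (6 * D c - 6) ∈ c.ring)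
  pos : 0 < deg D

/-- The points `c` and `c'` of the curve are rationally equivalent (with rational coefficients): a
multiple `n (c - c')` is the divisor of a function `f`. -/
def Eqv (c c' : Place k L) : Prop :=
  ∃ (n : ℤ) (f : L), n ≠ 0 ∧ f ≠ 0 ∧ ∀ v : Place k L,
    f * unif v ^ (Finsupp.single c' n - Finsupp.single c n : Place k L →₀ ℤ) v ∈ v.ring ∧
    f⁻¹ * unif v ^ (Finsupp.single c n - Finsupp.single c' n : Place k L →₀ ℤ) v ∈ v.ring

variable (K) in
/-- The elliptic curve `E` with the equation `y ² = x ³ - 3 a x + b` over `K`. -/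
abbrev Ec (a b : L) : WeierstrassCurve.Affine K :=
  ⟨0, 0, 0, -3 * algebraMap L K a, algebraMap L K b⟩

/-- the homogeneous coordinates `G_i(x) + H_i(x) y` of the point `φ(x, y)` -/
def co (G H : Fin (m + 1) → Polynomial K) (x y : K) (i : Fin (m + 1)) : K :=
  (G i).eval x + (H i).eval x * y

variable {X : Set (MvPolynomial (Fin (m + 1)) k)} {X' : Set (MvPolynomial (Fin (m' + 1)) k)}

/-- homogeneous coordinates of a point of a projective variety -/
abbrev hc (R : GT.Pt X K) : Fin (m + 1) → K := R.1.rep

/-- The point `R` specialises at the place `v` to the point `z`. -/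
def IsSp (v : Place k K) (R : GT.Pt X K) (z : GT.Pt X k) : Prop :=
  ∃ e : K, ∀ i, v.Vanishes (e * hc R i - algebraMap k K (hc z i))

/-- The point `R'` is the image of the point `R` under the automorphism `g` of `K`. -/
def IsConj (g : K ≃ₐ[F] K) (R R' : GT.Pt X K) : Prop := IsMul (hc R') fun i => g (hc R i)

variable (X) in
/-- The conditions on the map `φ` from the curve `E` over `K` to the surface `X` over `k`:

* the equations of `X` are homogeneous;
* `φ(x, y) = (G_i(x) + H_i(x) y)` is a map from `E` over `K` to `X`;
* this is a dominant map from the family to `X`, the functions on `C` (the elements of `L`) are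
  rational functions on `X`, and, up to finitely many points, `φ(P) = φ(Q)` only if `P - Q` is in a
  finite subgroup of `E`: so the family given by the quotient of `E` by a finite subgroup is
  birational to `X`;
* the conjugates of `φ` differ from `φ` by translations: for every automorphism `τ` of `K` over `L`
  there is a point `A` of `E` such that `τ(φ(P)) = φ(τ(P) + A)` for all points `P` of `E`: the
  generic fibre of `X` over `C` is a principal homogeneous space under this quotient of `E`. -/
structure IsFib (L : Type) [Field L] [Algebra L K] (E : WeierstrassCurve.Affine K)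
    (G H : Fin (m + 1) → Polynomial K) : Prop where
  hom : ∀ f ∈ X, ∃ d : ℕ, f.IsHomogeneous d
  ne : ∃ i, G i ≠ 0 ∨ H i ≠ 0
  onX : ∀ f ∈ X, ∀ x y : K, E.Equation x y → MvPolynomial.aeval (co G H x y) f = 0
  dom : ∀ (f : MvPolynomial (Fin (m + 1)) k) (d : ℕ), f.IsHomogeneous d →
    (∀ x y : K, E.Equation x y → MvPolynomial.aeval (co G H x y) f = 0) →
    ∀ p : GT.Pt X k, MvPolynomial.aeval (hc p) f = 0
  param : ∀ h : L, ∃ (f g : MvPolynomial (Fin (m + 1)) k) (d : ℕ), f.IsHomogeneous d ∧
    g.IsHomogeneous d ∧ (∃ x y : K, E.Equation x y ∧ MvPolynomial.aeval (co G H x y) g ≠ 0) ∧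
    ∀ x y : K, E.Equation x y →
      MvPolynomial.aeval (co G H x y) f = algebraMap L K h * MvPolynomial.aeval (co G H x y) g
  inj : ∃ (B : AddSubgroup E.Point) (s : Set E.Point), (B : Set E.Point).Finite ∧ s.Finite ∧
    ∀ (x y x' y' : K) (h : E.Nonsingular x y) (h' : E.Nonsingular x' y'),
      WeierstrassCurve.Affine.Point.some x y h ∉ s →
      WeierstrassCurve.Affine.Point.some x' y' h' ∉ s → IsMul (co G H x y) (co G H x' y') →
      WeierstrassCurve.Affine.Point.some x y h - .some x' y' h' ∈ B
  conj : ∀ τ : K ≃ₐ[L] K, ∃ A : E.Point, ∀ (x y x' y' : K)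
    (h : E.Nonsingular (τ x) (τ y)) (h' : E.Nonsingular x' y'),
    WeierstrassCurve.Affine.Point.some (τ x) (τ y) h + A = .some x' y' h' →
      co G H x' y' ≠ 0 → IsMul (fun i => τ (co G H x y i)) (co G H x' y')

/-- The point `R` of `X` over `K` is the point `φ(P)`. -/
def IsPhi {E : WeierstrassCurve.Affine K} (G H : Fin (m + 1) → Polynomial K) (P : E.Point)
    (R : GT.Pt X K) : Prop :=
  ∃ (x y : K) (h : E.Nonsingular x y), P = .some x y h ∧ IsMul (hc R) (co G H x y)

variable (F) in
/-- The conditions on the images `basO R` and `bas z` in `C` of the points of `X` over `K` and over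
`k`: for the points `φ(P)` the image is the generic point of `C`, the images are compatible with the
specialisation up to rational equivalence, and they are compatible with the automorphisms of `K`
over `F`. (If the fibration is a morphism from `X` to `C`, this morphism gives `basO` and `bas`; up
to rational equivalence there is no other choice for `bas`. If the genus of `C` is `0`, then the
condition `val` is always satisfied.) -/
structure IsBas [IsScalarTower k L K] [IsScalarTower k F K] (E : WeierstrassCurve.Affine K)
    (G H : Fin (m + 1) → Polynomial K) (basO : GT.Pt X K → (L →ₐ[k] K) ⊕ Place k L)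
    (bas : GT.Pt X k → Place k L) : Prop where
  gen : ∀ (P : E.Point) (R : GT.Pt X K), IsPhi G H P R →
    basO R = .inl (IsScalarTower.toAlgHom k L K)
  val : ∀ (v : Place k K) (R : GT.Pt X K) (z : GT.Pt X k) (c : Place k L),
    IsSp v R z → IsBaseVal v (basO R) c → Eqv c (bas z)
  conj : ∀ (g : K ≃ₐ[F] K) (R R' : GT.Pt X K), IsConj g R R' → basO R' = act g (basO R)

/-- The map `U` from the points over `K` of one surface to the zero-cycles on another one is given
by `φ(q P) ↦ ∑ i, e_i φ'(p_i P + A_i)` for points `A_i` of `E` (for all points `P` of `E` except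
finitely many). -/
def IsRel (E : WeierstrassCurve.Affine K) (G H : Fin (m + 1) → Polynomial K)
    (G' H' : Fin (m' + 1) → Polynomial K) (U : GT.Pt X K → (GT.Pt X' K →₀ ℚ)) {n : ℕ}
    (e : Fin n → ℚ) (p : Fin n → ℤ) (q : ℕ) : Prop :=
  ∃ (A : Fin n → E.Point) (s : Set E.Point), s.Finite ∧ ∀ P ∉ s, ∀ R : GT.Pt X K,
    IsPhi G H (q • P) R → ∃ R' : Fin n → GT.Pt X' K,
      (∀ i, IsPhi G' H' (p i • P + A i) (R' i)) ∧ U R = comb e R'

end general

variable {k : Type} [Field k]

variable (k) in
/-- the Galois group of `k(t)` -/
abbrev Gal : Type := Om k ≃ₐ[RatFunc k] Om k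

variable (k) in
/-- the places of `Om k` -/
abbrev PlO : Type := Place k (Om k)

/-- The place `v` is above the point `t = c` of the line. -/
abbrev Above (v : PlO k) (c : k) : Prop := v.Vanishes (tt k - algebraMap k (Om k) c)

section curves

variable {L : Type} [Field L] [Algebra k L]

/-- The quotient of the curve with the function field `L` by the finite group `G` of automorphisms,
as a variety of the class `WC`. -/
def cur (h : IsCurve k L) (G : AutGp k L) (hG : Finite (El G)) : WC k where
  L := L
  curve := h
  G := G
  finite := hG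
  N := 0
  r := 0
  blk := Fin.elim0
  gal := 1
  D := Fin.elim0
  A := Fin.elim0
  B := Fin.elim0
  cond :=
  { gal_blk := fun _ i => i.elim0
    gal_A := fun _ i => i.elim0
    gal_B := fun _ i => i.elim0
    gal_D := fun _ i => i.elim0
    ram := fun i => i.elim0
    even := fun b => b.elim0
    pos := fun b => b.elim0
    regA := fun i => i.elim0
    regB := fun i => i.elim0
    disc := fun i => i.elim0
    canonical := fun c _ _ _ => by
      have : Nonempty {g : G // c.map g.1 = c} := ⟨⟨1, by
        ext x
        exact Iff.rfl⟩⟩
      have : Finite G := hG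
      simp [Nat.card_pos]
    mixed := Or.inl fun i => i.elim0 }

/-- a point of the curve -/
def crd (h : IsCurve k L) (G : AutGp k L) (hG : Finite (El G)) (c : Place k L) :
    Crd (cur h G hG) := ⟨c, Fin.elim0, Fin.elim0, Fin.elim0⟩

theorem crd_on (h : IsCurve k L) (G : AutGp k L) (hG : Finite (El G)) (c : Place k L) :
    (crd h G hG c).On := ⟨fun i => i.elim0, fun b => b.elim0⟩

variable (k L) in
/-- the trivial group -/
abbrev triv : AutGp k L := ⊥

theorem fin_triv : Finite (El (triv k L)) := inferInstance

end curves

/-- the curve `C = C' / G` over which `X` is fibred -/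
abbrev bsW (X : WC k) : WC k := cur X.curve X.G X.finite

/-- the image of a point of `X` in the curve `C` -/
def bsP (w : WFC.Pt k) : WFC.Pt k := ⟨bsW w.1, crd _ _ _ w.2.c⟩

/-- `P` is a point of `X'` over `Om k`. -/
def OnO {X : WC k} (P : CrdO X) : Prop :=
  OnEqs X.blk (fun i => coef 2 (X.A i) (X.D i) P.s) (fun i => coef 3 (X.B i) (X.D i) P.s)
    P.x P.z P.y

/-- The point `P` over `Om k` of `X'` specialises to the point `p` at the place `v`. -/
def SpW {X : WC k} (v : PlO k) (P : CrdO X) (p : Crd X) : Prop :=
  IsBaseVal v P.s p.c ∧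
    SpCrd X.blk (fun i => X.D i p.c) v (unifK P.s p.c) P.x P.z P.y p.x p.z p.y

/-- The point `P'` over `Om k` of `X'` is the image of the point `P` under the automorphism `g`. -/
def CjW {X : WC k} (g : Gal k) (P P' : CrdO X) : Prop :=
  CjCrd g P.s P'.s P.x P'.x P.z P'.z P.y P'.y

/-- A smooth projective curve `C` over `k` and an elliptic curve `E` over its function field `L`,
the generic fibre of an elliptic surface with section over `C`. The field `L` is a finite extension
of `k(t)` in the algebraic closure `Om k` of `k(t)`. -/
structure EL (k : Type) [Field k] : Type 1 where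
  /-- the function field of the curve -/
  L : Type
  [field : Field L]
  [algebra : Algebra k L]
  [algebraO : Algebra L (Om k)]
  [tower : IsScalarTower k L (Om k)]
  curve : IsCurve k L
  tt_mem : ∃ h : L, algebraMap L (Om k) h = tt k
  /-- the first coefficient -/
  a : L
  /-- the second coefficient -/
  b : L
  /-- the divisor -/
  D : Place k L →₀ ℤ
  weier : IsWeier a b D

attribute [instance] EL.field EL.algebra EL.algebraO EL.tower

/-- The curve `C` as a variety of the class `WC`. -/
abbrev EL.cur (E : EL k) : WC k := QTC.cur E.curve (triv k E.L) fin_triv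

/-- a point of the curve `C` -/
def EL.pt (E : EL k) (c : Place k E.L) : WFC.Pt k := ⟨E.cur, crd _ _ _ c⟩

/-- the elliptic curve `E` over `Om k` -/
abbrev EL.Ec (E : EL k) : WeierstrassCurve.Affine (Om k) := QTC.Ec (Om k) E.a E.b

/-- A projective surface `X` (given by its equations in the projective space of dimension `m`) with
a fibration in curves of genus one over the curve `C`. The Jacobian fibration is `E`, up to an
isogeny, see `IsFib`. All projective surfaces with a morphism to `C` which is such a fibration with
`χ(O) > 0` are of this form, in particular all smooth ones; if `C` is the line, all birational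
models are (with `L = k(t)`). Let `g` be the genus of `C`. The geometric genus of (a resolution of)
`X` is `deg D + g - 1`, the holomorphic `1`-forms are the pull-backs of those of `C`, and the
holomorphic `2`-forms are the forms with the pull-backs `ω ∧ dx / y`, where `ω` is a differential on
`C` with `div ω + D ≥ 0`. (The same holds if the fibration has multiple fibres, by the formula for
the canonical bundle.) -/
structure TS (k : Type) [Field k] : Type 1 where
  /-- the curve `C` and the elliptic curve `E` -/
  E : EL k
  /-- the dimension of the projective space -/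
  m : ℕ
  /-- the equations -/
  X : Set (MvPolynomial (Fin (m + 1)) k)
  /-- the parts of the coordinates of `φ` without `y` -/
  G : Fin (m + 1) → Polynomial (Om k)
  /-- the parts of the coordinates of `φ` with `y` -/
  H : Fin (m + 1) → Polynomial (Om k)
  /-- the image of a point over `Om k` in `C` -/
  basO : GT.Pt X (Om k) → (E.L →ₐ[k] Om k) ⊕ Place k E.L
  /-- the image of a point in `C` -/
  bas : GT.Pt X k → Place k E.L
  fibration : IsFib X E.L E.Ec G H
  base : IsBas (RatFunc k) E.Ec G H basO bas

/-- the points of the surface -/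
abbrev TS.Pt (Z : TS k) : Type := GT.Pt Z.X k

/-- the points of the surface over `Om k` -/
abbrev TS.PtO (Z : TS k) : Type := GT.Pt Z.X (Om k)

/-- The point `Q'` is the image of the point `Q` under the automorphism `g` of `Om k`. -/
abbrev Cj {Z : TS k} (g : Gal k) (Q Q' : Z.PtO) : Prop := IsConj g Q Q'

/-- The point `Q` specialises to the point `z` at the place `v`. -/
abbrev Sp {Z : TS k} (v : PlO k) (Q : Z.PtO) (z : Z.Pt) : Prop := IsSp v Q z

variable {m m' l l' : ℕ}

/-- Points of the product of `m` varieties of the class `WC` and of the surfaces `Z j`. -/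
abbrev PtM (m : ℕ) (Z : Fin l → TS k) : Type 1 := Pts m k × ∀ j, (Z j).Pt

/-- the point `(p, q)` of the product -/
abbrev mkP {X : Fin m → WC k} {Z : Fin l → TS k} (p : ∀ i, Crd (X i)) (q : ∀ j, (Z j).Pt) :
    PtM m Z := (fun i => ⟨X i, p i⟩, q)

/-- The point `(P, Q)` over `Om k` of the product specialises to the point `(p, q)` at the place
`v`. -/
def SpM {X : Fin m → WC k} {Z : Fin l → TS k} (v : PlO k) (P : ∀ i, CrdO (X i))
    (Q : ∀ j, (Z j).PtO) (p : ∀ i, Crd (X i)) (q : ∀ j, (Z j).Pt) : Prop :=
  (∀ i, (p i).On ∧ SpW v (P i) (p i)) ∧ ∀ j, Sp v (Q j) (q j)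

/-- The zero-cycle `z` on the product is the difference between the members over two points `t = c`
and `t = c'` of a family of effective zero-cycles over the line: the points `(P a, Q a)`, `a < n`,
over `Om k` are stable under the Galois group of `k(t)`, and their specialisations at a place above
`c` are the points `(p a, q a)`, see `Pool.Agent.WFC.ratEqP` for the explanation. -/
def IsFam (X : Fin m → WC k) (Z : Fin l → TS k) (z : PtM m Z →₀ ℚ) : Prop :=
  ∃ (n : ℕ) (P : Fin n → ∀ i, CrdO (X i)) (Q : Fin n → ∀ j, (Z j).PtO)
    (c c' : k) (v v' : PlO k) (p p' : Fin n → ∀ i, Crd (X i)) (q q' : Fin n → ∀ j, (Z j).Pt),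
    (∀ a i, OnO (P a i)) ∧
    (∀ g : Gal k, ∃ e : Equiv.Perm (Fin n), ∀ a,
      (∀ i, CjW g (P a i) (P (e a) i)) ∧ ∀ j, Cj g (Q a j) (Q (e a) j)) ∧
    Above v c ∧ Above v' c' ∧ (∀ a, SpM v (P a) (Q a) (p a) (q a)) ∧
    (∀ a, SpM v' (P a) (Q a) (p' a) (q' a)) ∧
    z = difs (fun a => mkP (p a) (q a)) fun a => mkP (p' a) (q' a)

/-- The zero-cycle `z` is the difference between two points of the product of the `X' i` and of the
surfaces which are conjugate under the groups `G i`. -/
def IsAct (X : Fin m → WC k) (Z : Fin l → TS k) (z : PtM m Z →₀ ℚ) : Prop :=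
  ∃ (p : ∀ i, Crd (X i)) (g : ∀ i, El (X i).G) (q : ∀ j, (Z j).Pt), (∀ i, (p i).On) ∧
    z = dif (mkP p q) (mkP (fun i => (p i).act (g i)) q)

/-- The zero-cycles on `X 0 × ⋯ × X (m - 1) × Z 0 × ⋯ × Z (l - 1)`, `X i = X' i / G i`, which are
rationally equivalent to zero, with rational coefficients. -/
def ratEq (X : Fin m → WC k) (Z : Fin l → TS k) : Grp (PtM m Z) :=
  spanQ fun z => IsFam X Z z ∨ IsAct X Z z

/-- The zero-cycles `x` and `y` on the surface `Z` are rationally equivalent (with rational
coefficients). -/
def Equivalent {Z : TS k} (x y : Z.Pt →₀ ℚ) : Prop :=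
  Cong (ratEq (Fin.elim0 : Fin 0 → WC k) fun _ : Fin 1 => Z) (fun z => (Fin.elim0, fun _ => z)) x y

/-- A correspondence over the curve `C` from the surface `Z` to the surface `W` (a relative cycle),
with the values `U` over `Om k` and `u` over `k`, which are zero-cycles. Both surfaces are given by
means of the same curve `E` (so their Jacobian fibrations are isogenous). The correspondence is
given by `φ_Z(q P) ↦ ∑ i, e_i φ_W(p_i P + A_i)` for points `A_i` of `E` (for all points `P` of `E`
except finitely many), it is compatible with the action of the Galois group of `k(t)`, and it is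
compatible with the specialisation, up to rational equivalence: if the point `x` specialises to `z`,
then `u z` is rationally equivalent to the specialisation of the cycle `U x`.

Examples: translations, birational maps, the maps `P ↦ p P + A` (`n = 1`), e.g. from `Z` to its
Jacobian fibration, and their transposes, as rational maps if `Z` is smooth, and as morphisms for
all models; the maps which attach to a point of `Z` the intersection of the fibre of `W` with a
suitable multisection (`p_i = 0`; the points `A_i` are points of the affine curve at which the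
formula for `φ_W` is defined). If `E` has no complex multiplication and `Z` is smooth, then every
relative correspondence acts on the zero-cycles modulo rational equivalence as one of this kind. -/
structure TCor (Z W : TS k) : Type where
  /-- the values on the points over `Om k` -/
  U : Z.PtO → (W.PtO →₀ ℚ)
  /-- the values on the points, up to rational equivalence -/
  u : Z.Pt → (W.Pt →₀ ℚ)
  /-- the number of the terms -/
  n : ℕ
  /-- the coefficients -/
  e : Fin n → ℚ
  /-- the numerators of the degrees of the terms in the direction of the fibres -/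
  p : Fin n → ℤ
  /-- the denominator of the degrees of the terms in the direction of the fibres -/
  q : ℕ
  same : Z.E = W.E
  pos : 0 < q
  gen : IsRel Z.E.Ec Z.G Z.H W.G W.H U e p q
  conj : ∀ (g : Gal k) (x x' : Z.PtO) (R R' : W.PtO), Cj g x x' → Cj g R R' → U x' R' = U x R
  val : ∀ (v : PlO k) (x : Z.PtO) (z : Z.Pt) (sp : W.PtO → W.Pt), Sp v x z →
    (∀ R, Sp v R (sp R)) → Equivalent (u z) ((U x).mapDomain sp)

/-- the degree of the zero-cycles `u z`; the coefficient in the pull-back of functions and of
differentials on the curve `C` -/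
def TCor.d {Z W : TS k} (u : TCor Z W) : ℚ := ∑ i, u.e i

/-- the coefficient in the pull-back of the forms `ω ∧ dx / y` -/
def TCor.top {Z W : TS k} (u : TCor Z W) : ℚ := ∑ i, u.e i * u.p i / u.q

/-- A map from `Z 0 × ⋯ × Z (l - 1)` to the surface `W`: a constant, or the projection to the factor
with number `i` followed by a correspondence over the curve. -/
inductive CompT (Z : Fin l → TS k) (W : TS k) : Type
  | const (w : W.Pt) : CompT Z W
  | fac (i : Fin l) (u : TCor (Z i) W) : CompT Z W

/-- The families of such components. -/
abbrev MorT (Z : Fin l → TS k) (W : Fin l' → TS k) : Type := ∀ j, CompT Z (W j)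

/-- The correspondences between products: pairs of a morphism between the products of the factors of
the class `WC` and of a family of components for the surfaces of the class `TS`. -/
abbrev MorM (X : Fin m → WC k) (Z : Fin l → TS k) (Y : Fin m' → WC k) (W : Fin l' → TS k) :
    Type 1 := Mor X Y × MorT Z W

variable {X : Fin m → WC k} {Z : Fin l → TS k} {Y : Fin m' → WC k} {W : Fin l' → TS k}

/-- The value of the component at a point. -/
def CompT.cyc {V : TS k} (f : CompT Z V) (x : ∀ j, (Z j).Pt) : V.Pt →₀ ℚ :=
  match f with
  | .const w => Finsupp.single w 1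
  | .fac i u => u.u (x i)

/-- The value of the correspondence at a point. -/
def MorM.cyc (f : MorM X Z Y W) (p : PtM m Z) : PtM m' W →₀ ℚ :=
  (prodC fun j => (f.2 j).cyc p.2).mapDomain fun w => (Mor.app f.1 p.1, w)

/-- The push-forward of the zero-cycle `z` by the combination `γ` of correspondences. -/
def push (γ : MorM X Z Y W →₀ ℚ) (z : PtM m Z →₀ ℚ) : PtM m' W →₀ ℚ := bil MorM.cyc γ z

/-- The number of the factor of a non-constant component. -/
def CompT.src {V : TS k} : CompT Z V → Option (Fin l)
  | .const _ => none
  | .fac i _ => some i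

/-- The coefficient in the pull-back of functions. -/
def CompT.d {V : TS k} : CompT Z V → ℚ
  | .const _ => 1
  | .fac _ u => u.d

/-- The coefficient in the pull-back of the forms `ω ∧ dx / y`. -/
def CompT.top {V : TS k} : CompT Z V → ℚ
  | .const _ => 0
  | .fac _ u => u.top

/-- the base curves -/
abbrev curs (Z : Fin l → TS k) (j : Fin l) : WC k := (Z j).E.cur

/-- The map of the base curves given by a component. -/
def CompT.base {V : TS k} : CompT Z V → Comp (curs Z) V.E.cur
  | .const w => .const (crd _ _ _ (V.bas w)) (crd_on _ _ _ (V.bas w))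
  | .fac i u => .fac i (congrArg EL.cur u.same) fun _ => 1

/-- The morphism between the products of the base curves. -/
def MorT.base (f : MorT Z W) : Mor (curs Z) (curs W) := fun j => (f j).base

/-- The indices of a part of a basis of the holomorphic forms on (a resolution of) the product of
the surfaces `Z j`. For a set `S` and numbers `b j` this is the product, over all `j` in `S`, of the
`2`-forms `ω_(j, b j) ∧ dx / y` on `Z j`, where `ω_(j, b)`, `b < deg D + g - 1`, is a basis of the
space of the differentials `ω` on `C` with `div ω + D ≥ 0`. (We put `b j = 0` if `j` is not in `S`.)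
-/
def IsFormT (Z : Fin l → TS k) (S : Finset (Fin l)) (b : Fin l → ℕ) : Prop :=
  (∀ j ∈ S, (b j : ℤ) + 2 ≤ deg (Z j).E.D + genus k (Z j).E.L) ∧ ∀ j ∉ S, b j = 0

/-- The components with numbers in `S'` induce a bijection from `S'` to `S` which is compatible with
the data. -/
def Match (f : MorT Z W) (S : Finset (Fin l)) (b : Fin l → ℕ) (S' : Finset (Fin l'))
    (b' : Fin l' → ℕ) : Prop :=
  (∀ j ∈ S', ∃ i ∈ S, (f j).src = some i ∧ b i = b' j) ∧
    ∀ i ∈ S, ∃! j, j ∈ S' ∧ (f j).src = some i

/-- The coefficient of the form `(S, b)` in the pull-back of the form `(S', b')`. It is zero if a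
component with number `j` in `S'` is constant, or if two such components have the same factor.
Otherwise it is a product of degrees if these components induce a bijection from `S'` to `S` which
is compatible with the data, and `0` if not. -/
def pullT (f : MorT Z W) (S : Finset (Fin l)) (b : Fin l → ℕ) (S' : Finset (Fin l'))
    (b' : Fin l' → ℕ) : ℚ :=
  if Match f S b S' b' then (∏ j ∈ S', (f j).top) * ∏ j ∈ S'ᶜ, (f j).d else 0

/-- The indices `(T, a), (B, c), (S, b)` of a basis of the holomorphic `ν`-forms on the product of
the `X j` and of the `Z j`: the products of a form `(T, a)` on the product of the `X j`, the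
pull-back of a form `(B, c)` on the product of the base curves of the `Z j`, and a form `(S, b)` on
the product of the `Z j`, for disjoint sets `B` and `S` of factors. -/
structure IsFormM (X : Fin m → WC k) (Z : Fin l → TS k) (T : Finset (Fin m × Option ℕ))
    (a : Fin m → ℕ) (B : Finset (Fin l × Option ℕ)) (c : Fin l → ℕ) (S : Finset (Fin l))
    (b : Fin l → ℕ) (ν : ℕ) : Prop where
  first : IsForm X T a
  second : IsForm (curs Z) B c
  third : IsFormT Z S b
  disj : ∀ j ∈ S, (j, none) ∉ B
  degree : wt X T + wt (curs Z) B + 2 * S.card = ν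

/-- The correspondence `γ` acts as zero on the holomorphic `ν`-forms. -/
def KillsForms (γ : MorM X Z Y W →₀ ℚ) (ν : ℕ) : Prop :=
  ∀ (T : Finset (Fin m × Option ℕ)) (a : Fin m → ℕ) (B : Finset (Fin l × Option ℕ))
    (c : Fin l → ℕ) (S : Finset (Fin l)) (b : Fin l → ℕ) (T' : Finset (Fin m' × Option ℕ))
    (a' : Fin m' → ℕ) (B' : Finset (Fin l' × Option ℕ)) (c' : Fin l' → ℕ)
    (S' : Finset (Fin l')) (b' : Fin l' → ℕ),
    IsFormM X Z T a B c S b ν → IsFormM Y W T' a' B' c' S' b' ν →
      (γ.sum fun f e => e * (pullCoef f.1 T a T' a' * pullCoef (MorT.base f.2) B c B' c' *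
        pullT f.2 S b S' b')) = 0

/-- A function which attaches to every product of varieties of the class `WC` and of surfaces of the
class `TS` and to every `ν` a group of zero-cycles on the product. -/
abbrev Filtration (k : Type) [Field k] : Type 1 :=
  ∀ (m : ℕ) (_ : Fin m → WC k) (l : ℕ) (Z : Fin l → TS k), ℕ → Grp (PtM m Z)

/-- The properties of a Bloch-Beilinson filtration of the zero-cycles on all products of varieties
of the class `WC` and of surfaces of the class `TS`, without those of `F¹` and `F²`. -/
structure Conds (Φ : Filtration k) : Prop where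
  /-- a filtration of the zero-cycles modulo rational equivalence -/
  mod : ∀ (m : ℕ) (X : Fin m → WC k) (l : ℕ) (Z : Fin l → TS k) (ν : ℕ) (z : PtM m Z →₀ ℚ),
    In (ratEq X Z) z → In (Φ m X l Z ν) z
  /-- it is decreasing -/
  anti : ∀ (m : ℕ) (X : Fin m → WC k) (l : ℕ) (Z : Fin l → TS k) (ν : ℕ) (z : PtM m Z →₀ ℚ),
    In (Φ m X l Z (ν + 1)) z → In (Φ m X l Z ν) z
  /-- 1: `F⁰` is everything -/
  zero : ∀ (m : ℕ) (X : Fin m → WC k) (l : ℕ) (Z : Fin l → TS k) (z : PtM m Z →₀ ℚ),
    In (Φ m X l Z 0) z ↔ Supp (fun p => OnP X p.1) z
  /-- 2: `F^(dim + 1) = 0` -/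
  top : ∀ (m : ℕ) (X : Fin m → WC k) (l : ℕ) (Z : Fin l → TS k) (z : PtM m Z →₀ ℚ),
    In (Φ m X l Z ((∑ j, (X j).dim) + 2 * l + 1)) z → In (ratEq X Z) z
  /-- 3: correspondences respect the filtration -/
  map : ∀ (m : ℕ) (X : Fin m → WC k) (l : ℕ) (Z : Fin l → TS k)
    (m' : ℕ) (Y : Fin m' → WC k) (l' : ℕ) (W : Fin l' → TS k) (ν : ℕ)
    (γ : MorM X Z Y W →₀ ℚ) (z : PtM m Z →₀ ℚ),
      In (Φ m X l Z ν) z → In (Φ m' Y l' W ν) (push γ z)
  /-- 4: a correspondence which is zero on the holomorphic `ν`-forms is zero on `gr^ν` -/
  grad : ∀ (m : ℕ) (X : Fin m → WC k) (l : ℕ) (Z : Fin l → TS k)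
    (m' : ℕ) (Y : Fin m' → WC k) (l' : ℕ) (W : Fin l' → TS k) (ν : ℕ)
    (γ : MorM X Z Y W →₀ ℚ) (z : PtM m Z →₀ ℚ), KillsForms γ ν →
      In (Φ m X l Z ν) z → In (Φ m' Y l' W (ν + 1)) (push γ z)

/-- The images of the points of `z` under the map `f` to the curve `C` form a zero-cycle which is
rationally equivalent to zero. -/
def IsNull (C : WC k) {Z : Fin l → TS k} (f : PtM m Z → WFC.Pt k) (z : PtM m Z →₀ ℚ) : Prop :=
  MapIn (ratEq (fun _ : Fin 1 => C) (Fin.elim0 : Fin 0 → TS k))
    (fun p => (fun _ => f p, fun j => j.elim0)) z

/-- The properties of a Bloch-Beilinson filtration of the zero-cycles on all products of varieties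
of the class `WC` and of surfaces of the class `TS`. -/
structure IsBB (Φ : Filtration k) : Prop extends Conds Φ where
  /-- 1: `F¹` is the part of degree zero -/
  one : ∀ (m : ℕ) (X : Fin m → WC k) (l : ℕ) (Z : Fin l → TS k) (z : PtM m Z →₀ ℚ),
    In (Φ m X l Z 1) z ↔ Supp (fun p => OnP X p.1) z ∧ dg z = 0
  /-- 1: `F²` is the kernel of the Albanese map, i.e. of the maps to the zero-cycles on the base
  curves of all factors -/
  two : ∀ (m : ℕ) (X : Fin m → WC k) (l : ℕ) (Z : Fin l → TS k) (z : PtM m Z →₀ ℚ),
    In (Φ m X l Z 2) z ↔ In (Φ m X l Z 1) z ∧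
      (∀ j, IsNull (bsW (X j)) (fun p => bsP (p.1 j)) z) ∧
      ∀ j, IsNull (Z j).E.cur (fun p => (Z j).E.pt ((Z j).bas (p.2 j))) z

end Pool.Agent.QTC
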