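import Pool.Agent.GT.Curve

/-!
# Points of large order on elliptic curves

The multiplication by `2` is surjective on the points of an elliptic curve over an algebraically
closed field, so there are points `T j` of order `2 ^ (j + 1)`, and for `c ≠ 0` a finite set
contains the point `c T j + A` only for finitely many `j`.
-/

set_option autoImplicit false

noncomputable section

namespace Pool.Agent.QTC

open Pool.Agent.GT
open WeierstrassCurve.Affine
open scoped Classical

variable {K : Type} [Field K] [IsAlgClosed K] [CharZero K] {α B : K}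

omit [IsAlgClosed K] in
private theorem Tors_quartic (hd : B ^ 2 ≠ 4 * α ^ 3) {x₀ x y : K}
    (hy : y ^ 2 = x ^ 3 - 3 * α * x + B)
    (hx : (3 * x ^ 2 - 3 * α) ^ 2 - 8 * x * y ^ 2 - 4 * x₀ * y ^ 2 = 0) : y ≠ 0 := by
  rintro rfl
  have h1 : (3 * x ^ 2 - 3 * α) ^ 2 = 0 := by
    rw [← hx]
    ring
  have h2 : x ^ 2 = α := by
    have h3 := pow_eq_zero_iff (two_ne_zero) |>.1 h1
    have h4 : (3 : K) * (x ^ 2 - α) = 0 := by
      rw [← h3]
      ring
    have h5 := (mul_eq_zero.1 h4).resolve_left (by norm_num)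
    exact sub_eq_zero.1 h5
  apply hd
  subst h2
  have h3 : B = 2 * x ^ 3 := by
    have h4 : (0 : K) = x ^ 3 - 3 * x ^ 2 * x + B := by
      rw [← hy]
      ring
    linear_combination (-1 : K) * h4
  rw [h3]
  ring

private theorem Tors_root (α B x₀ : K) : ∃ x : K,
    x ^ 4 - 4 * x₀ * x ^ 3 + 6 * α * x ^ 2 - (8 * B - 12 * x₀ * α) * x +
      (9 * α ^ 2 - 4 * x₀ * B) = 0 := by
  let p : Polynomial K := Polynomial.X ^ 4 + (Polynomial.C (-(4 * x₀)) * Polynomial.X ^ 3 +
    Polynomial.C (6 * α) * Polynomial.X ^ 2 + Polynomial.C (-(8 * B - 12 * x₀ * α)) *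
      Polynomial.X + Polynomial.C (9 * α ^ 2 - 4 * x₀ * B))
  have hp : p.degree = 4 := by
    simp only [p]
    compute_degree!
  obtain ⟨x, hx⟩ := IsAlgClosed.exists_root p (by rw [hp]; norm_num)
  refine ⟨x, ?_⟩
  have h1 : p.eval x = 0 := hx
  simp only [p, Polynomial.eval_add, Polynomial.eval_mul, Polynomial.eval_pow, Polynomial.eval_X,
    Polynomial.eval_C] at h1
  linear_combination h1

/-- the multiplication by `2` is surjective -/
theorem exists_two_nsmul (hd : B ^ 2 ≠ 4 * α ^ 3) (P : (Ec α B).Point) :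
    ∃ Q : (Ec α B).Point, 2 • Q = P := by
  cases P with
  | zero => exact ⟨0, nsmul_zero 2⟩
  | some x₀ y₀ h₀ =>
    have e₀ := eqn_iff.1 h₀.1
    obtain ⟨x, hx⟩ := Tors_root α B x₀
    obtain ⟨y, hy⟩ := IsAlgClosed.exists_pow_nat_eq (x ^ 3 - 3 * α * x + B) (n := 2) two_pos
    have hx' : (3 * x ^ 2 - 3 * α) ^ 2 - 8 * x * y ^ 2 - 4 * x₀ * y ^ 2 = 0 := by
      rw [hy]
      linear_combination hx
    have hy0 : y ≠ 0 := Tors_quartic hd hy hx'
    have h := nonsing hd hy
    have hne : y ≠ (Ec α B).negY x y := by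
      simp only [negY]
      intro h1
      apply hy0
      have h2 : (2 : K) * y = 0 := by linear_combination h1
      exact (mul_eq_zero.1 h2).resolve_left (by norm_num)
    have h2 : (Ec α B).addX x x ((Ec α B).slope x x y y) = x₀ := by
      rw [slope_of_Y_ne rfl hne]
      simp only [addX, negY]
      have h3 : (y - (-y - 0 * x - 0)) = 2 * y := by ring
      rw [h3]
      have h4 : (2 : K) * y ≠ 0 := mul_ne_zero (by norm_num) hy0
      field_simp
      linear_combination hx'
    obtain ⟨X, Y, hns, h1, rfl⟩ : ∃ (X Y : K) (hns : (Ec α B).Nonsingular X Y),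
        (Point.some x y h : (Ec α B).Point) + .some x y h = .some X Y hns ∧ X = x₀ :=
      ⟨_, _, _, Point.add_self_of_Y_ne hne, h2⟩
    have e₁ := eqn_iff.1 hns.1
    have h5 : Y = y₀ ∨ Y = -y₀ := sq_eq_sq_iff_eq_or_eq_neg.1 (e₁.trans e₀.symm)
    rcases h5 with rfl | rfl
    · exact ⟨.some x y h, by rw [two_nsmul, h1]⟩
    · refine ⟨-.some x y h, ?_⟩
      rw [two_nsmul, ← neg_add, h1, Point.neg_some]
      simp only [negY, Ec, Point.some.injEq, true_and]
      ring

/-- there is a point of order `2` -/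
theorem exists_order_two (hd : B ^ 2 ≠ 4 * α ^ 3) :
    ∃ P : (Ec α B).Point, P ≠ 0 ∧ 2 • P = 0 := by
  let p : Polynomial K := Polynomial.X ^ 3 + (Polynomial.C (-(3 * α)) * Polynomial.X +
    Polynomial.C B)
  have hp : p.degree = 3 := by
    simp only [p]
    compute_degree!
  obtain ⟨x, hx⟩ := IsAlgClosed.exists_root p (by rw [hp]; norm_num)
  have h1 : p.eval x = 0 := hx
  simp only [p, Polynomial.eval_add, Polynomial.eval_mul, Polynomial.eval_pow, Polynomial.eval_X,
    Polynomial.eval_C] at h1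
  have h2 : (0 : K) ^ 2 = x ^ 3 - 3 * α * x + B := by linear_combination -h1
  refine ⟨.some x 0 (nonsing hd h2), ?_, ?_⟩
  · intro h
    cases h
  · rw [two_nsmul]
    refine Point.add_self_of_Y_eq ?_
    simp [negY]

/-- **Points of large order.** -/
theorem exists_seq (hd : B ^ 2 ≠ 4 * α ^ 3) : ∃ T : ℕ → (Ec α B).Point, ∀ c : ℤ, c ≠ 0 →
    ∀ (A : (Ec α B).Point) (F : Set (Ec α B).Point), F.Finite →
      {j : ℕ | c • T j + A ∈ F}.Finite := by
  obtain ⟨P, hP, hP2⟩ := exists_order_two hd
  choose half hhalf using exists_two_nsmul hd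
  let T : ℕ → (Ec α B).Point := fun j => half^[j] P
  have h1 : ∀ j, 2 ^ j • T j = P := by
    intro j
    induction j with
    | zero => simp [T]
    | succ j ih =>
      have h2 : T (j + 1) = half (T j) := Function.iterate_succ_apply' half j P
      rw [h2, pow_succ, mul_smul, hhalf, ih]
  have h2 : ∀ i j, i < j → 2 ^ j • T i = 0 := by
    intro i j hij
    obtain ⟨d, rfl⟩ := Nat.exists_eq_add_of_lt hij
    have h3 : 2 ^ (i + d + 1) = 2 ^ d * (2 * 2 ^ i) := by ring
    rw [h3, mul_smul, mul_smul, h1, hP2, nsmul_zero]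
  refine ⟨T, fun c hc A F hF => ?_⟩
  have h3 : Set.InjOn (fun j : ℕ => c • T j + A) {j | c.natAbs ≤ j} := by
    have key : ∀ i j : ℕ, i < j → c.natAbs ≤ j → c • T i + A ≠ c • T j + A := by
      intro i j hij hj he
      have h4 : c • (T i - T j) = 0 := by
        rw [zsmul_sub, add_right_cancel he, sub_self]
      have h5 : addOrderOf (T i - T j) = 2 ^ (j + 1) := by
        refine addOrderOf_eq_prime_pow (p := 2) ?_ ?_
        · rw [nsmul_sub, h2 i j hij, h1, zero_sub, neg_eq_zero]
          exact hP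
        · rw [nsmul_sub, h2 i (j + 1) (by omega), h2 j (j + 1) (by omega), sub_self]
      have h6 := addOrderOf_dvd_iff_zsmul_eq_zero.2 h4
      rw [h5] at h6
      have h7 := Int.natAbs_dvd_natAbs.2 h6
      rw [Int.natAbs_natCast] at h7
      have h8 := Nat.le_of_dvd (Int.natAbs_pos.2 hc) h7
      have h9 : j + 1 < 2 ^ (j + 1) := Nat.lt_two_pow_self
      omega
    intro i hi j hj hij
    rcases lt_trichotomy i j with h | h | h
    · exact absurd hij (key i j h hj)
    · exact h
    · exact absurd hij.symm (key j i h hi)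
  have h4 : ({j : ℕ | c.natAbs ≤ j} ∩ (fun j : ℕ => c • T j + A) ⁻¹' F).Finite :=
    Set.Finite.of_finite_image (hF.subset (by rintro _ ⟨j, hj, rfl⟩; exact hj.2))
      (h3.mono Set.inter_subset_left)
  refine (h4.union (Set.finite_lt_nat c.natAbs)).subset fun j hj => ?_
  rcases le_or_gt c.natAbs j with h | h
  · exact Or.inl ⟨h, hj⟩
  · exact Or.inr h

end Pool.Agent.QTC
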