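import Pool.Agent.QTC.PushM
import Pool.Agent.QTC.Tors
import Pool.Agent.KEx.Top
import Pool.Agent.GT.IsoT

/-!
# The push-forward by correspondences between the surfaces

`pushS u` is the push-forward of the classes of zero-cycles by the correspondence `u`. `pushS_hh`:
the classes `hh v P` are multiplied by `u.top`. `push_gamma`: maps which are constant on the fibres
are multiplied by `u.d`. `clS_sub_avg`: the difference of a point of a fibre and an average of
points of the same fibre is a combination of the classes `hh v P`.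
-/

set_option autoImplicit false

noncomputable section

namespace Pool.Agent.QTC

open Pool.Agent.ZCyc Pool.Agent.WFC
open Pool.Agent.VFP (Om tt)
open scoped Classical

variable {k : Type} [Field k] [IsAlgClosed k] [CharZero k]

/-- the degree of a zero-cycle on a surface -/
def degS (W : TS k) : V1 W →ₗ[ℚ] ℚ :=
  (ratEq (e0 k) fun _ : Fin 1 => W).liftQ
    (Finsupp.linearCombination ℚ fun _ : PtM 0 (fun _ : Fin 1 => W) => (1 : ℚ)) (fun z hz => by
      rw [LinearMap.mem_ker, Finsupp.linearCombination_apply]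
      simpa using (ratEq_supp hz).2)

theorem degS_clS (W : TS k) (w : W.Pt) : degS W (clS W w) = 1 := by
  unfold degS clS clT cl
  rw [Submodule.liftQ_apply, Finsupp.linearCombination_single, one_smul]

omit [CharZero k] in
/-- the value of a limit -/
theorem br_lmp {W : TS k} (br : GT.CH W.X Unit →ₗ[ℚ] V1 W)
    (hbr : ∀ w : W.Pt, br (GT.cl1 W.X (Finsupp.single w 1)) = clS W w) {α B : Om k}
    (hM : W.M.Ok α B W.X) (v : Place k (Om k)) {P : (GT.Ec α B).Point} (hP : W.M.Ns P) :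
    br (GT.lmp W.hom hM v P) = clS W (GT.pv W.hom v (GT.phi W.hom hM P hP)) := by
  have h1 : GT.cyc W.hom hM P = Finsupp.single (GT.phi W.hom hM P hP) 1 := dif_pos hP
  unfold GT.lmp
  rw [h1, ← hbr]
  congr 1
  change GT.lim W.hom v (Finsupp.mapDomain (fun x _ => x) (Finsupp.single _ 1)) =
    Submodule.Quotient.mk (Finsupp.mapDomain (fun x _ => x) (Finsupp.single _ 1))
  rw [Finsupp.mapDomain_single, Finsupp.mapDomain_single, GT.lim_single]

/-- `brS` of a point -/
theorem brS_cl1_single (W : TS k) (w : W.Pt) :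
    brS W (GT.cl1 W.X (Finsupp.single w 1)) = clS W w := by
  rw [brS_cl1, mkS_single, one_smul]

/-- the push-forward of classes by a correspondence -/
def pushS {Z W : TS k} (u : TCor Z W) : V1 Z →ₗ[ℚ] V1 W :=
  pushV (X := e0 k) (Y := e0 k) (Z := fun _ : Fin 1 => Z) (W := fun _ : Fin 1 => W)
    ((fun j => j.elim0 : Mor (e0 k) (e0 k)), fun _ => CompT.fac 0 u)

theorem mulT_mkS (W : TS k) (a : W.Pt →₀ ℚ) :
    times (e0 k) (fun _ : Fin 1 => W) (clP (e0 k) (p0 k))
      (mulT (fun _ : Fin 1 => W) fun _ => mkS W a) = mkS W a := by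
  have h0 : OnP (e0 k) (p0 k) := fun i => i.elim0
  have key : (times (e0 k) (fun _ : Fin 1 => W) (clP (e0 k) (p0 k))).comp
      (((mulT (fun _ : Fin 1 => W)).toLinearMap (fun _ => 0) 0).comp (mkS W)) = mkS W := by
    refine Finsupp.lhom_ext fun w b => ?_
    have h1 : (Function.update (fun _ : Fin 1 => (0 : V1 W)) 0 (clS W w)) = fun _ => clS W w := by
      funext j
      rw [Subsingleton.elim j 0, Function.update_self]
    rw [LinearMap.comp_apply, LinearMap.comp_apply, mkS_single, map_smul, map_smul]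
    congr 1
    rw [MultilinearMap.toLinearMap_apply, h1, mulT_cl (Z := fun _ : Fin 1 => W) fun _ => w,
      times_cl h0]
    rfl
  have h1 := LinearMap.congr_fun key a
  rw [LinearMap.comp_apply, LinearMap.comp_apply, MultilinearMap.toLinearMap_apply] at h1
  have h2 : (Function.update (fun _ : Fin 1 => (0 : V1 W)) 0 (mkS W a)) = fun _ => mkS W a := by
    funext j
    rw [Subsingleton.elim j 0, Function.update_self]
  rwa [h2] at h1

theorem pushS_clS {Z W : TS k} (u : TCor Z W) (z : Z.Pt) :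
    pushS u (clS Z z) = mkS W (u.u z) := by
  unfold pushS clS clT
  rw [pushV_cl, mk_cyc _ fun i => i.elim0, ← mulT_mkS]
  have h1 : Mor.app (fun j => j.elim0 : Mor (e0 k) (e0 k)) (p0 k) = p0 k :=
    Subsingleton.elim _ _
  simp only [h1]
  rfl

omit [IsAlgClosed k] [CharZero k] in
/-- the coefficients of the curves are the same -/
theorem TCor.ha {Z W : TS k} (u : TCor Z W) : Z.E.A = W.E.A := by
  rw [u.same]

omit [IsAlgClosed k] [CharZero k] in
/-- the coefficients of the curves are the same -/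
theorem TCor.hb {Z W : TS k} (u : TCor Z W) : Z.E.B = W.E.B := by
  rw [u.same]

omit [IsAlgClosed k] [CharZero k] in
/-- the map of the surface `W`, as a map from the curve of `Z` -/
theorem okW {Z W : TS k} (u : TCor Z W) : W.M.Ok Z.E.A Z.E.B W.X := by
  rw [u.ha, u.hb]
  exact W.fib.ok

/-- the points of the generic fibre -/
def Gen {Z : TS k} (R : Z.PtO) : Prop :=
  ∃ (P : (GT.Ec Z.E.A Z.E.B).Point) (h : Z.M.Ns P),
    R = GT.phi Z.fib.hom Z.fib.ok P h

/-- the point `z` is a value of a point of the generic fibre at the place `v` -/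
def Over {Z : TS k} (v : Place k (Om k)) (z : Z.Pt) : Prop :=
  ∃ R : Z.PtO, Gen R ∧ GT.IsVal v R z

/-- every point is a value of a point of the generic fibre -/
theorem exists_over {Z : TS k} (z : Z.Pt) : ∃ v : Place k (Om k), Over v z := by
  obtain ⟨v, x, y, hxy, hne, hv⟩ := KAll.exists_value Z.fib.toFam z
  have hN : Z.M.Ns (.some x y (GT.nonsing Z.fib.ok.disc hxy) :
      (GT.Ec Z.E.A Z.E.B).Point) := hne
  refine ⟨v, _, ⟨_, hN, rfl⟩, ?_⟩
  exact (GT.isVal_iff hne z.1.rep_nonzero rfl (Projectivization.mk_rep z.1).symm).2 hv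

theorem brS_lmp_over {Z : TS k} {v : Place k (Om k)} {z : Z.Pt}
    {P : (GT.Ec Z.E.A Z.E.B).Point} (h : Z.M.Ns P)
    (hz : GT.IsVal v (GT.phi Z.fib.hom Z.fib.ok P h) z) :
    brS Z (GT.lmp Z.fib.hom Z.fib.ok v P) = clS Z z := by
  rw [br_lmp (brS Z) (brS_cl1_single Z) Z.fib.ok v h,
    GT.isVal_unique (GT.pv_spec Z.fib.hom v _) hz]

/-- the points of a fibre -/
theorem clS_sub_over {Z : TS k} {v : Place k (Om k)} {z z' : Z.Pt} (hz : Over v z)
    (hz' : Over v z') : ∃ P, clS Z z - clS Z z' = hh Z v P := by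
  obtain ⟨_, ⟨P, h, rfl⟩, hz⟩ := hz
  obtain ⟨_, ⟨P', h', rfl⟩, hz'⟩ := hz'
  refine ⟨P - P', ?_⟩
  rw [hh_apply, ← GT.hV_spec Z.fib.hom Z.fib.ok v (P := P - P') (Q := P') h'
    (by rwa [sub_add_cancel]), sub_add_cancel, map_sub, brS_lmp_over h hz, brS_lmp_over h' hz']

/-- the classes of the limit homomorphisms are differences of points of a fibre -/
theorem hh_over (Z : TS k) (v : Place k (Om k)) (P : (GT.Ec Z.E.A Z.E.B).Point) :
    ∃ z z' : Z.Pt, Over v z ∧ Over v z' ∧ hh Z v P = clS Z z - clS Z z' := by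
  have hinf := GT.infinite_points Z.fib.ok.disc
  obtain ⟨Q, hQ⟩ := ((GT.finite_bad (α := Z.E.A) (B := Z.E.B) Z.fib.ok.ne).union
    ((GT.finite_bad (α := Z.E.A) (B := Z.E.B) Z.fib.ok.ne).preimage
      (f := fun Q => P + Q) (add_right_injective P).injOn)).exists_notMem
  have h1 : Z.M.Ns Q := by
    by_contra hc
    exact hQ (Or.inl hc)
  have h2 : Z.M.Ns (P + Q) := by
    by_contra hc
    exact hQ (Or.inr hc)
  refine ⟨GT.pv Z.fib.hom v (GT.phi Z.fib.hom Z.fib.ok (P + Q) h2),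
    GT.pv Z.fib.hom v (GT.phi Z.fib.hom Z.fib.ok Q h1),
    ⟨_, ⟨_, h2, rfl⟩, GT.pv_spec _ v _⟩, ⟨_, ⟨_, h1, rfl⟩, GT.pv_spec _ v _⟩, ?_⟩
  rw [hh_apply, ← GT.hV_spec Z.fib.hom Z.fib.ok v h1 h2, map_sub,
    brS_lmp_over h2 (GT.pv_spec _ v _), brS_lmp_over h1 (GT.pv_spec _ v _)]

variable {Z W : TS k} (u : TCor Z W)

omit [IsAlgClosed k] [CharZero k] in
private theorem TM_rep {K : Type} [Field K] [Algebra k K] {m : ℕ}
    {X : Set (MvPolynomial (Fin (m + 1)) k)} (hX : GT.Hom X) {a : Fin (m + 1) → K} (ha : a ≠ 0)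
    (h : ∀ f ∈ X, MvPolynomial.aeval a f = 0) :
    ∃ c : K, ∀ i, (GT.mkPt hX a ha h).1.rep i = c * a i := by
  obtain ⟨c, hc⟩ := Projectivization.exists_smul_eq_mk_rep K a ha
  refine ⟨c, fun i => ?_⟩
  change (Projectivization.mk K a ha).rep i = c * a i
  rw [← hc]
  rfl

omit [IsAlgClosed k] [CharZero k] in
private theorem TM_eq {K : Type} [Field K] [Algebra k K] {m : ℕ}
    {X : Set (MvPolynomial (Fin (m + 1)) k)} (hX : GT.Hom X) {a : Fin (m + 1) → K} (ha : a ≠ 0)
    (h : ∀ f ∈ X, MvPolynomial.aeval a f = 0) (R : GT.Pt X K)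
    (hR : ∃ c : K, ∀ i, R.1.rep i = c * a i) : R = GT.mkPt hX a ha h := by
  obtain ⟨c, hc⟩ := hR
  apply Subtype.ext
  change R.1 = Projectivization.mk K a ha
  rw [← Projectivization.mk_rep R.1, Projectivization.mk_eq_mk_iff']
  exact ⟨c, funext fun i => (hc i).symm⟩

/-- the value at a good point of the curve: condition `gen` at `P` -/
private def TM_gen (A : Fin u.n → Z.E.Ec.Point) (P : Z.E.Ec.Point) : Prop :=
  ∀ R : Z.PtO, IsPhi Z.G Z.H (u.q • P) R → ∃ R' : Fin u.n → W.PtO,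
    (∀ i, IsPhi W.G W.H (u.p i • P + A i) (R' i)) ∧ u.U R = comb u.e R'

/-- the values of the map at a good point -/
private theorem TM_val {A : Fin u.n → (GT.Ec Z.E.A Z.E.B).Point}
    {P : (GT.Ec Z.E.A Z.E.B).Point} (hP : TM_gen u A P) (h1 : Z.M.Ns (u.q • P)) :
    ∃ T : Fin u.n → W.PtO, (∀ i, Gen (T i) ∧ ∃ h2 : W.M.Ns (u.p i • P + A i),
      T i = GT.phi W.fib.hom (okW u) (u.p i • P + A i) h2) ∧
        ∀ (v : Place k (Om k)) (w : Fin u.n → W.Pt), (∀ i, GT.IsVal v (T i) (w i)) →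
          pushS u (clS Z (GT.pv Z.fib.hom v (GT.phi Z.fib.hom Z.fib.ok (u.q • P) h1))) =
            ∑ i, u.e i • clS W (w i) := by
  have key : ∃ T : Fin u.n → W.PtO, (∀ i, Gen (T i) ∧ ∃ h2 : W.M.Ns (u.p i • P + A i),
      T i = GT.phi W.fib.hom (okW u) (u.p i • P + A i) h2) ∧
        u.U (GT.phi Z.fib.hom Z.fib.ok (u.q • P) h1) = ∑ i, Finsupp.single (T i) (u.e i) := by
    generalize hQ : u.q • P = Q at h1
    cases Q with
    | zero => exact h1.elim
    | some x y h =>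
      obtain ⟨T, hT, hU⟩ := hP _ ⟨x, y, h, hQ, TM_rep Z.fib.hom h1
        fun f hf => Z.fib.ok.onX f hf x y (GT.eqn_iff.1 h.1)⟩
      refine ⟨T, fun i => ?_, hU⟩
      obtain ⟨x', y', h', hQ', hc⟩ := hT i
      rw [hQ']
      have h3 : co W.G W.H x' y' ≠ 0 := by
        intro h3
        obtain ⟨c, hc⟩ := hc
        refine (T i).1.rep_nonzero (funext fun j => ?_)
        have h4 : (T i).1.rep j = c * co W.G W.H x' y' j := hc j
        rw [h4, h3]
        simp
      have h4 : y' ^ 2 = x' ^ 3 - 3 * W.E.A * x' + W.E.B := by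
        rw [← u.ha, ← u.hb]
        exact GT.eqn_iff.1 h'.1
      have h5 : W.M.Ns (.some x' y' (GT.nonsing W.fib.ok.disc h4) :
          (GT.Ec W.E.A W.E.B).Point) := h3
      exact ⟨⟨_, h5, TM_eq W.fib.hom h3 (fun f hf => W.fib.ok.onX f hf x' y' h4) _ hc⟩, h3,
        TM_eq W.fib.hom h3 (fun f hf => W.fib.ok.onX f hf x' y' h4) _ hc⟩
  obtain ⟨T, hT, hU⟩ := key
  refine ⟨T, hT, fun v w hw => ?_⟩
  choose w' hw' using GT.exists_isVal W.hom v
  rw [pushS_clS, equivalent_iff.1 (u.val v _ _ w' (GT.pv_spec _ v _) hw'), hU,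
    Finsupp.mapDomain_finsetSum, map_sum]
  refine Finset.sum_congr rfl fun i _ => ?_
  rw [Finsupp.mapDomain_single, mkS_single, GT.isVal_unique (hw' (T i)) (hw i)]

/-- **A good point in every fibre.** -/
theorem exists_goodU (v : Place k (Om k)) : ∃ (z : Z.Pt) (w : Fin u.n → W.Pt), Over v z ∧
    (∀ i, Over v (w i)) ∧ pushS u (clS Z z) = ∑ i, u.e i • clS W (w i) := by
  obtain ⟨A, s, hs, hgen⟩ := u.gen
  obtain ⟨T, hT⟩ := exists_seq Z.fib.ok.disc
  have hZ : {P : (GT.Ec Z.E.A Z.E.B).Point | ¬ Z.M.Ns P}.Finite :=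
    GT.finite_bad Z.fib.ok.ne
  have hq : (u.q : ℤ) ≠ 0 := by exact_mod_cast u.pos.ne'
  obtain ⟨i, hi⟩ := ((hT 1 one_ne_zero 0 s hs).union (hT u.q hq 0 _ hZ)).exists_notMem
  simp only [Set.mem_union, Set.mem_ofPred_eq, not_or, not_not, one_smul, add_zero,
    natCast_zsmul] at hi
  obtain ⟨R, hR, h1⟩ := TM_val u (hgen (T i) hi.1) hi.2
  refine ⟨_, fun j => GT.pv W.fib.hom v (R j), ⟨_, ⟨_, hi.2, rfl⟩, GT.pv_spec _ v _⟩,
    fun j => ⟨_, (hR j).1, GT.pv_spec _ v _⟩, h1 v _ fun j => GT.pv_spec _ v _⟩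

/-- the limits of the value of the map at a good point -/
private theorem TM_lmp {A : Fin u.n → (GT.Ec Z.E.A Z.E.B).Point}
    {P : (GT.Ec Z.E.A Z.E.B).Point} (hP : TM_gen u A P) (h1 : Z.M.Ns (u.q • P)) :
    (∀ i, W.M.Ns (u.p i • P + A i)) ∧ ∀ v : Place k (Om k),
      pushS u (brS Z (GT.lmp Z.fib.hom Z.fib.ok v (u.q • P))) =
        ∑ i, u.e i • brS W (GT.lmp W.fib.hom (okW u) v (u.p i • P + A i)) := by
  obtain ⟨T, hT, hU⟩ := TM_val u hP h1
  choose h2 hT using fun i => (hT i).2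
  refine ⟨h2, fun v => ?_⟩
  rw [br_lmp (brS Z) (brS_cl1_single Z) Z.fib.ok v h1, hU v (fun i => GT.pv W.fib.hom v (T i))
    fun i => GT.pv_spec _ v _]
  refine Finset.sum_congr rfl fun i _ => ?_
  rw [br_lmp (brS W) (brS_cl1_single W) (okW u) v (h2 i), hT]

/-- **The limit homomorphisms and the push-forward.** -/
theorem pushS_hV (v : Place k (Om k)) (P : (GT.Ec Z.E.A Z.E.B).Point) :
    pushS u (brS Z (GT.hV Z.fib.hom Z.fib.ok v (u.q • P))) =
      ∑ i, u.e i • brS W (GT.hV W.fib.hom (okW u) v (u.p i • P)) := by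
  obtain ⟨A, s, hs, hgen⟩ := u.gen
  obtain ⟨T, hT⟩ := exists_seq Z.fib.ok.disc
  have hZ : {P : (GT.Ec Z.E.A Z.E.B).Point | ¬ Z.M.Ns P}.Finite :=
    GT.finite_bad Z.fib.ok.ne
  have hq : (u.q : ℤ) ≠ 0 := by exact_mod_cast u.pos.ne'
  obtain ⟨i, hi⟩ := (((hT 1 one_ne_zero 0 s hs).union (hT 1 one_ne_zero P s hs)).union
    ((hT u.q hq 0 _ hZ).union (hT u.q hq (u.q • P) _ hZ))).exists_notMem
  simp only [Set.mem_union, Set.mem_ofPred_eq, not_or, not_not, one_smul, add_zero,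
    natCast_zsmul] at hi
  obtain ⟨⟨h1, h2⟩, h3, h4⟩ := hi
  set Q := T i
  rw [← nsmul_add, add_comm] at h4
  rw [add_comm] at h2
  obtain ⟨n1, e1⟩ := TM_lmp u (hgen Q h1) h3
  obtain ⟨n2, e2⟩ := TM_lmp u (hgen (P + Q) h2) h4
  have e3 := GT.hV_spec Z.fib.hom Z.fib.ok v (P := u.q • P) h3 (by rwa [← nsmul_add])
  have e4 := fun j => GT.hV_spec W.fib.hom (okW u) v (P := u.p j • P) (n1 j) (by
    rw [← add_assoc, ← zsmul_add]
    exact n2 j)
  rw [← e3, ← nsmul_add, map_sub, map_sub, e1, e2, ← Finset.sum_sub_distrib]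
  refine Finset.sum_congr rfl fun j _ => ?_
  rw [← e4, map_sub, smul_sub, ← add_assoc, ← zsmul_add]

/-- **The classes of the limit homomorphisms and the push-forward.** -/
theorem pushS_hh (v : Place k (Om k)) (P : (GT.Ec Z.E.A Z.E.B).Point) :
    pushS u (hh Z v P) = u.top • hh W v (GT.castE u.ha u.hb P) := by
  have h1 : pushS u (hh Z v (u.q • P)) =
      ∑ i, u.e i • hh W v (u.p i • GT.castE u.ha u.hb P) := by
    rw [hh_apply, pushS_hV u]
    refine Finset.sum_congr rfl fun i _ => ?_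
    rw [hh_apply, ← map_zsmul (GT.castE u.ha u.hb)]
    exact congrArg (u.e i • brS W ·) (GT.hV_cast W.fib.hom (okW u) W.fib.ok u.ha u.hb rfl v _)
  have hq : (u.q : ℚ) ≠ 0 := by exact_mod_cast u.pos.ne'
  rw [map_nsmul, map_nsmul, ← Nat.cast_smul_eq_nsmul ℚ] at h1
  have h2 : pushS u (hh Z v P) = (u.q : ℚ)⁻¹ • ((u.q : ℚ) • pushS u (hh Z v P)) := by
    rw [inv_smul_smul₀ hq]
  rw [h2, h1, Finset.smul_sum, TCor.top, Finset.sum_smul]
  refine Finset.sum_congr rfl fun i _ => ?_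
  rw [map_zsmul, ← Int.cast_smul_eq_zsmul ℚ, smul_smul, smul_smul]
  congr 1
  rw [div_eq_inv_mul, mul_assoc]

/-- **Maps which are constant on the fibres.** -/
theorem push_gamma {H : Type*} [AddCommGroup H] [Module ℚ H] (βZ : V1 Z →ₗ[ℚ] H)
    (βW : V1 W →ₗ[ℚ] H) (γ : Place k (Om k) → H)
    (hZ : ∀ (v : Place k (Om k)) (z : Z.Pt), Over v z → βZ (clS Z z) = γ v)
    (hW : ∀ (v : Place k (Om k)) (w : W.Pt), Over v w → βW (clS W w) = γ v) (x : V1 Z) :
    βW (pushS u x) = u.d • βZ x := by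
  have h1 : βW.comp (pushS u) = u.d • βZ := by
    refine VT_ext fun q => ?_
    obtain ⟨v, hv⟩ := exists_over (q 0)
    have hq : clT (fun _ : Fin 1 => Z) q = clS Z (q 0) := by
      unfold clS
      congr 1
      funext j
      rw [Subsingleton.elim j 0]
    obtain ⟨z, w, hz, hw, h⟩ := exists_goodU u v
    obtain ⟨P, hP⟩ := clS_sub_over hv hz
    obtain ⟨w₁, w₂, h1, h2, h3⟩ := hh_over W v (GT.castE u.ha u.hb P)
    have h4 : βW (pushS u (clS Z (q 0))) = βW (pushS u (clS Z z)) := by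
      rw [← sub_eq_zero, ← map_sub, ← map_sub, hP, pushS_hh, map_smul, h3, map_sub, hW v _ h1,
        hW v _ h2, sub_self, smul_zero]
    rw [hq, LinearMap.comp_apply, h4, h, map_sum, LinearMap.smul_apply, hZ v _ hv, TCor.d,
      Finset.sum_smul]
    refine Finset.sum_congr rfl fun i _ => ?_
    rw [map_smul, hW v _ (hw i)]
  exact LinearMap.congr_fun h1 x

/-- the degree of the push-forward -/
theorem degS_pushS (x : V1 Z) : degS W (pushS u x) = u.d * degS Z x :=
  push_gamma u (degS Z) (degS W) (fun _ => 1) (fun _ z _ => degS_clS Z z)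
    (fun _ w _ => degS_clS W w) x

/-- a point of a fibre and an average of points of the same fibre -/
theorem clS_sub_avg {v : Place k (Om k)} {z : Z.Pt} (hz : Over v z) {n : ℕ} (hn : 0 < n)
    {b : Fin n → Z.Pt} (hb : ∀ i, Over v (b i)) :
    clS Z z - (n : ℚ)⁻¹ • ∑ i, clS Z (b i) ∈
      Submodule.span ℚ (Set.range fun x : Place k (Om k) ×
        (GT.Ec Z.E.A Z.E.B).Point => hh Z x.1 x.2) := by
  have hn' : (n : ℚ) ≠ 0 := by exact_mod_cast hn.ne'
  have h1 : clS Z z - (n : ℚ)⁻¹ • ∑ i, clS Z (b i) =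
      ∑ i, (n : ℚ)⁻¹ • (clS Z z - clS Z (b i)) := by
    rw [← Finset.smul_sum, Finset.sum_sub_distrib, Finset.sum_const, Finset.card_univ,
      Fintype.card_fin, smul_sub, ← Nat.cast_smul_eq_nsmul ℚ, inv_smul_smul₀ hn']
  rw [h1]
  refine Submodule.sum_mem _ fun i _ => Submodule.smul_mem _ _ ?_
  obtain ⟨P, hP⟩ := clS_sub_over hz (hb i)
  rw [hP]
  exact Submodule.subset_span ⟨(v, P), rfl⟩

end Pool.Agent.QTC
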