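import Pool.Agent.QTC.MixC
import Pool.Agent.QTC.TM

/-!
# The fibres over the places with bad reduction

The points of a fibre over a place with bad reduction are rationally equivalent.
-/

set_option autoImplicit false

noncomputable section

namespace Pool.Agent.QTC

open Pool.Agent.ZCyc Pool.Agent.Dess Pool.Agent.GT Pool.Agent.KAll
open Pool.Agent.TInc Polynomial
open Pool.Agent.VFP (Om tt)
open scoped Classical LinearAlgebra.Projectivization

section

variable {k L : Type} [Field k] [Field L] [Algebra k L] [Algebra L (Om k)]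
  [IsScalarTower k L (Om k)] [Algebra.IsAlgebraic L (Om k)] [CharZero L] [IsAlgClosed k]
  [CharZero k] {m : ℕ} {X : Set (MvPolynomial (Fin (m + 1)) k)}

/-- the sum over all conjugates -/
private theorem Ebad_TV {a b : L} {M : Mp (Om k) m}
    (h : FibL L X (algebraMap L (Om k) a) (algebraMap L (Om k) b) M)
    (v : Place k (Om k)) (P : (GT.Ec (algebraMap L (Om k) a) (algebraMap L (Om k) b)).Point) :
    ∃ (U : Set (Place k L)) (d : GD (regU U) m) (hd : d.Ok X) (N : ℕ), N ≠ 0 ∧
      (d.α : L) = a ∧ (d.B : L) = b ∧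
      ∃ P' : (GT.Ec (((IsScalarTower.toAlgHom k L (Om k)).comp (regU U).val) d.α)
        (((IsScalarTower.toAlgHom k L (Om k)).comp (regU U).val) d.B)).Point,
      TV h.hom hd ((IsScalarTower.toAlgHom k L (Om k)).comp (regU U).val) v P' =
        N • hV h.hom h.ok v P := by
  have hfix := fix_coef h
  obtain ⟨d, θ, hd, hdα, hdB, hdh, hmp⟩ := exists_gd (L := L) h.ok
  obtain ⟨U, d', hd', hmap⟩ : ∃ (U : Set (Place k L)) (d' : GD (regU U) m), d'.Ok X ∧
      d'.map ((regU U).val : regU U →+* L) = d := by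
    obtain ⟨F, -, d', hd', hmap⟩ := spread hd ∅
    exact ⟨_, d', hd', hmap⟩
  let j : L →ₐ[k] Om k := IsScalarTower.toAlgHom k L (Om k)
  have hSj : ((j.comp (regU U).val : regU U →ₐ[k] Om k) : regU U →+* Om k) =
      (algebraMap L (Om k)).comp ((regU U).val : regU U →+* L) := rfl
  have ea : algebraMap L (Om k) a = (j.comp (regU U).val) d'.α := by
    rw [← hdα, ← congrArg GD.α hmap]
    rfl
  have eb : algebraMap L (Om k) b = (j.comp (regU U).val) d'.B := by
    rw [← hdB, ← congrArg GD.B hmap]
    rfl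
  have hr' : d'.rts ((j.comp (regU U).val : regU U →ₐ[k] Om k) : regU U →+* Om k) =
      d.rts (algebraMap L (Om k)) := by
    rw [hSj, ← rts_map, hmap]
  have hθ : θ ∈ d.rts (algebraMap L (Om k)) := by
    have hint : IsIntegral L θ := Algebra.IsIntegral.isIntegral θ
    rw [GD.rts, Multiset.mem_toFinset, hdh, Polynomial.mem_roots
      ((minpoly.monic hint).map _).ne_zero, Polynomial.IsRoot, Polynomial.eval_map]
    exact minpoly.aeval L θ
  refine ⟨U, d', hd', (d.rts (algebraMap L (Om k))).card, ?_, ?_, ?_, castE ea eb P, ?_⟩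
  · rw [Finset.card_ne_zero]
    exact ⟨θ, hθ⟩
  · rw [← hdα, ← congrArg GD.α hmap]
    rfl
  · rw [← hdB, ← congrArg GD.B hmap]
    rfl
  · unfold TV
    rw [AddMonoidHom.finsetSum_apply]
    have h1 : ∀ t : {t // t ∈ d'.rts ((j.comp (regU U).val : regU U →ₐ[k] Om k) :
        regU U →+* Om k)}, hV h.hom (hd'.mp_ok (j.comp (regU U).val) t.2) v (castE ea eb P) =
          hV h.hom h.ok v P := by
      intro t
      have ht : t.1 ∈ d.rts (algebraMap L (Om k)) := by
        rw [← hr']
        exact t.2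
      obtain ⟨τ, hτ⟩ := mp_conj hdh hmp ht
      have h3 : ∀ t : Om k, d'.mp ((j.comp (regU U).val : regU U →ₐ[k] Om k) :
          regU U →+* Om k) t = d.mp (algebraMap L (Om k)) t := fun t => by
        rw [hSj, ← mp_map, hmap]
      have h2 : d'.mp ((j.comp (regU U).val : regU U →ₐ[k] Om k) : regU U →+* Om k) t.1 =
          M.map (τ : Om k →+* Om k) := (h3 t.1).trans hτ
      rw [← hV_cast h.hom (ok_map h τ) (hd'.mp_ok (j.comp (regU U).val) t.2) ea eb h2.symm v P]
      exact hV_map h τ v P
    rw [Finset.sum_congr rfl fun t _ => h1 t, Finset.sum_const, Finset.card_univ,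
      Fintype.card_coe, hr']

/-- **The limit homomorphisms are zero at the places with bad reduction.** -/
theorem hV_bad {a b : L} {M : Mp (Om k) m} (hL : IsCurve k L)
    (h : FibL L X (algebraMap L (Om k) a) (algebraMap L (Om k) b) M) {v : Place k (Om k)}
    {δ : Place k L} (hv : v.ring.comap
      ((IsScalarTower.toAlgHom k L (Om k) : L →ₐ[k] Om k) : L →+* Om k) = δ.ring)
    (hδ : BadAt δ a b)
    (P : (GT.Ec (algebraMap L (Om k) a) (algebraMap L (Om k) b)).Point) :
    hV h.hom h.ok v P = 0 := by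
  obtain ⟨U, d, hd, N, hN, hα, hB, P', hP'⟩ := Ebad_TV h v P
  rw [TV_bad h.hom hL hd hv (by rwa [hα, hB]), ← Nat.cast_smul_eq_nsmul ℚ] at hP'
  exact (smul_eq_zero.1 hP'.symm).resolve_left (Nat.cast_ne_zero.2 hN)

end

variable {k : Type} [Field k] [IsAlgClosed k] [CharZero k] (W : TS k)

/-- there is a place with bad reduction -/
theorem exists_badE (E : EL k) : ∃ δ : Place k E.L, BadAt δ E.a E.b :=
  exists_bad E.curve E.weier.disc (D := E.D) (by
    rw [← EFC.deg_eq_deg]
    exact E.weier.pos) E.weier.minimal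

/-- **The classes of the limit homomorphisms are zero at the places with bad reduction.** -/
theorem hh_bad {v : Place k (Om k)} {δ : Place k W.E.L}
    (hv : δ.ring = v.ring.comap (IsScalarTower.toAlgHom k W.E.L (Om k)).toRingHom)
    (hδ : BadAt δ W.E.a W.E.b) (P : (GT.Ec W.E.A W.E.B).Point) : hh W v P = 0 := by
  rw [hh_apply, hV_bad W.E.curve.dess W.fib hv.symm hδ P, map_zero]

/-- **The points of a fibre with bad reduction are equivalent.** -/
theorem clS_bad {v : Place k (Om k)} {δ : Place k W.E.L}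
    (hv : δ.ring = v.ring.comap (IsScalarTower.toAlgHom k W.E.L (Om k)).toRingHom)
    (hδ : BadAt δ W.E.a W.E.b) {z z' : W.Pt} (hz : Over v z) (hz' : Over v z') :
    clS W z = clS W z' := by
  obtain ⟨P, hP⟩ := clS_sub_over hz hz'
  rw [hh_bad W hv hδ] at hP
  exact sub_eq_zero.1 hP

end Pool.Agent.QTC
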