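import Pool.Agent.QTC.UqA
import Pool.Agent.QTC.MulT

/-!
# The composition of the correspondences `el w E t`, modulo rational equivalence
-/

set_option autoImplicit false

noncomputable section

namespace Pool.Agent.QTC

open Pool.Agent.ZCyc Pool.Agent.WFC Pool.Agent.BBU
open Pool.Agent.VFP (Om tt)
open scoped Classical

variable {k : Type} [Field k] {m l : ℕ} {X : Fin m → WC k} {Z : Fin l → TS k}

/-- The correspondence `E` is a projector of degree `1` and kills the forms of highest degree; the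
point `w` is mapped to itself (modulo rational equivalence). -/
structure IsE1 {Z : TS k} (E : TCor Z Z) (w : Z.Pt) : Prop where
  d : E.d = 1
  top : E.top = 0
  deg : ∀ z, dg (E.u z) = 1
  idem : ∀ z, mkS Z (Finsupp.linearCombination ℚ E.u (E.u z)) = mkS Z (E.u z)
  fix : mkS Z (E.u w) = clS Z w

/-! ### One factor -/

/-- the correspondence `x` on one surface -/
def cu {Z : TS k} (w : Z.Pt) (E : TCor Z Z) (x : Z0 (Z0 Unit)) (z : Z.Pt) : Z.Pt →₀ ℚ :=
  Option.elim (show Option (Z0 Unit) from x) (Finsupp.single w 1) fun y =>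
    Option.elim (show Option Unit from y) (E.u z) fun _ => Finsupp.single z 1

section

variable {W : TS k} (w : W.Pt) (E : TCor W W)

theorem cu_z (z : W.Pt) : cu w E Z0.z z = Finsupp.single w 1 := rfl

theorem cu_e (z : W.Pt) : cu w E (Z0.s (Z0.z : Z0 Unit)) z = E.u z := rfl

theorem cu_s (x : Unit) (z : W.Pt) : cu w E (Z0.s (Z0.s x : Z0 Unit)) z = Finsupp.single z 1 :=
  rfl

theorem cases3 (x : Z0 (Z0 Unit)) :
    x = Z0.z ∨ x = Z0.s (Z0.z : Z0 Unit) ∨ x = Z0.s (Z0.s () : Z0 Unit) := by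
  rcases x.cases' with h | ⟨y, h⟩
  · exact Or.inl h
  · rcases y.cases' with h1 | ⟨u, h1⟩
    · exact Or.inr (Or.inl (by rw [h, h1]))
    · exact Or.inr (Or.inr (by rw [h, h1]))

theorem lc_const (z : W.Pt →₀ ℚ) (c : W.Pt →₀ ℚ) :
    Finsupp.linearCombination ℚ (fun _ : W.Pt => c) z = dg z • c := by
  rw [Finsupp.linearCombination_apply, dg, Finsupp.sum, Finsupp.sum, Finset.sum_smul]

theorem lc_id (z : W.Pt →₀ ℚ) :
    Finsupp.linearCombination ℚ (fun y : W.Pt => Finsupp.single y (1 : ℚ)) z = z := by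
  rw [Finsupp.linearCombination_apply]
  simp only [Finsupp.smul_single, smul_eq_mul, mul_one]
  exact Finsupp.sum_single z

theorem cu_dg {w : W.Pt} {E : TCor W W} (h : IsE1 E w) (x : Z0 (Z0 Unit)) (z : W.Pt) :
    dg (cu w E x z) = 1 := by
  rcases cases3 x with rfl | rfl | rfl
  · rw [cu_z, dg, Finsupp.sum_single_index rfl]
  · rw [cu_e]
    exact h.deg z
  · rw [cu_s, dg, Finsupp.sum_single_index rfl]

/-- the composition -/
theorem cu_mul {w : W.Pt} {E : TCor W W} (h : IsE1 E w) (x x' : Z0 (Z0 Unit)) (z : W.Pt) :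
    mkS W (Finsupp.linearCombination ℚ (cu w E x) (cu w E x' z)) =
      mkS W (cu w E (x * x') z) := by
  rcases cases3 x with rfl | rfl | rfl
  · rw [Z0.z_mul, cu_z]
    have h1 : cu w E Z0.z = fun _ => Finsupp.single w 1 := rfl
    rw [h1, lc_const, cu_dg h, one_smul]
  · have h1 : cu w E (Z0.s (Z0.z : Z0 Unit)) = E.u := rfl
    rw [h1]
    rcases cases3 x' with rfl | rfl | rfl
    · rw [cu_z, Z0.s_mul_z, cu_z, Finsupp.linearCombination_single, one_smul, h.fix, mkS_single,
        one_smul]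
    · rw [cu_e, Z0.s_mul_s, Z0.z_mul, cu_e]
      exact h.idem z
    · rw [cu_s, Z0.s_mul_s, Z0.z_mul, cu_e, Finsupp.linearCombination_single, one_smul]
  · have h1 : cu w E (Z0.s (Z0.s () : Z0 Unit)) = fun y => Finsupp.single y 1 := rfl
    rw [h1, lc_id]
    rcases cases3 x' with rfl | rfl | rfl
    · rw [Z0.s_mul_z]
    · rw [Z0.s_mul_s, Z0.s_mul_z]
    · rw [Z0.s_mul_s, Z0.s_mul_s]

end

/-! ### Products -/

theorem elT_cyc (w : ∀ j, (Z j).Pt) (E : ∀ j, TCor (Z j) (Z j)) (t : ∀ a, Z0 (NN X l a))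
    (x : ∀ j, (Z j).Pt) (j : Fin l) :
    (elT w E t j).cyc x = cu (w j) (E j) (t (.inr j)) (x j) := by
  rcases (t (.inr j)).cases' with h1 | ⟨y, h1⟩
  · rw [elT_z h1, h1]
    rfl
  · rcases Z0.cases' (y : Z0 Unit) with h2 | ⟨u, h2⟩
    · subst h2
      rw [elT_e h1, h1]
      rfl
    · subst h2
      rw [elT_s h1, h1]
      rfl

variable [IsAlgClosed k] [CharZero k]

/-- the class of the product of a point with a product of zero-cycles on the surfaces -/
theorem UqM_mk {p : Pts m k} (hp : OnP X p) (c : ∀ j, (Z j).Pt →₀ ℚ) :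
    (Submodule.Quotient.mk ((prodC c).mapDomain fun w => ((p, w) : PtM m Z)) : V X Z) =
      times X Z (clP X p) (mulT Z fun j => mkS (Z j) (c j)) := by
  have h1 : (fun j => mkS (Z j) (c j)) =
      fun j => ∑ x ∈ (c j).support, c j x • clS (Z j) x := by
    funext j
    rw [mkS, Finsupp.linearCombination_apply, Finsupp.sum]
  rw [h1, MultilinearMap.map_sum_finset, map_sum]
  have h2 : ∀ x : ∀ j, (Z j).Pt, times X Z (clP X p)
      (mulT Z fun j => c j (x j) • clS (Z j) (x j)) = (∏ j, c j (x j)) • cl X Z (p, x) := by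
    intro x
    rw [MultilinearMap.map_smul_univ, map_smul, mulT_cl, times_cl hp]
  rw [Finset.sum_congr rfl fun x _ => h2 x, prodC, Finsupp.mapDomain_finsetSum,
    ← Submodule.mkQ_apply, map_sum]
  refine Finset.sum_congr rfl fun x _ => ?_
  rw [Finsupp.mapDomain_single, cl, ← Submodule.mkQ_apply, ← map_smul, Finsupp.smul_single,
    smul_eq_mul, mul_one]

/-- the class of the value of `el w E t` -/
theorem UqM_cyc (w : ∀ j, (Z j).Pt) (E : ∀ j, TCor (Z j) (Z j)) (t : ∀ a, Z0 (NN X l a))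
    {p : PtM m Z} (hp : OnP X p.1) :
    (Submodule.Quotient.mk ((el w E t).cyc p) : V X Z) =
      times X Z (clP X (Mor.app (elX X t) p.1))
        (mulT Z fun j => mkS (Z j) (cu (w j) (E j) (t (.inr j)) (p.2 j))) := by
  unfold MorM.cyc
  have h1 : (fun j => ((el w E t).2 j).cyc p.2) =
      fun j => cu (w j) (E j) (t (.inr j)) (p.2 j) := funext fun j => elT_cyc w E t p.2 j
  rw [h1]
  exact UqM_mk (Mor.onP (elX X t) hp) _

/-- the class of the value of the composition -/
theorem UqM_cyc2 (w : ∀ j, (Z j).Pt) (E : ∀ j, TCor (Z j) (Z j)) (t : ∀ a, Z0 (NN X l a))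
    {p : Pts m k} (hp : OnP X p) (c : ∀ j, (Z j).Pt →₀ ℚ) :
    (Submodule.Quotient.mk (Finsupp.linearCombination ℚ (MorM.cyc (el w E t))
      ((prodC c).mapDomain fun w => ((p, w) : PtM m Z))) : V X Z) =
      times X Z (clP X (Mor.app (elX X t) p)) (mulT Z fun j => mkS (Z j)
        (Finsupp.linearCombination ℚ (cu (w j) (E j) (t (.inr j))) (c j))) := by
  have h1 : (fun j => mkS (Z j)
      (Finsupp.linearCombination ℚ (cu (w j) (E j) (t (.inr j))) (c j))) =
      fun j => ∑ x ∈ (c j).support, c j x • mkS (Z j) (cu (w j) (E j) (t (.inr j)) x) := by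
    funext j
    rw [Finsupp.linearCombination_apply, Finsupp.sum, map_sum]
    exact Finset.sum_congr rfl fun x _ => map_smul _ _ _
  rw [h1, MultilinearMap.map_sum_finset, map_sum]
  have h2 : ∀ x : ∀ j, (Z j).Pt, times X Z (clP X (Mor.app (elX X t) p))
      (mulT Z fun j => c j (x j) • mkS (Z j) (cu (w j) (E j) (t (.inr j)) (x j))) =
      (∏ j, c j (x j)) • (Submodule.Quotient.mk ((el w E t).cyc (p, x)) : V X Z) := by
    intro x
    rw [MultilinearMap.map_smul_univ, map_smul, UqM_cyc w E t (p := (p, x)) hp]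
  rw [Finset.sum_congr rfl fun x _ => h2 x, prodC, Finsupp.mapDomain_finsetSum, map_sum,
    ← Submodule.mkQ_apply, map_sum]
  refine Finset.sum_congr rfl fun x _ => ?_
  rw [Finsupp.mapDomain_single, Finsupp.linearCombination_single, map_smul]
  rfl

/-- **The composition.** -/
theorem el_mul {w : ∀ j, (Z j).Pt} {E : ∀ j, TCor (Z j) (Z j)} (h : ∀ j, IsE1 (E j) (w j))
    (t t' : ∀ a, Z0 (NN X l a)) {z : PtM m Z →₀ ℚ} (hz : ∀ p ∈ z.support, OnP X p.1) :
    Finsupp.linearCombination ℚ (MorM.cyc (el w E t))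
        (Finsupp.linearCombination ℚ (MorM.cyc (el w E t')) z) -
      Finsupp.linearCombination ℚ (MorM.cyc (el w E (t * t'))) z ∈ ratEq X Z := by
  have h1 : ∀ p ∈ z.support, Finsupp.linearCombination ℚ (MorM.cyc (el w E t))
      ((el w E t').cyc p) - (el w E (t * t')).cyc p ∈ ratEq X Z := by
    intro p hp
    rw [← Submodule.Quotient.eq, UqM_cyc w E (t * t') (hz p hp)]
    have h2 : (el w E t').cyc p = (prodC fun j => cu (w j) (E j) (t' (.inr j)) (p.2 j)).mapDomain
        fun w => ((Mor.app (elX X t') p.1, w) : PtM m Z) := by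
      unfold MorM.cyc
      have h3 : (fun j => ((el w E t').2 j).cyc p.2) =
          fun j => cu (w j) (E j) (t' (.inr j)) (p.2 j) := funext fun j => elT_cyc w E t' p.2 j
      rw [h3]
      rfl
    rw [h2, UqM_cyc2 w E t (Mor.onP (elX X t') (hz p hp)), ← elX_mul]
    congr 2
    funext j
    exact cu_mul (h j) _ _ _
  rw [Finsupp.linearCombination_apply (R := ℚ) (v := MorM.cyc (el w E t')),
    Finsupp.linearCombination_apply (R := ℚ) (v := MorM.cyc (el w E (t * t'))), Finsupp.sum,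
    Finsupp.sum, map_sum, ← Finset.sum_sub_distrib]
  refine Submodule.sum_mem _ fun p hp => ?_
  rw [map_smul, ← smul_sub]
  exact Submodule.smul_mem _ _ (h1 p hp)

/-- **The identity.** -/
theorem el_one (w : ∀ j, (Z j).Pt) (E : ∀ j, TCor (Z j) (Z j)) {z : PtM m Z →₀ ℚ}
    (hz : ∀ p ∈ z.support, OnP X p.1) :
    Finsupp.linearCombination ℚ (MorM.cyc (el w E (1 : ∀ a, Z0 (NN X l a)))) z - z ∈
      ratEq X Z := by
  have h1 : ∀ p ∈ z.support, (el w E (1 : ∀ a, Z0 (NN X l a))).cyc p - Finsupp.single p 1 ∈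
      ratEq X Z := by
    intro p hp
    rw [← Submodule.Quotient.eq, UqM_cyc w E _ (hz p hp), elX_one]
    have h2 : (fun j => mkS (Z j) (cu (w j) (E j) ((1 : ∀ a, Z0 (NN X l a)) (.inr j))
        (p.2 j))) = fun j => clS (Z j) (p.2 j) := by
      funext j
      change mkS (Z j) (Finsupp.single (p.2 j) 1) = _
      rw [mkS_single, one_smul]
    rw [h2, mulT_cl, times_cl (hz p hp)]
    rfl
  have h2 : z = ∑ p ∈ z.support, z p • Finsupp.single p (1 : ℚ) := by
    conv_lhs => rw [← Finsupp.sum_single z]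
    rw [Finsupp.sum]
    refine Finset.sum_congr rfl fun p _ => ?_
    rw [Finsupp.smul_single, smul_eq_mul, mul_one]
  have h3 : Finsupp.linearCombination ℚ (MorM.cyc (el w E (1 : ∀ a, Z0 (NN X l a)))) z - z =
      ∑ p ∈ z.support, z p • ((el w E (1 : ∀ a, Z0 (NN X l a))).cyc p - Finsupp.single p 1) := by
    simp only [smul_sub, Finset.sum_sub_distrib]
    rw [← h2, Finsupp.linearCombination_apply, Finsupp.sum]
  rw [h3]
  exact Submodule.sum_mem _ fun p hp => Submodule.smul_mem _ _ (h1 p hp)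

end Pool.Agent.QTC
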