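import Pool.Agent.QTC.Ebad
import Pool.Agent.QTC.Del
import Pool.Agent.QTC.UqM

/-!
# The correspondence which is given by the multisection
-/

set_option autoImplicit false

noncomputable section

namespace Pool.Agent.QTC

open Pool.Agent.ZCyc Pool.Agent.WFC
open Pool.Agent.VFP (Om tt)
open Pool.Agent.EFC (BaseValue)
open scoped Classical

variable {k : Type} [Field k] [IsAlgClosed k] [CharZero k] (W : TS k)

omit [IsAlgClosed k] [CharZero k] in
/-- a conjugate point is the image of the point under the automorphism -/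
theorem eq_gm {g : Gal k} {x x' : W.PtO} (h : Cj g x x') :
    x' = gm W.hom (g.restrictScalars k) x := by
  obtain ⟨c, hc⟩ := h
  obtain ⟨e, he, hx⟩ := map_rep ((g.restrictScalars k : Om k ≃ₐ[k] Om k) : Om k →ₐ[k] Om k) W.hom x
  apply Subtype.ext
  rw [← Projectivization.mk_rep x'.1, ← Projectivization.mk_rep (gm W.hom _ x).1,
    Projectivization.mk_eq_mk_iff']
  refine ⟨c * e⁻¹, funext fun i => ?_⟩
  have h1 : x'.1.rep i = c * g (x.1.rep i) := hc i
  have h2 : (gm W.hom (g.restrictScalars k) x).1.rep i = e * g (x.1.rep i) := hx i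
  rw [Pi.smul_apply, smul_eq_mul, h1, h2]
  field_simp

omit [IsAlgClosed k] [CharZero k] in
theorem gm_inj (g : Gal k) : Function.Injective fun x : W.PtO =>
    gm W.hom (g.restrictScalars k) x := by
  intro x y h
  have h2 := congrArg (fun w : W.PtO => gm W.hom (g.restrictScalars k).symm w) h
  have h3 : ∀ w : W.PtO, gm W.hom (g.restrictScalars k).symm
      (gm W.hom (g.restrictScalars k) w) = w := by
    intro w
    rw [gm_gm]
    have h4 : (g.restrictScalars k).trans (g.restrictScalars k).symm = AlgEquiv.refl :=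
      AlgEquiv.self_trans_symm _
    rw [h4]
    apply Subtype.ext
    conv_rhs => rw [← Projectivization.mk_rep w.1]
    rfl
  simp only at h2
  rwa [h3, h3] at h2

/-- the values of `e1` over `Om k` -/
def e1U (x : W.PtO) : W.PtO →₀ ℚ :=
  comb (fun _ => (W.sm : ℚ)⁻¹) fun i => W.ms.R i (W.basO x)

theorem e1U_conj {g : Gal k} {x x' : W.PtO} (h : Cj g x x') :
    e1U W x' = (e1U W x).mapDomain fun y => gm W.hom (g.restrictScalars k) y := by
  obtain ⟨ρ, hρ⟩ := W.ms.conj' (g.restrictScalars k) (W.basO x)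
  have h1 : W.basO x' = gs (g.restrictScalars k) (W.basO x) := W.base.conj g x x' h
  rw [e1U, e1U, comb, comb, Finsupp.mapDomain_finsetSum, ← Equiv.sum_comp ρ]
  refine Finset.sum_congr rfl fun i _ => ?_
  rw [Finsupp.mapDomain_single, h1, hρ]

theorem e1U_val {v : PlO k} {x : W.PtO} {z : W.Pt} {sp : W.PtO → W.Pt} (h : Sp v x z)
    (hsp : ∀ R, Sp v R (sp R)) : mkS W ((e1U W x).mapDomain sp) = delP W (W.bas z) := by
  obtain ⟨c, hc⟩ := exists_base W.E.curve v (W.basO x)
  obtain ⟨ρ, hρ⟩ := W.ms.val' (V := v) (s := W.basO x) (c := c) hc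
  have h1 : Eqv c (W.bas z) := W.base.val v x z c h hc
  have h2 : (e1U W x).mapDomain sp = secC W c := by
    rw [e1U, comb, Finsupp.mapDomain_finsetSum, secC]
    refine Eq.trans (Finset.sum_congr rfl fun i _ => ?_)
      (Equiv.sum_comp ρ fun i => Finsupp.single (W.ms.b i c) (W.sm : ℚ)⁻¹)
    rw [Finsupp.mapDomain_single]
    congr 1
    exact GT.isVal_unique (hsp _) (hρ i)
  rw [h2, mkS_secC, delP_eqv W h1]

/-- **The correspondence which is given by the multisection.** -/
def e1 : TCor W W where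
  U := e1U W
  u := fun z => secC W (W.bas z)
  n := W.sm
  e := fun _ => (W.sm : ℚ)⁻¹
  p := fun _ => 0
  q := 1
  same := rfl
  pos := one_pos
  gen := by
    choose A hA using W.phi_ms
    refine ⟨A, ∅, Set.finite_empty, fun P _ R hR => ⟨fun i => W.ms.R i W.E.gpt, fun i => ?_, ?_⟩⟩
    · rw [zero_smul, zero_add]
      exact hA i
    · rw [e1U, W.base.gen _ R hR]
  conj := fun g x x' R R' hx hR => by
    rw [e1U_conj W hx, eq_gm W hR]
    exact Finsupp.mapDomain_apply (gm_inj W g) _ _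
  val := fun v x z sp hx hsp => by
    rw [equivalent_iff, e1U_val W hx hsp, mkS_secC]

/-- the fixed point -/
theorem exists_e1 : ∃ w : W.Pt, IsE1 (e1 W) w := by
  obtain ⟨δ, hδ⟩ := exists_badE W.E
  obtain ⟨v, hv⟩ := TInc.exists_above W.E.curve.dess δ (IsScalarTower.toAlgHom k W.E.L (Om k))
  obtain ⟨ρ, hρ⟩ := W.ms.val v (IsScalarTower.toAlgHom k W.E.L (Om k)) δ hv.symm
  have hover : ∀ i, Over v (W.ms.b i δ) := by
    intro i
    obtain ⟨j, rfl⟩ := ρ.surjective i
    refine ⟨_, ?_, hρ j⟩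
    obtain ⟨P, hP⟩ := W.phi_ms j
    obtain ⟨x, y, h, rfl, c, hc⟩ := hP
    have hne : co W.G W.H x y ≠ 0 := by
      intro h0
      refine (W.ms.R j W.E.gpt).1.rep_nonzero (funext fun i => ?_)
      have h4 : (W.ms.R j W.E.gpt).1.rep i = c * co W.G W.H x y i := hc i
      rw [h4, h0]
      simp
    have hN : W.M.Ns (.some x y h : (GT.Ec W.E.A W.E.B).Point) := hne
    refine ⟨_, hN, ?_⟩
    apply Subtype.ext
    rw [← Projectivization.mk_rep (W.ms.R j _).1]
    refine (Projectivization.mk_eq_mk_iff' _ _ _ _ _).2 ⟨c, ?_⟩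
    funext i
    exact (hc i).symm
  have hcl : ∀ i, clS W (W.ms.b i δ) = clS W (W.ms.b W.i0 δ) := fun i =>
    clS_bad W hv.symm hδ (hover i) (hover W.i0)
  have hm := W.sm_ne
  refine ⟨W.ms.b W.i0 δ, ?_, ?_, fun z => sum_secC W _, fun z => ?_, ?_⟩
  · change ∑ _i : Fin W.sm, (W.sm : ℚ)⁻¹ = 1
    rw [Finset.sum_const, Finset.card_univ, Fintype.card_fin, nsmul_eq_mul, mul_inv_cancel₀ hm]
  · change ∑ _i : Fin W.sm, (W.sm : ℚ)⁻¹ * ((0 : ℤ) : ℚ) / ((1 : ℕ) : ℚ) = 0
    simp
  · change mkS W (Finsupp.linearCombination ℚ (fun z => secC W (W.bas z)) (secC W (W.bas z))) =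
      mkS W (secC W (W.bas z))
    have h1 : ∀ c, mkS W (Finsupp.linearCombination ℚ (fun z => secC W (W.bas z)) (secC W c)) =
        mkS W (secC W c) := by
      intro c
      rw [mkS_secC]
      conv_lhs => rw [secC]
      rw [map_sum, map_sum, Finset.sum_congr rfl fun i _ => by
        rw [Finsupp.linearCombination_single, map_smul, mkS_secC, ← delP_eqv W (W.bas_b i c)],
        Finset.sum_const, Finset.card_univ, Fintype.card_fin, ← Nat.cast_smul_eq_nsmul ℚ,
        smul_smul, mul_inv_cancel₀ hm, one_smul]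
    exact h1 _
  · change mkS W (secC W (W.bas (W.ms.b W.i0 δ))) = clS W (W.ms.b W.i0 δ)
    rw [mkS_secC, ← delP_eqv W (W.bas_b W.i0 δ), delP, Finset.sum_congr rfl fun i _ => hcl i,
      Finset.sum_const, Finset.card_univ, Fintype.card_fin, ← Nat.cast_smul_eq_nsmul ℚ, smul_smul,
      inv_mul_cancel₀ hm, one_smul]

end Pool.Agent.QTC
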