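import Pool.Agent.QTC.Cur
import Pool.Agent.WFC.Bridge
import Pool.Agent.TInc.EmbB

/-!
# Rational equivalence of points of the base curves
-/

set_option autoImplicit false

noncomputable section

namespace Pool.Agent.QTC

open Pool.Agent.ZCyc Pool.Agent.WFC
open Pool.Agent.TInc (ord ord_mul ord_inv ord_neg ord_const ord_add_eq le_ord_add vanishes_iff_ord
  card_emb)
open Pool.Agent.EFC (IsCurve unif mem_unif_iff)
open Pool.Agent.VFP (Om tt)
open scoped Classical

variable {k : Type} [Field k] [IsAlgClosed k] [CharZero k] {L : Type} [Field L] [Algebra k L]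

/-- the divisor of the function -/
theorem eqv_ord (hL : IsCurve k L) {c c' : Place k L} {n : ℤ} {f : L} (hf : f ≠ 0)
    (h : ∀ v : Place k L,
      f * unif v ^ (Finsupp.single c' n - Finsupp.single c n : Place k L →₀ ℤ) v ∈ v.ring ∧
      f⁻¹ * unif v ^ (Finsupp.single c n - Finsupp.single c' n : Place k L →₀ ℤ) v ∈ v.ring)
    (v : Place k L) : ord v f = (Finsupp.single c n - Finsupp.single c' n : Place k L →₀ ℤ) v := by
  have h1 := (mem_unif_iff hL v f _).1 (h v).1 hf
  have h2 := (mem_unif_iff hL v f⁻¹ _).1 (h v).2 (inv_ne_zero hf)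
  rw [ord_inv hL.dess] at h2
  rw [Finsupp.sub_apply] at h1 h2 ⊢
  omega

/-- an embedding with a given value -/
theorem exists_emb (hL : IsCurve k L) {ψ : L} (hψ : Transcendental k ψ) :
    ∃ σ : L →ₐ[k] Om k, σ ψ = tt k := by
  have htt : Transcendental k (tt k) := Pool.Agent.VFP.tt_transc
  have hfin := Dess.fin_adjoin hL.dess hψ
  obtain ⟨hfinite, hcard⟩ := card_emb hL.dess hψ htt
  obtain ⟨σ₀, hσ₀⟩ : ({σ : L →ₐ[k] Om k | σ ψ = tt k}).Nonempty := by
    rw [← Set.ncard_pos hfinite, hcard]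
    exact Module.finrank_pos
  exact ⟨σ₀, hσ₀⟩

private theorem eqv_aux {E : EL k} {c c' : Place k E.L} {n : ℤ} (hn : 0 < n) (hc : c ≠ c')
    {f : E.L} (hf : f ≠ 0)
    (h : ∀ v, ord v f = (Finsupp.single c n - Finsupp.single c' n : Place k E.L →₀ ℤ) v) :
    clC E c = clC E c' := by
  have hL := E.curve.dess
  have hzero : ∀ v, 0 < ord v f → v = c := by
    intro v hv
    by_contra hne
    rw [h, Finsupp.sub_apply, Finsupp.single_eq_of_ne hne] at hv
    by_cases h2 : v = c'
    · subst h2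
      rw [Finsupp.single_eq_same] at hv
      omega
    · rw [Finsupp.single_eq_of_ne h2] at hv
      omega
  have hpole : ∀ v, ord v f < 0 → v = c' := by
    intro v hv
    by_contra hne
    rw [h, Finsupp.sub_apply, Finsupp.single_eq_of_ne hne] at hv
    by_cases h2 : v = c
    · subst h2
      rw [Finsupp.single_eq_same] at hv
      omega
    · rw [Finsupp.single_eq_of_ne h2] at hv
      omega
  have hcn : ord c f = n := by
    rw [h, Finsupp.sub_apply, Finsupp.single_eq_same, Finsupp.single_eq_of_ne hc, sub_zero]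
  have one0 : ∀ v : Place k E.L, ord v (1 : E.L) = 0 := fun v => by
    rw [← map_one (algebraMap k E.L), ord_const hL]
  have h1f : 1 + f ≠ 0 := by
    intro h0
    have h1 : f = algebraMap k E.L (-1) := by
      rw [map_neg, map_one]
      exact eq_neg_of_add_eq_zero_right h0
    rw [h1, ord_const hL] at hcn
    omega
  set ψ : E.L := f / (1 + f) with hψdef
  have hψ0 : ψ ≠ 0 := div_ne_zero hf h1f
  have hψ1 : ψ - 1 = -(1 + f)⁻¹ := by
    rw [hψdef]
    field_simp
    ring
  have hψ1' : ψ - 1 ≠ 0 := by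
    rw [hψ1]
    exact neg_ne_zero.2 (inv_ne_zero h1f)
  have o1 : ∀ v, ord v ψ = ord v f - ord v (1 + f) := fun v => by
    rw [hψdef, div_eq_mul_inv, ord_mul hL v hf (inv_ne_zero h1f), ord_inv hL]
    ring
  have o2 : ∀ v, ord v (ψ - 1) = -ord v (1 + f) := fun v => by
    rw [hψ1, ord_neg hL, ord_inv hL]
  have p1 : ∀ v, 0 < ord v f → ord v (1 + f) = 0 := fun v h => by
    rw [(ord_add_eq hL (v := v) one_ne_zero fun _ => by rwa [one0]).2, one0]
  have p2 : ∀ v, ord v f < 0 → ord v (1 + f) = ord v f := fun v h => by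
    rw [add_comm, (ord_add_eq hL (v := v) hf fun _ => by rwa [one0]).2]
  have p3 : ∀ v, 0 ≤ ord v f → 0 ≤ ord v (1 + f) := fun v h =>
    le_ord_add hL h1f (fun _ => by rw [one0]) fun _ => h
  have t1 : ∀ v, 0 < ord v ψ → v = c := fun v hv => by
    rw [o1] at hv
    refine hzero v ?_
    rcases lt_trichotomy (ord v f) 0 with h | h | h
    · rw [p2 v h] at hv
      omega
    · have := p3 v h.ge
      omega
    · exact h
  have t2 : ∀ v, 0 < ord v (ψ - 1) → v = c' := fun v hv => by
    rw [o2] at hv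
    refine hpole v ?_
    rcases lt_or_ge (ord v f) 0 with h | h
    · exact h
    · have := p3 v h
      omega
  have hψ : Transcendental k ψ := by
    refine TInc.transc_of_ne hL fun a ha => ?_
    have h2 := o1 c
    rw [ha, ord_const hL, p1 c (by omega)] at h2
    omega
  obtain ⟨σ, hσ⟩ := exists_emb E.curve hψ
  -- the places below
  have key : ∀ (v : Place k (Om k)) (a : k), v.At (tt k) a → ∃ γ : Place k E.L,
      γ.ring = v.ring.comap σ.toRingHom ∧ γ.Vanishes (ψ - algebraMap k E.L a) := by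
    intro v a hv
    obtain ⟨γ, hγ⟩ := TInc.exists_below hL v σ
    refine ⟨γ, hγ.symm, ?_⟩
    unfold Place.At at hv
    rw [Place.vanishes_iff_or] at hv ⊢
    rcases hv with hv | hv
    · left
      refine σ.injective ?_
      change σ (ψ - algebraMap k E.L a) = σ 0
      rw [map_sub, AlgHom.commutes, map_zero, hσ]
      exact hv
    · right
      rw [← hγ, ValuationSubring.mem_comap]
      change σ (ψ - algebraMap k E.L a)⁻¹ ∉ v.ring
      rw [map_inv₀, map_sub, AlgHom.commutes, hσ]
      exact hv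
  have hsum : ∀ c : Place k E.L, ∑ _i : Unit, (1 : ℚ) • clC E c = clC E c := fun c => by
    simp
  refine bridgeP (X := fun _ : Fin 1 => E.cur) (I := Unit) (fun _ => 1)
    (fun _ _ => E.ptO (Sum.inl σ)) (fun _ _ => ⟨rfl, on_ptO _ _⟩) 0 1 _ _ ?_ ?_
  · intro v hv
    obtain ⟨γ, hγ, hγ'⟩ := key v 0 hv
    rw [map_zero, sub_zero, vanishes_iff_ord hL hψ0] at hγ'
    have := t1 γ hγ'
    subst this
    exact ⟨fun _ _ => E.pt γ, fun _ _ => ⟨rfl, on_pt _ _⟩, fun _ _ => isVal_pt.2 hγ, hsum γ⟩
  · intro v hv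
    obtain ⟨γ, hγ, hγ'⟩ := key v 1 hv
    rw [map_one, vanishes_iff_ord hL hψ1'] at hγ'
    have := t2 γ hγ'
    subst this
    exact ⟨fun _ _ => E.pt γ, fun _ _ => ⟨rfl, on_pt _ _⟩, fun _ _ => isVal_pt.2 hγ, hsum γ⟩

/-- **Equivalent points have the same class.** -/
theorem clC_eqv {E : EL k} {c c' : Place k E.L} (h : Eqv c c') : clC E c = clC E c' := by
  obtain ⟨n, f, hn, hf, h⟩ := h
  by_cases hc : c = c'
  · rw [hc]
  have ho := eqv_ord E.curve hf h
  rcases lt_or_gt_of_ne hn with hn' | hn'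
  · refine eqv_aux (n := -n) (by omega) hc (inv_ne_zero hf) fun v => ?_
    rw [ord_inv E.curve.dess, ho, Finsupp.single_neg, Finsupp.single_neg]
    simp only [Finsupp.sub_apply, Finsupp.neg_apply]
    ring
  · exact eqv_aux hn' hc hf ho

end Pool.Agent.QTC
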