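import Pool.Agent.QTF.MExt
import Pool.Agent.QTF.GrAbs

/-!
# Functions on products and exterior products of cycles

`P` is a function on the product of the sets `T i`, it is extended linearly to the combinations of
points. For the exterior product of the combinations `μ i`: the value is zero if `P` is a linear
function of `β t`, where `t` is the coordinate `i`, and `β (μ i) = 0` (`ext_unused`), and it is a
product if `P` is a product of functions of different coordinates (`ext_bij`).
-/

set_option autoImplicit false

noncomputable section

namespace Pool.Agent.QTC

open Pool.Agent.QTF (extm extmM extm_single extm_mapDomain extmM_apply BijZ)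
open scoped Classical

variable {l l' : ℕ} {T : Fin l → Type} {U : Type*} [AddCommGroup U] [Module ℚ U]

/-- the extension of a function on the product to the exterior products of cycles -/
def EP (P : (∀ i, T i) → U) : MultilinearMap ℚ (fun i => T i →₀ ℚ) U :=
  (Finsupp.linearCombination ℚ P).compMultilinearMap (extmM T)

theorem EP_apply (P : (∀ i, T i) → U) (μ : ∀ i, T i →₀ ℚ) :
    EP P μ = Finsupp.linearCombination ℚ P (extm μ) := rfl

theorem EP_single (P : (∀ i, T i) → U) (x : ∀ i, T i) :
    EP P (fun i => Finsupp.single (x i) 1) = P x := by
  rw [EP_apply, extm_single, Finset.prod_const_one, Finsupp.linearCombination_single, one_smul]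

/-- **Unused coordinates.** The function `P` depends linearly on `β t`, where `t` is the coordinate
with the number `i`. -/
theorem ext_unused {B : Type*} [AddCommGroup B] [Module ℚ B] (P : (∀ i, T i) → U)
    (μ : ∀ i, T i →₀ ℚ) (i : Fin l) (β : T i → B)
    (h : ∀ ζ : ∀ i, T i, ∃ Λ : B →ₗ[ℚ] U, ∀ t, P (Function.update ζ i t) = Λ (β t))
    (hμ : Finsupp.linearCombination ℚ β (μ i) = 0) : EP P μ = 0 := by
  have key : ∀ (S : Finset (Fin l)) (ν : ∀ i, T i →₀ ℚ),
      (∀ j ∉ S, j ≠ i → ∃ t, ν j = Finsupp.single t 1) →
      EP P (Function.update ν i (μ i)) = 0 := by
    intro S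
    induction S using Finset.induction_on with
    | empty =>
      intro ν hν
      rcases isEmpty_or_nonempty (T i) with he | ⟨⟨t₀⟩⟩
      · have h0 : μ i = 0 := Finsupp.ext fun t => he.elim t
        rw [h0, (EP P).map_update_zero]
      have h1 : ∀ j, ∃ t, j ≠ i → ν j = Finsupp.single t 1 := by
        intro j
        by_cases hj : j = i
        · subst hj
          exact ⟨t₀, fun h => absurd rfl h⟩
        · obtain ⟨t, ht⟩ := hν j (Finset.notMem_empty j) hj
          exact ⟨t, fun _ => ht⟩
      choose x hx using h1
      obtain ⟨Λ, hΛ⟩ := h x
      have h2 : ∀ w : T i →₀ ℚ, EP P (Function.update ν i w) =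
          Λ (Finsupp.linearCombination ℚ β w) := by
        intro w
        induction w using Finsupp.induction_linear with
        | zero => rw [(EP P).map_update_zero, map_zero, map_zero]
        | add a b ha hb => rw [(EP P).map_update_add, ha, hb, map_add, map_add]
        | single t c =>
          have h1 : Finsupp.single t c = c • Finsupp.single t (1 : ℚ) := by
            rw [Finsupp.smul_single, smul_eq_mul, mul_one]
          have h3 : Function.update ν i (Finsupp.single t 1) =
              fun j => Finsupp.single (Function.update x i t j) 1 := by
            funext j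
            by_cases hj : j = i
            · subst hj
              rw [Function.update_self, Function.update_self]
            · rw [Function.update_of_ne hj, Function.update_of_ne hj, hx j hj]
          rw [h1, (EP P).map_update_smul, h3, EP_single, hΛ, map_smul, map_smul,
            Finsupp.linearCombination_single, one_smul]
      rw [h2, hμ, map_zero]
    | insert a S _ ih =>
      intro ν hν
      by_cases hai : a = i
      · subst hai
        refine ih ν fun j hj hja => hν j (fun h => ?_) hja
        rcases Finset.mem_insert.1 h with h | h
        · exact hja h
        · exact hj h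
      have h1 : ∀ u : T a →₀ ℚ, EP P (Function.update (Function.update ν i (μ i)) a u) = 0 := by
        intro u
        induction u using Finsupp.induction_linear with
        | zero => rw [(EP P).map_update_zero]
        | add x y hx hy => rw [(EP P).map_update_add, hx, hy, add_zero]
        | single t c =>
          have h1 : Finsupp.single t c = c • Finsupp.single t (1 : ℚ) := by
            rw [Finsupp.smul_single, smul_eq_mul, mul_one]
          rw [h1, (EP P).map_update_smul, Function.update_comm (Ne.symm hai),
            ih _ fun j hj hji => ?_, smul_zero]
          by_cases hja : j = a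
          · subst hja
            exact ⟨t, by rw [Function.update_self]⟩
          · rw [Function.update_of_ne hja]
            exact hν j (fun h => (Finset.mem_insert.1 h).elim hja hj) hji
      have h2 := h1 (ν a)
      rwa [Function.update_comm (Ne.symm hai), Function.update_eq_self] at h2
  have h1 := key Finset.univ μ fun j hj => absurd (Finset.mem_univ j) hj
  rwa [Function.update_eq_self] at h1

/-- **Products of functions of different coordinates.** -/
theorem ext_bij {H' : Fin l' → Type*} [∀ j, AddCommGroup (H' j)] [∀ j, Module ℚ (H' j)]
    {src : Fin l' → Option (Fin l)} {I : Finset (Fin l)} {J : Finset (Fin l')}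
    (hB : BijZ src I J) (E : MultilinearMap ℚ H' U) (A : ∀ j, (∀ i, T i) → H' j)
    (κ : ∀ j, H' j) (hκ : ∀ j ∉ J, ∀ ζ, A j ζ = κ j) (v : ∀ j, H' j)
    (μ : ∀ i, T i →₀ ℚ) (hμ : ∀ i ∉ I, ((μ i).sum fun _ c => c) = 1)
    (hA : ∀ j ∈ J, ∀ i, src j = some i → ∃ L : (T i →₀ ℚ) →ₗ[ℚ] H' j,
      (∀ ζ : ∀ i, T i, A j ζ = L (Finsupp.single (ζ i) 1)) ∧ L (μ i) = v j) :
    EP (fun ζ => E (fun j => A j ζ)) μ = E (fun j => if j ∈ J then v j else κ j) := by
  -- the linear maps
  have hL : ∀ (j : Fin l') (i : Fin l), ∃ L : (T i →₀ ℚ) →ₗ[ℚ] H' j, j ∈ J → src j = some i →
      (∀ ζ : ∀ i, T i, A j ζ = L (Finsupp.single (ζ i) 1)) ∧ L (μ i) = v j := by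
    intro j i
    by_cases h : j ∈ J ∧ src j = some i
    · obtain ⟨L, hL⟩ := hA j h.1 i h.2
      exact ⟨L, fun _ _ => hL⟩
    · exact ⟨0, fun h1 h2 => absurd ⟨h1, h2⟩ h⟩
  choose L hL using hL
  let w : (∀ i, T i →₀ ℚ) → ∀ j, H' j := fun ν j =>
    if j ∈ J then (src j).elim 0 (fun i => L j i (ν i)) else κ j
  have key : ∀ (S : Finset (Fin l)) (ν : ∀ i, T i →₀ ℚ),
      (∀ i ∉ S, ∃ t, ν i = Finsupp.single t 1) →
      EP (fun ζ => E (fun j => A j ζ)) ν =
        (∏ i ∈ Iᶜ, ((ν i).sum fun _ c => c)) • E (w ν) := by
    intro S
    induction S using Finset.induction_on with
    | empty =>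
      intro ν hν
      choose x hx using fun i => hν i (Finset.notMem_empty i)
      obtain rfl : ν = fun i => Finsupp.single (x i) 1 := funext hx
      rw [EP_single]
      have h1 : (∏ i ∈ Iᶜ, ((Finsupp.single (x i) (1 : ℚ)).sum fun _ c => c)) = 1 :=
        Finset.prod_eq_one fun i _ => Finsupp.sum_single_index rfl
      rw [h1, one_smul]
      congr 1
      funext j
      change A j x = if j ∈ J then _ else _
      split_ifs with hj
      · obtain ⟨i, hi, -⟩ := hB.1 j hj
        rw [hi]
        exact (hL j i hj hi).1 x
      · exact hκ j hj x
    | insert a S _ ih =>
      intro ν hν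
      have main : ∀ u : T a →₀ ℚ, EP (fun ζ => E (fun j => A j ζ)) (Function.update ν a u) =
          (∏ i ∈ Iᶜ, ((Function.update ν a u i).sum fun _ c => c)) •
            E (w (Function.update ν a u)) := by
        intro u
        -- linearity of the right-hand side
        have hlin : ∃ Λ : (T a →₀ ℚ) →ₗ[ℚ] U, ∀ u, (∏ i ∈ Iᶜ,
            ((Function.update ν a u i).sum fun _ c => c)) •
              E (w (Function.update ν a u)) = Λ u := by
          by_cases ha : a ∈ I
          · obtain ⟨j, ⟨hj, hja⟩, huni⟩ := hB.2 a ha
            have h1 : ∀ u, w (Function.update ν a u) =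
                Function.update (w (Function.update ν a 0)) j (L j a u) := by
              intro u
              funext j'
              by_cases hj' : j' = j
              · subst hj'
                rw [Function.update_self]
                change (if j' ∈ J then _ else _) = _
                rw [if_pos hj, hja]
                change L j' a (Function.update ν a u a) = _
                rw [Function.update_self]
              · rw [Function.update_of_ne hj']
                change (if j' ∈ J then _ else _) = if j' ∈ J then _ else _
                split_ifs with hjJ
                · rcases hs : src j' with _ | i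
                  · rfl
                  · have hia : i ≠ a := by
                      rintro rfl
                      exact hj' (huni j' ⟨hjJ, hs⟩)
                    change L j' i (Function.update ν a u i) = L j' i (Function.update ν a 0 i)
                    rw [Function.update_of_ne hia, Function.update_of_ne hia]
                · rfl
            have h2 : ∀ u, (∏ i ∈ Iᶜ, ((Function.update ν a u i).sum fun _ c => c)) =
                ∏ i ∈ Iᶜ, ((ν i).sum fun _ c => c) := fun u =>
              Finset.prod_congr rfl fun i hi => by
                rw [Function.update_of_ne]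
                rintro rfl
                exact (Finset.mem_compl.1 hi) ha
            refine ⟨(∏ i ∈ Iᶜ, ((ν i).sum fun _ c => c)) •
              ((E.toLinearMap (w (Function.update ν a 0)) j).comp (L j a)), fun u => ?_⟩
            rw [h1, h2]
            rfl
          · have h1 : ∀ u, w (Function.update ν a u) = w ν := by
              intro u
              funext j'
              change (if j' ∈ J then _ else _) = if j' ∈ J then _ else _
              split_ifs with hjJ
              · obtain ⟨i, hi, hiI⟩ := hB.1 j' hjJ
                have hia : i ≠ a := by
                  rintro rfl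
                  exact ha hiI
                rw [hi]
                change L j' i (Function.update ν a u i) = L j' i (ν i)
                rw [Function.update_of_ne hia]
              · rfl
            have h2 : ∀ u, (∏ i ∈ Iᶜ, ((Function.update ν a u i).sum fun _ c => c)) =
                (u.sum fun _ c => c) * ∏ i ∈ Iᶜ.erase a, ((ν i).sum fun _ c => c) := by
              intro u
              rw [← Finset.mul_prod_erase Iᶜ _ (Finset.mem_compl.2 ha), Function.update_self]
              congr 1
              exact Finset.prod_congr rfl fun i hi => by
                rw [Function.update_of_ne (Finset.ne_of_mem_erase hi)]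
            refine ⟨(Finsupp.linearCombination ℚ fun _ : T a => (1 : ℚ)).smulRight
              ((∏ i ∈ Iᶜ.erase a, ((ν i).sum fun _ c => c)) • E (w ν)), fun u => ?_⟩
            have h3 : (Finsupp.linearCombination ℚ (fun _ : T a => (1 : ℚ)) u) =
                u.sum fun _ c => c := by
              rw [Finsupp.linearCombination_apply]
              exact Finsupp.sum_congr fun _ _ => by rw [smul_eq_mul, mul_one]
            rw [h1, h2, mul_smul, ← h3]
            rfl
        obtain ⟨Λ, hΛ⟩ := hlin
        rw [hΛ]
        induction u using Finsupp.induction_linear with
        | zero => rw [(EP _).map_update_zero, map_zero]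
        | add x y hx hy => rw [(EP _).map_update_add, map_add, hx, hy]
        | single t c =>
          have h1 : Finsupp.single t c = c • Finsupp.single t (1 : ℚ) := by
            rw [Finsupp.smul_single, smul_eq_mul, mul_one]
          rw [h1, (EP _).map_update_smul, map_smul, ← hΛ]
          congr 1
          refine ih _ fun i hi => ?_
          by_cases hia : i = a
          · subst hia
            exact ⟨t, by rw [Function.update_self]⟩
          · rw [Function.update_of_ne hia]
            exact hν i fun h => (Finset.mem_insert.1 h).elim hia hi
      have h3 := main (ν a)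
      rwa [Function.update_eq_self] at h3
  rw [key Finset.univ μ fun i hi => absurd (Finset.mem_univ i) hi]
  have h1 : (∏ i ∈ Iᶜ, ((μ i).sum fun _ c => c)) = 1 :=
    Finset.prod_eq_one fun i hi => hμ i (Finset.mem_compl.1 hi)
  rw [h1, one_smul]
  congr 1
  funext j
  change (if j ∈ J then _ else _) = _
  split_ifs with hj
  · obtain ⟨i, hi, -⟩ := hB.1 j hj
    rw [hi]
    exact (hL j i hj hi).2
  · rfl

end Pool.Agent.QTC
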