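import Pool.Agent.QTC.FilM

/-!
# The filtration and the parts of the classes
-/

set_option autoImplicit false

noncomputable section

namespace Pool.Agent.QTC

open Pool.Agent.ZCyc
open Pool.Agent.VFP (Om tt)
open Pool.Agent.WFC
open scoped Classical

variable {k : Type} [Field k] {m l : ℕ} {X : Fin m → WC k} {Z : Fin l → TS k}

/-! ### The projections to the two parts of the product -/

/-- the projection to the factors of the class `WC` -/
theorem fst_ratEq {z : PtM m Z →₀ ℚ} (hz : z ∈ ratEq X Z) :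
    Finsupp.mapDomain Prod.fst z ∈ ratEqW X := by
  have hle : ratEq X Z ≤ (ratEqW X).comap
      (Finsupp.lmapDomain ℚ ℚ (Prod.fst : PtM m Z → Pts m k)) := by
    refine ratEq_le ?_ ?_
    · rintro _ ⟨n, P, Q, c, c', v, v', p, p', hP, hg, hv, hv', hp, hp', rfl⟩
      refine Submodule.mem_sup_left (Submodule.subset_span ⟨n, P, c, c', v, v',
        fun a => (p a).1, fun a => (p' a).1, hP, fun g => ?_, hv, hv',
        fun a => ⟨(hp a).1, (hp a).2.1⟩, fun a => ⟨(hp' a).1, (hp' a).2.1⟩, ?_⟩)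
      · obtain ⟨e, he⟩ := hg g
        exact ⟨e, fun a i => (he a).1 i⟩
      · rw [map_sum]
        refine Finset.sum_congr rfl fun a _ => ?_
        rw [map_sub, Finsupp.lmapDomain_apply, Finsupp.lmapDomain_apply,
          Finsupp.mapDomain_single, Finsupp.mapDomain_single]
    · rintro _ ⟨p, p', hp, hc, -, rfl⟩
      refine Submodule.mem_sup_right (Submodule.subset_span ⟨p.1, p'.1, hp, hc, ?_⟩)
      rw [map_sub, Finsupp.lmapDomain_apply, Finsupp.lmapDomain_apply,
        Finsupp.mapDomain_single, Finsupp.mapDomain_single]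
  exact hle hz

/-- the projection to the surfaces -/
theorem snd_ratEq {z : PtM m Z →₀ ℚ} (hz : z ∈ ratEq X Z) :
    Finsupp.mapDomain (fun p : PtM m Z => ((p0 k, p.2) : PtM 0 Z)) z ∈ ratEq (e0 k) Z := by
  have hle : ratEq X Z ≤ (ratEq (e0 k) Z).comap
      (Finsupp.lmapDomain ℚ ℚ fun p : PtM m Z => ((p0 k, p.2) : PtM 0 Z)) := by
    refine ratEq_le ?_ ?_
    · rintro _ ⟨n, P, Q, c, c', v, v', p, p', hP, hg, hv, hv', hp, hp', rfl⟩
      change Finsupp.lmapDomain ℚ ℚ _ _ ∈ ratEq (e0 k) Z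
      rw [map_sum]
      refine mem_fam ⟨n, fun _ i => i.elim0, Q, c, c', v, v',
        fun a => (p0 k, (p a).2), fun a => (p0 k, (p' a).2), fun _ i => i.elim0, fun g => ?_,
        hv, hv', fun a => ⟨fun i => i.elim0, fun i => i.elim0, (hp a).2.2⟩,
        fun a => ⟨fun i => i.elim0, fun i => i.elim0, (hp' a).2.2⟩, ?_⟩
      · obtain ⟨e, he⟩ := hg g
        exact ⟨e, fun a => ⟨fun i => i.elim0, (he a).2⟩⟩
      · refine Finset.sum_congr rfl fun a _ => ?_
        rw [map_sub, Finsupp.lmapDomain_apply, Finsupp.lmapDomain_apply,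
          Finsupp.mapDomain_single, Finsupp.mapDomain_single]
    · rintro _ ⟨p, p', -, -, h2, rfl⟩
      change Finsupp.lmapDomain ℚ ℚ _ _ ∈ ratEq (e0 k) Z
      rw [map_sub, Finsupp.lmapDomain_apply, Finsupp.lmapDomain_apply, Finsupp.mapDomain_single,
        Finsupp.mapDomain_single, h2, sub_self]
      exact zero_mem _
  exact hle hz

variable (X Z) in
/-- the projection of classes to the factors of the class `WC` -/
def fstV : V X Z →ₗ[ℚ] VP X :=
  (ratEq X Z).mapQ (ratEqW X) (Finsupp.lmapDomain ℚ ℚ Prod.fst) fun _ hz => fst_ratEq hz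

variable (X Z) in
/-- the projection of classes to the surfaces -/
def sndV : V X Z →ₗ[ℚ] VT Z :=
  (ratEq X Z).mapQ (ratEq (e0 k) Z)
    (Finsupp.lmapDomain ℚ ℚ fun p : PtM m Z => ((p0 k, p.2) : PtM 0 Z)) fun _ hz => snd_ratEq hz

theorem fstV_mk (z : PtM m Z →₀ ℚ) :
    fstV X Z (Submodule.Quotient.mk z) = Submodule.Quotient.mk (z.mapDomain Prod.fst) := rfl

theorem fstV_cl (p : PtM m Z) : fstV X Z (cl X Z p) = clP X p.1 := by
  unfold cl
  rw [fstV_mk, Finsupp.mapDomain_single]
  rfl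

theorem sndV_cl (p : PtM m Z) : sndV X Z (cl X Z p) = clT Z p.2 := by
  have h : sndV X Z (cl X Z p) = Submodule.Quotient.mk (Finsupp.mapDomain
    (fun p : PtM m Z => ((p0 k, p.2) : PtM 0 Z)) (Finsupp.single p (1 : ℚ))) := rfl
  rw [h, Finsupp.mapDomain_single]
  rfl

/-- the sum of the signs -/
theorem sum_sign {A : Type*} [DecidableEq A] {T : Finset A} (hT : T ≠ ∅) :
    ∑ U ∈ T.powerset, (-1 : ℚ) ^ (T \ U).card = 0 := by
  have h1 : ∑ U ∈ T.powerset, (-1 : ℚ) ^ (T \ U).card = ∑ U ∈ T.powerset, (-1 : ℚ) ^ U.card := by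
    refine Finset.sum_nbij' (fun U => T \ U) (fun U => T \ U) ?_ ?_ ?_ ?_ ?_
    · intro U _
      exact Finset.mem_powerset.2 Finset.sdiff_subset
    · intro U _
      exact Finset.mem_powerset.2 Finset.sdiff_subset
    · intro U hU
      exact Finset.sdiff_sdiff_eq_self (Finset.mem_powerset.1 hU)
    · intro U hU
      exact Finset.sdiff_sdiff_eq_self (Finset.mem_powerset.1 hU)
    · intro U _
      rfl
  rw [h1]
  have h2 := Finset.sum_powerset_neg_one_pow_card_of_nonempty (Finset.nonempty_iff_ne_empty.2 hT)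
  exact_mod_cast h2

theorem eP_empty (p : Pts m k) : eP X ∅ p = clP X (proj ∅ p) := by
  unfold eP
  rw [Finset.powerset_empty, Finset.sum_singleton, Finset.sdiff_self, Finset.card_empty, pow_zero,
    one_smul]

/-- the class of a cycle on the product of varieties of the class `WC` -/
theorem mkW_mapDomain {T : Type*} (g : T → Pts m k) (w : T →₀ ℚ) :
    (Submodule.Quotient.mk (Finsupp.mapDomain g w) : VP X) = w.sum fun t a => a • clP X (g t) := by
  have h1 : ∀ z : Pts m k →₀ ℚ,
      (Submodule.Quotient.mk z : VP X) = z.sum fun p c => c • clP X p := by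
    intro z
    conv_lhs => rw [← Finsupp.sum_single z]
    rw [Finsupp.sum, ← Submodule.mkQ_apply, map_sum, Finsupp.sum]
    refine Finset.sum_congr rfl fun p _ => ?_
    rw [clP, ← Submodule.mkQ_apply, ← map_smul, Finsupp.smul_single, smul_eq_mul, mul_one]
  rw [h1]
  exact Finsupp.sum_mapDomain_index (h := fun p c => c • clP X p) (fun t => zero_smul ℚ _)
    (fun t a b => add_smul a b _)

/-- the images of the points of a zero-cycle in a curve -/
theorem isNull_iff {C : WC k} {f : PtM m Z → WFC.Pt k} {z : PtM m Z →₀ ℚ} :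
    IsNull C f z ↔ (z.mapDomain fun p (_ : Fin 1) => f p) ∈ ratEqW (fun _ : Fin 1 => C) := by
  constructor
  · intro h
    have h1 := fst_ratEq h
    rwa [← Finsupp.mapDomain_comp] at h1
  · intro h
    have h1 := ratEqW_times (Z := (Fin.elim0 : Fin 0 → TS k)) (fun j => j.elim0) h
    rwa [← Finsupp.mapDomain_comp] at h1

/-- no block -/
theorem wt_lt_one {T : Finset (Fin m × Option ℕ)} (h : wt X T < 1) (j : Fin m) :
    (j, none) ∉ T := by
  intro hj
  have h1 : (if (j, none) ∈ T then cnt X T j + 1 else 0) ≤ wt X T :=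
    Finset.single_le_sum (f := fun j => if (j, none) ∈ T then cnt X T j + 1 else 0)
      (fun _ _ => Nat.zero_le _) (Finset.mem_univ j)
  rw [if_pos hj] at h1
  omega

theorem eq_empty {T : Finset (Fin m × Option ℕ)} (hT : Closed T) (h : wt X T < 1) : T = ∅ := by
  rw [Finset.eq_empty_iff_forall_notMem]
  rintro ⟨j, o⟩ hj
  cases o with
  | none => exact wt_lt_one h j hj
  | some b => exact wt_lt_one h j (hT j b hj)

theorem proj_empty {p : Pts m k} (hp : OnP X p) :
    proj ∅ p = fun j => ⟨X j, (X j).oo⟩ := by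
  funext j
  unfold proj
  rw [if_neg (Finset.notMem_empty _), (hp j).1]

variable [IsAlgClosed k] [CharZero k]

theorem sndV_times {p : Pts m k} (hp : OnP X p) (b : VT Z) :
    sndV X Z (times X Z (clP X p) b) = b := by
  have h : (sndV X Z).comp (times X Z (clP X p)) = LinearMap.id := VT_ext fun q => by
    rw [LinearMap.comp_apply, times_cl hp, sndV_cl, LinearMap.id_apply]
  exact LinearMap.congr_fun h b

theorem fstV_times {p : Pts m k} (hp : OnP X p) (b : VT Z) :
    fstV X Z (times X Z (clP X p) b) = dgT Z b • clP X p := by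
  have h : (fstV X Z).comp (times X Z (clP X p)) = (dgT Z).smulRight (clP X p) :=
    VT_ext fun q => by
      rw [LinearMap.comp_apply, times_cl hp, fstV_cl, LinearMap.smulRight_apply, dgT_cl, one_smul]
  exact LinearMap.congr_fun h b

theorem sndV_eP {p : Pts m k} (hp : OnP X p) {T : Finset (Fin m × Option ℕ)} (hT : T ≠ ∅)
    (b : VT Z) : sndV X Z (times X Z (eP X T p) b) = 0 := by
  unfold eP
  rw [map_sum, LinearMap.sum_apply, map_sum]
  have h1 : ∀ U ∈ T.powerset, sndV X Z (times X Z ((-1 : ℚ) ^ (T \ U).card • clP X (proj U p)) b) =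
      ((-1 : ℚ) ^ (T \ U).card) • b := fun U _ => by
    rw [map_smul, LinearMap.smul_apply, map_smul, sndV_times (onP_proj hp U)]
  rw [Finset.sum_congr rfl h1, ← Finset.sum_smul, sum_sign hT, zero_smul]

theorem fstV_eP {p : Pts m k} (hp : OnP X p) (T : Finset (Fin m × Option ℕ)) (b : VT Z) :
    fstV X Z (times X Z (eP X T p) b) = dgT Z b • eP X T p := by
  unfold eP
  rw [map_sum, LinearMap.sum_apply, map_sum, Finset.smul_sum]
  refine Finset.sum_congr rfl fun U _ => ?_
  rw [map_smul, LinearMap.smul_apply, map_smul, fstV_times (onP_proj hp U), smul_comm]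

/-- the degree of an exterior product -/
theorem dgT_mulT (w : ∀ j, V1 (Z j)) : dgT Z (mulT Z w) = ∏ j, dgS (Z j) (w j) := by
  have h : (dgT Z).compMultilinearMap (mulT Z) =
      (MultilinearMap.mkPiAlgebra ℚ (Fin l) ℚ).compLinearMap fun j => dgS (Z j) := by
    refine mul_ext fun z => ?_
    rw [LinearMap.compMultilinearMap_apply, mulT_cl, dgT_cl, MultilinearMap.compLinearMap_apply,
      MultilinearMap.mkPiAlgebra_apply]
    exact (Finset.prod_eq_one fun j _ => dgS_clS _ _).symm
  exact congrArg (fun E => E w) h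

/-- the degree of the parts -/
theorem dgS_eS (W : TS k) {n : Fin 3} (hn : n ≠ 0) (z : W.Pt) : dgS W (eS W n z) = 0 := by
  fin_cases n
  · exact absurd rfl hn
  · exact (congrArg (dgS W) (eS_one W z)).trans (by rw [map_sub, dgS_delP, dgS_delP, sub_self])
  · exact (congrArg (dgS W) (eS_two W z)).trans (by rw [map_sub, dgS_clS, dgS_delP, sub_self])

/-! ### The parts of the class of a point -/

/-- the part of the class of the point `p` with the labels `T` and `lam` -/
def eM (X : Fin m → WC k) (Z : Fin l → TS k) (T : Finset (Fin m × Option ℕ))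
    (lam : Fin l → Fin 3) (p : PtM m Z) : V X Z :=
  times X Z (eP X T p.1) (mulT Z fun j => eS (Z j) (lam j) (p.2 j))

/-- the class of a point is the sum of its parts -/
theorem cl_eq_sum {p : PtM m Z} (hp : OnP X p.1) :
    cl X Z p = ∑ T ∈ (blocks X).powerset with Closed T, ∑ lam : Fin l → Fin 3,
      eM X Z T lam p := by
  have h1 : cl X Z p = times X Z (clP X p.1) (clT Z p.2) := (times_cl hp p.2).symm
  rw [h1, clP_eq_sum hp, map_sum, LinearMap.sum_apply]
  refine Finset.sum_congr rfl fun T _ => ?_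
  rw [clT_eS, map_sum]
  rfl

theorem mk_eq_parts {z : PtM m Z →₀ ℚ} (hz : ∀ p ∈ z.support, OnP X p.1) :
    (Submodule.Quotient.mk z : V X Z) = ∑ T ∈ (blocks X).powerset with Closed T,
      ∑ lam : Fin l → Fin 3, z.sum fun p c => c • eM X Z T lam p := by
  rw [mk_eq_sum]
  unfold Finsupp.sum
  have h2 : ∀ T : Finset (Fin m × Option ℕ), ∑ lam : Fin l → Fin 3, ∑ p ∈ z.support,
      z p • eM X Z T lam p = ∑ p ∈ z.support, z p • ∑ lam : Fin l → Fin 3, eM X Z T lam p := by
    intro T
    rw [Finset.sum_comm]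
    exact Finset.sum_congr rfl fun p _ => (Finset.smul_sum).symm
  rw [Finset.sum_congr rfl fun T _ => h2 T, Finset.sum_comm]
  refine Finset.sum_congr rfl fun p hp => ?_
  beta_reduce
  rw [cl_eq_sum (hz p hp), Finset.smul_sum]

theorem mk_mem_FM {ν : ℕ} {z : PtM m Z →₀ ℚ} (hz : ∀ p ∈ z.support, OnP X p.1)
    (h : ∀ T ⊆ blocks X, Closed T → ∀ lam : Fin l → Fin 3, wt X T + ∑ j, (lam j : ℕ) < ν →
      (z.sum fun p c => c • eM X Z T lam p) = 0) :
    (Submodule.Quotient.mk z : V X Z) ∈ FM X Z ν := by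
  rw [mk_eq_parts hz]
  refine Submodule.sum_mem _ fun T hT => Submodule.sum_mem _ fun lam _ => ?_
  rw [Finset.mem_filter] at hT
  by_cases hν : ν ≤ wt X T + ∑ j, (lam j : ℕ)
  · refine Submodule.sum_mem _ fun p hp => Submodule.smul_mem _ _ (Submodule.subset_span ?_)
    exact ⟨T, lam, p.1, p.2, hz p hp, Finset.mem_powerset.1 hT.1, hT.2, hν, rfl⟩
  · rw [h T (Finset.mem_powerset.1 hT.1) hT.2 lam (by omega)]
    exact zero_mem _

theorem FilM_zero (z : PtM m Z →₀ ℚ) : z ∈ FilM X Z 0 ↔ ∀ p ∈ z.support, OnP X p.1 :=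
  ⟨fun h => h.1, fun h => mem_FilM.2
    ⟨h, mk_mem_FM h fun _ _ _ _ h => absurd h (Nat.not_lt_zero _)⟩⟩

theorem FM_top : FM X Z ((∑ j, (X j).dim) + 2 * l + 1) = ⊥ := by
  rw [eq_bot_iff]
  refine Submodule.span_le.2 ?_
  rintro x ⟨T, lam, p, z, hp, hT, hc, hν, rfl⟩
  exfalso
  have h1 : wt X (blocks X) ≤ ∑ j, (X j).dim := by
    unfold wt
    apply Finset.sum_le_sum
    intro j _
    have h4 : cnt X (blocks X) j ≤ (X j).N := by
      unfold cnt
      refine (Finset.card_filter_le _ _).trans ?_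
      rw [Finset.card_univ, Fintype.card_fin]
    unfold WC.dim
    split_ifs <;> omega
  have h2 := wt_mono (X := X) hT
  have h3 : ∑ j, (lam j : ℕ) ≤ ∑ _j : Fin l, 2 := Finset.sum_le_sum fun j _ => by
    have := (lam j).2
    omega
  rw [Finset.sum_const, Finset.card_univ, Fintype.card_fin, smul_eq_mul] at h3
  omega

theorem FilM_top {z : PtM m Z →₀ ℚ} (hz : z ∈ FilM X Z ((∑ j, (X j).dim) + 2 * l + 1)) :
    z ∈ ratEq X Z := by
  have h := (mem_FilM.1 hz).2
  rw [FM_top] at h
  exact (Submodule.Quotient.mk_eq_zero _).1 ((Submodule.mem_bot ℚ).1 h)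

/-- all labels are zero -/
theorem lam_zero {lam : Fin l → Fin 3} (h : ∑ j, (lam j : ℕ) = 0) (j : Fin l) : lam j = 0 := by
  have h1 := (Finset.sum_eq_zero_iff.1 h) j (Finset.mem_univ j)
  exact Fin.ext h1

theorem FM_one_dg : FM X Z 1 ≤ LinearMap.ker ((dgT Z).comp (sndV X Z)) := by
  refine Submodule.span_le.2 ?_
  rintro x ⟨T, lam, p, z, hp, hT, hc, hν, rfl⟩
  rw [SetLike.mem_coe, LinearMap.mem_ker, LinearMap.comp_apply]
  by_cases h0 : T = ∅
  · subst h0
    rw [eP_empty, sndV_times (onP_proj hp _), dgT_mulT]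
    have h1 : wt X (∅ : Finset (Fin m × Option ℕ)) = 0 := by
      unfold wt
      exact Finset.sum_eq_zero fun j _ => if_neg (Finset.notMem_empty _)
    obtain ⟨j, hj⟩ : ∃ j, lam j ≠ 0 := by
      by_contra hne
      push Not at hne
      have h2 : ∑ j, (lam j : ℕ) = 0 := Finset.sum_eq_zero fun j _ => by rw [hne j]; rfl
      omega
    exact Finset.prod_eq_zero (Finset.mem_univ j) (dgS_eS _ hj _)
  · rw [sndV_eP hp h0, map_zero]

theorem FilM_one (z : PtM m Z →₀ ℚ) :
    z ∈ FilM X Z 1 ↔ (∀ p ∈ z.support, OnP X p.1) ∧ (z.sum fun _ c => c) = 0 := by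
  constructor
  · intro hz
    obtain ⟨h1, h2⟩ := mem_FilM.1 hz
    refine ⟨h1, ?_⟩
    have h3 := FM_one_dg h2
    rw [LinearMap.mem_ker, mk_eq_sum, Finsupp.sum, map_sum] at h3
    rw [Finsupp.sum, ← h3]
    refine Finset.sum_congr rfl fun p _ => ?_
    rw [map_smul, LinearMap.comp_apply, sndV_cl, dgT_cl, smul_eq_mul, mul_one]
  · rintro ⟨h1, h2⟩
    refine mem_FilM.2 ⟨h1, mk_mem_FM h1 fun T hT hc lam hlt => ?_⟩
    have hT0 := eq_empty hc (X := X) (by omega)
    have hl0 := lam_zero (lam := lam) (by omega)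
    subst hT0
    have h3 : ∀ p ∈ z.support, z p • eM X Z ∅ lam p =
        z p • times X Z (clP X fun j => ⟨X j, (X j).oo⟩)
          (mulT Z fun j => delP (Z j) (Z j).E.c0) := fun p hp => by
      unfold eM
      rw [eP_empty, proj_empty (h1 p hp)]
      congr 3
      funext j
      rw [hl0 j]
      rfl
    rw [Finsupp.sum, Finset.sum_congr rfl h3, ← Finset.sum_smul]
    have h4 : ∑ p ∈ z.support, z p = 0 := h2
    rw [h4, zero_smul]

end Pool.Agent.QTC
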