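import Pool.Agent.QTC.FilA
import Pool.Agent.WFC.FTwo

/-!
# The second step of the filtration
-/

set_option autoImplicit false

noncomputable section

namespace Pool.Agent.QTC

open Pool.Agent.ZCyc
open Pool.Agent.VFP (Om tt)
open Pool.Agent.WFC
open scoped Classical

variable {k : Type} [Field k] [IsAlgClosed k] [CharZero k] {m l : ℕ} {X : Fin m → WC k}
  {Z : Fin l → TS k}

theorem prod_update_self (Z : Fin l → TS k) (i : Fin l) (w : ∀ i, V1 (Z i)) (u : V1 (Z i)) :
    ∏ i' ∈ Finset.univ.erase i, dgS (Z i') (Function.update w i u i') =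
      ∏ i' ∈ Finset.univ.erase i, dgS (Z i') (w i') :=
  Finset.prod_congr rfl fun i' hi' => by
    rw [Function.update_of_ne (Finset.ne_of_mem_erase hi')]

theorem prod_update_ne (Z : Fin l → TS k) {i j : Fin l} (hi : i ≠ j) (w : ∀ i, V1 (Z i))
    (u : V1 (Z i)) : ∏ i' ∈ Finset.univ.erase j, dgS (Z i') (Function.update w i u i') =
      dgS (Z i) u * ∏ i' ∈ (Finset.univ.erase j).erase i, dgS (Z i') (w i') := by
  rw [← Finset.mul_prod_erase _ _ (Finset.mem_erase.2 ⟨hi, Finset.mem_univ i⟩),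
    Function.update_self]
  congr 1
  exact Finset.prod_congr rfl fun i' hi' => by
    rw [Function.update_of_ne (Finset.ne_of_mem_erase hi')]

/-- the product of the degrees of the factors except the one with number `j`, times this factor -/
def facM (Z : Fin l → TS k) (j : Fin l) :
    MultilinearMap ℚ (fun i => V1 (Z i)) (V1 (Z j)) :=
  MultilinearMap.mk' (fun w => (∏ i ∈ Finset.univ.erase j, dgS (Z i) (w i)) • w j)
    (fun w i x y => by
      by_cases hi : i = j
      · subst hi
        simp only [prod_update_self, Function.update_self, smul_add]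
      · simp only [prod_update_ne Z hi, Function.update_of_ne (Ne.symm hi), map_add, add_mul,
          add_smul])
    (fun w i c x => by
      by_cases hi : i = j
      · subst hi
        simp only [prod_update_self, Function.update_self]
        rw [smul_comm]
      · simp only [prod_update_ne Z hi, Function.update_of_ne (Ne.symm hi), map_smul,
          smul_eq_mul, mul_assoc, mul_smul])

theorem facM_apply (j : Fin l) (w : ∀ i, V1 (Z i)) :
    facM Z j w = (∏ i ∈ Finset.univ.erase j, dgS (Z i) (w i)) • w j := rfl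

omit [IsAlgClosed k] [CharZero k] in
/-- the projection to one surface -/
theorem col_ratEq (j : Fin l) {z : PtM 0 Z →₀ ℚ} (hz : z ∈ ratEq (e0 k) Z) :
    Finsupp.mapDomain (fun p : PtM 0 Z => ((p0 k, fun _ => p.2 j) :
      PtM 0 (fun _ : Fin 1 => Z j))) z ∈ ratEq (e0 k) (fun _ : Fin 1 => Z j) := by
  have hle : ratEq (e0 k) Z ≤ (ratEq (e0 k) (fun _ : Fin 1 => Z j)).comap
      (Finsupp.lmapDomain ℚ ℚ fun p : PtM 0 Z => ((p0 k, fun _ => p.2 j) :
        PtM 0 (fun _ : Fin 1 => Z j))) := by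
    refine ratEq_le ?_ ?_
    · rintro _ ⟨n, P, Q, c, c', v, v', p, p', hP, hg, hv, hv', hp, hp', rfl⟩
      change Finsupp.lmapDomain ℚ ℚ _ _ ∈ ratEq (e0 k) (fun _ : Fin 1 => Z j)
      rw [map_sum]
      refine mem_fam ⟨n, P, fun a _ => Q a j, c, c', v, v',
        fun a => (p0 k, fun _ => (p a).2 j), fun a => (p0 k, fun _ => (p' a).2 j), hP,
        fun g => ?_, hv, hv', fun a => ⟨fun i => i.elim0, fun i => i.elim0, fun _ =>
          (hp a).2.2 j⟩,
        fun a => ⟨fun i => i.elim0, fun i => i.elim0, fun _ => (hp' a).2.2 j⟩, ?_⟩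
      · obtain ⟨e, he⟩ := hg g
        exact ⟨e, fun a => ⟨(he a).1, fun _ => (he a).2 j⟩⟩
      · refine Finset.sum_congr rfl fun a _ => ?_
        rw [map_sub, Finsupp.lmapDomain_apply, Finsupp.lmapDomain_apply,
          Finsupp.mapDomain_single, Finsupp.mapDomain_single]
    · rintro _ ⟨p, p', -, -, h2, rfl⟩
      change Finsupp.lmapDomain ℚ ℚ _ _ ∈ ratEq (e0 k) (fun _ : Fin 1 => Z j)
      rw [map_sub, Finsupp.lmapDomain_apply, Finsupp.lmapDomain_apply, Finsupp.mapDomain_single,
        Finsupp.mapDomain_single, h2, sub_self]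
      exact zero_mem _
  exact hle hz

/-- the projection of the classes to one surface -/
def col (Z : Fin l → TS k) (j : Fin l) : VT Z →ₗ[ℚ] V1 (Z j) :=
  (ratEq (e0 k) Z).mapQ (ratEq (e0 k) fun _ : Fin 1 => Z j)
    (Finsupp.lmapDomain ℚ ℚ fun p : PtM 0 Z => ((p0 k, fun _ => p.2 j) :
      PtM 0 (fun _ : Fin 1 => Z j))) fun _ hz => col_ratEq j hz

omit [IsAlgClosed k] [CharZero k] in
theorem col_clT (j : Fin l) (q : ∀ j, (Z j).Pt) : col Z j (clT Z q) = clS (Z j) (q j) := by
  have h : col Z j (clT Z q) = Submodule.Quotient.mk (Finsupp.mapDomain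
    (fun p : PtM 0 Z => ((p0 k, fun _ => p.2 j) : PtM 0 (fun _ : Fin 1 => Z j)))
    (Finsupp.single (p0 k, q) (1 : ℚ))) := rfl
  rw [h, Finsupp.mapDomain_single]
  rfl

theorem col_mulT (j : Fin l) (w : ∀ i, V1 (Z i)) :
    col Z j (mulT Z w) = (∏ i ∈ Finset.univ.erase j, dgS (Z i) (w i)) • w j := by
  have h : (col Z j).compMultilinearMap (mulT Z) = facM Z j := by
    refine mul_ext fun z => ?_
    rw [LinearMap.compMultilinearMap_apply, mulT_cl, col_clT, facM_apply,
      Finset.prod_eq_one fun i _ => dgS_clS _ _, one_smul]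
  exact congrArg (fun E => E w) h

/-- the map to the classes on the base curve of the surface with number `j` -/
def toC (X : Fin m → WC k) (Z : Fin l → TS k) (j : Fin l) : V X Z →ₗ[ℚ] VC (Z j).E :=
  (basL (Z j)).comp ((col Z j).comp (sndV X Z))

theorem toC_cl (j : Fin l) (p : PtM m Z) :
    toC X Z j (cl X Z p) = clC (Z j).E ((Z j).bas (p.2 j)) := by
  unfold toC
  rw [LinearMap.comp_apply, LinearMap.comp_apply, sndV_cl, col_clT, basL_clS]

theorem toC_mk (j : Fin l) (z : PtM m Z →₀ ℚ) : toC X Z j (Submodule.Quotient.mk z) =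
    z.sum fun p c => c • clC (Z j).E ((Z j).bas (p.2 j)) := by
  rw [mk_eq_sum, Finsupp.sum, map_sum, Finsupp.sum]
  exact Finset.sum_congr rfl fun p _ => by rw [map_smul, toC_cl]

/-- the images in the base curve of a surface -/
theorem isNull_toC (j : Fin l) (z : PtM m Z →₀ ℚ) :
    IsNull (Z j).E.cur (fun p => (Z j).E.pt ((Z j).bas (p.2 j))) z ↔
      toC X Z j (Submodule.Quotient.mk z) = 0 := by
  rw [isNull_iff, toC_mk, ← Submodule.Quotient.mk_eq_zero, mkW_mapDomain]
  rfl

theorem FM_two_toC (j : Fin l) : FM X Z 2 ≤ LinearMap.ker (toC X Z j) := by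
  refine Submodule.span_le.2 ?_
  rintro x ⟨T, lam, p, z, hp, hT, hc, hν, rfl⟩
  rw [SetLike.mem_coe, LinearMap.mem_ker, toC, LinearMap.comp_apply, LinearMap.comp_apply]
  by_cases h0 : T = ∅
  · subst h0
    rw [eP_empty, sndV_times (onP_proj hp _), col_mulT]
    have h1 : wt X (∅ : Finset (Fin m × Option ℕ)) = 0 := by
      unfold wt
      exact Finset.sum_eq_zero fun j _ => if_neg (Finset.notMem_empty _)
    by_cases h2 : ∃ i ∈ Finset.univ.erase j, lam i ≠ 0
    · obtain ⟨i, hi, h3⟩ := h2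
      rw [Finset.prod_eq_zero hi (dgS_eS _ h3 _), zero_smul, map_zero]
    · push Not at h2
      have h3 : ∑ i ∈ Finset.univ.erase j, (lam i : ℕ) = 0 :=
        Finset.sum_eq_zero fun i hi => by rw [h2 i hi]; rfl
      have h4 := Finset.add_sum_erase Finset.univ (fun i => (lam i : ℕ)) (Finset.mem_univ j)
      have h5 : lam j = 2 := by
        have h6 := (lam j).2
        apply Fin.ext
        change (lam j : ℕ) = 2
        omega
      rw [h5, map_smul, basL_two, smul_zero]
  · rw [sndV_eP hp h0, map_zero, map_zero]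

theorem FM_fst {ν : ℕ} {x : V X Z} (hx : x ∈ FM X Z ν) : fstV X Z x ∈ FV X ν := by
  have h : FM X Z ν ≤ (FV X ν).comap (fstV X Z) := by
    refine Submodule.span_le.2 ?_
    rintro x ⟨T, lam, p, z, hp, hT, hc, hν', rfl⟩
    rw [SetLike.mem_coe, Submodule.mem_comap, fstV_eP hp, dgT_mulT]
    by_cases h2 : ∃ i, lam i ≠ 0
    · obtain ⟨i, h3⟩ := h2
      rw [Finset.prod_eq_zero (Finset.mem_univ i) (dgS_eS _ h3 _), zero_smul]
      exact zero_mem _
    · push Not at h2
      have h3 : ∑ i, (lam i : ℕ) = 0 := Finset.sum_eq_zero fun i _ => by rw [h2 i]; rfl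
      exact Submodule.smul_mem _ _ (Submodule.subset_span
        ⟨T, p, hp, hT, hc, by omega, rfl⟩)
  exact h hx

omit [IsAlgClosed k] [CharZero k] in
theorem sum_eP_eq_zero {ν : ℕ} {z : Pts m k →₀ ℚ} (hz : z ∈ Fil X ν)
    {T : Finset (Fin m × Option ℕ)} (hT : wt X T < ν) :
    (z.sum fun p c => c • eP X T p) = 0 := by
  have h2 : (z.sum fun p c => c • eP X T p) =
      ∑ U ∈ T.powerset, ((-1 : ℚ) ^ (T \ U).card) •
        (Submodule.Quotient.mk (Finsupp.mapDomain (proj U) z) : VP X) := by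
    simp only [mkW_mapDomain]
    unfold Finsupp.sum eP
    simp only [Finset.smul_sum]
    rw [Finset.sum_comm]
    refine Finset.sum_congr rfl fun U _ => Finset.sum_congr rfl fun p _ => ?_
    rw [smul_comm]
  rw [h2, Finset.sum_eq_zero]
  intro U hU
  have h3 := wt_mono (X := X) (Finset.mem_powerset.1 hU)
  have h4 := hz.2 U (by omega)
  rw [Finsupp.lmapDomain_apply] at h4
  rw [(Submodule.Quotient.mk_eq_zero _).2 h4, smul_zero]

/-- the sum over the points of the parts with the label `1` in one surface -/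
theorem sum_eM_one {z : PtM m Z →₀ ℚ} (hz : ∀ p ∈ z.support, OnP X p.1)
    (h0 : (z.sum fun _ c => c) = 0) {lam : Fin l → Fin 3} {j : Fin l} (hj : lam j = 1)
    (hl : ∀ i, i ≠ j → lam i = 0)
    (h : toC X Z j (Submodule.Quotient.mk z) = 0) : (z.sum fun p c => c • eM X Z ∅ lam p) = 0 := by
  let L : V1 (Z j) →ₗ[ℚ] V X Z := (times X Z (clP X fun j => ⟨X j, (X j).oo⟩)).comp
    ((mulT Z).toLinearMap (fun i => delP (Z i) (Z i).E.c0) j)
  have h3 : ∀ p ∈ z.support, z p • eM X Z ∅ lam p =
      z p • L (del (Z j) (clC (Z j).E ((Z j).bas (p.2 j))) - delP (Z j) (Z j).E.c0) :=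
    fun p hp => by
      unfold eM
      rw [eP_empty, proj_empty (hz p hp), LinearMap.comp_apply, MultilinearMap.toLinearMap_apply,
        del_clC]
      congr 3
      funext i
      by_cases hi : i = j
      · subst hi
        rw [Function.update_self, hj]
        rfl
      · rw [Function.update_of_ne hi, hl i hi]
        rfl
  rw [Finsupp.sum, Finset.sum_congr rfl h3]
  have h4 : ∀ p ∈ z.support,
      z p • L (del (Z j) (clC (Z j).E ((Z j).bas (p.2 j))) - delP (Z j) (Z j).E.c0) =
      L (del (Z j) (z p • clC (Z j).E ((Z j).bas (p.2 j)))) -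
        z p • L (delP (Z j) (Z j).E.c0) := fun p _ => by
    rw [map_sub, smul_sub, map_smul, map_smul]
  rw [Finset.sum_congr rfl h4, Finset.sum_sub_distrib, ← Finset.sum_smul, ← map_sum, ← map_sum]
  rw [toC_mk] at h
  have h5 : ∑ p ∈ z.support, z p = 0 := h0
  have h6 : ∑ p ∈ z.support, z p • clC (Z j).E ((Z j).bas (p.2 j)) = 0 := h
  rw [h5, h6, map_zero, map_zero, zero_smul, sub_zero]

/-- the sum over the points of the parts with the label `0` in all surfaces -/
theorem sum_eM_zero {z : PtM m Z →₀ ℚ} {lam : Fin l → Fin 3} (hl : ∀ i, lam i = 0)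
    {T : Finset (Fin m × Option ℕ)}
    (h : (Finsupp.sum (z.mapDomain Prod.fst) fun p c => c • eP X T p) = 0) :
    (z.sum fun p c => c • eM X Z T lam p) = 0 := by
  rw [Finsupp.sum_mapDomain_index (h := fun p c => c • eP X T p) (fun t => zero_smul ℚ _)
    (fun t a b => add_smul a b _)] at h
  let L : VP X →ₗ[ℚ] V X Z := (times X Z).flip (mulT Z fun i => delP (Z i) (Z i).E.c0)
  have h3 : ∀ p ∈ z.support, z p • eM X Z T lam p = L (z p • eP X T p.1) := fun p _ => by
    rw [map_smul]
    congr 1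
    unfold eM
    rw [LinearMap.flip_apply]
    congr 2
    funext i
    rw [hl i]
    rfl
  rw [Finsupp.sum, Finset.sum_congr rfl h3, ← map_sum]
  have h4 : ∑ p ∈ z.support, z p • eP X T p.1 = 0 := h
  rw [h4, map_zero]

omit [IsAlgClosed k] [CharZero k] in
theorem mapDomain_fst_on {z : PtM m Z →₀ ℚ} (hz : ∀ p ∈ z.support, OnP X p.1) :
    ∀ p ∈ (z.mapDomain Prod.fst).support, OnP X p := by
  intro p hp
  obtain ⟨q, hq, rfl⟩ := Finset.mem_image.1 (Finsupp.mapDomain_support hp)
  exact hz q hq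

omit [IsAlgClosed k] [CharZero k] in
/-- the images in the base curve of a variety of the class `WC` -/
theorem isNull_base (j : Fin m) (z : PtM m Z →₀ ℚ) :
    IsNull (bsW (X j)) (fun p => bsP (p.1 j)) z ↔
      toBase j (z.mapDomain Prod.fst) ∈ ratEqW (fun _ : Fin 1 => (X j).base) := by
  rw [isNull_iff, toBase, Finsupp.lmapDomain_apply, ← Finsupp.mapDomain_comp]
  rfl

theorem FilM_two (z : PtM m Z →₀ ℚ) : z ∈ FilM X Z 2 ↔ z ∈ FilM X Z 1 ∧
    (∀ j, IsNull (bsW (X j)) (fun p => bsP (p.1 j)) z) ∧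
    ∀ j, IsNull (Z j).E.cur (fun p => (Z j).E.pt ((Z j).bas (p.2 j))) z := by
  constructor
  · intro hz
    obtain ⟨h1, h2⟩ := mem_FilM.1 hz
    refine ⟨FilM_anti one_le_two hz, fun j => ?_, fun j => ?_⟩
    · rw [isNull_base]
      have h3 := FM_fst h2
      rw [fstV_mk, mk_mem_FV (mapDomain_fst_on h1)] at h3
      exact ((Fil_two _).1 h3).2 j
    · rw [isNull_toC]
      exact FM_two_toC j h2
  · rintro ⟨h1, h2, h3⟩
    obtain ⟨h4, h5⟩ := (FilM_one z).1 h1
    have h6 : z.mapDomain Prod.fst ∈ Fil X 2 := by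
      rw [Fil_two]
      refine ⟨?_, fun j => (isNull_base j z).1 (h2 j)⟩
      rw [← mk_mem_FV (mapDomain_fst_on h4), ← fstV_mk]
      exact FM_fst (mem_FilM.1 h1).2
    refine mem_FilM.2 ⟨h4, mk_mem_FM h4 fun T hT hc lam hlt => ?_⟩
    by_cases hl : ∀ i, lam i = 0
    · exact sum_eM_zero hl (sum_eP_eq_zero h6 (by omega))
    · push Not at hl
      obtain ⟨j, hj⟩ := hl
      have h7 := Finset.add_sum_erase Finset.univ (fun i => (lam i : ℕ)) (Finset.mem_univ j)
      have h8 : (lam j : ℕ) ≠ 0 := fun h => hj (Fin.ext h)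
      have h9 : lam j = 1 := by
        apply Fin.ext
        change (lam j : ℕ) = 1
        omega
      have h10 : ∑ i ∈ Finset.univ.erase j, (lam i : ℕ) = 0 := by
        omega
      have h11 : T = ∅ := eq_empty hc (X := X) (by
        omega)
      subst h11
      refine sum_eM_one h4 h5 h9 (fun i hi => ?_) ((isNull_toC j z).1 (h3 j))
      exact Fin.ext ((Finset.sum_eq_zero_iff.1 h10) i
        (Finset.mem_erase.2 ⟨hi, Finset.mem_univ i⟩))

end Pool.Agent.QTC
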