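import Pool.Agent.QTC.Del
import Pool.Agent.WFC.FFil

/-!
# The filtration on the products
-/

set_option autoImplicit false

noncomputable section

namespace Pool.Agent.QTC

open Pool.Agent.ZCyc
open Pool.Agent.VFP (Om tt)
open Pool.Agent.WFC
open scoped Classical

variable {k : Type} [Field k] [IsAlgClosed k] [CharZero k] {m l : ℕ}

/-- the span of the parts of weight at least `ν` of the classes of the points -/
def FM (X : Fin m → WC k) (Z : Fin l → TS k) (ν : ℕ) : Submodule ℚ (V X Z) :=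
  Submodule.span ℚ {x | ∃ (T : Finset (Fin m × Option ℕ)) (lam : Fin l → Fin 3) (p : Pts m k)
    (z : ∀ j, (Z j).Pt), OnP X p ∧ T ⊆ blocks X ∧ Closed T ∧
    ν ≤ wt X T + ∑ j, (lam j : ℕ) ∧
    x = times X Z (eP X T p) (mulT Z fun j => eS (Z j) (lam j) (z j))}

/-- The filtration. -/
def FilM (X : Fin m → WC k) (Z : Fin l → TS k) (ν : ℕ) : Submodule ℚ (PtM m Z →₀ ℚ) :=
  onM X Z ⊓ (FM X Z ν).comap (ratEq X Z).mkQ

variable {X : Fin m → WC k} {Z : Fin l → TS k}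

theorem mem_FilM {ν : ℕ} {z : PtM m Z →₀ ℚ} : z ∈ FilM X Z ν ↔
    (∀ p ∈ z.support, OnP X p.1) ∧ (Submodule.Quotient.mk z : V X Z) ∈ FM X Z ν := Iff.rfl

theorem FM_anti {ν ν' : ℕ} (h : ν ≤ ν') : FM X Z ν' ≤ FM X Z ν := by
  refine Submodule.span_mono ?_
  rintro x ⟨T, lam, p, z, h1, h2, h3, h4, h5⟩
  exact ⟨T, lam, p, z, h1, h2, h3, h.trans h4, h5⟩

theorem FilM_ge (ν : ℕ) : ratEq X Z ≤ FilM X Z ν := fun z hz => by
  refine mem_FilM.2 ⟨(ratEq_supp hz).1, ?_⟩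
  rw [(Submodule.Quotient.mk_eq_zero _).2 hz]
  exact zero_mem _

theorem FilM_anti {ν ν' : ℕ} (h : ν ≤ ν') : FilM X Z ν' ≤ FilM X Z ν := fun _ hz =>
  ⟨hz.1, FM_anti h hz.2⟩

end Pool.Agent.QTC
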