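import Pool.Agent.QTC.TransL
import Pool.Agent.GT.Val

/-!
# Points over `Om k` are defined over finite extensions of `L`
-/

set_option autoImplicit false

noncomputable section

namespace Pool.Agent.QTC

open Pool.Agent.ZCyc Pool.Agent.Dess Pool.Agent.GT
open Pool.Agent.VFP (Om tt)
open scoped Classical LinearAlgebra.Projectivization

variable {k L : Type} [Field k] [Field L] [Algebra k L] [Algebra L (Om k)]
  [IsScalarTower k L (Om k)] [Algebra.IsAlgebraic L (Om k)] {m : ℕ}
  {X : Set (MvPolynomial (Fin (m + 1)) k)}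

variable (L) in
/-- a finite number of points over `Om k` is defined over a finite extension of `L` -/
theorem exists_def (hX : Hom X) {J : Type} [Finite J] (x : J → Pt X (Om k)) :
    ∃ (F : IntermediateField L (Om k)) (_ : FiniteDimensional L F) (y : J → Pt X F),
      ∀ j, (y j).map (F.val.restrictScalars k) hX = x j := by
  have hex : ∀ j, ∃ i, (x j).1.rep i ≠ 0 := by
    intro j
    by_contra hcon
    push Not at hcon
    exact (x j).1.rep_nonzero (funext hcon)
  choose i0 hi0 using hex
  set r : J → Fin (m + 1) → Om k := fun j i => ((x j).1.rep (i0 j))⁻¹ * (x j).1.rep i with hr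
  set S : Set (Om k) := Set.range fun p : J × Fin (m + 1) => r p.1 p.2 with hSdef
  have hSfin : S.Finite := Set.finite_range _
  have hrK : ∀ j i, r j i ∈ IntermediateField.adjoin L S := fun j i =>
    IntermediateField.subset_adjoin L S ⟨(j, i), rfl⟩
  have hfd : FiniteDimensional L (IntermediateField.adjoin L S) := by
    have : Finite S := hSfin
    exact IntermediateField.finiteDimensional_adjoin fun x _ => Algebra.IsIntegral.isIntegral x
  generalize IntermediateField.adjoin L S = K at hrK hfd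
  have hne : ∀ j, (fun i => (⟨r j i, hrK j i⟩ : K)) ≠ 0 := by
    intro j h
    have h1 := congrArg Subtype.val (congrFun h (i0 j))
    have h2 : r j (i0 j) = 1 := by
      rw [hr]
      exact inv_mul_cancel₀ (hi0 j)
    change r j (i0 j) = 0 at h1
    rw [h2] at h1
    exact one_ne_zero h1
  let ι : K →ₐ[k] Om k := K.val.restrictScalars k
  have heq : ∀ j, ∀ f ∈ X, MvPolynomial.aeval (fun i => (⟨r j i, hrK j i⟩ : K)) f = 0 := by
    intro j f hf
    refine (map_eq_zero ι).1 ?_
    have h1 : ι (MvPolynomial.aeval (fun i => (⟨r j i, hrK j i⟩ : K)) f) =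
        MvPolynomial.aeval (fun i => r j i) f :=
      DFunLike.congr_fun (MvPolynomial.comp_aeval (fun i => (⟨r j i, hrK j i⟩ : K)) ι) f
    rw [h1]
    obtain ⟨d, hd⟩ := hX f hf
    rw [hr]
    dsimp only
    rw [aeval_smul_homog hd, (x j).2 f hf, mul_zero]
  refine ⟨K, hfd, fun j => mkPt hX (fun i => ⟨r j i, hrK j i⟩) (hne j) (heq j), fun j => ?_⟩
  apply Subtype.ext
  obtain ⟨c, hc⟩ := Projectivization.exists_smul_eq_mk_rep K
    (fun i => (⟨r j i, hrK j i⟩ : K)) (hne j)
  conv_rhs => rw [← Projectivization.mk_rep (x j).1]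
  unfold Pt.map mkPt
  dsimp only
  rw [Projectivization.mk_eq_mk_iff']
  refine ⟨ι (c : K) * ((x j).1.rep (i0 j))⁻¹, ?_⟩
  funext i
  have h1 := congrFun hc i
  rw [← h1]
  change ι (c : K) * ((x j).1.rep (i0 j))⁻¹ * (x j).1.rep i =
    ι ((c : K) * (⟨r j i, hrK j i⟩ : K))
  rw [map_mul, mul_assoc]
  rfl

omit [Algebra L (Om k)] [IsScalarTower k L (Om k)] [Algebra.IsAlgebraic L (Om k)] [Field L]
  [Algebra k L] in
/-- the image of a point under a composition -/
theorem map_comp {K K' K'' : Type} [Field K] [Algebra k K] [Field K'] [Algebra k K'] [Field K'']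
    [Algebra k K''] (φ : K →ₐ[k] K') (ψ : K' →ₐ[k] K'') (hX : Hom X) (x : Pt X K) :
    (x.map φ hX).map ψ hX = x.map (ψ.comp φ) hX := by
  apply Subtype.ext
  have hne : (fun i => φ (x.1.rep i)) ≠ 0 := by
    intro h
    apply x.1.rep_nonzero
    funext i
    exact (map_eq_zero φ).1 (congrFun h i)
  obtain ⟨c, hc⟩ := Projectivization.exists_smul_eq_mk_rep K' (fun i => φ (x.1.rep i)) hne
  refine (Projectivization.mk_eq_mk_iff' _ _ _ _ _).2 ⟨ψ c, ?_⟩
  funext i
  have h1 := congrFun hc i
  change ψ c * ψ (φ (x.1.rep i)) = ψ ((x.map φ hX).1.rep i)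
  rw [← map_mul]
  exact congrArg ψ h1

end Pool.Agent.QTC
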