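import Pool.Agent.QTC.MulT
import Pool.Agent.QTF.Glue

/-!
# Exterior products with constant points in some of the factors
-/

set_option autoImplicit false

noncomputable section

namespace Pool.Agent.QTC

open Pool.Agent.ZCyc Pool.Agent.WFC
open Pool.Agent.QTF (glue glue_self glue_of glue_update glue_map mulG mulG_apply)
open Pool.Agent.VFP (Om tt)
open scoped Classical



variable {k : Type} [Field k] {n l : ℕ} {Z : Fin l → TS k}

/-- multilinear maps which agree on the classes of points are equal -/
theorem mul_ext {U : Type*} [AddCommGroup U] [Module ℚ U]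
    {E E' : MultilinearMap ℚ (fun j => V1 (Z j)) U}
    (h : ∀ z : ∀ j, (Z j).Pt, E (fun j => clS (Z j) (z j)) = E' (fun j => clS (Z j) (z j))) :
    E = E' := by
  ext w
  choose z hz using fun j => mkS_surj (Z j) (w j)
  have h2 : w = fun j => ∑ t ∈ (z j).support, z j t • clS (Z j) t := by
    funext j
    rw [← hz j, mkS, Finsupp.linearCombination_apply, Finsupp.sum]
  rw [h2, MultilinearMap.map_sum_finset, MultilinearMap.map_sum_finset]
  refine Finset.sum_congr rfl fun x _ => ?_
  rw [E.map_smul_univ (fun j => z j (x j)) fun j => clS (Z j) (x j),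
    E'.map_smul_univ (fun j => z j (x j)) fun j => clS (Z j) (x j), h]

/-- a relation on the factors `e a`, with constant points in the other factors -/
theorem ratEq_glue {e : Fin n → Fin l} (he : Function.Injective e) (x : ∀ j, (Z j).Pt)
    {z : PtM 0 (fun a => Z (e a)) →₀ ℚ} (hz : z ∈ ratEq (e0 k) fun a => Z (e a)) :
    Finsupp.lmapDomain ℚ ℚ (fun q : PtM 0 (fun a => Z (e a)) =>
      ((p0 k, glue e x q.2) : PtM 0 Z)) z ∈ ratEq (e0 k) Z := by
  have hle : ratEq (e0 k) (fun a => Z (e a)) ≤
      (ratEq (e0 k) Z).comap (Finsupp.lmapDomain ℚ ℚ fun q : PtM 0 (fun a => Z (e a)) =>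
        ((p0 k, glue e x q.2) : PtM 0 Z)) := by
    refine ratEq_le ?_ ?_
    · rintro _ ⟨n, P, Q, c, c', v, v', q, q', hP, hg, hv, hv', hq, hq', rfl⟩
      change Finsupp.lmapDomain ℚ ℚ _ _ ∈ ratEq (e0 k) Z
      rw [map_sum]
      refine mem_fam ⟨n, P,
        fun a => glue e (fun i => (x i).map (Algebra.ofId k (Om k)) (Z i).hom) (Q a),
        c, c', v, v', fun a => (p0 k, glue e x (q a).2),
        fun a => (p0 k, glue e x (q' a).2), fun _ i => i.elim0, fun g => ?_, hv,
        hv', fun a => ?_, fun a => ?_, ?_⟩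
      · obtain ⟨e', he'⟩ := hg g
        refine ⟨e', fun a => ⟨fun i => i.elim0, fun i => ?_⟩⟩
        by_cases hi : ∃ b, e b = i
        · obtain ⟨b, rfl⟩ := hi
          simp only [glue_self he]
          exact (he' a).2 b
        · simp only [glue_of _ _ hi]
          exact isConj_const g _
      · refine ⟨fun i => i.elim0, fun i => i.elim0, fun i => ?_⟩
        by_cases hi : ∃ b, e b = i
        · obtain ⟨b, rfl⟩ := hi
          simp only [glue_self he]
          exact (hq a).2.2 b
        · simp only [glue_of _ _ hi]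
          exact GT.isVal_const
      · refine ⟨fun i => i.elim0, fun i => i.elim0, fun i => ?_⟩
        by_cases hi : ∃ b, e b = i
        · obtain ⟨b, rfl⟩ := hi
          simp only [glue_self he]
          exact (hq' a).2.2 b
        · simp only [glue_of _ _ hi]
          exact GT.isVal_const
      · refine Finset.sum_congr rfl fun a _ => ?_
        rw [map_sub, Finsupp.lmapDomain_apply, Finsupp.lmapDomain_apply,
          Finsupp.mapDomain_single, Finsupp.mapDomain_single]
    · rintro _ ⟨q, q', -, -, h2, rfl⟩
      change Finsupp.lmapDomain ℚ ℚ _ _ ∈ ratEq (e0 k) Z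
      rw [map_sub, Finsupp.lmapDomain_apply, Finsupp.lmapDomain_apply, Finsupp.mapDomain_single,
        Finsupp.mapDomain_single, h2, sub_self]
      exact zero_mem _
  exact hle hz

/-- the inclusion of the product of the factors `e a`, with constant points in the others -/
def gl {e : Fin n → Fin l} (he : Function.Injective e) (x : ∀ j, (Z j).Pt) :
    VT (fun a => Z (e a)) →ₗ[ℚ] VT Z :=
  (ratEq (e0 k) fun a => Z (e a)).liftQ ((ratEq (e0 k) Z).mkQ.comp
    (Finsupp.lmapDomain ℚ ℚ fun q : PtM 0 (fun a => Z (e a)) =>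
      ((p0 k, glue e x q.2) : PtM 0 Z))) fun z hz => by
    rw [LinearMap.mem_ker, LinearMap.comp_apply, Submodule.mkQ_apply,
      Submodule.Quotient.mk_eq_zero]
    exact ratEq_glue he x hz

theorem gl_cl {e : Fin n → Fin l} (he : Function.Injective e) (x : ∀ j, (Z j).Pt)
    (q : ∀ a, (Z (e a)).Pt) : gl he x (clT (fun a => Z (e a)) q) = clT Z (glue e x q) := by
  unfold gl clT cl
  rw [Submodule.liftQ_apply, LinearMap.comp_apply, Finsupp.lmapDomain_apply,
    Finsupp.mapDomain_single, Submodule.mkQ_apply]

theorem gl_mulT {e : Fin n → Fin l} (he : Function.Injective e) (x : ∀ j, (Z j).Pt)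
    (w : ∀ a, V1 (Z (e a))) :
    gl he x (mulT (fun a => Z (e a)) w) = mulT Z (glue e (fun j => clS (Z j) (x j)) w) := by
  have h : (gl he x).compMultilinearMap (mulT fun a => Z (e a)) =
      mulG he (mulT Z) (fun j => clS (Z j) (x j)) := by
    refine mul_ext fun z => ?_
    rw [LinearMap.compMultilinearMap_apply, mulT_cl, gl_cl, mulG_apply,
      ← glue_map he (fun j => clS (Z j)), mulT_cl]
  exact congrArg (fun E => E w) h

end Pool.Agent.QTC
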