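import Pool.Agent.QTF.Incl

/-!
# Unused factors for two kinds of labels
-/

set_option autoImplicit false

namespace Pool.Agent.QTC

open Pool.Agent.QTF (BijZ exists_unused)
open scoped Classical

variable {l l' : ℕ}

/-- The labels `B`, `S` on the source and `B'`, `S'` on the target: if the weight of the labels on
the target is at most the weight of the labels on the source and the components do not induce
bijections then a label on the source is not used. -/
theorem exists_unused2 {src : Fin l' → Option (Fin l)} {B S : Finset (Fin l)}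
    {B' S' : Finset (Fin l')} (hd : Disjoint B S)
    (hw : B'.card + 2 * S'.card ≤ B.card + 2 * S.card)
    (hn : ¬ (BijZ src B B' ∧ BijZ src S S')) :
    (∃ i ∈ S, ∀ j ∈ S', src j ≠ some i) ∨ ∃ i ∈ B, (∀ j ∈ B', src j ≠ some i) ∧
      ∀ j ∈ S', src j ≠ some i := by
  by_contra hcon
  push Not at hcon
  obtain ⟨hS, hB⟩ := hcon
  -- the sources
  let sr : Finset (Fin l') → Finset (Fin l) := fun J => J.biUnion fun j => (src j).toFinset
  have hsr : ∀ J i, i ∈ sr J ↔ ∃ j ∈ J, src j = some i := by
    intro J i
    simp [sr, Option.mem_toFinset, Option.mem_def]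
  have hcard : ∀ J, (sr J).card ≤ J.card := by
    intro J
    refine Finset.card_biUnion_le.trans ?_
    rw [Finset.card_eq_sum_ones]
    refine Finset.sum_le_sum fun j _ => ?_
    cases src j with
    | none => simp
    | some i => simp
  have h1 : S.card + (B ∩ sr S').card ≤ S'.card := by
    rw [← Finset.card_union_of_disjoint (Finset.disjoint_of_subset_right
      Finset.inter_subset_left hd.symm)]
    refine (Finset.card_le_card ?_).trans (hcard S')
    intro i hi
    rcases Finset.mem_union.1 hi with hi | hi
    · exact (hsr _ _).2 (hS i hi)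
    · exact (Finset.mem_inter.1 hi).2
  have h2 : B.card ≤ B'.card + (B ∩ sr S').card := by
    have h3 : B ⊆ sr B' ∪ (B ∩ sr S') := by
      intro i hi
      by_cases h4 : i ∈ sr S'
      · exact Finset.mem_union_right _ (Finset.mem_inter.2 ⟨hi, h4⟩)
      · refine Finset.mem_union_left _ ((hsr _ _).2 ?_)
        by_contra h5
        push Not at h5
        obtain ⟨j, hj, hji⟩ := hB i hi h5
        exact h4 ((hsr _ _).2 ⟨j, hj, hji⟩)
    refine (Finset.card_le_card h3).trans ((Finset.card_union_le _ _).trans ?_)
    exact Nat.add_le_add_right (hcard B') _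
  have h3 : (B ∩ sr S').card = 0 := by omega
  have h4 : S'.card ≤ S.card := by omega
  have h5 : B'.card ≤ B.card := by omega
  apply hn
  constructor
  · by_contra h6
    obtain ⟨i, hi, hi'⟩ := exists_unused h5 h6
    obtain ⟨j, hj, hji⟩ := hB i hi hi'
    rw [Finset.card_eq_zero] at h3
    have h7 : i ∈ B ∩ sr S' := Finset.mem_inter.2 ⟨hi, (hsr _ _).2 ⟨j, hj, hji⟩⟩
    rw [h3] at h7
    exact absurd h7 (Finset.notMem_empty i)
  · by_contra h6
    obtain ⟨i, hi, hi'⟩ := exists_unused h4 h6
    obtain ⟨j, hj, hji⟩ := hS i hi
    exact hi' j hj hji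

end Pool.Agent.QTC
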