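import Pool.Agent.QTC.ExtAbs
import Pool.Agent.QTC.Unused
import Pool.Agent.QTF.GrZ
import Pool.Agent.QTF.Bilin

/-!
# Combinations of morphisms between products of surfaces over curves, abstractly

Every factor of a product has a label `0`, `1` (base) or `2` (top). `A f n ζ j` is the part with the
label `n` of the image of the point `ζ` in the factor `j` under the morphism `f`.
-/

set_option autoImplicit false

noncomputable section

namespace Pool.Agent.QTC

open Pool.Agent.QTF (BijZ PullZ graded_abs bilin_zero lcm lw alt_letters)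
open Pool.Agent.ZIso (fixing)
open scoped Classical

/-- the factors with the label `n` -/
def lev {l : ℕ} (lam : Fin l → Fin 3) (n : Fin 3) : Finset (Fin l) :=
  Finset.univ.filter fun i => lam i = n

theorem mem_lev {l : ℕ} {lam : Fin l → Fin 3} {n : Fin 3} {i : Fin l} :
    i ∈ lev lam n ↔ lam i = n := by
  simp [lev]

/-- The sets, vector spaces and maps which belong to the morphisms between two products. -/
structure Parts {l l' : ℕ} (T : Fin l → Type) (C Mg Y : Type*) (Hs Bs : Fin l → Type*)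
    [∀ i, AddCommGroup (Hs i)] [∀ i, Module ℚ (Hs i)] [∀ i, AddCommGroup (Bs i)]
    [∀ i, Module ℚ (Bs i)] (H' : Fin l' → Type*) [∀ j, AddCommGroup (H' j)]
    [∀ j, Module ℚ (H' j)] (U : Type*) [AddCommGroup U] [Module ℚ U] where
  /-- the exterior product -/
  E : MultilinearMap ℚ H' U
  /-- the class of a point -/
  cl : ∀ i, T i → Hs i
  /-- the class of the image of a point in the base curve -/
  β : ∀ i, T i → Bs i
  /-- the factor on which a component depends -/
  src : Mg → Fin l' → Option (Fin l)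
  /-- the degree of a component -/
  dg : Mg → Fin l' → ℚ
  /-- the coefficient of a component on the top forms -/
  co : Mg → Fin l' → ℚ
  /-- the colours -/
  c : Fin l → C
  /-- the colours -/
  c' : Fin l' → C
  /-- the number of the top forms -/
  d : C → ℕ
  hc : ∀ f j i, src f j = some i → c i = c' j
  /-- the values of the letters -/
  h : ∀ i, Y → Hs i
  /-- the values of the letters -/
  h' : ∀ j, Y → H' j
  /-- the base class -/
  o' : ∀ j, H' j
  /-- the class of the multisection over the image of a point in the base curve -/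
  Dp : Mg → (∀ i, T i) → ∀ j, H' j
  /-- the parts -/
  A : Mg → Fin 3 → (∀ i, T i) → ∀ j, H' j
  A0 : ∀ f ζ j, A f 0 ζ j = dg f j • o' j
  A1 : ∀ f ζ j, A f 1 ζ j = dg f j • (Dp f ζ j - o' j)
  A2 : ∀ f j i, src f j = some i → ∃ (u : Hs i →ₗ[ℚ] H' j) (Δ : Bs i →ₗ[ℚ] H' j),
    (∀ ζ, A f 2 ζ j = u (cl i (ζ i)) - Δ (β i (ζ i))) ∧ ∀ y, u (h i y) = co f j • h' j y
  Dp_some : ∀ f j i, src f j = some i → ∃ Δ : Bs i →ₗ[ℚ] H' j, ∀ ζ, Dp f ζ j = Δ (β i (ζ i))
  cst : ∀ f j, src f j = none → ∀ n ζ ζ', A f n ζ j = A f n ζ' j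
  loc : ∀ f j i, src f j = some i → ∀ n ζ ζ', ζ i = ζ' i → A f n ζ j = A f n ζ' j
  joint : ∀ (f : Mg) (lam' : Fin l' → Fin 3) (i : Fin l),
    (∀ j, src f j = some i → lam' j ≠ 2) → ∀ ζ : ∀ i, T i, ∃ Λ : Bs i →ₗ[ℚ] U,
      ∀ t, E (fun j => A f (lam' j) (Function.update ζ i t) j) = Λ (β i t)
  alt : ∀ (S' : Finset (Fin l')) (J : Finset (Fin l')) (γ : C), J ⊆ S' → (∀ j ∈ J, c' j = γ) →
    J.card = d γ + 1 → ∀ y : Fin l' → Y, ∑ π ∈ fixing J, ((Equiv.Perm.sign π : ℤ) : ℚ) •
      E (fun j => if j ∈ S' then h' j (y (π j)) else o' j) = 0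

variable {l l' : ℕ} {T : Fin l → Type} {C Mg Y : Type*} {Hs Bs : Fin l → Type*}
  [∀ i, AddCommGroup (Hs i)] [∀ i, Module ℚ (Hs i)] [∀ i, AddCommGroup (Bs i)]
  [∀ i, Module ℚ (Bs i)] {H' : Fin l' → Type*} [∀ j, AddCommGroup (H' j)]
  [∀ j, Module ℚ (H' j)] {U VB : Type*} [AddCommGroup U] [Module ℚ U] [AddCommGroup VB]
  [Module ℚ VB]

/-- The measures `μ i` of the labels `lam i` and of the point `z`. -/
structure Parts.Meas (D : Parts T C Mg Y Hs Bs H' U) (lam : Fin l → Fin 3) (z : ∀ i, T i)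
    (x : Fin l → (Y →₀ ℚ)) (μ : ∀ i, T i →₀ ℚ) : Prop where
  m0 : ∀ i, lam i = 0 → ((μ i).sum fun _ c => c) = 1
  m1 : ∀ i, lam i = 1 → ((μ i).sum fun _ c => c) = 0
  m1' : ∀ i, lam i = 1 → ∀ f j, D.src f j = some i → ∀ Δ : Bs i →ₗ[ℚ] H' j,
    (∀ ζ, D.Dp f ζ j = Δ (D.β i (ζ i))) →
      Δ (Finsupp.linearCombination ℚ (D.β i) (μ i)) = D.Dp f z j - D.o' j
  m2 : ∀ i, lam i = 2 → Finsupp.linearCombination ℚ (D.β i) (μ i) = 0
  m2' : ∀ i, lam i = 2 → Finsupp.linearCombination ℚ (D.cl i) (μ i) =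
    Finsupp.linearCombination ℚ (D.h i) (x i)

/-- the product with the labels `lam'`: the letters `u j`, the differences of classes of the
multisection, and the base class -/
def Parts.w (D : Parts T C Mg Y Hs Bs H' U) (f : Mg) (lam' : Fin l' → Fin 3) (z : ∀ i, T i)
    (u : Fin l' → (Y →₀ ℚ)) (j : Fin l') : H' j :=
  if j ∈ lev lam' 2 then Finsupp.linearCombination ℚ (D.h' j) (u j) else
    if j ∈ lev lam' 1 then D.Dp f z j - D.o' j else D.o' j

/-- the two bijections -/
def Parts.Bij (D : Parts T C Mg Y Hs Bs H' U) (f : Mg) (lam : Fin l → Fin 3)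
    (lam' : Fin l' → Fin 3) : Prop :=
  BijZ (D.src f) (lev lam 1) (lev lam' 1) ∧ BijZ (D.src f) (lev lam 2) (lev lam' 2)

theorem disj_lev (lam : Fin l → Fin 3) : Disjoint (lev lam 1) (lev lam 2) := by
  rw [Finset.disjoint_left]
  intro i h1 h2
  rw [mem_lev] at h1 h2
  rw [h1] at h2
  exact absurd h2 (by decide)

/-- **The parts of the image**, if the weight does not grow. -/
theorem Parts.part_eq (D : Parts T C Mg Y Hs Bs H' U) {lam : Fin l → Fin 3} {z : ∀ i, T i}
    {x : Fin l → (Y →₀ ℚ)} {μ : ∀ i, T i →₀ ℚ} (hμ : D.Meas lam z x μ)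
    {lam' : Fin l' → Fin 3}
    (hw : (lev lam' 1).card + 2 * (lev lam' 2).card ≤ (lev lam 1).card + 2 * (lev lam 2).card)
    (f : Mg) : EP (fun ζ => D.E (fun j => D.A f (lam' j) ζ j)) μ =
      if D.Bij f lam lam' then ((∏ j ∈ (lev lam' 2)ᶜ, D.dg f j) * ∏ j ∈ lev lam' 2, D.co f j) •
        D.E (D.w f lam' z fun j => (D.src f j).elim 0 x) else 0 := by
  by_cases hB : D.Bij f lam lam'
  · rw [if_pos hB]
    obtain ⟨hB1, hB2⟩ := hB
    -- the bijection of the labels `1` and `2` together
    have hBB : BijZ (D.src f) (lev lam 1 ∪ lev lam 2) (lev lam' 1 ∪ lev lam' 2) := by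
      refine ⟨fun j hj => ?_, fun i hi => ?_⟩
      · rcases Finset.mem_union.1 hj with h | h
        · obtain ⟨i, hi, hi'⟩ := hB1.1 j h
          exact ⟨i, hi, Finset.mem_union_left _ hi'⟩
        · obtain ⟨i, hi, hi'⟩ := hB2.1 j h
          exact ⟨i, hi, Finset.mem_union_right _ hi'⟩
      · have hnot : ∀ i, i ∈ lev lam 1 → i ∈ lev lam 2 → False := fun i h1 h2 =>
          Finset.disjoint_left.1 (disj_lev lam) h1 h2
        rcases Finset.mem_union.1 hi with h | h
        · obtain ⟨j, ⟨hj, hji⟩, hu⟩ := hB1.2 i h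
          refine ⟨j, ⟨Finset.mem_union_left _ hj, hji⟩, ?_⟩
          rintro j' ⟨hj', hji'⟩
          rcases Finset.mem_union.1 hj' with h' | h'
          · exact hu j' ⟨h', hji'⟩
          · obtain ⟨i', hi1, hi2⟩ := hB2.1 j' h'
            rw [hji', Option.some.injEq] at hi1
            exact (hnot i h (hi1 ▸ hi2)).elim
        · obtain ⟨j, ⟨hj, hji⟩, hu⟩ := hB2.2 i h
          refine ⟨j, ⟨Finset.mem_union_right _ hj, hji⟩, ?_⟩
          rintro j' ⟨hj', hji'⟩
          rcases Finset.mem_union.1 hj' with h' | h'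
          · obtain ⟨i', hi1, hi2⟩ := hB1.1 j' h'
            rw [hji', Option.some.injEq] at hi1
            exact (hnot i (hi1 ▸ hi2) h).elim
          · exact hu j' ⟨h', hji'⟩
    have hdisj : ∀ j, j ∈ lev lam' 2 → j ∉ lev lam' 1 := fun j h2 h1 =>
      Finset.disjoint_left.1 (disj_lev lam') h1 h2
    have key := ext_bij hBB D.E (fun j ζ => D.A f (lam' j) ζ j)
      (fun j => D.dg f j • D.o' j) (fun j hj ζ => ?_)
      (fun j => if j ∈ lev lam' 2 then D.co f j • Finsupp.linearCombination ℚ (D.h' j)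
        ((D.src f j).elim 0 x) else D.dg f j • (D.Dp f z j - D.o' j)) μ (fun i hi => ?_)
      (fun j hj i hji => ?_)
    · rw [key]
      have h1 : (fun j => if j ∈ lev lam' 1 ∪ lev lam' 2 then (if j ∈ lev lam' 2 then
          D.co f j • Finsupp.linearCombination ℚ (D.h' j) ((D.src f j).elim 0 x) else
            D.dg f j • (D.Dp f z j - D.o' j)) else D.dg f j • D.o' j) =
          fun j => (if j ∈ lev lam' 2 then D.co f j else D.dg f j) •
            D.w f lam' z (fun j => (D.src f j).elim 0 x) j := by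
        funext j
        unfold Parts.w
        by_cases h2 : j ∈ lev lam' 2
        · rw [if_pos (Finset.mem_union_right _ h2), if_pos h2, if_pos h2, if_pos h2]
        · rw [if_neg h2, if_neg h2, if_neg h2]
          by_cases h3 : j ∈ lev lam' 1
          · rw [if_pos (Finset.mem_union_left _ h3), if_pos h3]
          · rw [if_neg h3, if_neg fun h => (Finset.mem_union.1 h).elim h3 h2]
      rw [h1, D.E.map_smul_univ]
      congr 1
      rw [← Finset.prod_compl_mul_prod (lev lam' 2)]
      congr 1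
      · exact Finset.prod_congr rfl fun j hj => if_neg (Finset.mem_compl.1 hj)
      · exact Finset.prod_congr rfl fun j hj => if_pos hj
    · -- constant components
      have h0 : lam' j = 0 := by
        rw [Finset.mem_union, not_or, mem_lev, mem_lev] at hj
        omega
      rw [h0, D.A0]
    · refine hμ.m0 i ?_
      rw [Finset.mem_union, not_or, mem_lev, mem_lev] at hi
      omega
    · by_cases h2 : j ∈ lev lam' 2
      · obtain ⟨i', hi1, hi2⟩ := hB2.1 j h2
        rw [hji, Option.some.injEq] at hi1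
        subst hi1
        rw [mem_lev] at hi2
        obtain ⟨u, Δ, hA, hu⟩ := D.A2 f j i hji
        refine ⟨u.comp (Finsupp.linearCombination ℚ (D.cl i)) -
          Δ.comp (Finsupp.linearCombination ℚ (D.β i)), fun ζ => ?_, ?_⟩
        · rw [mem_lev] at h2
          rw [h2, hA, LinearMap.sub_apply, LinearMap.comp_apply, LinearMap.comp_apply,
            Finsupp.linearCombination_single, Finsupp.linearCombination_single, one_smul,
            one_smul]
        · rw [LinearMap.sub_apply, LinearMap.comp_apply, LinearMap.comp_apply, hμ.m2 i hi2,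
            map_zero, sub_zero, hμ.m2' i hi2, if_pos h2, hji, Option.elim_some,
            Finsupp.linearCombination_apply, Finsupp.linearCombination_apply, Finsupp.sum,
            Finsupp.sum, map_sum, Finset.smul_sum]
          refine Finset.sum_congr rfl fun y _ => ?_
          rw [map_smul, hu, smul_comm]
      · have h1 : j ∈ lev lam' 1 := (Finset.mem_union.1 hj).resolve_right h2
        obtain ⟨i', hi1, hi2⟩ := hB1.1 j h1
        rw [hji, Option.some.injEq] at hi1
        subst hi1
        rw [mem_lev] at hi2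
        obtain ⟨Δ, hΔ⟩ := D.Dp_some f j i hji
        refine ⟨D.dg f j • (Δ.comp (Finsupp.linearCombination ℚ (D.β i)) -
          (Finsupp.linearCombination ℚ fun _ : T i => (1 : ℚ)).smulRight (D.o' j)),
          fun ζ => ?_, ?_⟩
        · rw [mem_lev] at h1
          rw [h1, D.A1, hΔ, LinearMap.smul_apply, LinearMap.sub_apply, LinearMap.comp_apply,
            Finsupp.linearCombination_single, one_smul, LinearMap.smulRight_apply,
            Finsupp.linearCombination_single, one_smul, one_smul]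
        · have h3 : (Finsupp.linearCombination ℚ (fun _ : T i => (1 : ℚ)) (μ i)) = 0 := by
            rw [Finsupp.linearCombination_apply, ← hμ.m1 i hi2]
            exact Finsupp.sum_congr fun _ _ => by rw [smul_eq_mul, mul_one]
          rw [if_neg h2, LinearMap.smul_apply, LinearMap.sub_apply, LinearMap.comp_apply,
            LinearMap.smulRight_apply, h3, zero_smul, sub_zero, hμ.m1' i hi2 f j hji Δ hΔ]
  · rw [if_neg hB]
    rcases exists_unused2 (disj_lev lam) hw hB with ⟨i, hi, hi'⟩ | ⟨i, hi, hi1, hi2⟩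
    · refine ext_unused _ μ i (D.β i) (fun ζ => ?_) (hμ.m2 i (mem_lev.1 hi))
      exact D.joint f lam' i (fun j hj h2 => hi' j (mem_lev.2 h2) hj) ζ
    · refine ext_unused _ μ i (fun _ => (1 : ℚ)) (fun ζ => ?_) ?_
      · rcases isEmpty_or_nonempty (T i) with he | ⟨⟨t₀⟩⟩
        · exact ⟨0, fun t => he.elim t⟩
        refine ⟨(LinearMap.toSpanSingleton ℚ U
          (D.E fun j => D.A f (lam' j) (Function.update ζ i t₀) j)), fun t => ?_⟩
        rw [LinearMap.toSpanSingleton_apply, one_smul]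
        congr 1
        funext j
        rcases hs : D.src f j with _ | i'
        · exact D.cst f j hs _ _ _
        · by_cases hii : i' = i
          · subst hii
            have h0 : lam' j = 0 := by
              have h1 : ¬ lam' j = 1 := fun h => hi1 j (mem_lev.2 h) hs
              have h2 : ¬ lam' j = 2 := fun h => hi2 j (mem_lev.2 h) hs
              omega
            rw [h0, D.A0, D.A0]
          · refine D.loc f j i' hs _ _ _ ?_
            rw [Function.update_of_ne hii, Function.update_of_ne hii]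
      · rw [Finsupp.linearCombination_apply, ← hμ.m1 i (mem_lev.1 hi)]
        exact Finsupp.sum_congr fun _ _ => by rw [smul_eq_mul, mul_one]

/-- **Combinations of morphisms which are zero on the forms**, for fixed labels. -/
theorem Parts.grad [Nonempty Y] (D : Parts T C Mg Y Hs Bs H' U) {lam : Fin l → Fin 3}
    {z : ∀ i, T i} {x : Fin l → (Y →₀ ℚ)} {μ : ∀ i, T i →₀ ℚ} (hμ : D.Meas lam z x μ)
    {lam' : Fin l' → Fin 3}
    (hw : (lev lam' 1).card + 2 * (lev lam' 2).card ≤ (lev lam 1).card + 2 * (lev lam 2).card)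
    {I : Type*} (pB : Mg → I → ℚ) (xB : Mg → VB)
    (hB : ∀ α : Mg →₀ ℚ, (∀ i, (α.sum fun f c => c * pB f i) = 0) →
      (α.sum fun f c => c • xB f) = 0)
    (comb : VB →ₗ[ℚ] U →ₗ[ℚ] U)
    (hcomb : ∀ f, BijZ (D.src f) (lev lam 1) (lev lam' 1) → ∀ u : Fin l' → (Y →₀ ℚ),
      comb (xB f) (D.E (lw D.h' D.o' (lev lam' 2) u)) = D.E (D.w f lam' z u))
    (hcomb' : ∀ f, ¬ BijZ (D.src f) (lev lam 1) (lev lam' 1) → xB f = 0)
    (s : Finset Mg) (γ : Mg → ℚ)
    (hγ : ∀ (i : I) (a : Fin l → ℕ) (a' : Fin l' → ℕ),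
      (∀ i, if i ∈ lev lam 2 then a i < D.d (D.c i) else a i = 0) →
      (∀ j, if j ∈ lev lam' 2 then a' j < D.d (D.c' j) else a' j = 0) →
      ∑ f ∈ s, γ f * (pB f i * ((∏ j ∈ (lev lam' 2)ᶜ, D.dg f j) *
        (if PullZ (D.src f) (lev lam 2) a (lev lam' 2) a' then ∏ j ∈ lev lam' 2, D.co f j
          else 0))) = 0) :
    ∑ f ∈ s, γ f • EP (fun ζ => D.E (fun j => D.A f (lam' j) ζ j)) μ = 0 := by
  -- the second vector
  let yB : Mg → U := fun f => (∏ j ∈ (lev lam' 2)ᶜ, D.dg f j) •
    (if BijZ (D.src f) (lev lam 2) (lev lam' 2) then ∏ j ∈ lev lam' 2, D.co f j else 0) •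
      D.E (lw D.h' D.o' (lev lam' 2) fun j => (D.src f j).elim 0 x)
  have step : ∀ f, EP (fun ζ => D.E (fun j => D.A f (lam' j) ζ j)) μ =
      comb (xB f) (yB f) := by
    intro f
    rw [D.part_eq hμ hw f]
    by_cases h1 : BijZ (D.src f) (lev lam 1) (lev lam' 1)
    · simp only [yB]
      rw [map_smul, map_smul, hcomb f h1, smul_smul]
      by_cases h2 : BijZ (D.src f) (lev lam 2) (lev lam' 2)
      · rw [if_pos ⟨h1, h2⟩, if_pos h2]
      · rw [if_neg fun h => h2 h.2, if_neg h2, mul_zero, zero_smul]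
    · rw [if_neg fun h => h1 h.1, hcomb' f h1, map_zero, LinearMap.zero_apply]
  rw [Finset.sum_congr rfl fun f _ => by rw [step f]]
  -- pairs
  have h1 := bilin_zero (I := I) (J := {a : (Fin l → ℕ) × (Fin l' → ℕ) //
      (∀ i, if i ∈ lev lam 2 then a.1 i < D.d (D.c i) else a.1 i = 0) ∧
      (∀ j, if j ∈ lev lam' 2 then a.2 j < D.d (D.c' j) else a.2 j = 0)}) pB
    (fun f a => (∏ j ∈ (lev lam' 2)ᶜ, D.dg f j) *
      (if PullZ (D.src f) (lev lam 2) a.1.1 (lev lam' 2) a.1.2 then ∏ j ∈ lev lam' 2, D.co f j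
        else 0)) xB yB comb hB ?_ (s.image fun f => (f, f)) (fun q => γ q.1) ?_
  · rw [Finset.sum_image (fun f _ f' _ h => congrArg Prod.fst h)] at h1
    exact h1
  · intro α hα
    have h2 := graded_abs D.c D.c' D.d D.src D.co D.hc (lev lam 2) (lev lam' 2)
      (fun u => D.E (lw D.h' D.o' (lev lam' 2) u))
      (fun u J γ₀ hJ hc hd => alt_letters hJ D.E (D.alt _ J γ₀ hJ hc hd) u)
      (fun u u' hu => by
        congr 1
        funext j
        unfold lw
        split_ifs with hj
        · rw [hu j hj]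
        · rfl) α.support (fun f => α f * ∏ j ∈ (lev lam' 2)ᶜ, D.dg f j) (fun a a' ha ha' => ?_)
      x 0
    · rw [← h2, Finsupp.sum]
      refine Finset.sum_congr rfl fun f _ => ?_
      simp only [yB]
      rw [smul_smul, smul_smul, mul_assoc]
    · have h3 := hα ⟨(a, a'), ha, ha'⟩
      rw [Finsupp.sum] at h3
      refine Eq.trans (Finset.sum_congr rfl fun f _ => ?_) h3
      exact mul_assoc _ _ _
  · rintro i ⟨⟨a, a'⟩, ha, ha'⟩
    rw [Finset.sum_image (fun f _ f' _ h => congrArg Prod.fst h)]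
    exact hγ i a a' ha ha'

end Pool.Agent.QTC
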