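import Pool.Agent.QTC.PushE
import Pool.Agent.WFC.FMain

/-!
# Conditions 3 and 4 for the classes
-/

set_option autoImplicit false

noncomputable section

namespace Pool.Agent.QTC

open Pool.Agent.ZCyc Pool.Agent.GT Pool.Agent.WFC
open Pool.Agent.VFP (Om tt)
open Pool.Agent.QTF (BijZ PullZ lw lcm extm bilin_zero)
open scoped Classical

theorem BijZ_card {l l' : ℕ} {src : Fin l' → Option (Fin l)} {S : Finset (Fin l)}
    {S' : Finset (Fin l')} (hf : BijZ src S S') : S'.card = S.card := by
  refine Finset.card_bij (fun j hj => (hf.1 j hj).choose) ?_ ?_ ?_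
  · intro j hj
    exact (hf.1 j hj).choose_spec.2
  · intro j hj j' hj' he
    have h1 := (hf.1 j hj).choose_spec
    have h2 := (hf.1 j' hj').choose_spec
    exact (hf.2 _ h1.2).unique ⟨hj, h1.1⟩ ⟨hj', he ▸ h2.1⟩
  · intro i hi
    obtain ⟨j, ⟨hj, hji⟩, -⟩ := hf.2 i hi
    refine ⟨j, hj, ?_⟩
    have h1 := (hf.1 j hj).choose_spec.1
    exact Option.some.inj (h1.symm.trans hji)

variable {k : Type} [Field k] {m m' l l' : ℕ}
  {X : Fin m → WC k} {Z : Fin l → TS k} {Y : Fin m' → WC k} {W : Fin l' → TS k}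

theorem fib_bT (B : Finset (Fin l)) (j : Fin l) : fib (bT B) j = if j ∈ B then {none} else ∅ := by
  ext o
  rw [mem_fib]
  cases o with
  | none =>
    rw [mem_bT]
    split_ifs with h <;> simp [h]
  | some b =>
    have h1 : (j, some b) ∉ bT B := by
      simp [bT]
    split_ifs with h <;> simp [h1]

theorem fib_bT_ne (B : Finset (Fin l)) (j : Fin l) : fib (bT B) j ≠ ∅ ↔ j ∈ B := by
  rw [fib_bT]
  split_ifs with h <;> simp [h]

theorem closed_bT (B : Finset (Fin l)) : Closed (bT B) := by
  intro j b h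
  simp [bT] at h

theorem bT_sub (Z : Fin l → TS k) (B : Finset (Fin l)) : bT B ⊆ blocks (curs Z) := by
  intro p hp
  obtain ⟨j, -, rfl⟩ := Finset.mem_image.1 hp
  exact none_mem_blocks _ j

theorem wt_bT (Z : Fin l → TS k) (B : Finset (Fin l)) : wt (curs Z) (bT B) = B.card := by
  unfold wt
  have h1 : ∀ j, (if (j, none) ∈ bT B then cnt (curs Z) (bT B) j + 1 else 0) =
      if j ∈ B then 1 else 0 := by
    intro j
    have h2 : cnt (curs Z) (bT B) j = 0 := by
      unfold cnt
      rw [Finset.card_eq_zero, Finset.filter_eq_empty_iff]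
      intro i
      exact i.elim0
    rw [h2]
    by_cases h : j ∈ B
    · rw [if_pos (mem_bT.2 h), if_pos h]
    · rw [if_neg fun h' => h (mem_bT.1 h'), if_neg h]
  rw [Finset.sum_congr rfl fun j _ => h1 j, Finset.sum_boole]
  simp

theorem base_src (f : MorT Z W) (j : Fin l') : (MorT.base f j).src = (f j).src := by
  unfold MorT.base
  cases f j <;> rfl

/-- the bijections for the base curves -/
theorem bij_base (f : MorT Z W) (B : Finset (Fin l)) (B' : Finset (Fin l')) :
    Bij (MorT.base f) (bT B) (bT B') ↔ BijZ (fun j => (f j).src) B B' := by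
  unfold Bij BijZ
  simp only [fib_bT_ne, base_src]
  refine and_congr (forall₂_congr fun j hj => exists_congr fun i => ?_) Iff.rfl
  refine and_congr_right fun _ => ?_
  rw [fib_bT, fib_bT, if_pos hj]
  by_cases h : i ∈ B
  · simp [h]
  · rw [if_neg h]
    constructor
    · intro h2
      exact absurd h2.symm (Finset.singleton_ne_empty _)
    · exact fun h2 => absurd h2 h

/-- the coefficients on the top forms -/
theorem pullT_eq (g : MorT Z W) (S : Finset (Fin l)) (b : Fin l → ℕ) (S' : Finset (Fin l'))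
    (b' : Fin l' → ℕ) : pullT g S b S' b' = (∏ j ∈ S'ᶜ, (g j).d) *
      if PullZ (fun j => (g j).src) S b S' b' then ∏ j ∈ S', (g j).top else 0 := by
  have h1 : Match g S b S' b' ↔ PullZ (fun j => (g j).src) S b S' b' := by
    refine and_congr (forall₂_congr fun j hj => ?_) Iff.rfl
    constructor
    · rintro ⟨i, h1, h2, h3⟩
      exact ⟨i, h2, h1, h3⟩
    · rintro ⟨i, h2, h1, h3⟩
      exact ⟨i, h1, h2, h3⟩
  unfold pullT
  by_cases h : PullZ (fun j => (g j).src) S b S' b'
  · rw [if_pos (h1.2 h), if_pos h, mul_comm]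
  · rw [if_neg fun h' => h (h1.1 h'), if_neg h, mul_zero]

variable [IsAlgClosed k] [CharZero k]

/-- the letters of the labels -/
theorem exists_letters (lam : Fin l → Fin 3) (z : ∀ i, (Z i).Pt) :
    ∃ x : Fin l → ((PlO k × Option (Om k × Om k)) →₀ ℚ),
      ∀ i, lam i = 2 → eS (Z i) 2 (z i) = Finsupp.linearCombination ℚ (hr (Z i)) (x i) := by
  have h1 : ∀ i, ∃ x : ((PlO k × Option (Om k × Om k)) →₀ ℚ),
      eS (Z i) 2 (z i) = Finsupp.linearCombination ℚ (hr (Z i)) x := by
    intro i
    obtain ⟨x, hx⟩ := (Finsupp.mem_span_range_iff_exists_finsupp).1 (eS_two_mem (Z i) (z i))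
    exact ⟨x, by rw [← hx, Finsupp.linearCombination_apply]⟩
  choose x hx using h1
  exact ⟨x, fun i _ => hx i⟩

/-- a part with a smaller weight is zero -/
theorem EP_zero (g : MorT Z W) {lam : Fin l → Fin 3} {lam' : Fin l' → Fin 3}
    (h : ∑ j, (lam' j : ℕ) < ∑ j, (lam j : ℕ)) (z : ∀ i, (Z i).Pt) :
    EP (fun ζ => mulT W fun j => pA (g j) (lam' j) ζ) (fun i => muZ (Z i) (lam i) (z i)) = 0 := by
  obtain ⟨x, hx⟩ := exists_letters lam z
  rw [sum_lam, sum_lam] at h
  refine ((partsT Z W).part_eq (meas_muZ lam z x hx) h.le g).trans (if_neg fun hB => ?_)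
  have h1 := BijZ_card hB.1
  have h2 := BijZ_card hB.2
  omega

/-- the exterior product of a class `eP` and of a part is in `FM` -/
theorem times_EP_mem {T' : Finset (Fin m' × Option ℕ)} (hT' : T' ⊆ blocks Y) (hc : Closed T')
    {lam' : Fin l' → Fin 3} {ν : ℕ} (hν : ν ≤ wt Y T' + ∑ j, (lam' j : ℕ)) {y : Pts m' k}
    (hy : OnP Y y) (g : MorT Z W) (μ : ∀ i, (Z i).Pt →₀ ℚ) :
    times Y W (eP Y T' y) (EP (fun ζ => mulT W fun j => pA (g j) (lam' j) ζ) μ) ∈
      FM Y W ν := by
  rw [EP_apply]
  generalize extm μ = x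
  induction x using Finsupp.induction_linear with
  | zero =>
    rw [map_zero, map_zero]
    exact Submodule.zero_mem _
  | add x x' hx hx' =>
    rw [map_add, map_add]
    exact Submodule.add_mem _ hx hx'
  | single z a =>
    rw [Finsupp.linearCombination_single, map_smul]
    refine Submodule.smul_mem _ _ ?_
    -- multilinearity
    have key : ∀ (S : Finset (Fin l')) (w : ∀ j, V1 (W j)),
        (∀ j ∈ S, w j ∈ Submodule.span ℚ (Set.range (eS (W j) (lam' j)))) →
        (∀ j ∉ S, w j ∈ Set.range (eS (W j) (lam' j))) →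
        times Y W (eP Y T' y) (mulT W w) ∈ FM Y W ν := by
      intro S
      induction S using Finset.induction_on with
      | empty =>
        intro w _ hw
        choose q hq using fun j => hw j (Finset.notMem_empty j)
        obtain rfl : (fun j => eS (W j) (lam' j) (q j)) = w := funext hq
        exact Submodule.subset_span ⟨T', lam', y, q, hy, hT', hc, hν, rfl⟩
      | insert a S ha ih =>
        intro w hw hw'
        have h1 := hw a (Finset.mem_insert_self a S)
        have h2 : ∀ v ∈ Submodule.span ℚ (Set.range (eS (W a) (lam' a))),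
            times Y W (eP Y T' y) (mulT W (Function.update w a v)) ∈ FM Y W ν := by
          intro v hv
          induction hv using Submodule.span_induction with
          | mem v hv =>
            refine ih _ (fun j hj => ?_) fun j hj => ?_
            · by_cases hja : j = a
              · subst hja
                exact absurd hj ha
              · rw [Function.update_of_ne hja]
                exact hw j (Finset.mem_insert_of_mem hj)
            · by_cases hja : j = a
              · subst hja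
                rw [Function.update_self]
                exact hv
              · rw [Function.update_of_ne hja]
                exact hw' j fun h => (Finset.mem_insert.1 h).elim hja hj
          | zero =>
            rw [(mulT W).map_update_zero, map_zero]
            exact Submodule.zero_mem _
          | add v v' _ _ hv hv' =>
            rw [(mulT W).map_update_add, map_add]
            exact Submodule.add_mem _ hv hv'
          | smul c v _ hv =>
            rw [(mulT W).map_update_smul, map_smul]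
            exact Submodule.smul_mem _ _ hv
        have h3 := h2 (w a) h1
        rwa [Function.update_eq_self] at h3
    exact key Finset.univ _ (fun j _ => pA_mem (g j) (lam' j) z)
      fun j hj => absurd (Finset.mem_univ j) hj

/-- the image of a class which spans the filtration -/
theorem pushV_eS (f : MorM X Z Y W) (T : Finset (Fin m × Option ℕ)) (lam : Fin l → Fin 3)
    {p : Pts m k} (hp : OnP X p) (z : ∀ i, (Z i).Pt) :
    pushV f (times X Z (eP X T p) (mulT Z fun i => eS (Z i) (lam i) (z i))) =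
      ∑ T' ∈ (blocks Y).powerset with Closed T', ∑ lam' : Fin l' → Fin 3,
        times Y W (if srcT f.1 T' = T then eP Y T' (Mor.app f.1 p) else 0)
          (EP (fun ζ => mulT W fun j => pA (f.2 j) (lam' j) ζ)
            (fun i => muZ (Z i) (lam i) (z i))) := by
  have h1 := pushV_eP (Y := Y) f hp T fun i => muZ (Z i) (lam i) (z i)
  simp only [mkS_muZ] at h1
  have h3 : pushW f.1 (eP X T p) = ∑ T' ∈ (blocks Y).powerset with Closed T',
      if srcT f.1 T' = T then eP Y T' (Mor.app f.1 p) else 0 := by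
    have h0 : ((blocks Y).powerset.filter fun T' => Closed T' ∧ srcT f.1 T' = T) =
        ((blocks Y).powerset.filter fun T' => Closed T').filter fun T' => srcT f.1 T' = T := by
      rw [Finset.filter_filter]
    rw [← Finset.sum_filter (fun T' => srcT f.1 T' = T), ← h0]
    exact pushW_eP f.1 hp
  rw [h1, EP_cyc, h3, LinearMap.map_sum₂]
  refine Finset.sum_congr rfl fun T' _ => ?_
  rw [map_sum]

/-- **Condition 3** for the classes. -/
theorem map_FM (f : MorM X Z Y W) (ν : ℕ) : (FM X Z ν).map (pushV f) ≤ FM Y W ν := by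
  rw [Submodule.map_le_iff_le_comap, FM, Submodule.span_le]
  rintro _ ⟨T, lam, p, z, hp, hTb, hTc, hν, rfl⟩
  change pushV f _ ∈ FM Y W ν
  rw [pushV_eS f T lam hp z]
  refine Submodule.sum_mem _ fun T' hT' => Submodule.sum_mem _ fun lam' _ => ?_
  rw [Finset.mem_filter, Finset.mem_powerset] at hT'
  obtain ⟨hTb', hTc'⟩ := hT'
  split_ifs with hs
  · have h1 := wt_srcT_le f.1 hTb' hTc'
    rw [hs] at h1
    rcases Nat.lt_or_ge (∑ j, (lam' j : ℕ)) (∑ j, (lam j : ℕ)) with h2 | h2
    · rw [EP_zero f.2 h2, map_zero]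
      exact Submodule.zero_mem _
    · exact times_EP_mem hTb' hTc' (by omega) (Mor.onP f.1 hp) f.2 _
  · rw [map_zero, LinearMap.zero_apply]
    exact Submodule.zero_mem _

/-- the letters `y` exist -/
instance letters_nonempty : Nonempty (PlO k × Option (Om k × Om k)) := by
  obtain ⟨v, -⟩ := HYG.exists_place_tt (0 : k)
  exact ⟨(v, none)⟩

variable {Q : WC k → Prop}

/-- **Combinations of morphisms of products of surfaces which are zero on the forms**, for fixed
labels of the same weight. -/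
theorem grad_EP (hcore : CoreQ k Q) (hG : CoreG k)
    (hQ : ∀ (j : Fin l') (S : Finset ℕ), Q ((curs W j).sub S))
    {lam : Fin l → Fin 3} {lam' : Fin l' → Fin 3}
    (hw : ∑ j, (lam' j : ℕ) ≤ ∑ j, (lam j : ℕ)) (α : MorT Z W →₀ ℚ)
    (h : ∀ c c' b b', IsForm (curs Z) (bT (lev lam 1)) c → IsForm (curs W) (bT (lev lam' 1)) c' →
      IsFormT Z (lev lam 2) b → IsFormT W (lev lam' 2) b' →
      (α.sum fun g e => e * (pullCoef (MorT.base g) (bT (lev lam 1)) c (bT (lev lam' 1)) c' *
        pullT g (lev lam 2) b (lev lam' 2) b')) = 0) (z : ∀ i, (Z i).Pt) :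
    (α.sum fun g e => e • EP (fun ζ => mulT W fun j => pA (g j) (lam' j) ζ)
      (fun i => muZ (Z i) (lam i) (z i))) = 0 := by
  obtain ⟨x, hx⟩ := exists_letters lam z
  have hw' := hw
  rw [sum_lam, sum_lam] at hw'
  have hzc := onP_ptsC (Z := Z) fun i => (Z i).bas (z i)
  refine (partsT Z W).grad (meas_muZ lam z x hx) hw'
    (I := {c : (Fin l → ℕ) × (Fin l' → ℕ) // IsForm (curs Z) (bT (lev lam 1)) c.1 ∧
      IsForm (curs W) (bT (lev lam' 1)) c.2})
    (fun g c => (pullCoef (MorT.base g) (bT (lev lam 1)) c.1.1 (bT (lev lam' 1)) c.1.2 : ℚ))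
    (fun g => if BijZ (fun j => (g j).src) (lev lam 1) (lev lam' 1) then
      eP (curs W) (bT (lev lam' 1)) (ptsC W fun j => (g j).bp z) else 0) ?_
    (cmb W (lev lam' 2)) ?_ ?_ α.support α ?_
  · -- the base curves
    intro β hβ
    have h4 := graded_pair hcore hG hQ (γ := β.mapDomain MorT.base) (T := bT (lev lam 1))
      (T' := bT (lev lam' 1)) (fun c c' hc hc' => by
        rw [Finsupp.sum_mapDomain_index (fun _ => zero_mul _) (fun _ _ _ => add_mul _ _ _)]
        exact hβ ⟨(c, c'), hc, hc'⟩) (bT_sub Z _) (bT_sub W _) (closed_bT _) (closed_bT _) hzc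
    let G : Mor (curs Z) (curs W) → VP (curs W) := fun f =>
      if Bij f (bT (lev lam 1)) (bT (lev lam' 1)) then
        eP (curs W) (bT (lev lam' 1)) (Mor.app f (ptsC Z fun i => (Z i).bas (z i))) else 0
    have h5 : ∀ γ : Mor (curs Z) (curs W) →₀ ℚ,
        ∑ f ∈ γ.support.filter (fun f => Bij f (bT (lev lam 1)) (bT (lev lam' 1))),
          (γ f * ((∏ j with fib (bT (lev lam' 1)) j ≠ ∅,
            (f j).sgn (fib (bT (lev lam' 1)) j) : ℤ) : ℚ)) •
            eP (curs W) (bT (lev lam' 1)) (f.base (ptsC Z fun i => (Z i).bas (z i))) =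
        γ.sum fun f e => e • G f := by
      intro γ
      rw [Finset.sum_filter]
      refine Finset.sum_congr rfl fun f _ => ?_
      simp only [G]
      by_cases hf : Bij f (bT (lev lam 1)) (bT (lev lam' 1))
      · rw [if_pos hf, if_pos hf, eP_app (bT_sub W _) hf hzc, smul_smul]
      · rw [if_neg hf, if_neg hf, smul_zero]
    rw [h5, Finsupp.sum_mapDomain_index (h := fun f e => e • G f) (fun _ => zero_smul _ _)
      (fun _ _ _ => add_smul _ _ _)] at h4
    refine Eq.trans (Finsupp.sum_congr fun g _ => ?_) h4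
    simp only [G, bij_base, base_app]
  · -- the combination
    intro g hg u
    have hg' : BijZ (fun j => (g j).src) (lev lam 1) (lev lam' 1) := hg
    rw [if_pos hg']
    have hd : Disjoint (lev lam' 2) (lev lam' 1) := (disj_lev lam').symm
    refine (cmb_eP hd _ _).trans ?_
    change mulT W _ = mulT W _
    congr 1
    funext j
    unfold Parts.w
    change (if j ∈ lev lam' 2 then lw (fun j => hr (W j)) (fun j => delP (W j) (W j).E.c0)
      (lev lam' 2) u j else dgS (W j) (lw (fun j => hr (W j)) (fun j => delP (W j) (W j).E.c0)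
      (lev lam' 2) u j) • _) = if j ∈ lev lam' 2 then Finsupp.linearCombination ℚ (hr (W j)) (u j)
        else if j ∈ lev lam' 1 then delP (W j) ((g j).bp z) - delP (W j) (W j).E.c0 else
          delP (W j) (W j).E.c0
    unfold lw Pool.Agent.QTF.lcm
    split_ifs with h1 h2
    · rfl
    · rw [dgS_delP, one_smul]
    · rw [dgS_delP, one_smul]
  · intro g hg
    exact if_neg hg
  · rintro ⟨⟨c, c'⟩, hc, hc'⟩ b b' hb hb'
    have h1 := h c c' b b' hc hc' ?_ ?_
    · rw [Finsupp.sum] at h1
      refine Eq.trans (Finset.sum_congr rfl fun g _ => ?_) h1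
      rw [pullT_eq]
      rfl
    · refine ⟨fun i hi => ?_, fun i hi => ?_⟩
      · have h2 := hb i
        rw [if_pos hi] at h2
        have h3 := (Z i).E.r_pos
        have h4 := (Z i).E.r_eq
        change b i < (Z i).E.r + EFC.genus k (Z i).E.L - 1 at h2
        omega
      · have h2 := hb i
        rwa [if_neg hi] at h2
    · refine ⟨fun i hi => ?_, fun i hi => ?_⟩
      · have h2 := hb' i
        rw [if_pos hi] at h2
        have h3 := (W i).E.r_pos
        have h4 := (W i).E.r_eq
        change b' i < (W i).E.r + EFC.genus k (W i).E.L - 1 at h2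
        omega
      · have h2 := hb' i
        rwa [if_neg hi] at h2

/-- condition 4 for one class -/
theorem grad_gen (hcore : CoreQ k Q) (hG : CoreG k)
    (hQ : ∀ (j : Fin m') (S : Finset ℕ), Q ((Y j).sub S))
    (hQ' : ∀ (j : Fin l') (S : Finset ℕ), Q ((curs W j).sub S))
    (γ : MorM X Z Y W →₀ ℚ) (ν : ℕ) (h : KillsForms γ ν) {T : Finset (Fin m × Option ℕ)}
    (hTb : T ⊆ blocks X) (hTc : Closed T) {lam : Fin l → Fin 3}
    (hν : ν ≤ wt X T + ∑ j, (lam j : ℕ)) {p : Pts m k} (hp : OnP X p) (z : ∀ i, (Z i).Pt) :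
    ∑ f ∈ γ.support, γ f • pushV f (times X Z (eP X T p)
      (mulT Z fun i => eS (Z i) (lam i) (z i))) ∈ FM Y W (ν + 1) := by
  have h1 : ∑ f ∈ γ.support, γ f • pushV f (times X Z (eP X T p)
      (mulT Z fun i => eS (Z i) (lam i) (z i))) =
      ∑ T' ∈ (blocks Y).powerset with Closed T', ∑ lam' : Fin l' → Fin 3,
        ∑ f ∈ γ.support, γ f •
          times Y W (if srcT f.1 T' = T then eP Y T' (Mor.app f.1 p) else 0)
            (EP (fun ζ => mulT W fun j => pA (f.2 j) (lam' j) ζ)
              (fun i => muZ (Z i) (lam i) (z i))) := by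
    rw [Finset.sum_congr rfl fun f _ => by rw [pushV_eS f T lam hp z, Finset.smul_sum]]
    rw [Finset.sum_comm]
    refine Finset.sum_congr rfl fun T' _ => ?_
    rw [Finset.sum_congr rfl fun f _ => Finset.smul_sum]
    rw [Finset.sum_comm]
  rw [h1]
  refine Submodule.sum_mem _ fun T' hT' => Submodule.sum_mem _ fun lam' _ => ?_
  rw [Finset.mem_filter, Finset.mem_powerset] at hT'
  obtain ⟨hTb', hTc'⟩ := hT'
  rcases Nat.lt_or_ge ν (wt Y T' + ∑ j, (lam' j : ℕ)) with hlt | hge
  · refine Submodule.sum_mem _ fun f _ => Submodule.smul_mem _ _ ?_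
    split_ifs with hs
    · exact times_EP_mem hTb' hTc' hlt (Mor.onP f.1 hp) f.2 _
    · rw [map_zero, LinearMap.zero_apply]
      exact Submodule.zero_mem _
  suffices h2 : ∑ f ∈ γ.support, γ f •
      times Y W (if srcT f.1 T' = T then eP Y T' (Mor.app f.1 p) else 0)
        (EP (fun ζ => mulT W fun j => pA (f.2 j) (lam' j) ζ)
          (fun i => muZ (Z i) (lam i) (z i))) = 0 by
    rw [h2]
    exact Submodule.zero_mem _
  by_cases hex : ∃ f : Mor X Y, srcT f T' = T
  swap
  · refine Finset.sum_eq_zero fun f _ => ?_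
    rw [if_neg fun h => hex ⟨f.1, h⟩, map_zero, LinearMap.zero_apply, smul_zero]
  obtain ⟨f₀, hf₀⟩ := hex
  have h3 := wt_srcT_le f₀ hTb' hTc'
  rw [hf₀] at h3
  rcases Nat.lt_or_ge (∑ j, (lam' j : ℕ)) (∑ j, (lam j : ℕ)) with hlt | hge'
  · refine Finset.sum_eq_zero fun f _ => ?_
    rw [EP_zero f.2 hlt, map_zero, smul_zero]
  have hw : wt X T = wt Y T' := by omega
  have hc : ∑ j, (lam' j : ℕ) = ∑ j, (lam j : ℕ) := by omega
  have hν' : wt X T + ∑ j, (lam j : ℕ) = ν := by omega
  have hν'' : wt Y T' + ∑ j, (lam' j : ℕ) = ν := by omega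
  have hform : ∀ {a : Fin m → ℕ} {c b : Fin l → ℕ}, IsForm X T a →
      IsForm (curs Z) (bT (lev lam 1)) c → IsFormT Z (lev lam 2) b →
      IsFormM X Z T a (bT (lev lam 1)) c (lev lam 2) b ν := fun ha hc hb =>
    ⟨ha, hc, hb, fun j hj hj' => Finset.disjoint_left.1 (disj_lev lam) (mem_bT.1 hj') hj, by
      rw [wt_bT, ← hν', sum_lam]
      ring⟩
  have hform' : ∀ {a : Fin m' → ℕ} {c b : Fin l' → ℕ}, IsForm Y T' a →
      IsForm (curs W) (bT (lev lam' 1)) c → IsFormT W (lev lam' 2) b →
      IsFormM Y W T' a (bT (lev lam' 1)) c (lev lam' 2) b ν := fun ha hc hb =>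
    ⟨ha, hc, hb, fun j hj hj' => Finset.disjoint_left.1 (disj_lev lam') (mem_bT.1 hj') hj, by
      rw [wt_bT, ← hν'', sum_lam]
      ring⟩
  refine bilin_zero (I := {a : (Fin m → ℕ) × (Fin m' → ℕ) // IsForm X T a.1 ∧ IsForm Y T' a.2})
    (J := {b : ((Fin l → ℕ) × (Fin l' → ℕ)) × ((Fin l → ℕ) × (Fin l' → ℕ)) //
      (IsForm (curs Z) (bT (lev lam 1)) b.1.1 ∧ IsForm (curs W) (bT (lev lam' 1)) b.1.2) ∧
      IsFormT Z (lev lam 2) b.2.1 ∧ IsFormT W (lev lam' 2) b.2.2})
    (fun f a => (pullCoef f T a.1.1 T' a.1.2 : ℚ))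
    (fun g b => pullCoef (MorT.base g) (bT (lev lam 1)) b.1.1.1 (bT (lev lam' 1)) b.1.1.2 *
      pullT g (lev lam 2) b.1.2.1 (lev lam' 2) b.1.2.2)
    (fun f : Mor X Y => if srcT f T' = T then eP Y T' (Mor.app f p) else 0)
    (fun g => EP (fun ζ => mulT W fun j => pA (g j) (lam' j) ζ)
      (fun i => muZ (Z i) (lam i) (z i))) (times Y W) ?_ ?_ γ.support γ ?_
  · intro α hα
    have h4 := graded_pair hcore hG hQ (γ := α) (T := T) (T' := T')
      (fun a a' ha ha' => hα ⟨(a, a'), ha, ha'⟩) hTb hTb' hTc hTc' hp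
    rw [Finset.sum_filter] at h4
    refine Eq.trans (Finset.sum_congr rfl fun f _ => ?_) h4
    have h5 := bij_iff f hTb hTb' hTc hTc'
    beta_reduce
    by_cases hf : Bij f T T'
    · rw [if_pos hf, if_pos (h5.1 hf).1, eP_app hTb' hf hp, smul_smul]
    · rw [if_neg hf, if_neg fun h6 => hf (h5.2 ⟨h6, hw⟩), smul_zero]
  · intro α hα
    exact grad_EP hcore hG hQ' hc.le α
      (fun c c' b b' hc hc' hb hb' => hα ⟨((c, c'), (b, b')), ⟨hc, hc'⟩, hb, hb'⟩) z
  · rintro ⟨⟨a, a'⟩, ha, ha'⟩ ⟨⟨⟨c, c'⟩, ⟨b, b'⟩⟩, ⟨hc, hc'⟩, hb, hb'⟩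
    have h4 := h T a (bT (lev lam 1)) c (lev lam 2) b T' a' (bT (lev lam' 1)) c' (lev lam' 2) b'
      (hform ha hc hb) (hform' ha' hc' hb')
    refine Eq.trans (Finset.sum_congr rfl fun f _ => ?_) h4
    ring

/-- **Condition 4** for the classes. -/
theorem grad_FM (hcore : CoreQ k Q) (hG : CoreG k)
    (hQ : ∀ (j : Fin m') (S : Finset ℕ), Q ((Y j).sub S))
    (hQ' : ∀ (j : Fin l') (S : Finset ℕ), Q ((curs W j).sub S))
    (γ : MorM X Z Y W →₀ ℚ) (ν : ℕ) (h : KillsForms γ ν) :
    (FM X Z ν).map (∑ f ∈ γ.support, γ f • pushV f) ≤ FM Y W (ν + 1) := by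
  rw [Submodule.map_le_iff_le_comap, FM, Submodule.span_le]
  rintro _ ⟨T, lam, p, z, hp, hTb, hTc, hν, rfl⟩
  change (∑ f ∈ γ.support, γ f • pushV f) _ ∈ FM Y W (ν + 1)
  rw [LinearMap.sum_apply]
  exact grad_gen hcore hG hQ hQ' γ ν h hTb hTc hν hp z

end Pool.Agent.QTC
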