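import Pool.Agent.QTC.BaseMap

/-!
# Several components with the same factor

The exterior product of the parts with the labels `0` and `1` of components which depend on the same
factor is a linear function of the class of the image of the point in the base curve.
-/

set_option autoImplicit false

noncomputable section

namespace Pool.Agent.QTC

open Pool.Agent.ZCyc Pool.Agent.GT Pool.Agent.WFC
open Pool.Agent.VFP (Om tt)
open scoped Classical

variable {k : Type} [Field k] {l l' : ℕ} {Z : Fin l → TS k} {W : Fin l' → TS k}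

/-- the diagonal map from a curve to the product of the base curves with numbers in `U` -/
def dgM (E : EL k) (W : Fin l' → TS k) (U : Finset (Fin l')) :
    Mor (fun _ : Fin 1 => E.cur) (curs W) := fun j =>
  if h : E = (W j).E ∧ j ∈ U then .fac 0 (congrArg EL.cur h.1) fun _ => 1 else
    .const (crd _ _ _ (W j).E.c0) (crd_on _ _ _ _)

theorem dgM_app {E : EL k} {U : Finset (Fin l')} {c : Place k E.L}
    {c' : ∀ j, Place k (W j).E.L} (hU : ∀ j ∈ U, ∃ h : E = (W j).E, c' j = castPl h c) :
    Mor.app (dgM E W U) (fun _ => E.pt c) =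
      ptsC W fun j => if j ∈ U then c' j else (W j).E.c0 := by
  funext j
  change (dgM E W U j).app _ = (W j).E.pt (if j ∈ U then c' j else (W j).E.c0)
  unfold dgM
  by_cases hj : j ∈ U
  · obtain ⟨h, hc⟩ := hU j hj
    rw [dif_pos ⟨h, hj⟩, if_pos hj, hc, pt_castPl]
    exact pt_mul _ _ _
  · rw [dif_neg fun h => hj h.2, if_neg hj]
    rfl

variable [IsAlgClosed k] [CharZero k]

theorem pA_loc {V : TS k} (f : CompT Z V) {i : Fin l} (hs : f.src = some i) (n : Fin 3)
    {ζ ζ' : ∀ j, (Z j).Pt} (h : ζ i = ζ' i) : pA f n ζ = pA f n ζ' := by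
  cases f with
  | const w => simp [CompT.src] at hs
  | fac i' u =>
    rw [CompT.src, Option.some.injEq] at hs
    subst hs
    have h1 : (CompT.fac i' u : CompT Z V).bp ζ = (CompT.fac i' u : CompT Z V).bp ζ' := by
      change castPl u.same ((Z i').bas (ζ i')) = castPl u.same ((Z i').bas (ζ' i'))
      rw [h]
    have h2 : (CompT.fac i' u : CompT Z V).cyc ζ = (CompT.fac i' u : CompT Z V).cyc ζ' := by
      change u.u (ζ i') = u.u (ζ' i')
      rw [h]
    unfold pA
    rw [h1, h2]

theorem pA_cst {V : TS k} (f : CompT Z V) (hs : f.src = none) (n : Fin 3)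
    (ζ ζ' : ∀ j, (Z j).Pt) : pA f n ζ = pA f n ζ' := by
  cases f with
  | const w => rfl
  | fac i' u => simp [CompT.src] at hs

/-- **Several components with the same factor.** -/
theorem joint_pA (f : MorT Z W) (lam' : Fin l' → Fin 3) (i : Fin l)
    (h : ∀ j, (f j).src = some i → lam' j ≠ 2) (ζ : ∀ j, (Z j).Pt) :
    ∃ Λ : VC (Z i).E →ₗ[ℚ] VT W, ∀ t,
      mulT W (fun j => pA (f j) (lam' j) (Function.update ζ i t)) =
        Λ (clC (Z i).E ((Z i).bas t)) := by
  set J : Finset (Fin l') := Finset.univ.filter fun j => (f j).src = some i ∧ lam' j = 1 with hJ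
  have hmem : ∀ j, j ∈ J ↔ (f j).src = some i ∧ lam' j = 1 := fun j => by
    rw [hJ, Finset.mem_filter, and_iff_right (Finset.mem_univ j)]
  let O : ∀ j, V1 (W j) := fun j => if j ∈ J then (f j).d • delP (W j) (W j).E.c0 else
    pA (f j) (lam' j) ζ
  let A : (Z i).Pt → ∀ j, V1 (W j) := fun t j =>
    (f j).d • delP (W j) ((f j).bp (Function.update ζ i t))
  have h1 : ∀ t, (fun j => pA (f j) (lam' j) (Function.update ζ i t)) =
      fun j => if j ∈ J then A t j - O j else O j := by
    intro t
    funext j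
    by_cases hj : j ∈ J
    · rw [if_pos hj, ((hmem j).1 hj).2, pA_one, smul_sub]
      simp only [A, O]
      rw [if_pos hj]
    · rw [if_neg hj]
      simp only [O]
      rw [if_neg hj]
      rcases hs : (f j).src with _ | i'
      · exact pA_cst (f j) hs _ _ _
      · by_cases hi : i' = i
        · subst hi
          have h2 : lam' j = 0 := by
            have h3 := h j hs
            have h4 : lam' j ≠ 1 := fun h4 => hj ((hmem j).2 ⟨hs, h4⟩)
            omega
          rw [h2, pA_zero, pA_zero]
        · exact pA_loc (f j) hs _ (Function.update_of_ne hi _ _)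
  refine ⟨∑ U ∈ J.powerset, ((-1 : ℚ) ^ (J \ U).card) •
    ((cmb W Uᶜ).flip (mulT W O)).comp (pushW (dgM (Z i).E W U)), fun t => ?_⟩
  rw [h1, Pool.Agent.QTF.mul_sub, LinearMap.sum_apply]
  refine Finset.sum_congr rfl fun U hU => ?_
  rw [Finset.mem_powerset] at hU
  rw [LinearMap.smul_apply, LinearMap.comp_apply, LinearMap.flip_apply]
  congr 1
  have h2 : pushW (dgM (Z i).E W U) (clC (Z i).E ((Z i).bas t)) = clP (curs W)
      (ptsC W fun j => if j ∈ U then (f j).bp (Function.update ζ i t) else (W j).E.c0) := by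
    unfold clC
    rw [pushW_clP, dgM_app]
    intro j hj
    obtain ⟨h3, h4⟩ := (f j).bp_fac ((hmem j).1 (hU hj)).1
    refine ⟨h3, ?_⟩
    rw [h4, Function.update_self]
  rw [h2, cmb_mul]
  congr 1
  funext j
  by_cases hj : j ∈ U
  · have hj' : j ∉ Uᶜ := fun h => (Finset.mem_compl.1 h) hj
    rw [if_pos hj, if_neg hj', if_pos hj]
    simp only [A, O]
    rw [if_pos (hU hj), map_smul, dgS_delP, smul_eq_mul, mul_one]
  · rw [if_neg hj, if_pos (Finset.mem_compl.2 hj)]

end Pool.Agent.QTC
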