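import Pool.Agent.QTC.FldL
import Pool.Agent.EFC.Defs

/-!
# Multisections

Let `C` be the curve with the function field `L`, and let `x` be a point over `Om k` of the variety
with the equations `X`. The conjugates of `x` over `L` are a multisection over `C` of a fibration of
`X`. For every point `s` of `C` over `Om k` there are `m` points `R i s`, and for every point `c` of
`C` there are `m` points `b i c`.
-/

set_option autoImplicit false

noncomputable section

namespace Pool.Agent.QTC

open Pool.Agent.ZCyc Pool.Agent.Dess Pool.Agent.GT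
open Pool.Agent.VFP (Om tt)
open scoped Classical LinearAlgebra.Projectivization

section

variable {k : Type} [Field k] {N : ℕ}

/-- the image of a point under an automorphism -/
abbrev gm {X : Set (MvPolynomial (Fin (N + 1)) k)} (hX : Hom X) (g : Om k ≃ₐ[k] Om k)
    (x : Pt X (Om k)) : Pt X (Om k) := x.map (g : Om k →ₐ[k] Om k) hX

/-- A multisection of degree `m` over the curve with the function field `L`. -/
structure MSec (L : Type) [Field L] [Algebra k L] {X : Set (MvPolynomial (Fin (N + 1)) k)}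
    (hX : Hom X) (m : ℕ) where
  /-- the points over the points of the curve over `Om k` -/
  R : Fin m → (L →ₐ[k] Om k) ⊕ Place k L → Pt X (Om k)
  /-- the points over the points of the curve -/
  b : Fin m → Place k L → Pt X k
  const : ∀ i c, R i (Sum.inr c) = (b i c).map (Algebra.ofId k (Om k)) hX
  conj : ∀ (g : Om k ≃ₐ[k] Om k) (σ : L →ₐ[k] Om k), ∃ ρ : Equiv.Perm (Fin m), ∀ i,
    R (ρ i) (Sum.inl ((g : Om k →ₐ[k] Om k).comp σ)) = gm hX g (R i (Sum.inl σ))
  val : ∀ (V : Place k (Om k)) (σ : L →ₐ[k] Om k) (c : Place k L),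
    c.ring = V.ring.comap σ.toRingHom → ∃ ρ : Equiv.Perm (Fin m), ∀ i,
      GT.IsVal V (R i (Sum.inl σ)) (b (ρ i) c)

end

variable {k L : Type} [Field k] [Field L] [Algebra k L] [Algebra L (Om k)]
  [IsScalarTower k L (Om k)] [Algebra.IsAlgebraic L (Om k)] [IsAlgClosed k] [CharZero k] {N : ℕ}
  {X : Set (MvPolynomial (Fin (N + 1)) k)}

omit [Field L] [Algebra k L] [Algebra L (Om k)] [IsScalarTower k L (Om k)]
  [Algebra.IsAlgebraic L (Om k)] [IsAlgClosed k] [CharZero k] in
theorem gm_gm (hX : Hom X) (g h : Om k ≃ₐ[k] Om k) (x : Pt X (Om k)) :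
    gm hX g (gm hX h x) = gm hX (h.trans g) x := map_comp _ _ hX x

omit [Field L] [Algebra k L] [Algebra L (Om k)] [IsScalarTower k L (Om k)]
  [Algebra.IsAlgebraic L (Om k)] [IsAlgClosed k] [CharZero k] in
/-- values and automorphisms -/
theorem isVal_gm {hX : Hom X} {V : Place k (Om k)} {g : Om k ≃ₐ[k] Om k} {x : Pt X (Om k)}
    {y : Pt X k} : IsVal V (gm hX g x) y ↔ IsVal (V.map g.symm) x y := by
  refine isVal_map ?_
  ext f
  rw [ValuationSubring.mem_comap, Place.mem_map]
  rfl

variable (L) in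
omit [IsAlgClosed k] [CharZero k] in
/-- the conjugates of a point over `L` -/
theorem exists_orb (hX : Hom X) (x : Pt X (Om k)) : ∃ (m : ℕ) (R : Fin m → Pt X (Om k)), 0 < m ∧
    (∀ i, ∃ τ : Om k ≃ₐ[L] Om k, R i = gm hX (τ.restrictScalars k) x) ∧
    ∀ τ : Om k ≃ₐ[L] Om k, ∃ ρ : Equiv.Perm (Fin m), ∀ i,
      gm hX (τ.restrictScalars k) (R i) = R (ρ i) := by
  obtain ⟨F, hF, y, hy⟩ := exists_def L hX (J := Unit) fun _ => x
  have hcl : IsAlgClosure L (Om k) := ⟨inferInstance, inferInstance⟩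
  have hnorm : Normal L (Om k) := inferInstance
  let O : Finset (Pt X (Om k)) := Finset.univ.image fun σ : F →ₐ[L] Om k =>
    (y ()).map (σ.restrictScalars k) hX
  have hmem : ∀ z, z ∈ O ↔ ∃ τ : Om k ≃ₐ[L] Om k, z = gm hX (τ.restrictScalars k) x := by
    intro z
    constructor
    · intro hz
      obtain ⟨σ, -, rfl⟩ := Finset.mem_image.1 hz
      let τ : Om k ≃ₐ[L] Om k := AlgEquiv.ofBijective (σ.liftNormal (Om k))
        (Algebra.IsAlgebraic.algHom_bijective _)
      refine ⟨τ, ?_⟩
      rw [← hy ()]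
      unfold gm
      rw [map_comp]
      congr 1
      ext f
      exact (AlgHom.liftNormal_commutes σ (Om k) f).symm
    · rintro ⟨τ, rfl⟩
      rw [← hy ()]
      unfold gm
      rw [map_comp]
      exact Finset.mem_image.2 ⟨(τ : Om k →ₐ[L] Om k).comp F.val, Finset.mem_univ _, rfl⟩
  let e := O.equivFin
  have he : ∀ i, ((e.symm i : O) : Pt X (Om k)) ∈ O := fun i => (e.symm i).2
  refine ⟨O.card, fun i => (e.symm i : O), Finset.card_pos.2 ⟨x, (hmem x).2 ⟨AlgEquiv.refl, ?_⟩⟩,
    fun i => (hmem _).1 (he i), fun τ => ?_⟩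
  · apply Subtype.ext
    conv_lhs => rw [← Projectivization.mk_rep x.1]
    rfl
  · have h1 : ∀ z : O, gm hX (τ.restrictScalars k) z.1 ∈ O := by
      rintro ⟨z, hz⟩
      obtain ⟨τ', rfl⟩ := (hmem z).1 hz
      rw [hmem]
      exact ⟨τ'.trans τ, gm_gm hX _ _ x⟩
    let t : O → O := fun z => ⟨gm hX (τ.restrictScalars k) z.1, h1 z⟩
    have ht : Function.Injective t := by
      intro z z' h
      have h2 := congrArg (fun w : O => gm hX (τ.restrictScalars k).symm w.1) h
      have h3 : ∀ w : Pt X (Om k), gm hX (τ.restrictScalars k).symm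
          (gm hX (τ.restrictScalars k) w) = w := by
        intro w
        rw [gm_gm]
        have h4 : (τ.restrictScalars k).trans (τ.restrictScalars k).symm = AlgEquiv.refl :=
          AlgEquiv.self_trans_symm _
        rw [h4]
        apply Subtype.ext
        conv_rhs => rw [← Projectivization.mk_rep w.1]
        rfl
      simp only [t] at h2
      rw [h3, h3] at h2
      exact Subtype.ext h2
    let ρ' : Equiv.Perm O := Equiv.ofBijective t (Finite.injective_iff_bijective.1 ht)
    refine ⟨(e.symm.trans ρ').trans e, fun i => ?_⟩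
    change _ = ((e.symm (e (ρ' (e.symm i))) : O) : Pt X (Om k))
    rw [Equiv.symm_apply_apply]
    rfl

/-- **Multisections exist.** -/
theorem exists_msec (hL : IsCurve k L) (hX : Hom X) (x : Pt X (Om k)) :
    ∃ (m : ℕ) (M : MSec L hX m), 0 < m ∧ ∀ i, ∃ τ : Om k ≃ₐ[L] Om k,
      M.R i (Sum.inl (IsScalarTower.toAlgHom k L (Om k))) = gm hX (τ.restrictScalars k) x := by
  obtain ⟨m, R, hm, hR, hconj⟩ := exists_orb L hX x
  let ι : L →ₐ[k] Om k := IsScalarTower.toAlgHom k L (Om k)
  choose τ hτ using fun σ : L →ₐ[k] Om k => exists_lift hL ι σ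
  choose W hW using fun c : Place k L => TInc.exists_above hL c ι
  choose b hb using fun (i : Fin m) (c : Place k L) => exists_isVal hX (W c) (R i)
  -- automorphisms over `L`
  have hover : ∀ g : Om k ≃ₐ[k] Om k, (∀ f : L, g (ι f) = ι f) →
      ∃ g' : Om k ≃ₐ[L] Om k, g'.restrictScalars k = g := by
    intro g hg
    refine ⟨AlgEquiv.ofRingEquiv (f := (g : Om k ≃+* Om k)) hg, ?_⟩
    ext f
    rfl
  obtain ⟨F, hF, y, hy⟩ := exists_def L hX R
  refine ⟨m, ⟨fun i s => s.elim (fun σ => gm hX (τ σ) (R i))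
    (fun c => (b i c).map (Algebra.ofId k (Om k)) hX), b, fun i c => rfl, fun g σ => ?_,
    fun V σ c hc => ?_⟩, hm, fun i => ?_⟩
  · obtain ⟨h, hh⟩ := hover (((τ σ).trans g).trans
      (τ ((g : Om k →ₐ[k] Om k).comp σ)).symm) fun f => by
        change (τ ((g : Om k →ₐ[k] Om k).comp σ)).symm (g (τ σ (ι f))) = ι f
        rw [hτ, AlgEquiv.symm_apply_eq, hτ]
        rfl
    obtain ⟨ρ, hρ⟩ := hconj h
    refine ⟨ρ, fun i => ?_⟩
    change gm hX (τ ((g : Om k →ₐ[k] Om k).comp σ)) (R (ρ i)) = gm hX g (gm hX (τ σ) (R i))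
    rw [← hρ i, hh, gm_gm, gm_gm]
    congr 1
    ext f
    change τ ((g : Om k →ₐ[k] Om k).comp σ) ((τ ((g : Om k →ₐ[k] Om k).comp σ)).symm
      (g (τ σ f))) = g (τ σ f)
    rw [AlgEquiv.apply_symm_apply]
  · -- the place `V'`
    set V' : Place k (Om k) := V.map (τ σ).symm with hV'
    have h1 : ∀ f : L, algebraMap L (Om k) f ∈ V'.ring ↔ algebraMap L (Om k) f ∈ (W c).ring := by
      intro f
      rw [hV', Place.mem_map]
      have h2 : (τ σ).symm.symm (algebraMap L (Om k) f) = σ f := hτ σ f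
      have h3 : f ∈ c.ring ↔ σ f ∈ V.ring := by
        rw [hc, ValuationSubring.mem_comap]
        rfl
      have h4 : f ∈ c.ring ↔ ι f ∈ (W c).ring := by
        rw [← hW c, ValuationSubring.mem_comap]
        rfl
      rw [h2, ← h3, h4]
      rfl
    obtain ⟨g, hg⟩ := exists_trans hL F V' (W c) h1
    obtain ⟨ρ, hρ⟩ := hconj g
    refine ⟨ρ, fun i => ?_⟩
    change IsVal V (gm hX (τ σ) (R i)) (b (ρ i) c)
    rw [isVal_gm, ← hV']
    -- the place of `F`
    have hFc : IsCurve k F := curve_ext hL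
    obtain ⟨v, hv⟩ := TInc.exists_below hFc V' (F.val.restrictScalars k)
    have h5 : ∀ q, IsVal V' (R i) q ↔ IsVal v (y i) q := fun q => by
      rw [← hy i]
      exact isVal_map hv
    have hv' : (W c).ring.comap (((g.restrictScalars k : Om k ≃ₐ[k] Om k) : Om k →ₐ[k] Om k).comp
        (F.val.restrictScalars k) : F →+* Om k) = v.ring := by
      ext f
      rw [ValuationSubring.mem_comap]
      have h6 : f ∈ v.ring ↔ (f : Om k) ∈ V'.ring := by
        rw [← hv, ValuationSubring.mem_comap]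
        rfl
      rw [h6]
      exact (hg f f.2).symm
    have h7 : IsVal (W c) (gm hX (g.restrictScalars k) (R i)) (b (ρ i) c) := by
      rw [hρ i]
      exact hb (ρ i) c
    have h8 : gm hX (g.restrictScalars k) (R i) = (y i).map
        (((g.restrictScalars k : Om k ≃ₐ[k] Om k) : Om k →ₐ[k] Om k).comp
          (F.val.restrictScalars k)) hX := by
      rw [← hy i]
      exact map_comp _ _ hX _
    rw [h8] at h7
    rw [h5]
    exact (isVal_map hv').1 h7
  · obtain ⟨h, hh⟩ := hover (τ ι) (hτ ι)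
    obtain ⟨ρ, hρ⟩ := hconj h
    obtain ⟨t, ht⟩ := hR (ρ i)
    refine ⟨t, ?_⟩
    change gm hX (τ ι) (R i) = _
    rw [← hh, hρ i, ht]

end Pool.Agent.QTC
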