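import Pool.Agent.QTC.MainA
import Pool.Agent.QTC.GradM
import Pool.Agent.WFC.FinW
import Pool.Agent.WFC.CurveCore
import Pool.Agent.TInc.Riem

/-!
# The main theorem
-/

set_option autoImplicit false

noncomputable section

namespace Pool.Agent.QTC

open Pool.Agent.WFC

variable {k : Type} [Field k] [IsAlgClosed k] [CharZero k]

theorem isBB_Flt : IsBB (Flt k) := by
  refine isBB_of k (fun f ν x hx => map_FM f ν ⟨x, hx, rfl⟩) ?_
  intro m X l Z m' Y l' W γ ν h x hx
  have hg : ∀ (L : Type) [Field L] [Algebra k L] (hL : EFC.IsCurve k L),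
      ∃ g, TInc.Riemann hL.dess g := fun L _ _ hL => TInc.exists_genus hL.dess
  have h1 := grad_FM (Q := fun _ => True) (coreW hg) (coreG hg) (fun _ _ => trivial)
    (fun _ _ => trivial) γ ν h ⟨x, hx, rfl⟩
  rw [LinearMap.sum_apply] at h1
  exact h1

theorem main (k : Type) [Field k] [IsAlgClosed k] [CharZero k] : Stmt k :=
  ⟨Flt k, isBB_Flt, fun _ h => uniq h isBB_Flt.toConds⟩

end Pool.Agent.QTC
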