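import Pool.Agent.QTC.UqC
import Pool.Agent.QTC.Eone

/-!
# Uniqueness of the filtration: the theorem
-/

set_option autoImplicit false

noncomputable section

namespace Pool.Agent.QTC

variable {k : Type} [Field k] [IsAlgClosed k] [CharZero k]

/-- **Uniqueness.** Two filtrations with the properties `Conds` are equal. -/
theorem uniq {Φ Ψ : Filtration k} (h : Conds Φ) (h' : Conds Ψ) : Φ = Ψ :=
  uniq_of (fun Z _ => ⟨e1 Z, exists_e1 Z⟩) h h'

end Pool.Agent.QTC
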