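import Pool.Agent.QTC.FilB
import Pool.Agent.QTC.Uniq

/-!
# The conditions for the filtration
-/

set_option autoImplicit false

noncomputable section

namespace Pool.Agent.QTC

open Pool.Agent.ZCyc
open Pool.Agent.VFP (Om tt)
open Pool.Agent.WFC
open scoped Classical

variable {k : Type} [Field k] [IsAlgClosed k] [CharZero k]

/-- the class of a push-forward -/
theorem mk_push {m l m' l' : ℕ} {X : Fin m → WC k} {Z : Fin l → TS k} {Y : Fin m' → WC k}
    {W : Fin l' → TS k} (γ : MorM X Z Y W →₀ ℚ) (z : PtM m Z →₀ ℚ) :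
    (Submodule.Quotient.mk (push γ z) : V Y W) =
      γ.sum fun f c => c • pushV f (Submodule.Quotient.mk z) := by
  have h1 : ∀ f : MorM X Z Y W, pushV f (Submodule.Quotient.mk z) =
      z.sum fun p e => e • (Submodule.Quotient.mk (f.cyc p) : V Y W) := fun f => by
    rw [mk_eq_sum, Finsupp.sum, map_sum, Finsupp.sum]
    exact Finset.sum_congr rfl fun p _ => by rw [map_smul, pushV_cl]
  rw [push, bil, Finsupp.sum, ← Submodule.mkQ_apply, map_sum, Finsupp.sum]
  refine Finset.sum_congr rfl fun f _ => ?_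
  rw [h1, Finsupp.sum, map_sum, Finsupp.sum, Finset.smul_sum]
  refine Finset.sum_congr rfl fun p _ => ?_
  rw [map_smul, Submodule.mkQ_apply, smul_smul]

variable (k) in
/-- the filtration -/
def Flt : Filtration k := fun _ X _ Z ν => FilM X Z ν

variable (k) in
/-- the properties of the filtration follow from those of the spans `FM` -/
theorem isBB_of
    (hmap : ∀ {m l m' l' : ℕ} {X : Fin m → WC k} {Z : Fin l → TS k} {Y : Fin m' → WC k}
      {W : Fin l' → TS k} (f : MorM X Z Y W) (ν : ℕ) (x : V X Z), x ∈ FM X Z ν →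
      pushV f x ∈ FM Y W ν)
    (hgrad : ∀ {m l m' l' : ℕ} {X : Fin m → WC k} {Z : Fin l → TS k} {Y : Fin m' → WC k}
      {W : Fin l' → TS k} (γ : MorM X Z Y W →₀ ℚ) (ν : ℕ), KillsForms γ ν → ∀ x ∈ FM X Z ν,
      (γ.sum fun f c => c • pushV f x) ∈ FM Y W (ν + 1)) : IsBB (Flt k) where
  mod _ _ _ _ ν _ hz := FilM_ge ν hz
  anti _ _ _ _ ν _ hz := FilM_anti (Nat.le_succ ν) hz
  zero _ _ _ _ z := FilM_zero z
  top _ _ _ _ _ hz := FilM_top hz
  map m X l Z m' Y l' W ν γ z hz := by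
    obtain ⟨h1, h2⟩ := mem_FilM.1 hz
    refine mem_FilM.2 ⟨push_supp γ h1, ?_⟩
    rw [mk_push]
    exact Submodule.sum_mem _ fun f _ => Submodule.smul_mem _ _ (hmap f ν _ h2)
  grad m X l Z m' Y l' W ν γ z hγ hz := by
    obtain ⟨h1, h2⟩ := mem_FilM.1 hz
    refine mem_FilM.2 ⟨push_supp γ h1, ?_⟩
    rw [mk_push]
    exact hgrad γ ν hγ _ h2
  one _ _ _ _ z := FilM_one z
  two _ _ _ _ z := FilM_two z

end Pool.Agent.QTC
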