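import Pool.Agent.QTC.Core
import Pool.Agent.QTC.Glue
import Pool.Agent.QTF.MixG

/-!
# The mixed relation on a product of surfaces
-/

set_option autoImplicit false

noncomputable section

namespace Pool.Agent.QTC

open Pool.Agent.ZCyc Pool.Agent.WFC
open Pool.Agent.QTF (gen_pos Extm sum_fixing sign_via glue_self glue_of)
open Pool.Agent.ZIso (fixing)
open Pool.Agent.VFP (Om tt)
open scoped Classical

variable {k : Type} [Field k] {n l : ℕ}

/-- the classes of the points span the classes on a surface -/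
theorem clS_span (W : TS k) (x : V1 W) : x ∈ Submodule.span ℚ (Set.range (clS W)) := by
  obtain ⟨z, rfl⟩ := mkS_surj W x
  rw [mkS, Finsupp.linearCombination_apply]
  exact Submodule.sum_mem _ fun t _ => Submodule.smul_mem _ _ (Submodule.subset_span ⟨t, rfl⟩)

/-- the point with the coordinates `o` -/
def toPt (E : EL k) (o : Option (Om k × Om k)) : (GT.Ec E.A E.B).Point :=
  match o with
  | none => 0
  | some p => if h : (GT.Ec E.A E.B).Nonsingular p.1 p.2 then .some p.1 p.2 h else 0

theorem toPt_surj (E : EL k) (P : (GT.Ec E.A E.B).Point) : ∃ o, toPt E o = P := by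
  rcases P with _ | ⟨x, y, h⟩
  · exact ⟨none, rfl⟩
  · refine ⟨some (x, y), ?_⟩
    unfold toPt
    simp only
    rw [dif_pos h]

theorem castE_toPt {E E' : EL k} (h : E = E') (hA : E.A = E'.A) (hB : E.B = E'.B)
    (o : Option (Om k × Om k)) : GT.castE hA hB (toPt E o) = toPt E' o := by
  subst h
  rfl

variable [IsAlgClosed k] [CharZero k]

/-- the values of the limit homomorphisms of the surface `W`: the letter `y` is a place and the
coordinates of a point -/
def hr (W : TS k) (y : PlO k × Option (Om k × Om k)) : V1 W := hh W y.1 (toPt W.E y.2)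

/-- the push-forward of the classes of the limit homomorphisms -/
theorem pushS_hr {Z W : TS k} (u : TCor Z W) (y : PlO k × Option (Om k × Om k)) :
    pushS u (hr Z y) = u.top • hr W y := by
  unfold hr
  rw [pushS_hh, castE_toPt u.same]

/-- the part of the class of a point with the label `2` -/
theorem eS_two_mem (W : TS k) (w : W.Pt) :
    eS W 2 w ∈ Submodule.span ℚ (Set.range (hr W)) := by
  refine Submodule.span_mono ?_ (eS_two_hh W w)
  rintro _ ⟨⟨v, P⟩, rfl⟩
  obtain ⟨o, rfl⟩ := toPt_surj W.E P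
  exact ⟨(v, o), rfl⟩

theorem hr_eq (W : TS k) {E : EL k} (hE : W.E = E) (hW : FibL E.L W.X E.A E.B W.M) (v : PlO k)
    (o : Option (Om k × Om k)) :
    brS W (GT.hV hW.hom hW.ok v (toPt E o)) = hr W (v, o) := by
  subst hE
  rfl

/-- the mixed relation for a product of surfaces with the same elliptic curve -/
theorem mixT {Z : Fin n → TS k} {E : EL k} (h : ∀ j, (Z j).E = E)
    (hn : E.r + EFC.genus k E.L ≤ n) (y : Fin n → PlO k × Option (Om k × Om k)) :
    ∑ π : Equiv.Perm (Fin n), ((Equiv.Perm.sign π : ℤ) : ℚ) •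
      mulT Z (fun j => hr (Z j) (y (π j))) = 0 := by
  have hfib : ∀ j, FibL E.L (Z j).X E.A E.B (Z j).M := by
    intro j
    have h1 := (Z j).fib
    rwa [h j] at h1
  have h1 := congrArg (brT Z) (mix E.baseL hfib hn (fun i => (y i).1) fun i => toPt E (y i).2)
  rw [map_sum, map_zero] at h1
  rw [← h1]
  refine Finset.sum_congr rfl fun π _ => ?_
  rw [map_zsmul, Int.cast_smul_eq_zsmul]
  congr 1
  rw [show Extm (fun j => (hfib j).hom) (fun j => GT.hV (hfib j).hom (hfib j).ok (y (π j)).1
      (toPt E (y (π j)).2)) = Extm (fun j => (Z j).hom) (fun j => GT.hV (hfib j).hom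
        (hfib j).ok (y (π j)).1 (toPt E (y (π j)).2)) from rfl, ← mulT_brS]
  congr 1
  funext j
  exact (hr_eq (Z j) (h j) (hfib j) _ _).symm

/-- **The mixed relation** for the factors in `J`, which belong to the same elliptic curve. -/
theorem alt_mulT {Z : Fin l → TS k} {J : Finset (Fin l)} {E : EL k}
    (hJ : ∀ j ∈ J, (Z j).E = E) (hc : J.card = E.r + EFC.genus k E.L)
    (y : Fin l → PlO k × Option (Om k × Om k)) (w : ∀ j, V1 (Z j)) :
    ∑ π ∈ fixing J, ((Equiv.Perm.sign π : ℤ) : ℚ) •
      mulT Z (fun j => if j ∈ J then hr (Z j) (y (π j)) else w j) = 0 := by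
  refine gen_pos (fixing J) (fun π => ((Equiv.Perm.sign π : ℤ) : ℚ)) J
    (fun π j => hr (Z j) (y (π j))) (mulT Z) (fun j => Set.range (clS (Z j)))
    (fun j => clS_span (Z j)) (fun j => ⟨_, (Z j).ms.b (Z j).i0 (Z j).E.c0, rfl⟩)
    (fun w hw => ?_) w
  choose x hx using hw
  obtain rfl : (fun j => clS (Z j) (x j)) = w := funext hx
  let e := J.orderEmbOfFin hc
  have heJ : ∀ j, j ∈ J ↔ ∃ b, e b = j := by
    intro j
    have h1 : Set.range e = (J : Set (Fin l)) := J.range_orderEmbOfFin hc
    have h2 : j ∈ Set.range e ↔ j ∈ (J : Set (Fin l)) := by rw [h1]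
    rw [Finset.mem_coe] at h2
    exact h2.symm
  have hmap : (Finset.univ : Finset (Fin (E.r + EFC.genus k E.L))).map e.toEmbedding = J := by
    ext j
    rw [Finset.mem_map, heJ]
    simp
  have hfix : fixing (Finset.univ : Finset (Fin (E.r + EFC.genus k E.L))) = Finset.univ := by
    ext π
    simp [fixing]
  have h1 := congrArg (gl e.injective x) (mixT (Z := fun i => Z (e i)) (E := E)
    (fun i => hJ _ ((heJ _).2 ⟨i, rfl⟩)) le_rfl fun i => y (e i))
  rw [map_sum, map_zero] at h1
  rw [← h1]
  have h2 := sum_fixing e.toEmbedding Finset.univ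
    (fun π => gl e.injective x (((Equiv.Perm.sign π : ℤ) : ℚ) •
      mulT (fun i => Z (e i)) (fun i => hr (Z (e i)) (y (e (π i))))))
    (fun π => ((Equiv.Perm.sign π : ℤ) : ℚ) •
      mulT Z (fun j => if j ∈ J then hr (Z j) (y (π j)) else clS (Z j) (x j))) ?_
  · rw [hfix, hmap] at h2
    exact h2.symm
  intro π _
  rw [map_smul, gl_mulT, sign_via]
  congr 2
  funext j
  by_cases hj : j ∈ J
  · rw [if_pos hj]
    obtain ⟨i, rfl⟩ := (heJ j).1 hj
    rw [glue_self e.injective]
    congr 2
    exact (Equiv.Perm.viaEmbedding_apply π e.toEmbedding i).symm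
  · rw [if_neg hj, glue_of _ _ fun h => hj ((heJ j).2 h)]

end Pool.Agent.QTC
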