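import Pool.Agent.QTC.GradAbs
import Pool.Agent.QTC.MixG
import Pool.Agent.QTC.Joint

/-!
# The abstract theorem for the products of surfaces
-/

set_option autoImplicit false

noncomputable section

namespace Pool.Agent.QTC

open Pool.Agent.ZCyc Pool.Agent.GT Pool.Agent.WFC
open Pool.Agent.VFP (Om tt)
open Pool.Agent.EFC (genus)
open Pool.Agent.QTF (BijZ PullZ lw)
open Pool.Agent.ZIso (fixing)
open scoped Classical

variable {k : Type} [Field k] [IsAlgClosed k] [CharZero k] {l l' : ℕ} {Z : Fin l → TS k}
  {W : Fin l' → TS k}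

omit [IsAlgClosed k] [CharZero k] in
theorem EL.r_pos (E : EL k) : 0 < E.r := E.baseL.pos

variable (Z W) in
/-- The maps which belong to the correspondences between two products of surfaces. -/
def partsT : Parts (fun i => (Z i).Pt) (EL k) (MorT Z W) (PlO k × Option (Om k × Om k))
    (fun i => V1 (Z i)) (fun i => VC (Z i).E) (fun j => V1 (W j)) (VT W) where
  E := mulT W
  cl := fun i => clS (Z i)
  β := fun i t => clC (Z i).E ((Z i).bas t)
  src := fun f j => (f j).src
  dg := fun f j => (f j).d
  co := fun f j => (f j).top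
  c := fun i => (Z i).E
  c' := fun j => (W j).E
  d := fun E => E.r + genus k E.L - 1
  hc := fun f j i hs => ((f j).bp_fac hs).1
  h := fun i => hr (Z i)
  h' := fun j => hr (W j)
  o' := fun j => delP (W j) (W j).E.c0
  Dp := fun f ζ j => delP (W j) ((f j).bp ζ)
  A := fun f n ζ j => pA (f j) n ζ
  A0 := fun f ζ j => rfl
  A1 := fun f ζ j => rfl
  A2 := fun f j i hs => by
    cases hf : f j with
    | const w => rw [hf] at hs; simp [CompT.src] at hs
    | fac i' u =>
      rw [hf, CompT.src, Option.some.injEq] at hs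
      subst hs
      refine ⟨pushS u, u.d • (del (W j)).comp (castVC u.same), fun ζ => ?_, fun y => ?_⟩
      · rw [pA_two, pushS_clS, LinearMap.smul_apply, LinearMap.comp_apply, castVC_clC, del_clC]
        rfl
      · exact pushS_hr u y
  Dp_some := fun f j i hs => by
    obtain ⟨h, hb⟩ := (f j).bp_fac hs
    refine ⟨(del (W j)).comp (castVC h), fun ζ => ?_⟩
    rw [LinearMap.comp_apply, castVC_clC, del_clC, hb]
  cst := fun f j hs n ζ ζ' => pA_cst (f j) hs n ζ ζ'
  loc := fun f j i hs n ζ ζ' h => pA_loc (f j) hs n h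
  joint := fun f lam' i h ζ => joint_pA f lam' i h ζ
  alt := fun S' J γ hJ hcol hJc y => by
    have hr0 := γ.r_pos
    have h1 := alt_mulT (Z := W) (E := γ) hcol (by omega) y fun j =>
      if j ∈ S' then hr (W j) (y j) else delP (W j) (W j).E.c0
    rw [← h1]
    refine Finset.sum_congr rfl fun π hπ => ?_
    congr 2
    funext j
    by_cases hj : j ∈ J
    · rw [if_pos hj, if_pos (hJ hj)]
    · rw [if_neg hj]
      have h2 : π j = j := by
        simp only [fixing, Finset.mem_filter, Finset.mem_univ, true_and] at hπ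
        exact hπ j hj
      rw [h2]

end Pool.Agent.QTC
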