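import Pool.Agent.QTC.PartsT
import Pool.Agent.QTC.FilM

/-!
# The images of the classes which span the filtration
-/

set_option autoImplicit false

noncomputable section

namespace Pool.Agent.QTC

open Pool.Agent.ZCyc Pool.Agent.GT Pool.Agent.WFC
open Pool.Agent.VFP (Om tt)
open Pool.Agent.QTF (BijZ PullZ lw extm)
open scoped Classical

/-- the weight of the labels -/
theorem sum_lam {l : ℕ} (lam : Fin l → Fin 3) :
    ∑ j, (lam j : ℕ) = (lev lam 1).card + 2 * (lev lam 2).card := by
  have h1 : ∀ j, (lam j : ℕ) = (if lam j = 1 then 1 else 0) + 2 * (if lam j = 2 then 1 else 0) := by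
    intro j
    generalize lam j = n
    fin_cases n <;> rfl
  rw [Finset.sum_congr rfl fun j _ => h1 j, Finset.sum_add_distrib, ← Finset.mul_sum, lev, lev,
    Finset.card_filter, Finset.card_filter]

variable {k : Type} [Field k] [IsAlgClosed k] [CharZero k] {m m' l l' : ℕ}
  {X : Fin m → WC k} {Z : Fin l → TS k} {Y : Fin m' → WC k} {W : Fin l' → TS k}

/-- the cycles with the classes `eS` -/
def muZ (W : TS k) (n : Fin 3) (z : W.Pt) : W.Pt →₀ ℚ :=
  if n = 0 then secC W W.E.c0 else if n = 1 then secC W (W.bas z) - secC W W.E.c0 else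
    Finsupp.single z 1 - secC W (W.bas z)

theorem mkS_muZ (W : TS k) (n : Fin 3) (z : W.Pt) : mkS W (muZ W n z) = eS W n z := by
  unfold muZ eS
  split_ifs
  · exact mkS_secC _ _
  · rw [map_sub, mkS_secC, mkS_secC]
  · rw [map_sub, mkS_secC, mkS_single, one_smul]

/-- the cycles `muZ` satisfy the conditions of the abstract theorem -/
theorem meas_muZ (lam : Fin l → Fin 3) (z : ∀ i, (Z i).Pt)
    (x : Fin l → ((PlO k × Option (Om k × Om k)) →₀ ℚ))
    (hx : ∀ i, lam i = 2 → eS (Z i) 2 (z i) = Finsupp.linearCombination ℚ (hr (Z i)) (x i)) :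
    (partsT Z W).Meas lam z x (fun i => muZ (Z i) (lam i) (z i)) where
  m0 := fun i hi => by
    rw [hi]
    exact sum_secC (Z i) _
  m1 := fun i hi => by
    rw [hi]
    change ((secC (Z i) _ - secC (Z i) _).sum fun _ c => c) = 0
    rw [Finsupp.sum_sub_index fun _ _ _ => rfl, sum_secC, sum_secC, sub_self]
  m1' := fun i hi f j hs Δ hΔ => by
    have h1 : Finsupp.linearCombination ℚ ((partsT Z W).β i) (muZ (Z i) (lam i) (z i)) =
        clC (Z i).E ((Z i).bas (z i)) - clC (Z i).E (Z i).E.c0 := by
      rw [hi]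
      change Finsupp.linearCombination ℚ _ (secC (Z i) _ - secC (Z i) _) = _
      rw [map_sub]
      exact congrArg₂ (· - ·) (lc_secC _ _) (lc_secC _ _)
    obtain ⟨h, hb⟩ := (f j).bp_fac hs
    have h2 : Δ (clC (Z i).E (Z i).E.c0) = delP (W j) (W j).E.c0 := by
      have h3 := hΔ (Function.update z i ((Z i).ms.b (Z i).i0 (Z i).E.c0))
      rw [Function.update_self] at h3
      have h4 : (partsT Z W).β i ((Z i).ms.b (Z i).i0 (Z i).E.c0) =
          clC (Z i).E (Z i).E.c0 := (Z i).clC_b _ _
      rw [h4] at h3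
      rw [← h3]
      change delP (W j) ((f j).bp _) = _
      rw [hb, Function.update_self, ← del_clC, ← castVC_clC, (Z i).clC_b, castVC_clC, del_clC,
        castPl_c0]
    rw [h1, map_sub, h2]
    congr 1
    exact (hΔ z).symm
  m2 := fun i hi => by
    rw [hi]
    change Finsupp.linearCombination ℚ _ (Finsupp.single (z i) 1 - secC (Z i) _) = _
    rw [map_sub, Finsupp.linearCombination_single, one_smul]
    exact sub_eq_zero.2 (lc_secC _ _).symm
  m2' := fun i hi => by
    refine Eq.trans ?_ (hx i hi)
    change mkS (Z i) (muZ (Z i) (lam i) (z i)) = _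
    rw [mkS_muZ, hi]

omit [IsAlgClosed k] [CharZero k] in
/-- the exterior product of the classes of cycles -/
theorem mulT_extm (μ : ∀ i, (Z i).Pt →₀ ℚ) :
    mulT Z (fun i => mkS (Z i) (μ i)) = Finsupp.linearCombination ℚ (clT Z) (extm μ) := by
  have h1 : (fun i => mkS (Z i) (μ i)) = fun i => ∑ t ∈ (μ i).support, μ i t • clS (Z i) t := by
    funext i
    rw [mkS, Finsupp.linearCombination_apply, Finsupp.sum]
  rw [h1, MultilinearMap.map_sum_finset]
  unfold extm
  rw [map_sum]
  refine Finset.sum_congr rfl fun x _ => ?_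
  rw [(mulT Z).map_smul_univ (fun i => μ i (x i)) fun i => clS (Z i) (x i), mulT_cl,
    Finsupp.linearCombination_single]

/-- the image of a point and of an exterior product -/
theorem pushV_times (f : MorM X Z Y W) {p : Pts m k} (hp : OnP X p)
    (μ : ∀ i, (Z i).Pt →₀ ℚ) :
    pushV f (times X Z (clP X p) (mulT Z fun i => mkS (Z i) (μ i))) =
      times Y W (clP Y (Mor.app f.1 p))
        (EP (fun ζ => mulT W fun j => mkS (W j) ((f.2 j).cyc ζ)) μ) := by
  rw [mulT_extm, EP_apply]
  generalize extm μ = x
  induction x using Finsupp.induction_linear with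
  | zero => simp only [map_zero]
  | add x y hx hy => simp only [map_add, hx, hy]
  | single z a =>
    rw [Finsupp.linearCombination_single, Finsupp.linearCombination_single, map_smul, map_smul,
      map_smul, times_cl hp, pushV_cl, mk_cyc f hp]

/-- the image of a class `eP` times an exterior product -/
theorem pushV_eP (f : MorM X Z Y W) {p : Pts m k} (hp : OnP X p) (T : Finset (Fin m × Option ℕ))
    (μ : ∀ i, (Z i).Pt →₀ ℚ) :
    pushV f (times X Z (eP X T p) (mulT Z fun i => mkS (Z i) (μ i))) =
      times Y W (pushW f.1 (eP X T p))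
        (EP (fun ζ => mulT W fun j => mkS (W j) ((f.2 j).cyc ζ)) μ) := by
  unfold eP
  rw [map_sum, LinearMap.sum_apply, map_sum, map_sum, map_sum, LinearMap.sum_apply]
  refine Finset.sum_congr rfl fun U _ => ?_
  rw [map_smul, LinearMap.smul_apply, map_smul, map_smul, map_smul, LinearMap.smul_apply,
    pushV_times f (onP_proj hp U), pushW_clP]

/-- the decomposition of the product of the values of the components -/
theorem EP_cyc (g : MorT Z W) (μ : ∀ i, (Z i).Pt →₀ ℚ) :
    EP (fun ζ => mulT W fun j => mkS (W j) ((g j).cyc ζ)) μ =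
      ∑ lam' : Fin l' → Fin 3, EP (fun ζ => mulT W fun j => pA (g j) (lam' j) ζ) μ := by
  have h1 : (fun ζ => mulT W fun j => mkS (W j) ((g j).cyc ζ)) = fun ζ : ∀ i, (Z i).Pt =>
      ∑ lam' : Fin l' → Fin 3, mulT W fun j => pA (g j) (lam' j) ζ := by
    funext ζ
    have h2 : (fun j => mkS (W j) ((g j).cyc ζ)) = fun j => ∑ n : Fin 3, pA (g j) n ζ :=
      funext fun j => (sum_pA _ _).symm
    rw [h2, (mulT W).map_sum]
  rw [h1, EP_apply]
  simp only [EP_apply]
  generalize extm μ = x
  induction x using Finsupp.induction_linear with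
  | zero => simp only [map_zero, Finset.sum_const_zero]
  | add x y hx hy => simp only [map_add, Finset.sum_add_distrib, hx, hy]
  | single z a =>
    rw [Finsupp.linearCombination_single, Finset.smul_sum]
    refine Finset.sum_congr rfl fun lam' _ => ?_
    rw [Finsupp.linearCombination_single]

end Pool.Agent.QTC
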