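import Pool.Agent.QTC.Wt
import Pool.Agent.QTC.MulT
import Pool.Agent.QTC.Supp
import Pool.Agent.WFC.FMapW
import Pool.Agent.GT.Val

/-!
# The push-forward respects rational equivalence

`cycL_ratEq`: a family is mapped to the weighted family of the points of the cycles `U x`; the
conditions `conj` and `val` of `TCor` show that its members are equivalent to the images of the
members. `mk_cyc`: the class of the image of a point is the product of the classes of the values of
the components.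
-/

set_option autoImplicit false

noncomputable section

namespace Pool.Agent.QTC

open Pool.Agent.ZCyc
open Pool.Agent.VFP (Om tt)
open Pool.Agent.WFC
open scoped Classical

variable {k : Type} [Field k] {m m' l l' : ℕ} {X : Fin m → WC k} {Z : Fin l → TS k}
  {Y : Fin m' → WC k} {W : Fin l' → TS k}

/-- conjugation of points -/
def gmap {V : TS k} (g : Om k ≃ₐ[RatFunc k] Om k) (x : V.PtO) : V.PtO :=
  x.map ((g.restrictScalars k : Om k ≃ₐ[k] Om k) : Om k →ₐ[k] Om k) V.hom

theorem gmap_rep {V : TS k} (g : Om k ≃ₐ[RatFunc k] Om k) (x : V.PtO) :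
    ∃ c : Om k, c ≠ 0 ∧ ∀ i, (gmap g x).1.rep i = c * g (x.1.rep i) :=
  map_rep ((g.restrictScalars k : Om k ≃ₐ[k] Om k) : Om k →ₐ[k] Om k) V.hom x

theorem isConj_gmap {V : TS k} (g : Om k ≃ₐ[RatFunc k] Om k) (x : V.PtO) :
    IsConj g x (gmap g x) := by
  obtain ⟨c, -, h⟩ := gmap_rep g x
  exact ⟨c, h⟩

theorem isConj_iff {V : TS k} {g : Om k ≃ₐ[RatFunc k] Om k} {x y : V.PtO} :
    IsConj g x y ↔ y = gmap g x := by
  constructor
  · rintro ⟨c, hc⟩
    obtain ⟨d, hd, h⟩ := gmap_rep g x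
    apply Subtype.ext
    rw [← Projectivization.mk_rep y.1, ← Projectivization.mk_rep (gmap g x).1,
      Projectivization.mk_eq_mk_iff']
    refine ⟨c * d⁻¹, funext fun i => ?_⟩
    change c * d⁻¹ * (gmap g x).1.rep i = y.1.rep i
    have h1 : y.1.rep i = c * g (x.1.rep i) := hc i
    rw [h1, h]
    field_simp
  · rintro rfl
    exact isConj_gmap g x

theorem gmap_inj {V : TS k} (g : Om k ≃ₐ[RatFunc k] Om k) :
    Function.Injective (gmap g : V.PtO → V.PtO) := by
  intro x y hxy
  obtain ⟨c, hc, h1⟩ := gmap_rep g x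
  obtain ⟨d, hd, h2⟩ := gmap_rep g y
  apply Subtype.ext
  rw [← Projectivization.mk_rep x.1, ← Projectivization.mk_rep y.1,
    Projectivization.mk_eq_mk_iff']
  refine ⟨g.symm (c⁻¹ * d), funext fun i => ?_⟩
  apply g.injective
  change g (g.symm (c⁻¹ * d) * y.1.rep i) = g (x.1.rep i)
  rw [map_mul, AlgEquiv.apply_symm_apply, mul_assoc, ← h2, ← hxy, h1, inv_mul_cancel_left₀ hc]

/-- the value of a component over `Om k` -/
def CompT.cycO {V : TS k} (f : CompT Z V) (Q : ∀ j, (Z j).PtO) : V.PtO →₀ ℚ :=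
  match f with
  | .const w => Finsupp.single (w.map (Algebra.ofId k (Om k)) V.hom) 1
  | .fac i u => u.U (Q i)

theorem CompT.cycO_conj {V : TS k} (f : CompT Z V) (g : Om k ≃ₐ[RatFunc k] Om k)
    {Q Q' : ∀ j, (Z j).PtO} (h : ∀ j, IsConj g (Q j) (Q' j)) (y : V.PtO) :
    f.cycO Q' (gmap g y) = f.cycO Q y := by
  cases f with
  | const w =>
    change Finsupp.single (w.map (Algebra.ofId k (Om k)) V.hom) (1 : ℚ) (gmap g y) =
      Finsupp.single (w.map (Algebra.ofId k (Om k)) V.hom) 1 y
    have h1 := isConj_iff.1 (isConj_const (W := V) g w)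
    rw [Finsupp.single_apply, Finsupp.single_apply]
    refine if_congr ?_ rfl rfl
    constructor
    · intro h2
      rw [h1] at h2
      exact gmap_inj g h2
    · intro h2
      rw [← h2]
      exact h1
  | fac i u => exact u.conj g _ _ _ _ (h i) (isConj_gmap g y)

theorem CompT.cyc_eq {V : TS k} (f : CompT Z V) {v : Place k (Om k)}
    {Q : ∀ j, (Z j).PtO} {q : ∀ j, (Z j).Pt} (h : ∀ j, GT.IsVal v (Q j) (q j))
    {w : V.PtO → V.Pt} (hw : ∀ y, GT.IsVal v y (w y)) :
    mkS V (f.cyc q) = mkS V (Finsupp.mapDomain w (f.cycO Q)) := by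
  cases f with
  | const w' =>
    change mkS V (Finsupp.single w' 1) =
      mkS V (Finsupp.mapDomain w (Finsupp.single (w'.map (Algebra.ofId k (Om k)) V.hom) 1))
    rw [Finsupp.mapDomain_single, GT.isVal_unique (hw _) (GT.isVal_const (v := v) (x := w'))]
  | fac i u => exact equivalent_iff.1 (u.val v _ _ w (h i) hw)

variable [IsAlgClosed k] [CharZero k]

/-- the class of a product of cycles -/
theorem times_mulT {T : Fin l' → Type} (w : ∀ j, T j → (W j).Pt) (F : ∀ j, T j →₀ ℚ)
    {y : Pts m' k} (hy : OnP Y y) :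
    times Y W (clP Y y) (mulT W fun j => mkS (W j) (Finsupp.mapDomain (w j) (F j))) =
      ∑ x ∈ Fintype.piFinset fun j => (F j).support,
        (∏ j, F j (x j)) • cl Y W (y, fun j => w j (x j)) := by
  have h1 : (fun j => mkS (W j) (Finsupp.mapDomain (w j) (F j))) =
      fun j => ∑ t ∈ (F j).support, F j t • clS (W j) (w j t) := by
    funext j
    rw [Finsupp.mapDomain, Finsupp.sum, map_sum]
    exact Finset.sum_congr rfl fun t _ => mkS_single _ _ _
  rw [h1, MultilinearMap.map_sum_finset, map_sum]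
  refine Finset.sum_congr rfl fun x _ => ?_
  rw [(mulT W).map_smul_univ (fun j => F j (x j)) fun j => clS (W j) (w j (x j)), map_smul,
    mulT_cl, times_cl hy]

/-- the class of the value of a morphism at a point -/
theorem mk_cyc (f : MorM X Z Y W) {p : PtM m Z} (hp : OnP X p.1) :
    (Submodule.Quotient.mk (f.cyc p) : V Y W) =
      times Y W (clP Y (Mor.app f.1 p.1)) (mulT W fun j => mkS (W j) ((f.2 j).cyc p.2)) := by
  have h1 := times_mulT (W := W) (fun j => (id : (W j).Pt → (W j).Pt))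
    (fun j => (f.2 j).cyc p.2) (Mor.onP f.1 hp)
  have h2 : (fun j => mkS (W j) (Finsupp.mapDomain (id : (W j).Pt → (W j).Pt)
      ((f.2 j).cyc p.2))) = fun j => mkS (W j) ((f.2 j).cyc p.2) := by
    funext j
    rw [Finsupp.mapDomain_id]
  rw [h2] at h1
  rw [h1, MorM.cyc, ← Submodule.mkQ_apply]
  unfold prodC
  rw [Finsupp.mapDomain_finsetSum, map_sum]
  refine Finset.sum_congr rfl fun x _ => ?_
  rw [Finsupp.mapDomain_single, cl, ← Submodule.mkQ_apply, ← map_smul, Finsupp.smul_single,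
    smul_eq_mul, mul_one]
  rfl

/-- the component of a morphism over `Om k` -/
private def PushM_O {V : WC k} (f : Comp X V) (P : Fin m → PtO k) : PtO k :=
  match f with
  | .const w _ => ⟨V, w.cst⟩
  | .fac i _ ε => ⟨(P i).1, (P i).2.mul ε⟩

omit [IsAlgClosed k] [CharZero k] in
private theorem PushM_O_on (f : Mor X Y) {P : Fin m → PtO k} (hP : OnPO X P) :
    OnPO Y fun j => PushM_O (f j) P := by
  intro j
  change (PushM_O (f j) P).1 = Y j ∧ (PushM_O (f j) P).2.On
  cases f j with
  | const w hw => exact ⟨rfl, on_cst hw⟩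
  | fac i h ε => exact ⟨(hP i).1.trans h, onO_mul (hP i).2 ε⟩

omit [IsAlgClosed k] [CharZero k] in
private theorem PushM_O_map (f : Mor X Y) (g : Om k ≃ₐ[k] Om k) (P : Fin m → PtO k)
    (j : Fin m') : PushM_O (f j) (fun i => (P i).map g) = (PushM_O (f j) P).map g := by
  cases f j with
  | const w hw =>
    change (⟨Y j, w.cst⟩ : PtO k) = ⟨Y j, w.cst.map g⟩
    rw [crd_cst_map]
  | fac i hi ε =>
    change (⟨(P i).1, ((P i).2.map g).mul ε⟩ : PtO k) = ⟨(P i).1, ((P i).2.mul ε).map g⟩
    rw [crdO_mul_map]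

private theorem PushM_O_val (f : Mor X Y) {v : Place k (Om k)} {P : Fin m → PtO k}
    {p : Pts m k} (h : ∀ i, IsVal v (P i) (p i)) (j : Fin m') :
    IsVal v (PushM_O (f j) P) ((f j).app p) := by
  cases f j with
  | const w hw => exact ⟨Y j, w.cst, w, rfl, rfl, isValue_cst v w⟩
  | fac i hi ε =>
    obtain ⟨Z, P', p', h1, h2, h3⟩ := h i
    refine ⟨Z, P'.mul ε, p'.mul ε, ?_, ?_, isValue_mul h3 ε⟩
    · change (⟨(P i).1, (P i).2.mul ε⟩ : PtO k) = _
      rw [h1]
    · change (p i).mul ε = _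
      rw [h2]
      rfl

/-- the difference of the images of two members of a family -/
private theorem PushM_fam (f : MorM X Z Y W) {n : ℕ} {P : Fin n → Fin m → PtO k}
    {Q : Fin n → ∀ j, (Z j).PtO} {c c' : k} {v v' : Place k (Om k)} {p p' : Fin n → PtM m Z}
    (hP : ∀ a, OnPO X (P a))
    (hG : ∀ g : Om k ≃ₐ[RatFunc k] Om k, ∃ e : Equiv.Perm (Fin n), ∀ a,
      (∀ i, P (e a) i = (P a i).map (g.restrictScalars k)) ∧
        ∀ j, IsConj g (Q a j) (Q (e a) j))
    (hv : v.Vanishes (tt k - algebraMap k (Om k) c))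
    (hv' : v'.Vanishes (tt k - algebraMap k (Om k) c'))
    (hp : ∀ a, OnP X (p a).1 ∧ IsValM v (P a) (Q a) (p a))
    (hp' : ∀ a, OnP X (p' a).1 ∧ IsValM v' (P a) (Q a) (p' a)) :
    ∑ a, ((Submodule.Quotient.mk (f.cyc (p a)) : V Y W) -
      Submodule.Quotient.mk (f.cyc (p' a))) = 0 := by
  choose w hw using fun j => GT.exists_isVal (W j).hom v
  choose w' hw' using fun j => GT.exists_isVal (W j).hom v'
  have h1 : ∀ a, (Submodule.Quotient.mk (f.cyc (p a)) : V Y W) =
      ∑ x ∈ Fintype.piFinset fun j => ((f.2 j).cycO (Q a)).support,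
        (∏ j, (f.2 j).cycO (Q a) (x j)) •
          cl Y W (Mor.app f.1 (p a).1, fun j => w j (x j)) := by
    intro a
    rw [mk_cyc f (hp a).1, ← times_mulT w (fun j => (f.2 j).cycO (Q a)) (Mor.onP f.1 (hp a).1)]
    congr 2
    funext j
    exact (f.2 j).cyc_eq (hp a).2.2 (hw j)
  have h2 : ∀ a, (Submodule.Quotient.mk (f.cyc (p' a)) : V Y W) =
      ∑ x ∈ Fintype.piFinset fun j => ((f.2 j).cycO (Q a)).support,
        (∏ j, (f.2 j).cycO (Q a) (x j)) •
          cl Y W (Mor.app f.1 (p' a).1, fun j => w' j (x j)) := by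
    intro a
    rw [mk_cyc f (hp' a).1, ← times_mulT w' (fun j => (f.2 j).cycO (Q a)) (Mor.onP f.1 (hp' a).1)]
    congr 2
    funext j
    exact (f.2 j).cyc_eq (hp' a).2.2 (hw' j)
  let I := Σ a : Fin n, {x // x ∈ Fintype.piFinset fun j => ((f.2 j).cycO (Q a)).support}
  have h3 := ratEq_wt (X := Y) (Z := W) (ι := I)
    (fun s => ∏ j, (f.2 j).cycO (Q s.1) (s.2.1 j))
    (P := fun s j => PushM_O (f.1 j) (P s.1)) (Q := fun s => s.2.1) (c := c) (c' := c')
    (v := v) (v' := v') (p := fun s => (Mor.app f.1 (p s.1).1, fun j => w j (s.2.1 j)))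
    (p' := fun s => (Mor.app f.1 (p' s.1).1, fun j => w' j (s.2.1 j)))
    (fun s => PushM_O_on f.1 (hP s.1)) (fun g => ?_) hv hv'
    (fun s => ⟨Mor.onP f.1 (hp s.1).1, fun j => PushM_O_val f.1 (hp s.1).2.1 j,
      fun j => hw j (s.2.1 j)⟩)
    (fun s => ⟨Mor.onP f.1 (hp' s.1).1, fun j => PushM_O_val f.1 (hp' s.1).2.1 j,
      fun j => hw' j (s.2.1 j)⟩)
  · have h4 := (Submodule.Quotient.mk_eq_zero _).2 h3
    rw [← Submodule.mkQ_apply, map_sum] at h4
    rw [← h4, Fintype.sum_sigma]
    refine Finset.sum_congr rfl fun a _ => ?_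
    rw [h1, h2, ← Finset.sum_sub_distrib, ← Finset.sum_coe_sort
      (Fintype.piFinset fun j => ((f.2 j).cycO (Q a)).support)]
    refine Finset.sum_congr rfl fun x _ => ?_
    rw [map_smul, map_sub, smul_sub]
    rfl
  · obtain ⟨e, he⟩ := hG g
    let T : I → I := fun s => ⟨e s.1, fun j => gmap g (s.2.1 j), by
      rw [Fintype.mem_piFinset]
      intro j
      rw [Finsupp.mem_support_iff, (f.2 j).cycO_conj g (he s.1).2, ← Finsupp.mem_support_iff]
      exact Fintype.mem_piFinset.1 s.2.2 j⟩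
    have hT : Function.Injective T := by
      rintro ⟨a, x, hx⟩ ⟨b, y, hy⟩ h
      have h5 : a = b := e.injective (congrArg Sigma.fst h)
      subst h5
      have h6 : (fun j => gmap g (x j)) = fun j => gmap g (y j) :=
        congrArg Subtype.val (eq_of_heq (Sigma.mk.inj h).2)
      have h7 : x = y := funext fun j => gmap_inj g (congrFun h6 j)
      subst h7
      rfl
    refine ⟨Equiv.ofBijective T (Finite.injective_iff_bijective.1 hT), fun s => ?_, fun s =>
      ⟨fun j => ?_, fun j => isConj_gmap g _⟩⟩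
    · change ∏ j, (f.2 j).cycO (Q (e s.1)) (gmap g (s.2.1 j)) = _
      exact Finset.prod_congr rfl fun j _ => (f.2 j).cycO_conj g (he s.1).2 _
    · change PushM_O (f.1 j) (P (e s.1)) = (PushM_O (f.1 j) (P s.1)).map _
      rw [← PushM_O_map]
      exact congrArg (PushM_O (f.1 j)) (funext fun i => (he s.1).1 i)

/-- the class of the value of a morphism, linear in the cycle -/
def cycL (f : MorM X Z Y W) : (PtM m Z →₀ ℚ) →ₗ[ℚ] (PtM m' W →₀ ℚ) :=
  Finsupp.linearCombination ℚ (MorM.cyc f)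

omit [IsAlgClosed k] [CharZero k] in
theorem cycL_single (f : MorM X Z Y W) (p : PtM m Z) : cycL f (Finsupp.single p 1) = f.cyc p := by
  unfold cycL
  rw [Finsupp.linearCombination_single, one_smul]

/-- **The push-forward by a morphism respects rational equivalence.** -/
theorem cycL_ratEq (f : MorM X Z Y W) {z : PtM m Z →₀ ℚ} (hz : z ∈ ratEq X Z) :
    cycL f z ∈ ratEq Y W := by
  have key : ratEq X Z ≤ (ratEq Y W).comap (cycL f) := by
    refine ratEq_le ?_ ?_
    · rintro _ ⟨n, P, Q, c, c', v, v', p, p', hP, hG, hv, hv', hp, hp', rfl⟩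
      have h1 := PushM_fam f hP hG hv hv' hp hp'
      rw [Submodule.mem_comap, ← Submodule.Quotient.mk_eq_zero, ← Submodule.mkQ_apply, map_sum,
        map_sum, ← h1]
      refine Finset.sum_congr rfl fun a _ => ?_
      rw [map_sub, map_sub, cycL_single, cycL_single]
      rfl
    · rintro _ ⟨p, p', hp, h, h2, rfl⟩
      have h3 : (Finsupp.single p.1 (1 : ℚ) - Finsupp.single p'.1 1) ∈ ratEqW X :=
        Submodule.mem_sup_right (Submodule.subset_span ⟨p.1, p'.1, hp, h, rfl⟩)
      have hp' : OnP X p'.1 := by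
        intro j
        obtain ⟨g, hg⟩ := h j
        rw [hg]
        exact ⟨(hp j).1, on_act (hp j).2 g⟩
      rw [Submodule.mem_comap, map_sub, cycL_single, cycL_single,
        ← Submodule.Quotient.mk_eq_zero, ← Submodule.mkQ_apply, map_sub, Submodule.mkQ_apply,
        Submodule.mkQ_apply, mk_cyc f hp, mk_cyc f hp', h2]
      have h4 : clP Y (Mor.app f.1 p.1) = clP Y (Mor.app f.1 p'.1) := by
        have h5 := mapDomain_ratEqW f.1 h3
        rw [Finsupp.mapDomain_sub, Finsupp.mapDomain_single, Finsupp.mapDomain_single] at h5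
        exact (Submodule.Quotient.eq _).2 h5
      rw [h4, sub_self]
  exact key hz

/-- **The push-forward by a correspondence respects rational equivalence.** -/
theorem pushL_ratEq (γ : MorM X Z Y W →₀ ℚ) : (ratEq X Z).map (pushL γ) ≤ ratEq Y W := by
  rw [Submodule.map_le_iff_le_comap]
  intro z hz
  rw [Submodule.mem_comap]
  unfold pushL
  rw [Finsupp.sum, LinearMap.sum_apply]
  refine Submodule.sum_mem _ fun f _ => ?_
  rw [LinearMap.smul_apply]
  exact Submodule.smul_mem _ _ (cycL_ratEq f hz)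

theorem push_ratEq (γ : MorM X Z Y W →₀ ℚ) {z : PtM m Z →₀ ℚ} (hz : z ∈ ratEq X Z) :
    push γ z ∈ ratEq Y W := by
  rw [push_eq]
  exact pushL_ratEq γ (Submodule.mem_map_of_mem hz)

/-- the push-forward of classes by a morphism -/
def pushV (f : MorM X Z Y W) : V X Z →ₗ[ℚ] V Y W :=
  (ratEq X Z).mapQ (ratEq Y W) (cycL f) fun _ hz => cycL_ratEq f hz

theorem pushV_mk (f : MorM X Z Y W) (z : PtM m Z →₀ ℚ) :
    pushV f (Submodule.Quotient.mk z) = Submodule.Quotient.mk (cycL f z) := rfl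

theorem pushV_cl (f : MorM X Z Y W) (p : PtM m Z) :
    pushV f (cl X Z p) = Submodule.Quotient.mk (f.cyc p) := by
  unfold cl
  rw [pushV_mk, cycL_single]

end Pool.Agent.QTC
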