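import Pool.Agent.QTC.Fib
import Pool.Agent.QTC.Times
import Pool.Agent.QTC.Eqv

/-!
# A multisection of every surface
-/

set_option autoImplicit false

noncomputable section

namespace Pool.Agent.QTC

open Pool.Agent.ZCyc Pool.Agent.GT
open Pool.Agent.VFP (Om tt)
open Pool.Agent.EFC (BaseValue)
open scoped Classical

variable {k : Type} [Field k]

/-- the generic point of the base curve -/
abbrev EL.gpt (E : EL k) : (E.L →ₐ[k] Om k) ⊕ Place k E.L :=
  .inl (IsScalarTower.toAlgHom k E.L (Om k))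

variable [IsAlgClosed k] [CharZero k] (W : TS k)

theorem TS.exists_ms : ∃ (m : ℕ) (S : MSec W.E.L W.hom m), 0 < m ∧
    ∀ i, W.basO (S.R i W.E.gpt) = W.E.gpt ∧ ∃ P : W.E.Ec.Point, IsPhi W.G W.H P (S.R i W.E.gpt) := by
  obtain ⟨m, S, hm, hS⟩ := exists_sec W.E.curve W.fib Set.finite_empty
  refine ⟨m, S, hm, fun i => ?_⟩
  obtain ⟨x, y, hxy, -, -, c, hc⟩ := hS i
  have h1 : IsPhi W.G W.H (.some x y hxy : W.E.Ec.Point) (S.R i W.E.gpt) :=
    ⟨x, y, hxy, rfl, c, hc⟩
  exact ⟨W.base.gen _ _ h1, _, h1⟩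

/-- the degree of the multisection -/
def TS.sm : ℕ := W.exists_ms.choose

/-- the multisection -/
def TS.ms : MSec W.E.L W.hom W.sm := W.exists_ms.choose_spec.choose

theorem TS.sm_pos : 0 < W.sm := W.exists_ms.choose_spec.choose_spec.1

theorem TS.sm_ne : (W.sm : ℚ) ≠ 0 := Nat.cast_ne_zero.2 W.sm_pos.ne'

theorem TS.basO_ms (i : Fin W.sm) : W.basO (W.ms.R i W.E.gpt) = W.E.gpt :=
  (W.exists_ms.choose_spec.choose_spec.2 i).1

theorem TS.phi_ms (i : Fin W.sm) : ∃ P : W.E.Ec.Point, IsPhi W.G W.H P (W.ms.R i W.E.gpt) :=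
  (W.exists_ms.choose_spec.choose_spec.2 i).2

/-- the first point of the multisection -/
def TS.i0 : Fin W.sm := ⟨0, W.sm_pos⟩

/-- **The points of the multisection over the point `c` are mapped to `c`**, up to rational
equivalence. -/
theorem TS.bas_b (i : Fin W.sm) (c : Place k W.E.L) : Eqv c (W.bas (W.ms.b i c)) := by
  obtain ⟨V, hV⟩ := TInc.exists_above W.E.curve.dess c (IsScalarTower.toAlgHom k W.E.L (Om k))
  obtain ⟨ρ, hρ⟩ := W.ms.val V (IsScalarTower.toAlgHom k W.E.L (Om k)) c hV.symm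
  have h1 := hρ (ρ.symm i)
  rw [Equiv.apply_symm_apply] at h1
  refine W.base.val V _ _ c h1 ?_
  have h2 := W.basO_ms (ρ.symm i)
  rw [h2]
  exact hV.symm

theorem TS.clC_b (i : Fin W.sm) (c : Place k W.E.L) :
    clC W.E (W.bas (W.ms.b i c)) = clC W.E c := (clC_eqv (W.bas_b i c)).symm

omit [IsAlgClosed k] [CharZero k] in
/-- the image of a point over `Om k` under an automorphism is its conjugate -/
theorem isConj_gm (g : Gal k) (x : W.PtO) :
    IsConj g x (gm W.hom (g.restrictScalars k) x) := by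
  obtain ⟨c, -, hc⟩ := map_rep ((g.restrictScalars k : Om k ≃ₐ[k] Om k) : Om k →ₐ[k] Om k) W.hom x
  exact ⟨c, hc⟩

/-- the class of the multisection over the point `c` of the base curve, of degree one -/
def delP (c : Place k W.E.L) : V1 W := (W.sm : ℚ)⁻¹ • ∑ i, clS W (W.ms.b i c)

/-- the multisection over the point `c` of the base curve, of degree one -/
def secC (c : Place k W.E.L) : W.Pt →₀ ℚ := ∑ i, Finsupp.single (W.ms.b i c) (W.sm : ℚ)⁻¹

theorem mkS_secC (c : Place k W.E.L) : mkS W (secC W c) = delP W c := by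
  rw [secC, map_sum, delP, Finset.smul_sum]
  exact Finset.sum_congr rfl fun i _ => by rw [mkS, Finsupp.linearCombination_single]

theorem sum_secC (c : Place k W.E.L) : ((secC W c).sum fun _ e => e) = 1 := by
  have h1 : ∀ x : W.Pt →₀ ℚ, (x.sum fun _ e => e) =
      Finsupp.linearCombination ℚ (fun _ : W.Pt => (1 : ℚ)) x := fun x => by
    rw [Finsupp.linearCombination_apply]
    exact Finsupp.sum_congr fun _ _ => by rw [smul_eq_mul, mul_one]
  rw [h1, secC, map_sum, Finset.sum_congr rfl fun i _ => Finsupp.linearCombination_single ℚ _ _,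
    Finset.sum_const, Finset.card_univ, Fintype.card_fin, smul_eq_mul, mul_one, nsmul_eq_mul,
    mul_inv_cancel₀ W.sm_ne]

/-- the image of the multisection over `c` in the base curve -/
theorem lc_secC (c : Place k W.E.L) :
    Finsupp.linearCombination ℚ (fun z => clC W.E (W.bas z)) (secC W c) = clC W.E c := by
  rw [secC, map_sum, Finset.sum_congr rfl fun i _ => by
    rw [Finsupp.linearCombination_single, W.clC_b], Finset.sum_const, Finset.card_univ,
    Fintype.card_fin, ← Nat.cast_smul_eq_nsmul ℚ, smul_smul, mul_inv_cancel₀ W.sm_ne, one_smul]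

end Pool.Agent.QTC
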