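import Pool.Agent.QTC.Sec
import Pool.Agent.QTC.Glue

/-!
# Replacing points of the base curves by multisections

The class of a point `(c, z)` of the product of the base curves and of the surfaces is mapped to the
exterior product of the classes of the points `z j`, `j ∈ S`, and of the classes of the multisections
over the points `c j`, `j ∉ S`.
-/

set_option autoImplicit false

noncomputable section

namespace Pool.Agent.QTC

open Pool.Agent.ZCyc Pool.Agent.GT Pool.Agent.WFC
open Pool.Agent.VFP (Om tt)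
open Pool.Agent.EFC (BaseValue)
open scoped Classical

variable {k : Type} [Field k] {m l : ℕ}

/-- families with an arbitrary finite set of indices -/
theorem mem_famI {X : Fin m → WC k} {Z : Fin l → TS k} {I : Type} [Fintype I]
    (P : I → Fin m → WFC.PtO k) (Q : I → ∀ j, (Z j).PtO) (c c' : k) (v v' : Place k (Om k))
    (p p' : I → PtM m Z) (hP : ∀ a, OnPO X (P a))
    (hg : ∀ g : Om k ≃ₐ[RatFunc k] Om k, ∃ e : Equiv.Perm I, ∀ a,
      (∀ i, P (e a) i = (P a i).map (g.restrictScalars k)) ∧ ∀ j, IsConj g (Q a j) (Q (e a) j))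
    (hv : v.Vanishes (tt k - algebraMap k (Om k) c))
    (hv' : v'.Vanishes (tt k - algebraMap k (Om k) c'))
    (hp : ∀ a, OnP X (p a).1 ∧ IsValM v (P a) (Q a) (p a))
    (hp' : ∀ a, OnP X (p' a).1 ∧ IsValM v' (P a) (Q a) (p' a)) :
    ∑ a, (Finsupp.single (p a) (1 : ℚ) - Finsupp.single (p' a) 1) ∈ ratEq X Z := by
  let e : I ≃ Fin (Fintype.card I) := Fintype.equivFin I
  refine mem_fam ⟨Fintype.card I, fun a => P (e.symm a), fun a => Q (e.symm a), c, c', v, v',
    fun a => p (e.symm a), fun a => p' (e.symm a), fun a => hP _, fun g => ?_, hv, hv',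
    fun a => hp _, fun a => hp' _, ?_⟩
  · obtain ⟨ρ, hρ⟩ := hg g
    refine ⟨(e.symm.trans ρ).trans e, fun a => ?_⟩
    have h1 := hρ (e.symm a)
    simp only [Equiv.trans_apply, Equiv.symm_apply_apply]
    exact h1
  · exact (e.symm.sum_comp fun a =>
      (Finsupp.single (p a) (1 : ℚ) - Finsupp.single (p' a) 1 : PtM m Z →₀ ℚ)).symm

/-- the group of the base curve is trivial -/
theorem plc_act {E : EL k} {p p' : WFC.Pt k} (h : p.1 = E.cur)
    (hg : ∃ g : El p.1.G, p' = ⟨p.1, p.2.act g⟩) : plc E p' = plc E p := by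
  obtain ⟨X, w⟩ := p
  simp only at h
  subst h
  obtain ⟨g, rfl⟩ := hg
  have h1 : ∀ w' : Crd E.cur, plc E ⟨E.cur, w'⟩ = w'.c := fun _ => dif_pos rfl
  have h2 : g.1 = 1 := Subgroup.mem_bot.1 g.2
  rw [h1, h1]
  change w.c.map g.1 = w.c
  rw [h2, pmap_one]

variable [IsAlgClosed k] [CharZero k] {Z : Fin l → TS k}

variable (Z) in
/-- the value at a point -/
def secF (S : Finset (Fin l)) (p : PtM l Z) : VT Z :=
  mulT Z fun j => if j ∈ S then clS (Z j) (p.2 j) else delP (Z j) (plc (Z j).E (p.1 j))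

/-- the point with the index `i` -/
def secPt (S : Finset (Fin l)) (c : ∀ j, Place k (Z j).E.L) (z : ∀ j, (Z j).Pt)
    (i : ∀ j, Fin (Z j).sm) (j : Fin l) : (Z j).Pt :=
  if j ∈ S then z j else (Z j).ms.b (i j) (c j)

theorem secF_eq (S : Finset (Fin l)) (p : PtM l Z) : secF Z S p =
    (∏ j, ((Z j).sm : ℚ)⁻¹) • ∑ i : ∀ j, Fin (Z j).sm,
      clT Z (secPt S (fun j => plc (Z j).E (p.1 j)) p.2 i) := by
  have h1 : (fun j => if j ∈ S then clS (Z j) (p.2 j) else delP (Z j) (plc (Z j).E (p.1 j))) =
      fun j => ((Z j).sm : ℚ)⁻¹ • ∑ i : Fin (Z j).sm, clS (Z j)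
        (if j ∈ S then p.2 j else (Z j).ms.b i (plc (Z j).E (p.1 j))) := by
    funext j
    split_ifs with hj
    · rw [Finset.sum_const, Finset.card_univ, Fintype.card_fin, ← Nat.cast_smul_eq_nsmul ℚ,
        smul_smul, inv_mul_cancel₀ (Z j).sm_ne, one_smul]
    · rfl
  rw [secF, h1, (mulT Z).map_smul_univ, (mulT Z).map_sum]
  congr 1
  exact Finset.sum_congr rfl fun i _ => mulT_cl _

variable (Z) in
/-- **Replacing points of the base curves by multisections** respects rational equivalence. -/
theorem secF_ratEq (S : Finset (Fin l)) : ratEq (curs Z) Z ≤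
    LinearMap.ker (Finsupp.linearCombination ℚ (secF Z S)) := by
  refine ratEq_le ?_ ?_
  · rintro _ ⟨n, P, Q, c, c', v, v', p, p', hP, hg, hv, hv', hp, hp', rfl⟩
    rw [LinearMap.mem_ker, map_sum]
    have h1 : ∀ a, Finsupp.linearCombination ℚ (secF Z S)
        (Finsupp.single (p a) 1 - Finsupp.single (p' a) 1) = (∏ j, ((Z j).sm : ℚ)⁻¹) •
          ∑ i : ∀ j, Fin (Z j).sm,
            (clT Z (secPt S (fun j => plc (Z j).E ((p a).1 j)) (p a).2 i) -
              clT Z (secPt S (fun j => plc (Z j).E ((p' a).1 j)) (p' a).2 i)) := fun a => by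
      rw [map_sub, Finsupp.linearCombination_single, Finsupp.linearCombination_single, one_smul,
        one_smul, secF_eq, secF_eq, ← smul_sub, Finset.sum_sub_distrib]
    rw [Finset.sum_congr rfl fun a _ => h1 a, ← Finset.smul_sum]
    -- the points over `Om k`
    let s : Fin n → ∀ j, ((Z j).E.L →ₐ[k] Om k) ⊕ Place k (Z j).E.L :=
      fun a j => plO (Z j).E (P a j)
    have hs : ∀ a j, P a j = (Z j).E.ptO (s a j) := fun a j => (ptO_plO (hP a j).1).symm
    have hpl : ∀ (V : Place k (Om k)) (q : PtM l Z) a, OnP (curs Z) q.1 →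
        IsValM V (P a) (Q a) q →
        ∀ j, BaseValue V (s a j) (plc (Z j).E (q.1 j)) := by
      intro V q a h1 h2 j
      have h3 := h2.1 j
      rw [hs, ← pt_plc (h1 j).1] at h3
      exact isVal_pt.1 h3
    -- the values
    choose ρ hρ using fun a => val_sec (fun j => (Z j).ms) (hpl v (p a) a (hp a).1 (hp a).2)
    choose ρ' hρ' using fun a => val_sec (fun j => (Z j).ms) (hpl v' (p' a) a (hp' a).1 (hp' a).2)
    have h2 := mem_famI (X := e0 k) (Z := Z) (I := Fin n × ∀ j, Fin (Z j).sm) (fun _ => Fin.elim0)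
      (fun x j => if j ∈ S then Q x.1 j else (Z j).ms.R (x.2 j) (s x.1 j)) c c' v v'
      (fun x => (p0 k, secPt S (fun j => plc (Z j).E ((p x.1).1 j)) (p x.1).2 (ρ x.1 x.2)))
      (fun x => (p0 k, secPt S (fun j => plc (Z j).E ((p' x.1).1 j)) (p' x.1).2 (ρ' x.1 x.2)))
      (fun _ i => i.elim0) (fun g => ?_) hv hv' (fun x => ⟨fun i => i.elim0, fun i => i.elim0,
        fun j => ?_⟩) (fun x => ⟨fun i => i.elim0, fun i => i.elim0, fun j => ?_⟩)
    · have h3 : ∀ (q : ∀ j, (Z j).Pt), (ratEq (e0 k) Z).mkQ (Finsupp.single (p0 k, q) 1) =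
          clT Z q := fun q => rfl
      rw [← Submodule.Quotient.mk_eq_zero, ← Submodule.mkQ_apply, map_sum,
        Fintype.sum_prod_type] at h2
      simp only [map_sub, h3] at h2
      suffices hz : ∑ a, ∑ i : ∀ j, Fin (Z j).sm,
            (clT Z (secPt S (fun j => plc (Z j).E ((p a).1 j)) (p a).2 i) -
              clT Z (secPt S (fun j => plc (Z j).E ((p' a).1 j)) (p' a).2 i)) = 0 by
        rw [hz, smul_zero]
      rw [← h2]
      refine Finset.sum_congr rfl fun a _ => ?_
      rw [Finset.sum_sub_distrib, Finset.sum_sub_distrib]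
      congr 1
      · exact (Equiv.sum_comp (ρ a) fun i =>
          clT Z (secPt S (fun j => plc (Z j).E ((p a).1 j)) (p a).2 i)).symm
      · exact (Equiv.sum_comp (ρ' a) fun i =>
          clT Z (secPt S (fun j => plc (Z j).E ((p' a).1 j)) (p' a).2 i)).symm
    · obtain ⟨e, he⟩ := hg g
      obtain ⟨e', h3, h4⟩ := fam_sec (fun j => (Z j).ms) (g.restrictScalars k) s e fun a j => by
        have h5 := (he a).1 j
        rw [hs, hs, ptO_map] at h5
        have h6 := congrArg (plO (Z j).E) h5
        rwa [plO_ptO, plO_ptO] at h6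
      refine ⟨e', fun x => ⟨fun i => i.elim0, fun j => ?_⟩⟩
      split_ifs with hj
      · rw [h3]
        exact (he x.1).2 j
      · rw [h4]
        exact isConj_gm (Z j) g _
    · change GT.IsVal v (if j ∈ S then Q x.1 j else _) (secPt S _ _ _ j)
      unfold secPt
      split_ifs with hj
      · exact (hp x.1).2.2 j
      · exact hρ x.1 x.2 j
    · change GT.IsVal v' (if j ∈ S then Q x.1 j else _) (secPt S _ _ _ j)
      unfold secPt
      split_ifs with hj
      · exact (hp' x.1).2.2 j
      · exact hρ' x.1 x.2 j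
  · rintro _ ⟨p, p', hp, hact, h2, rfl⟩
    rw [LinearMap.mem_ker, map_sub, Finsupp.linearCombination_single,
      Finsupp.linearCombination_single, one_smul, one_smul, sub_eq_zero]
    unfold secF
    congr 1
    funext j
    rw [h2]
    rw [plc_act (hp j).1 (hact j)]

variable (Z) in
/-- the map to the classes on the product of the surfaces -/
def secM (S : Finset (Fin l)) : V (curs Z) Z →ₗ[ℚ] VT Z :=
  (ratEq (curs Z) Z).liftQ (Finsupp.linearCombination ℚ (secF Z S)) (secF_ratEq Z S)

theorem secM_cl (S : Finset (Fin l)) (p : PtM l Z) : secM Z S (cl (curs Z) Z p) = secF Z S p := by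
  unfold secM cl
  rw [Submodule.liftQ_apply, Finsupp.linearCombination_single, one_smul]

variable (Z) in
/-- **Combination** of classes on the product of the base curves and of classes on the product of
the surfaces: the classes on the factors with numbers in `S` are those on the surfaces, the classes
on the other factors are multisections. -/
def cmb (S : Finset (Fin l)) : VP (curs Z) →ₗ[ℚ] VT Z →ₗ[ℚ] VT Z :=
  (times (curs Z) Z).compr₂ (secM Z S)

theorem cmb_cl (S : Finset (Fin l)) (c : ∀ j, Place k (Z j).E.L) (z : ∀ j, (Z j).Pt) :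
    cmb Z S (clP (curs Z) (ptsC Z c)) (clT Z z) =
      mulT Z fun j => if j ∈ S then clS (Z j) (z j) else delP (Z j) (c j) := by
  rw [cmb, LinearMap.compr₂_apply, times_cl (onP_ptsC c), secM_cl, secF]
  congr 1
  funext j
  change (if j ∈ S then clS (Z j) (z j) else delP (Z j) (plc (Z j).E ((Z j).E.pt (c j)))) = _
  rw [plc_pt]

end Pool.Agent.QTC
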