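import Pool.Agent.QTC.Defs

/-!
# The statement
-/

set_option autoImplicit false

namespace Pool.Agent.QTC

/-- There is exactly one Bloch-Beilinson filtration; it is already unique without the properties of
`F¹` and `F²`. -/
def Stmt (k : Type) [Field k] : Prop :=
  ∃ Φ : Filtration k, IsBB Φ ∧ ∀ Ψ : Filtration k, Conds Ψ → Ψ = Φ

end Pool.Agent.QTC
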