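import Pool.Agent.QTC.AutL

/-!
# The Galois group of `Om k` over `L` acts transitively on the places above a place of `L`
-/

set_option autoImplicit false

noncomputable section

namespace Pool.Agent.QTC

open Pool.Agent.ZCyc Pool.Agent.Dess
open Pool.Agent.VFP (Om tt)
open scoped Classical

variable {k L : Type} [Field k] [Field L] [Algebra k L]

/-- a finite extension of the function field of a curve is the function field of a curve -/
theorem curve_ext (hL : IsCurve k L) {M : Type} [Field M] [Algebra k M] [Algebra L M]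
    [IsScalarTower k L M] [FiniteDimensional L M] : IsCurve k M := by
  obtain ⟨t, ht, hfin⟩ := hL
  refine ⟨algebraMap L M t, (transcendental_algebraMap_iff (algebraMap L M).injective).2 ht, ?_⟩
  set K₀ := IntermediateField.adjoin k {t}
  set K₁ := IntermediateField.adjoin k {algebraMap L M t} with hK₁
  have hle : ∀ x : L, x ∈ K₀ → algebraMap L M x ∈ K₁ := by
    intro x hx
    have h1 : K₀.map (IsScalarTower.toAlgHom k L M) = K₁ := by
      rw [IntermediateField.adjoin_map, Set.image_singleton]
      rfl
    rw [← h1]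
    exact ⟨x, hx, rfl⟩
  have h2 : FiniteDimensional K₀ M := FiniteDimensional.trans K₀ L M
  obtain ⟨S, hS⟩ := h2.fg_top
  refine ⟨⟨S, ?_⟩⟩
  rw [eq_top_iff]
  intro x _
  have hx : x ∈ Submodule.span K₀ (S : Set M) := by
    rw [hS]
    exact Submodule.mem_top
  induction hx using Submodule.span_induction with
  | mem y hy => exact Submodule.subset_span hy
  | zero => exact zero_mem _
  | add y z _ _ hy hz => exact add_mem (hy trivial) (hz trivial)
  | smul a y _ hy =>
    have h3 : a • y = (⟨algebraMap L M a.1, hle a.1 a.2⟩ : K₁) • y := by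
      rw [IntermediateField.smul_def, IntermediateField.smul_def]
      change (a : L) • y = algebraMap L M a.1 • y
      rw [Algebra.smul_def, smul_eq_mul]
    rw [h3]
    exact Submodule.smul_mem _ _ (hy trivial)

variable [IsAlgClosed k] [CharZero k] [Algebra L (Om k)] [IsScalarTower k L (Om k)]
  [Algebra.IsAlgebraic L (Om k)]

/-- **Places of `Om k` above the same place of `L` are conjugate** on a finite extension `F` of
`L`. -/
theorem exists_trans (hL : IsCurve k L) (F : IntermediateField L (Om k))
    [FiniteDimensional L F] (V V' : Place k (Om k))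
    (h : ∀ f : L, algebraMap L (Om k) f ∈ V.ring ↔ algebraMap L (Om k) f ∈ V'.ring) :
    ∃ τ : Om k ≃ₐ[L] Om k, ∀ f ∈ F, f ∈ V.ring ↔ τ f ∈ V'.ring := by
  have hcl : IsAlgClosure L (Om k) := ⟨inferInstance, inferInstance⟩
  have hnorm : Normal L (Om k) := inferInstance
  have hc0 : CharZero L := charZero_of_injective_algebraMap (algebraMap k L).injective
  set N : IntermediateField L (Om k) := IntermediateField.normalClosure L F (Om k) with hN
  have hFN : F ≤ N := IntermediateField.le_normalClosure F
  have i1 : FiniteDimensional L N := inferInstance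
  have i2 : Normal L N := inferInstance
  have hNc : IsCurve k N := curve_ext hL
  let ι : N →ₐ[k] Om k := N.val.restrictScalars k
  obtain ⟨v, hv⟩ := TInc.exists_below hNc V ι
  obtain ⟨w, hw⟩ := TInc.exists_below hNc V' ι
  have hv' : ∀ f : N, f ∈ v.ring ↔ (f : Om k) ∈ V.ring := fun f => by
    rw [← hv, ValuationSubring.mem_comap]
    rfl
  have hw' : ∀ f : N, f ∈ w.ring ↔ (f : Om k) ∈ V'.ring := fun f => by
    rw [← hw, ValuationSubring.mem_comap]
    rfl
  let E : IntermediateField k N := (IsScalarTower.toAlgHom k L N).fieldRange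
  have hE : ∀ x : E, ∃ f : L, algebraMap L N f = x := fun x => x.2
  -- `N` over `E`
  have i3 : FiniteDimensional E N := by
    obtain ⟨S, hS⟩ := i1.fg_top
    refine ⟨⟨S, ?_⟩⟩
    rw [eq_top_iff]
    intro x _
    have hx : x ∈ Submodule.span L (S : Set N) := by
      rw [hS]
      exact Submodule.mem_top
    induction hx using Submodule.span_induction with
    | mem y hy => exact Submodule.subset_span hy
    | zero => exact zero_mem _
    | add y z _ _ hy hz => exact add_mem (hy trivial) (hz trivial)
    | smul a y _ hy =>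
      have h3 : a • y = (⟨algebraMap L N a, a, rfl⟩ : E) • y := by
        rw [IntermediateField.smul_def, smul_eq_mul, Algebra.smul_def]
      rw [h3]
      exact Submodule.smul_mem _ _ (hy trivial)
  have i4 : IsGalois E N := by
    have h5 : IsGalois L N := ⟨⟩
    refine IsGalois.of_fixedField_eq_bot E N ?_
    rw [eq_bot_iff]
    intro x hx
    rw [IntermediateField.mem_bot]
    have h6 : x ∈ (⊥ : IntermediateField L N) := by
      rw [← IsGalois.fixedField_top (F := L) (E := N)]
      rintro ⟨σ, hσ⟩
      let σ' : N ≃ₐ[E] N := AlgEquiv.ofRingEquiv (f := (σ : N ≃+* N)) fun y => by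
        obtain ⟨f, hf⟩ := hE y
        change σ (y : N) = y
        rw [← hf]
        exact σ.commutes f
      exact hx ⟨σ', trivial⟩
    rw [IntermediateField.mem_bot] at h6
    obtain ⟨f, rfl⟩ := h6
    exact ⟨⟨algebraMap L N f, f, rfl⟩, rfl⟩
  obtain ⟨g, hg, hgv⟩ := galois_trans hNc E v w fun f hf => by
    obtain ⟨a, rfl⟩ := hf
    change algebraMap L N a ∈ v.ring ↔ algebraMap L N a ∈ w.ring
    rw [hv', hw']
    exact h a
  let g' : N ≃ₐ[L] N := AlgEquiv.ofRingEquiv (f := (g : N ≃+* N)) fun a =>
    hg _ ⟨a, rfl⟩
  refine ⟨AlgEquiv.liftNormal g' (Om k), fun f hf => ?_⟩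
  have h7 : AlgEquiv.liftNormal g' (Om k) f = ((g ⟨f, hFN hf⟩ : N) : Om k) :=
    AlgEquiv.liftNormal_commutes g' (Om k) (⟨f, hFN hf⟩ : N)
  rw [h7, ← hw', ← hgv, Place.mem_map, AlgEquiv.symm_apply_apply, hv']

end Pool.Agent.QTC
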