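import Pool.Agent.QTC.Supp
import Pool.Agent.GT.Val
import Pool.Agent.WFC.FPt
import Pool.Agent.BBU.Z0
import Pool.Agent.BBU.Abs

/-!
# Projectors in the algebra of the correspondences

For every factor of a product there is a finite set of orthogonal idempotents with the sum `1`,
which are combinations of a constant map and of fibrewise multiplications by `1`, `-1`, `0` in the
blocks, respectively of a constant map, of a correspondence `E j` (the intersection of the fibre
with a multisection) and of the identity. We consider the products `ga κ` of such idempotents.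
-/

set_option autoImplicit false

noncomputable section

namespace Pool.Agent.QTC

open Pool.Agent.ZCyc Pool.Agent.WFC Pool.Agent.BBU
open Pool.Agent.VFP (Om tt)
open scoped Classical

variable {k : Type} [Field k] {m l : ℕ}

/-! ### The monoids -/

/-- the continuation by `1` -/
def exS {r : ℕ} (ε : Fin r → SignType) (b : ℕ) : SignType := if h : b < r then ε ⟨b, h⟩ else 1

theorem exS_mul {r : ℕ} (ε ε' : Fin r → SignType) (b : ℕ) :
    exS (ε * ε') b = exS ε b * exS ε' b := by
  unfold exS
  by_cases h : b < r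
  · rw [dif_pos h, dif_pos h, dif_pos h, Pi.mul_apply]
  · rw [dif_neg h, dif_neg h, dif_neg h, one_mul]

theorem exS_one {r : ℕ} (b : ℕ) : exS (1 : Fin r → SignType) b = 1 := by
  unfold exS
  by_cases h : b < r
  · rw [dif_pos h, Pi.one_apply]
  · rw [dif_neg h]

theorem exS_fin {r : ℕ} (ε : Fin r → SignType) (b : Fin r) : exS ε b = ε b := by
  unfold exS
  rw [dif_pos b.2]

/-- the finite monoids -/
def NN (X : Fin m → WC k) (l : ℕ) : Fin m ⊕ Fin l → Type
  | .inl j => Fin (X j).r → SignType
  | .inr _ => Z0 Unit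

instance (X : Fin m → WC k) (a : Fin m ⊕ Fin l) : Fintype (NN X l a) := match a with
  | .inl j => inferInstanceAs (Fintype (Fin (X j).r → SignType))
  | .inr _ => inferInstanceAs (Fintype (Z0 Unit))

instance (X : Fin m → WC k) (a : Fin m ⊕ Fin l) : Mul (NN X l a) := match a with
  | .inl j => inferInstanceAs (Mul (Fin (X j).r → SignType))
  | .inr _ => inferInstanceAs (Mul (Z0 Unit))

instance (X : Fin m → WC k) (a : Fin m ⊕ Fin l) : One (NN X l a) := match a with
  | .inl j => inferInstanceAs (One (Fin (X j).r → SignType))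
  | .inr _ => inferInstanceAs (One (Z0 Unit))

/-- the labels -/
def LL (X : Fin m → WC k) (l : ℕ) : Fin m ⊕ Fin l → Type
  | .inl j => Fin (X j).r → Fin 3
  | .inr _ => Option Unit

instance (X : Fin m → WC k) (a : Fin m ⊕ Fin l) : Fintype (LL X l a) := match a with
  | .inl j => inferInstanceAs (Fintype (Fin (X j).r → Fin 3))
  | .inr _ => inferInstanceAs (Fintype (Option Unit))

/-- the coefficients for the surfaces -/
def qT : Option Unit → Z0 Unit → ℚ := cfZ fun _ _ => 1

theorem qT_conv (lam : Option Unit) : Conv (qT lam) := by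
  refine cfZ_conv _ (fun _ s => ?_) lam
  simp

theorem qT_sum (x : Z0 Unit) : ∑ lam, qT lam x = if x = 1 then 1 else 0 := by
  refine cfZ_sum _ (fun x => ?_) x
  rw [if_pos (Subsingleton.elim _ _)]
  simp

/-- the coefficients -/
def qq (X : Fin m → WC k) (l : ℕ) : (a : Fin m ⊕ Fin l) → LL X l a → NN X l a → ℚ
  | .inl j => fun (lam : Fin (X j).r → Fin 3) (ε : Fin (X j).r → SignType) =>
      ∏ b, cfS (lam b) (ε b)
  | .inr _ => qT

theorem qq_conv (X : Fin m → WC k) (l : ℕ) : ∀ (a : Fin m ⊕ Fin l) (lam : LL X l a),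
    Conv (qq X l a lam)
  | .inl j, (lam : Fin (X j).r → Fin 3) =>
      conv_prod (fun b => cfS (lam b)) fun b => cfS_conv (lam b)
  | .inr _, lam => qT_conv lam

theorem qq_sum (X : Fin m → WC k) (l : ℕ) : ∀ (a : Fin m ⊕ Fin l) (x : NN X l a),
    ∑ lam, qq X l a lam x = if x = 1 then 1 else 0
  | .inl j, (ε : Fin (X j).r → SignType) => by
      have h3 : ∑ lam, qq X l (.inl j) lam ε =
        ∑ lam : Fin (X j).r → Fin 3, ∏ b, cfS (lam b) (ε b) := rfl
      rw [h3]
      have h1 := Finset.prod_univ_sum (fun _ : Fin (X j).r => (Finset.univ : Finset (Fin 3)))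
        (fun b x => cfS x (ε b))
      rw [Fintype.piFinset_univ] at h1
      rw [← h1, Finset.prod_congr rfl fun b _ => cfS_sum (ε b)]
      split_ifs with h2
      · rw [h2]
        exact Finset.prod_eq_one fun b _ => if_pos rfl
      · obtain ⟨b, hb⟩ : ∃ b, ε b ≠ 1 := by
          by_contra hcon
          push Not at hcon
          exact h2 (funext hcon)
        exact Finset.prod_eq_zero (Finset.mem_univ b) (if_neg hb)
  | .inr _, x => qT_sum x

/-! ### The identity of a surface -/

/-- the identity -/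
def idT (Z : TS k) : TCor Z Z where
  U := fun x => Finsupp.single x 1
  u := fun z => Finsupp.single z 1
  n := 1
  e := fun _ => 1
  p := fun _ => 1
  q := 1
  same := rfl
  pos := Nat.one_pos
  gen := by
    refine ⟨fun _ => 0, ∅, Set.finite_empty, fun P _ R hR => ⟨fun _ => R, fun _ => ?_, ?_⟩⟩
    · rw [one_smul] at hR
      rw [one_smul, add_zero]
      exact hR
    · unfold comb
      rw [Fin.sum_univ_one]
  conj := by
    intro g x x' R R' hx hR
    have h1 : ∀ {y y' w w' : Z.PtO}, Cj g y y' → Cj g w w' → y = w → y' = w' := by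
      rintro y y' w w' ⟨c, hc⟩ ⟨d, hd⟩ rfl
      apply Subtype.ext
      rw [← Projectivization.mk_rep y'.1, ← Projectivization.mk_rep w'.1,
        Projectivization.mk_eq_mk_iff']
      have hd0 : d ≠ 0 := by
        rintro rfl
        apply w'.1.rep_nonzero
        funext i
        exact (hd i).trans (zero_mul _)
      refine ⟨c * d⁻¹, funext fun i => ?_⟩
      change c * d⁻¹ * w'.1.rep i = y'.1.rep i
      have h2 : w'.1.rep i = d * g (y.1.rep i) := hd i
      have h3 : y'.1.rep i = c * g (y.1.rep i) := hc i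
      rw [h2, h3]
      field_simp
    have h2 : ∀ {y y' w w' : Z.PtO}, Cj g y y' → Cj g w w' → y' = w' → y = w := by
      rintro y y' w w' ⟨c, hc⟩ ⟨d, hd⟩ rfl
      apply Subtype.ext
      rw [← Projectivization.mk_rep y.1, ← Projectivization.mk_rep w.1,
        Projectivization.mk_eq_mk_iff']
      have hc0 : c ≠ 0 := by
        rintro rfl
        apply y'.1.rep_nonzero
        funext i
        exact (hc i).trans (zero_mul _)
      refine ⟨g.symm (c⁻¹ * d), funext fun i => ?_⟩
      change g.symm (c⁻¹ * d) * w.1.rep i = y.1.rep i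
      have h2 : y'.1.rep i = c * g (y.1.rep i) := hc i
      have h3 : y'.1.rep i = d * g (w.1.rep i) := hd i
      apply g.injective
      rw [map_mul, g.apply_symm_apply, mul_assoc, ← h3, h2, ← mul_assoc, inv_mul_cancel₀ hc0,
        one_mul]
    by_cases h : x = R
    · rw [h1 hx hR h, h, Finsupp.single_eq_same, Finsupp.single_eq_same]
    · rw [Finsupp.single_eq_of_ne fun h3 => h (h2 hR hx h3).symm,
        Finsupp.single_eq_of_ne fun h3 => h h3.symm]
  val := by
    intro v x z sp h hsp
    rw [Finsupp.mapDomain_single]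
    have h1 : sp x = z := GT.isVal_unique (hsp x) h
    rw [h1]
    unfold Equivalent
    change Finsupp.mapDomain _ (_ - _) ∈ _
    rw [sub_self, Finsupp.mapDomain_zero]
    exact zero_mem _

theorem idT_d (Z : TS k) : (idT Z).d = 1 := by
  unfold TCor.d idT
  exact Fin.sum_univ_one _

theorem idT_top (Z : TS k) : (idT Z).top = 1 := by
  unfold TCor.top idT
  rw [Fin.sum_univ_one]
  simp

/-! ### The morphisms -/

variable {X : Fin m → WC k} {Z : Fin l → TS k}

/-- the first part -/
def elX (X : Fin m → WC k) (t : ∀ a, Z0 (NN X l a)) : Mor X X := fun j =>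
  Option.elim (show Option (Fin (X j).r → SignType) from t (.inl j))
    (Comp.const (X j).oo (on_oo (X j))) fun ε => Comp.fac j rfl (exS ε)

/-- the second part -/
def elT (w : ∀ j, (Z j).Pt) (E : ∀ j, TCor (Z j) (Z j)) (t : ∀ a, Z0 (NN X l a)) : MorT Z Z :=
  fun j => Option.elim (show Option (Option Unit) from t (.inr j)) (CompT.const (w j)) fun x =>
    CompT.fac j (Option.elim x (E j) fun _ => idT (Z j))

/-- the correspondence -/
def el (w : ∀ j, (Z j).Pt) (E : ∀ j, TCor (Z j) (Z j)) (t : ∀ a, Z0 (NN X l a)) :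
    MorM X Z X Z := (elX X t, elT w E t)

theorem elX_z {t : ∀ a, Z0 (NN X l a)} {j : Fin m} (h : t (.inl j) = Z0.z) :
    elX X t j = Comp.const (X j).oo (on_oo (X j)) := by
  unfold elX
  rw [h]
  rfl

theorem elX_s {t : ∀ a, Z0 (NN X l a)} {j : Fin m} {ε : Fin (X j).r → SignType}
    (h : t (.inl j) = Z0.s (M := NN X l (.inl j)) ε) : elX X t j = Comp.fac j rfl (exS ε) := by
  unfold elX
  rw [h]
  rfl

section

variable {w : ∀ j, (Z j).Pt} {E : ∀ j, TCor (Z j) (Z j)} {t : ∀ a, Z0 (NN X l a)} {j : Fin l}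

theorem elT_z (h : t (.inr j) = Z0.z) : elT w E t j = CompT.const (w j) := by
  unfold elT
  rw [h]
  rfl

theorem elT_e (h : t (.inr j) = Z0.s (M := NN X l (.inr j)) (Z0.z : Z0 Unit)) :
    elT w E t j = CompT.fac j (E j) := by
  unfold elT
  rw [h]
  rfl

theorem elT_s {x : Unit} (h : t (.inr j) = Z0.s (M := NN X l (.inr j)) (Z0.s x : Z0 Unit)) :
    elT w E t j = CompT.fac j (idT (Z j)) := by
  unfold elT
  rw [h]
  rfl

end

/-- a point is given by its variety and its coordinates -/
private theorem pt_mul (ε ε' : ℕ → SignType) (p : WFC.Pt k) :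
    (p.mul ε').mul ε = p.mul fun b => ε b * ε' b :=
  congrArg (Sigma.mk p.1) (crd_mul_mul ε ε' p.2)

theorem elX_mul (t t' : ∀ a, Z0 (NN X l a)) (x : Pts m k) :
    Mor.app (elX X (t * t')) x = Mor.app (elX X t) (Mor.app (elX X t') x) := by
  funext j
  unfold Mor.app
  rcases (t (.inl j)).cases' with h | ⟨ε, h⟩
  · have h1 : (t * t') (.inl j) = Z0.z := by
      rw [Pi.mul_apply, h, Z0.z_mul]
    rw [elX_z h1, elX_z h]
    rfl
  · rcases (t' (.inl j)).cases' with h' | ⟨ε', h'⟩
    · have h1 : (t * t') (.inl j) = Z0.z := by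
        rw [Pi.mul_apply, h, h', Z0.s_mul_z]
      rw [elX_z h1, elX_s (ε := ε) h]
      change (⟨X j, (X j).oo⟩ : WFC.Pt k) = ((elX X t' j).app x).mul (exS (r := (X j).r) ε)
      rw [elX_z h']
      exact congrArg (Sigma.mk (X j)) (oo_mul (X j) _).symm
    · have h1 : (t * t') (.inl j) = Z0.s (ε * ε') := by
        rw [Pi.mul_apply, h, h', Z0.s_mul_s]
      rw [elX_s (ε := (ε * ε' : NN X l (.inl j))) h1, elX_s (ε := ε) h]
      change (x j).mul (exS (r := (X j).r) (ε * ε' : NN X l (.inl j))) =
        ((elX X t' j).app x).mul (exS (r := (X j).r) ε)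
      rw [elX_s (ε := ε') h']
      change _ = ((x j).mul (exS (r := (X j).r) ε')).mul (exS (r := (X j).r) ε)
      rw [pt_mul]
      congr 1
      funext b
      exact exS_mul (r := (X j).r) ε ε' b

theorem elX_one (x : Pts m k) : Mor.app (elX X (1 : ∀ a, Z0 (NN X l a))) x = x := by
  funext j
  unfold Mor.app
  have h1 : (1 : ∀ a, Z0 (NN X l a)) (.inl j) = Z0.s 1 := rfl
  rw [elX_s (ε := (1 : NN X l (.inl j))) h1]
  change (x j).mul (exS (r := (X j).r) 1) = x j
  have h2 : exS (1 : Fin (X j).r → SignType) = fun _ => 1 := funext fun b => exS_one b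
  rw [h2]
  exact congrArg (Sigma.mk (x j).1) (crd_mul_one (x j).2)

/-! ### The projectors -/

/-- the coefficients of the projectors -/
def cfP (X : Fin m → WC k) (l : ℕ) (κ : ∀ a, Option (LL X l a)) (t : ∀ a, Z0 (NN X l a)) : ℚ :=
  ∏ a, cfZ (qq X l a) (κ a) (t a)

/-- the projectors -/
def ga (X : Fin m → WC k) (w : ∀ j, (Z j).Pt) (E : ∀ j, TCor (Z j) (Z j))
    (κ : ∀ a, Option (LL X l a)) : MorM X Z X Z →₀ ℚ :=
  ∑ t : ∀ a, Z0 (NN X l a), Finsupp.single (el w E t) (cfP X l κ t)

theorem push_ga (w : ∀ j, (Z j).Pt) (E : ∀ j, TCor (Z j) (Z j)) (κ : ∀ a, Option (LL X l a))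
    (z : PtM m Z →₀ ℚ) : push (ga X w E κ) z =
      ∑ t : ∀ a, Z0 (NN X l a),
        cfP X l κ t • Finsupp.linearCombination ℚ (MorM.cyc (el w E t)) z := by
  rw [push_eq]
  unfold pushL ga
  rw [← Finsupp.sum_finsetSum_index (fun f => by simp) (fun f a c => by rw [add_smul]),
    LinearMap.sum_apply]
  refine Finset.sum_congr rfl fun U _ => ?_
  rw [Finsupp.sum_single_index (by simp), LinearMap.smul_apply]

end Pool.Agent.QTC
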