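import Pool.Agent.QTC.UqA

/-!
# The projectors kill the forms of all other degrees
-/

set_option autoImplicit false

noncomputable section

namespace Pool.Agent.QTC

open Pool.Agent.ZCyc Pool.Agent.WFC Pool.Agent.BBU
open Pool.Agent.VFP (Om tt)
open scoped Classical

variable {k : Type} [Field k] {m l : ℕ} {X : Fin m → WC k} {Z : Fin l → TS k}

/-! ### The pull-back by the morphisms `el w E t` -/

/-- the data agree -/
def SameX (T T' : Finset (Fin m × Option ℕ)) (a a' : Fin m → ℕ) : Prop :=
  ∀ j, fib T j = fib T' j ∧ (fib T' j ≠ ∅ → a j = a' j)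

/-- the factor in the pull-back of a form -/
def phF (T : Finset (Fin m × Option ℕ)) {Y : Fin m → WC k} (f : Mor X Y) (j : Fin m) : ℤ :=
  if fib T j = ∅ then 1 else (f j).sgn (fib T j)

/-- the pull-back by a morphism whose components are constant or the projections to the factors with
the same number -/
theorem pullCoef_diag (f : Mor X X) (hs : ∀ j i, (f j).src = some i → i = j)
    (T T' : Finset (Fin m × Option ℕ)) (a a' : Fin m → ℕ) : pullCoef f T a T' a' =
      if SameX T T' a a' then ∏ j, phF T' f j else 0 := by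
  have hk : koszul f T' = 1 := by
    unfold koszul
    refine Finset.prod_eq_one fun b _ => Finset.prod_eq_one fun b' hb' => ?_
    exfalso
    obtain ⟨-, h1, -, -, i, i', h2, h3, h4⟩ := Finset.mem_filter.1 hb'
    have h5 := hs _ _ h2
    have h6 := hs _ _ h3
    subst h5 h6
    exact absurd h1 (not_lt.2 h4.le)
  unfold pullCoef
  rw [hk, one_mul]
  by_cases hS : SameX T T' a a'
  · rw [if_pos hS]
    by_cases hc : ∀ j, fib T' j ≠ ∅ → (f j).src = some j
    · rw [if_pos]
      · rw [Finset.prod_filter]
        refine Finset.prod_congr rfl fun j _ => ?_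
        unfold phF
        by_cases hj : fib T' j = ∅
        · rw [if_neg (not_not.2 hj), if_pos hj]
        · rw [if_pos hj, if_neg hj]
      · refine ⟨fun j hj => ⟨j, hc j hj, (hS j).1, (hS j).2 hj⟩, fun i hi => ?_⟩
        rw [(hS i).1] at hi
        refine ⟨i, ⟨hi, hc i hi⟩, ?_⟩
        rintro j ⟨-, hj⟩
        exact (hs _ _ hj).symm
    · rw [if_neg]
      · push Not at hc
        obtain ⟨j, hj, hj'⟩ := hc
        symm
        refine Finset.prod_eq_zero (Finset.mem_univ j) ?_
        unfold phF
        rw [if_neg hj.ne_empty]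
        cases hf : f j with
        | const w hw => rfl
        | fac i h ε =>
          exfalso
          have h1 : (f j).src = some i := by
            rw [hf]
            rfl
          apply hj'
          rw [h1, hs _ _ h1]
      · rintro ⟨h1, -⟩
        apply hc
        intro j hj
        obtain ⟨i, hi, -, -⟩ := h1 j hj
        rw [hi, hs _ _ hi]
  · rw [if_neg hS, if_neg]
    rintro ⟨h1, h2⟩
    apply hS
    intro j
    by_cases hj : fib T' j = ∅
    · refine ⟨?_, fun h => absurd hj h⟩
      by_contra hne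
      have h3 : fib T j ≠ ∅ := by
        intro h4
        exact hne (h4.trans hj.symm)
      obtain ⟨j', ⟨h4, h5⟩, -⟩ := h2 j h3
      rw [← hs _ _ h5] at h4
      exact h4 hj
    · obtain ⟨i, hi, h3, h4⟩ := h1 j hj
      rw [hs _ _ hi] at h3 h4
      exact ⟨h3, fun _ => h4⟩

/-- the factor in the pull-back of a form: the part of the class `WC` -/
def phX (X : Fin m → WC k) (T : Finset (Fin m × Option ℕ)) (j : Fin m)
    (x : Z0 (Fin (X j).r → SignType)) : ℤ :=
  if fib T j = ∅ then 1 else
    Option.elim (show Option (Fin (X j).r → SignType) from x) 0 fun ε =>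
      ∏ b ∈ fib T j, b.elim 1 fun b => ((exS ε b : SignType) : ℤ)

theorem phX_empty {T : Finset (Fin m × Option ℕ)} {j : Fin m} (h : fib T j = ∅)
    (x : Z0 (Fin (X j).r → SignType)) : phX X T j x = 1 := if_pos h

theorem phX_z {T : Finset (Fin m × Option ℕ)} {j : Fin m} (h : fib T j ≠ ∅) :
    phX X T j Z0.z = 0 := if_neg h

theorem phX_s {T : Finset (Fin m × Option ℕ)} {j : Fin m} (h : fib T j ≠ ∅)
    (ε : Fin (X j).r → SignType) : phX X T j (Z0.s ε) =
      ∏ b ∈ fib T j, b.elim 1 fun b => ((exS ε b : SignType) : ℤ) := if_neg h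

theorem srcX_eq {t : ∀ a, Z0 (NN X l a)} {j i : Fin m} (h : (elX X t j).src = some i) :
    i = j := by
  rcases (t (.inl j)).cases' with h1 | ⟨ε, h1⟩
  · rw [elX_z h1] at h
    cases h
  · rw [elX_s (ε := ε) h1] at h
    exact (Option.some_injective _ h).symm

theorem pullCoef_el (t : ∀ a, Z0 (NN X l a)) (T T' : Finset (Fin m × Option ℕ))
    (a a' : Fin m → ℕ) : pullCoef (elX X t) T a T' a' =
      if SameX T T' a a' then ∏ j, phX X T' j (t (.inl j)) else 0 := by
  rw [pullCoef_diag _ fun j i h => srcX_eq h]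
  congr 1
  refine Finset.prod_congr rfl fun j _ => ?_
  unfold phF
  by_cases hj : fib T' j = ∅
  · rw [if_pos hj, phX_empty hj]
  · rw [if_neg hj]
    change (elX X t j).sgn (fib T' j) = _
    rcases (t (.inl j)).cases' with h1 | ⟨ε, h1⟩
    · rw [elX_z h1, h1]
      exact (phX_z hj).symm
    · rw [elX_s (ε := ε) h1, h1]
      exact (phX_s hj ε).symm

/-! ### The surfaces -/

/-- the factor in the pull-back of the forms on the base curves -/
def phB (B : Finset (Fin l × Option ℕ)) (j : Fin l) (x : Z0 (Z0 Unit)) : ℚ :=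
  if fib B j = ∅ then 1 else Option.elim (show Option (Z0 Unit) from x) 0 fun _ => 1

/-- the factor in the pull-back of the forms of highest degree -/
def phT (S : Finset (Fin l)) (j : Fin l) (x : Z0 (Z0 Unit)) : ℚ :=
  if j ∈ S then Option.elim (show Option (Z0 Unit) from x) 0 fun y =>
    Option.elim (show Option Unit from y) 0 fun _ => 1 else 1

variable {w : ∀ j, (Z j).Pt} {E : ∀ j, TCor (Z j) (Z j)} {t : ∀ a, Z0 (NN X l a)}

theorem srcT_eq {j i : Fin l} (h : (elT w E t j).src = some i) : i = j := by
  rcases (t (.inr j)).cases' with h1 | ⟨x, h1⟩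
  · rw [elT_z h1] at h
    cases h
  · rcases Z0.cases' (x : Z0 Unit) with h2 | ⟨y, h2⟩
    · subst h2
      rw [elT_e h1] at h
      exact (Option.some_injective _ h).symm
    · subst h2
      rw [elT_s h1] at h
      exact (Option.some_injective _ h).symm

/-- the forms with the label `base` -/
theorem pullB_el (B B' : Finset (Fin l × Option ℕ)) (c c' : Fin l → ℕ) :
    (pullCoef (MorT.base (elT w E t)) B c B' c' : ℚ) =
      if SameX B B' c c' then ∏ j, phB B' j (t (.inr j)) else 0 := by
  have hsrc : ∀ j i, (MorT.base (elT w E t) j).src = some i → i = j := by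
    intro j i h
    apply srcT_eq (w := w) (E := E) (t := t)
    unfold MorT.base at h
    cases hf : elT w E t j with
    | const v =>
      rw [hf] at h
      cases h
    | fac i' u =>
      rw [hf] at h
      exact h
  rw [pullCoef_diag _ hsrc]
  by_cases hS : SameX B B' c c'
  · rw [if_pos hS, if_pos hS, Int.cast_prod]
    refine Finset.prod_congr rfl fun j _ => ?_
    unfold phF phB
    by_cases hj : fib B' j = ∅
    · rw [if_pos hj, if_pos hj, Int.cast_one]
    · rw [if_neg hj, if_neg hj]
      have h3 : ∏ b ∈ fib B' j, b.elim 1 (fun _ : ℕ => ((1 : SignType) : ℤ)) = 1 := by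
        refine Finset.prod_eq_one fun b _ => ?_
        rcases b with _ | b
        · rfl
        · simp
      rcases (t (.inr j)).cases' with h1 | ⟨x, h1⟩
      · unfold MorT.base
        rw [elT_z h1, h1]
        exact Int.cast_zero
      · rcases Z0.cases' (x : Z0 Unit) with h2 | ⟨y, h2⟩
        · subst h2
          unfold MorT.base
          rw [elT_e h1, h1]
          exact (congrArg (Int.cast : ℤ → ℚ) h3).trans Int.cast_one
        · subst h2
          unfold MorT.base
          rw [elT_s h1, h1]
          exact (congrArg (Int.cast : ℤ → ℚ) h3).trans Int.cast_one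
  · rw [if_neg hS, if_neg hS, Int.cast_zero]

/-- the data agree -/
def SameT (S S' : Finset (Fin l)) (b b' : Fin l → ℕ) : Prop := S = S' ∧ ∀ j ∈ S', b j = b' j

theorem pullT_el (hd : ∀ j, (E j).d = 1) (ht : ∀ j, (E j).top = 0) (S S' : Finset (Fin l))
    (b b' : Fin l → ℕ) : pullT (elT w E t) S b S' b' =
      if SameT S S' b b' then ∏ j, phT S' j (t (.inr j)) else 0 := by
  have hd' : ∀ j, (elT w E t j).d = 1 := by
    intro j
    rcases (t (.inr j)).cases' with h1 | ⟨x, h1⟩
    · rw [elT_z h1]
      rfl
    · rcases Z0.cases' (x : Z0 Unit) with h2 | ⟨y, h2⟩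
      · subst h2
        rw [elT_e h1]
        exact hd j
      · subst h2
        rw [elT_s h1]
        exact idT_d _
  have htop : ∀ j ∈ S', (elT w E t j).top = phT S' j (t (.inr j)) := by
    intro j hj
    unfold phT
    rw [if_pos hj]
    rcases (t (.inr j)).cases' with h1 | ⟨x, h1⟩
    · rw [elT_z h1, h1]
      rfl
    · rcases Z0.cases' (x : Z0 Unit) with h2 | ⟨y, h2⟩
      · subst h2
        rw [elT_e h1, h1]
        exact ht j
      · subst h2
        rw [elT_s h1, h1]
        exact idT_top _
  have hprod : ∏ j, phT S' j (t (.inr j)) = ∏ j ∈ S', (elT w E t j).top := by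
    rw [← Finset.prod_subset (Finset.subset_univ S')]
    · exact Finset.prod_congr rfl fun j hj => (htop j hj).symm
    · intro j _ hj
      unfold phT
      rw [if_neg hj]
  unfold pullT
  rw [Finset.prod_congr rfl (fun j (_ : j ∈ S'ᶜ) => hd' j), Finset.prod_const_one, mul_one,
    hprod]
  by_cases hS : SameT S S' b b'
  · rw [if_pos hS]
    by_cases hc : ∀ j ∈ S', (elT w E t j).src = some j
    · rw [if_pos]
      refine ⟨fun j hj => ⟨j, by rw [hS.1]; exact hj, hc j hj, hS.2 j hj⟩, fun i hi => ?_⟩
      rw [hS.1] at hi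
      refine ⟨i, ⟨hi, hc i hi⟩, ?_⟩
      rintro j ⟨-, hj⟩
      exact (srcT_eq hj).symm
    · rw [if_neg]
      · push Not at hc
        obtain ⟨j, hj, hj'⟩ := hc
        symm
        refine Finset.prod_eq_zero hj ?_
        cases hf : elT w E t j with
        | const v => rfl
        | fac i u =>
          exfalso
          have h1 : (elT w E t j).src = some i := by
            rw [hf]
            rfl
          apply hj'
          rw [h1, srcT_eq h1]
      · rintro ⟨h1, -⟩
        apply hc
        intro j hj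
        obtain ⟨i, -, hi, -⟩ := h1 j hj
        rw [hi, srcT_eq hi]
  · rw [if_neg hS, if_neg]
    rintro ⟨h1, h2⟩
    apply hS
    refine ⟨?_, fun j hj => ?_⟩
    · ext j
      constructor
      · intro hj
        obtain ⟨j', ⟨h4, h5⟩, -⟩ := h2 j hj
        rw [← srcT_eq h5] at h4
        exact h4
      · intro hj
        obtain ⟨i, hi, hi', -⟩ := h1 j hj
        rw [← srcT_eq hi']
        exact hi
    · obtain ⟨i, hi, hi', h3⟩ := h1 j hj
      rw [srcT_eq hi'] at h3
      exact h3

/-! ### One factor -/

/-- the weight of a label -/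
def wtX (X : Fin m → WC k) (j : Fin m) : Option (Fin (X j).r → Fin 3) → ℕ
  | none => 0
  | some lam => (Finset.univ.filter fun i : Fin (X j).N => lam ((X j).blk i) = 2).card + 1

/-- the weight of a label -/
def wtT : Option (Option Unit) → ℕ
  | none => 0
  | some none => 1
  | some (some _) => 2

private lemma cfS_form (c : Fin 3) (p : Prop) [Decidable p] :
    ∑ x, cfS c x * (if p then ((x : SignType) : ℚ) else 1) =
      if p ∧ c = 2 ∨ ¬ p ∧ c = 0 then 1 else 0 := by
  have h1 : ∀ f : SignType → ℚ, ∑ x, f x = f 0 + f (-1) + f 1 := by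
    intro f
    have h2 : (Finset.univ : Finset SignType) = {0, -1, 1} := by decide
    rw [h2, Finset.sum_insert (by decide), Finset.sum_insert (by decide),
      Finset.sum_singleton, add_assoc]
  rw [h1]
  by_cases hp : p
  · fin_cases c <;> simp [cfS, hp]
    norm_num
  · fin_cases c <;> simp [cfS, hp] <;> norm_num

private lemma fib_iff {T : Finset (Fin m × Option ℕ)} {j : Fin m} {b : Option ℕ} :
    b ∈ fib T j ↔ (j, b) ∈ T := by
  unfold fib
  rw [Finset.mem_image]
  constructor
  · rintro ⟨⟨j', b'⟩, h, rfl⟩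
    obtain ⟨h1, h2⟩ := Finset.mem_filter.1 h
    dsimp only at h2
    rw [← h2]
    exact h1
  · intro h
    exact ⟨(j, b), Finset.mem_filter.2 ⟨h, rfl⟩, rfl⟩

/-- the value of the projector on a form on one factor of the class `WC` -/
theorem sum_phX (X : Fin m → WC k) (j : Fin m) (T : Finset (Fin m × Option ℕ))
    (hT : ∀ b, (j, some b) ∈ T → b < (X j).r ∧ (j, none) ∈ T)
    (lam : Option (Fin (X j).r → Fin 3))
    (h : (if (j, none) ∈ T then cnt X T j + 1 else 0) ≠ wtX X j lam) :
    ∑ x : Z0 (Fin (X j).r → SignType),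
      cfZ (fun (lam : Fin (X j).r → Fin 3) (ε : Fin (X j).r → SignType) => ∏ b, cfS (lam b) (ε b))
        lam x * ((phX X T j x : ℤ) : ℚ) = 0 := by
  have hnone : (j, none) ∈ T ↔ fib T j ≠ ∅ := by
    constructor
    · intro h1 h2
      have h3 := fib_iff.2 h1
      rw [h2] at h3
      exact absurd h3 (Finset.notMem_empty _)
    · intro h1
      obtain ⟨b, hb⟩ := Finset.nonempty_iff_ne_empty.2 h1
      have h2 := fib_iff.1 hb
      rcases b with _ | b
      · exact h2
      · exact (hT b h2).2
  rw [Z0.sum_eq]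
  by_cases hf : fib T j = ∅
  · simp only [phX_empty hf, Int.cast_one, mul_one]
    rw [if_neg (fun h1 => hnone.1 h1 hf)] at h
    rcases lam with _ | lam
    · exact absurd rfl h
    · simp only [cfZ_sz, cfZ_ss]
      rw [neg_add_cancel]
  · rw [phX_z hf]
    rcases lam with _ | lam
    · simp only [cfZ_ns, Int.cast_zero, mul_zero, zero_mul, Finset.sum_const_zero, add_zero]
    · simp only [cfZ_ss, Int.cast_zero, mul_zero, zero_add, phX_s hf]
      have h1 : ∀ ε : Fin (X j).r → SignType,
          ((∏ b ∈ fib T j, b.elim 1 fun b => ((exS ε b : SignType) : ℤ) : ℤ) : ℚ) =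
          ∏ b : Fin (X j).r, if (j, some (b : ℕ)) ∈ T then ((ε b : SignType) : ℚ) else 1 := by
        intro ε
        rw [Int.cast_prod, ← Finset.prod_filter]
        symm
        refine Finset.prod_bij_ne_one (fun (b : Fin (X j).r) _ _ => some (b : ℕ)) ?_ ?_ ?_ ?_
        · intro b hb _
          exact fib_iff.2 (Finset.mem_filter.1 hb).2
        · intro b _ _ b' _ _ hbb
          exact Fin.ext (Option.some_injective _ hbb)
        · rintro (_ | b) hb hne
          · exact absurd (by simp) hne
          · have h2 := fib_iff.1 hb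
            have h3 := (hT b h2).1
            refine ⟨⟨b, h3⟩, Finset.mem_filter.2 ⟨Finset.mem_univ _, h2⟩, ?_, rfl⟩
            intro h4
            apply hne
            rw [← h4]
            change (((exS ε b : SignType) : ℤ) : ℚ) = _
            unfold exS
            rw [dif_pos h3]
            rcases ε ⟨b, h3⟩ <;> simp
        · intro b _ _
          change _ = (((exS ε b : SignType) : ℤ) : ℚ)
          rw [exS_fin]
          rcases ε b <;> simp
      have h2 : ∀ ε : Fin (X j).r → SignType, (∏ b, cfS (lam b) (ε b)) *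
          ((∏ b ∈ fib T j, b.elim 1 fun b => ((exS ε b : SignType) : ℤ) : ℤ) : ℚ) =
          ∏ b : Fin (X j).r, cfS (lam b) (ε b) *
            (if (j, some (b : ℕ)) ∈ T then ((ε b : SignType) : ℚ) else 1) := by
        intro ε
        rw [h1, Finset.prod_mul_distrib]
      rw [Finset.sum_congr rfl fun ε _ => h2 ε]
      have h3 := Finset.prod_univ_sum
        (fun _ : Fin (X j).r => (Finset.univ : Finset SignType))
        (fun b x => cfS (lam b) x *
          (if (j, some (b : ℕ)) ∈ T then ((x : SignType) : ℚ) else 1))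
      rw [Fintype.piFinset_univ] at h3
      rw [← h3]
      by_contra hne
      have h4 : ∀ b : Fin (X j).r, ((j, some (b : ℕ)) ∈ T ↔ lam b = 2) := by
        intro b
        have h5 := (Finset.prod_ne_zero_iff.1 hne) b (Finset.mem_univ b)
        rw [cfS_form] at h5
        have h6 : (j, some (b : ℕ)) ∈ T ∧ lam b = 2 ∨ (j, some (b : ℕ)) ∉ T ∧ lam b = 0 := by
          by_contra h7
          exact h5 (if_neg h7)
        rcases h6 with ⟨h7, h8⟩ | ⟨h7, h8⟩
        · exact ⟨fun _ => h8, fun _ => h7⟩
        · refine ⟨fun h9 => absurd h9 h7, fun h9 => ?_⟩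
          rw [h8] at h9
          exact absurd h9 (by decide)
      apply h
      rw [if_pos (hnone.2 hf)]
      unfold wtX cnt
      congr 2
      ext i
      simp only [Finset.mem_filter, Finset.mem_univ, true_and]
      exact h4 _

/-- the value of the projector on a form on one surface -/
theorem sum_phT (B : Finset (Fin l × Option ℕ)) (S : Finset (Fin l)) (j : Fin l)
    (hB : ∀ b, (j, some b) ∉ B) (hBS : j ∈ S → (j, none) ∉ B) (lam : Option (Option Unit))
    (h : (if (j, none) ∈ B then 1 else 0) + (if j ∈ S then 2 else 0) ≠ wtT lam) :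
    ∑ x : Z0 (Z0 Unit), cfZ qT lam x * (phB B j x * phT S j x) = 0 := by
  have hnone : (j, none) ∈ B ↔ fib B j ≠ ∅ := by
    constructor
    · intro h1 h2
      have h3 := fib_iff.2 h1
      rw [h2] at h3
      exact absurd h3 (Finset.notMem_empty _)
    · intro h1
      obtain ⟨b, hb⟩ := Finset.nonempty_iff_ne_empty.2 h1
      have h2 := fib_iff.1 hb
      rcases b with _ | b
      · exact h2
      · exact absurd h2 (hB b)
  have hz : phB B j (Z0.z : Z0 (Z0 Unit)) * phT S j (Z0.z : Z0 (Z0 Unit)) =
      if (j, none) ∈ B ∨ j ∈ S then 0 else 1 := by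
    unfold phB phT
    by_cases h1 : fib B j = ∅
    · rw [if_pos h1, one_mul]
      by_cases h2 : j ∈ S
      · rw [if_pos h2, if_pos (Or.inr h2)]
        rfl
      · rw [if_neg h2, if_neg]
        rintro (h3 | h3)
        · exact hnone.1 h3 h1
        · exact h2 h3
    · rw [if_neg h1, if_pos (Or.inl (hnone.2 h1))]
      exact zero_mul _
  have he : phB B j (Z0.s (Z0.z : Z0 Unit)) * phT S j (Z0.s (Z0.z : Z0 Unit)) =
      if j ∈ S then 0 else 1 := by
    unfold phB phT
    have h1 : (if fib B j = ∅ then (1 : ℚ) else Option.elim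
        (show Option (Z0 Unit) from Z0.s (Z0.z : Z0 Unit)) 0 fun _ => 1) = 1 := by
      split_ifs
      · rfl
      · rfl
    rw [h1, one_mul]
    rfl
  have hs : ∀ u : Unit, phB B j (Z0.s (Z0.s u : Z0 Unit)) * phT S j (Z0.s (Z0.s u : Z0 Unit)) =
      1 := by
    intro u
    unfold phB phT
    have h1 : (if fib B j = ∅ then (1 : ℚ) else Option.elim
        (show Option (Z0 Unit) from Z0.s (Z0.s u : Z0 Unit)) 0 fun _ => 1) = 1 := by
      split_ifs
      · rfl
      · rfl
    rw [h1, one_mul]
    split_ifs
    · rfl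
    · rfl
  rw [Z0.sum_eq, Z0.sum_eq, hz, he]
  simp only [hs, Finset.univ_unique, Finset.sum_singleton]
  have hq : ∀ lam : Option Unit, ∑ x, qT lam x = if lam = none then 1 else 0 := by
    intro lam
    rw [Z0.sum_eq]
    unfold qT
    rcases lam with _ | u
    · simp [cfZ_nz, cfZ_ns]
    · simp [cfZ_sz, cfZ_ss]
  rcases lam with _ | _ | u
  · by_cases h1 : (j, none) ∈ B ∨ j ∈ S
    · rw [if_pos h1, cfZ_ns, cfZ_ns]
      ring
    · push Not at h1
      exact absurd (by simp [h1.1, h1.2, wtT]) h
  · rw [cfZ_sz, cfZ_ss, cfZ_ss, hq none, if_pos rfl]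
    have h3 : qT none (Z0.z : Z0 Unit) = 1 := rfl
    have h4 : ∀ x : Unit, qT none (Z0.s x : Z0 Unit) = 0 := fun _ => rfl
    rw [h3, h4]
    by_cases h1 : j ∈ S
    · rw [if_pos (Or.inr h1), if_pos h1]
      ring
    · by_cases h2 : (j, none) ∈ B
      · exact absurd (by simp [h1, h2, wtT]) h
      · rw [if_neg (by tauto), if_neg h1]
        ring
  · rw [cfZ_sz, cfZ_ss, cfZ_ss, hq (some u), if_neg (by simp)]
    have h3 : qT (some u) (Z0.z : Z0 Unit) = -1 := by
      unfold qT
      rw [cfZ_sz]
      simp
    have h4 : ∀ x : Unit, qT (some u) (Z0.s x : Z0 Unit) = 1 := fun _ => rfl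
    rw [h3, h4]
    by_cases h1 : j ∈ S
    · have h2 := hBS h1
      exact absurd (by simp [h1, h2, wtT]) h
    · rw [if_neg h1]
      ring

/-! ### Products -/

/-- the weight of a label -/
def wtL (X : Fin m → WC k) (l : ℕ) (κ : ∀ a, Option (LL X l a)) : ℕ :=
  ∑ j, wtX X j (show Option (Fin (X j).r → Fin 3) from κ (.inl j)) +
    ∑ j : Fin l, wtT (show Option (Option Unit) from κ (.inr j))

/-- the projector `ga κ` kills the forms of all degrees different from the weight of `κ` -/
theorem ga_kills (hd : ∀ j, (E j).d = 1) (ht : ∀ j, (E j).top = 0)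
    (κ : ∀ a, Option (LL X l a)) {ν : ℕ} (hν : ν ≠ wtL X l κ) :
    KillsForms (ga X w E κ) ν := by
  intro T a B c S b T' a' B' c' S' b' _ hF
  have hB' : ∀ j b, (j, some b) ∉ B' := by
    intro j b hb
    exact absurd (hF.second.1 j b hb).1 (Nat.not_lt_zero b)
  unfold ga
  rw [← Finsupp.sum_finsetSum_index (fun f => by simp) (fun f a c => by rw [add_mul])]
  have h1 : ∀ t : ∀ a, Z0 (NN X l a), (Finsupp.single (el w E t) (cfP X l κ t)).sum
      (fun f e => e * (pullCoef f.1 T a T' a' * pullCoef (MorT.base f.2) B c B' c' *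
        pullT f.2 S b S' b')) =
      if SameX T T' a a' ∧ SameX B B' c c' ∧ SameT S S' b b' then
        (∏ j, cfZ (qq X l (.inl j)) (κ (.inl j)) (t (.inl j)) *
          ((phX X T' j (t (.inl j)) : ℤ) : ℚ)) *
          ∏ j, cfZ (qq X l (.inr j)) (κ (.inr j)) (t (.inr j)) *
            (phB B' j (t (.inr j)) * phT S' j (t (.inr j)))
        else 0 := by
    intro t
    rw [Finsupp.sum_single_index (by simp)]
    change _ * ((pullCoef (elX X t) T a T' a' : ℚ) *
      (pullCoef (MorT.base (elT w E t)) B c B' c' : ℚ) * pullT (elT w E t) S b S' b') = _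
    rw [pullCoef_el, pullB_el, pullT_el hd ht]
    by_cases hX : SameX T T' a a'
    · by_cases hB : SameX B B' c c'
      · by_cases hT : SameT S S' b b'
        · rw [if_pos hX, if_pos hB, if_pos hT, if_pos ⟨hX, hB, hT⟩, Int.cast_prod]
          unfold cfP
          rw [Fintype.prod_sum_type, Finset.prod_mul_distrib, Finset.prod_mul_distrib,
            Finset.prod_mul_distrib]
          ring
        · rw [if_neg hT, if_neg (show ¬ (SameX T T' a a' ∧ SameX B B' c c' ∧ SameT S S' b b')
            from fun h => hT h.2.2), mul_zero, mul_zero]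
      · rw [if_neg hB, if_neg (show ¬ (SameX T T' a a' ∧ SameX B B' c c' ∧ SameT S S' b b')
          from fun h => hB h.2.1), mul_zero, zero_mul, mul_zero]
    · rw [if_neg hX, if_neg (show ¬ (SameX T T' a a' ∧ SameX B B' c c' ∧ SameT S S' b b')
        from fun h => hX h.1), Int.cast_zero, zero_mul, zero_mul, mul_zero]
  rw [Finset.sum_congr rfl fun t _ => h1 t]
  by_cases hc : SameX T T' a a' ∧ SameX B B' c c' ∧ SameT S S' b b'
  swap
  · simp only [if_neg hc, Finset.sum_const_zero]
  simp only [if_pos hc]
  have h2 := Finset.prod_univ_sum (ι := Fin m ⊕ Fin l)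
    (fun a => (Finset.univ : Finset (Z0 (NN X l a))))
    (fun a => (match a with
      | .inl j => fun x => cfZ (qq X l (.inl j)) (κ (.inl j)) x * ((phX X T' j x : ℤ) : ℚ)
      | .inr j => fun x => cfZ (qq X l (.inr j)) (κ (.inr j)) x * (phB B' j x * phT S' j x) :
        Z0 (NN X l a) → ℚ))
  rw [Fintype.piFinset_univ] at h2
  simp only [Fintype.prod_sum_type] at h2
  rw [← h2]
  have h3 : (∃ j, (if (j, none) ∈ T' then cnt X T' j + 1 else 0) ≠
      wtX X j (show Option (Fin (X j).r → Fin 3) from κ (.inl j))) ∨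
      ∃ j, (if (j, none) ∈ B' then 1 else 0) + (if j ∈ S' then 2 else 0) ≠
        wtT (show Option (Option Unit) from κ (.inr j)) := by
    by_contra hcon
    push Not at hcon
    apply hν
    have h5 : wt (curs Z) B' = ∑ j, if (j, none) ∈ B' then 1 else 0 := by
      unfold wt
      refine Finset.sum_congr rfl fun j _ => ?_
      have h4 : cnt (curs Z) B' j = 0 := by
        unfold cnt
        exact Finset.card_eq_zero.2 (Finset.filter_eq_empty_iff.2 fun i => i.elim0)
      rw [h4]
    have h6 : 2 * S'.card = ∑ j, if j ∈ S' then 2 else 0 := by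
      rw [Finset.sum_ite_mem, Finset.univ_inter, Finset.sum_const, smul_eq_mul, mul_comm]
    have h7 : wt X T' = ∑ j, if (j, none) ∈ T' then cnt X T' j + 1 else 0 := rfl
    rw [← hF.degree, h5, h6, h7, add_assoc, ← Finset.sum_add_distrib,
      Finset.sum_congr rfl fun j _ => hcon.1 j, Finset.sum_congr rfl fun j _ => hcon.2 j]
    rfl
  rcases h3 with ⟨j, hj⟩ | ⟨j, hj⟩
  · rw [Finset.prod_eq_zero (Finset.mem_univ j), zero_mul]
    exact sum_phX X j T' (fun b hb => hF.first.1 j b hb) _ hj
  · rw [Finset.prod_eq_zero (s := Finset.univ (α := Fin l)) (Finset.mem_univ j), mul_zero]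
    exact sum_phT B' S' j (hB' j) (hF.disj j) _ hj

end Pool.Agent.QTC
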