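import Pool.Agent.QTC.UqB
import Pool.Agent.QTC.UqM

/-!
# Uniqueness of the filtration
-/

set_option autoImplicit false

noncomputable section

namespace Pool.Agent.QTC

open Pool.Agent.ZCyc Pool.Agent.WFC Pool.Agent.BBU
open Pool.Agent.VFP (Om tt)
open scoped Classical

variable {k : Type} [Field k] [IsAlgClosed k] [CharZero k] {m l : ℕ} {X : Fin m → WC k}
  {Z : Fin l → TS k}

/-- the push-forward by a projector as a linear map -/
def pe (X : Fin m → WC k) (w : ∀ j, (Z j).Pt) (E : ∀ j, TCor (Z j) (Z j))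
    (κ : ∀ a, Option (LL X l a)) : (PtM m Z →₀ ℚ) →ₗ[ℚ] (PtM m Z →₀ ℚ) := pushL (ga X w E κ)

omit [IsAlgClosed k] [CharZero k] in
theorem pe_eq (w : ∀ j, (Z j).Pt) (E : ∀ j, TCor (Z j) (Z j)) (κ : ∀ a, Option (LL X l a))
    (z : PtM m Z →₀ ℚ) : pe X w E κ z = ∑ t : ∀ a, Z0 (NN X l a),
      cfP X l κ t • Finsupp.linearCombination ℚ (MorM.cyc (el w E t)) z := by
  rw [pe, ← push_eq, push_ga]

theorem ga_idem {w : ∀ j, (Z j).Pt} {E : ∀ j, TCor (Z j) (Z j)} (h : ∀ j, IsE1 (E j) (w j))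
    (κ : ∀ a, Option (LL X l a)) {z : PtM m Z →₀ ℚ} (hz : ∀ p ∈ z.support, OnP X p.1) :
    pe X w E κ (pe X w E κ z) - pe X w E κ z ∈ ratEq X Z := by
  rw [← Submodule.Quotient.eq]
  have h0 : ∀ y, (Submodule.Quotient.mk (pe X w E κ y) : V X Z) =
      ∑ t : ∀ a, Z0 (NN X l a), cfP X l κ t •
        (Submodule.Quotient.mk (Finsupp.linearCombination ℚ (MorM.cyc (el w E t)) y) :
          V X Z) := by
    intro y
    rw [pe_eq, ← Submodule.mkQ_apply, map_sum]
    exact Finset.sum_congr rfl fun t _ => map_smul _ _ _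
  rw [h0, h0]
  have h1 : ∀ t : ∀ a, Z0 (NN X l a), cfP X l κ t •
      (Submodule.Quotient.mk (Finsupp.linearCombination ℚ (MorM.cyc (el w E t))
        (pe X w E κ z)) : V X Z) =
      ∑ t' : ∀ a, Z0 (NN X l a), (cfP X l κ t * cfP X l κ t') •
        (Submodule.Quotient.mk (Finsupp.linearCombination ℚ (MorM.cyc (el w E (t * t'))) z) :
          V X Z) := by
    intro t
    rw [pe_eq, map_sum, ← Submodule.mkQ_apply, map_sum, Finset.smul_sum]
    refine Finset.sum_congr rfl fun t' _ => ?_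
    rw [map_smul, map_smul, smul_smul]
    congr 1
    exact (Submodule.Quotient.eq _).2 (el_mul h t t' hz)
  rw [Finset.sum_congr rfl fun t _ => h1 t]
  exact conv_idem (fun a => cfZ (qq X l a) (κ a))
    (fun a => cfZ_conv (qq X l a) (qq_conv X l a) (κ a)) fun t =>
      (Submodule.Quotient.mk (Finsupp.linearCombination ℚ (MorM.cyc (el w E t)) z) : V X Z)

theorem ga_sum (w : ∀ j, (Z j).Pt) (E : ∀ j, TCor (Z j) (Z j)) {z : PtM m Z →₀ ℚ}
    (hz : ∀ p ∈ z.support, OnP X p.1) : z - ∑ κ, pe X w E κ z ∈ ratEq X Z := by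
  have h1 := conv_sum' (fun a => cfZ (qq X l a)) (fun a => cfZ_sum (qq X l a) (qq_sum X l a))
    fun t => Finsupp.linearCombination ℚ (MorM.cyc (el w E t)) z
  have h2 : ∑ κ, pe X w E κ z =
      Finsupp.linearCombination ℚ (MorM.cyc (el w E (1 : ∀ a, Z0 (NN X l a)))) z := by
    simp only [pe_eq]
    exact h1
  rw [h2, ← neg_sub]
  exact neg_mem (el_one w E hz)

private lemma conds_split {Φ : Filtration k} (h : Conds Φ) (X : Fin m → WC k)
    {w : ∀ j, (Z j).Pt} {E : ∀ j, TCor (Z j) (Z j)} (hE : ∀ j, IsE1 (E j) (w j)) :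
    Split (ratEq X Z) (Finsupp.supported ℚ ℚ {p : PtM m Z | OnP X p.1}) (Φ m X l Z)
      (wtL X l) ((∑ j, (X j).dim) + 2 * l) (fun κ => pe X w E κ) := by
  refine ⟨fun ν z hz => h.mod m X l Z ν z hz, fun ν z hz => h.anti m X l Z ν z hz, ?_,
    fun z hz => h.top m X l Z z hz, fun z hz => ?_, fun κ z hz => ?_, fun κ ν z hz => ?_,
    fun κ ν hν z hz => ?_⟩
  · ext z
    rw [Finsupp.mem_supported]
    exact h.zero m X l Z z
  · exact ga_sum w E fun p hp => (Finsupp.mem_supported _ _).1 hz hp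
  · exact ga_idem hE κ fun p hp => (Finsupp.mem_supported _ _).1 hz hp
  · have h1 := h.map m X l Z m X l Z ν (ga X w E κ) z hz
    rw [push_eq] at h1
    exact h1
  · have h1 := h.grad m X l Z m X l Z ν (ga X w E κ) z
      (ga_kills (fun j => (hE j).d) (fun j => (hE j).top) κ hν) hz
    rw [push_eq] at h1
    exact h1

/-- two filtrations with the properties are equal, if there are projectors to multisections -/
theorem uniq_of (hE : ∀ Z : TS k, Nonempty Z.Pt → ∃ (E : TCor Z Z) (w : Z.Pt), IsE1 E w)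
    {Φ Ψ : Filtration k} (h : Conds Φ) (h' : Conds Ψ) : Φ = Ψ := by
  funext m X l Z ν
  by_cases hne : ∀ j, Nonempty (Z j).Pt
  · choose E w hw using fun j => hE (Z j) (hne j)
    exact (conds_split h X hw).unique (conds_split h' X hw) ν
  · push Not at hne
    obtain ⟨j, hj⟩ := hne
    have h1 : IsEmpty (PtM m Z) := ⟨fun p => hj.false (p.2 j)⟩
    exact Subsingleton.elim _ _

end Pool.Agent.QTC
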