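import Pool.Agent.QTC.Base

/-!
# Weighted families

A family of points with rational weights which are constant on the orbits of the Galois group: the
differences of its members are rationally equivalent to zero.
-/

set_option autoImplicit false

noncomputable section

namespace Pool.Agent.QTC

open Pool.Agent.ZCyc
open Pool.Agent.VFP (Om tt)
open Pool.Agent.WFC
open scoped Classical

variable {k : Type} [Field k] {m l : ℕ} {X : Fin m → WC k} {Z : Fin l → TS k}

/-- the members of a weighted family -/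
theorem ratEq_wt {ι : Type} [Fintype ι] (w : ι → ℚ) {P : ι → Fin m → PtO k}
    {Q : ι → ∀ j, (Z j).PtO} {c c' : k} {v v' : Place k (Om k)} {p p' : ι → PtM m Z}
    (hP : ∀ a, OnPO X (P a))
    (hG : ∀ g : Om k ≃ₐ[RatFunc k] Om k, ∃ e : Equiv.Perm ι, (∀ a, w (e a) = w a) ∧ ∀ a,
      (∀ i, P (e a) i = (P a i).map (g.restrictScalars k)) ∧
        ∀ j, IsConj g (Q a j) (Q (e a) j))
    (hv : v.Vanishes (tt k - algebraMap k (Om k) c))
    (hv' : v'.Vanishes (tt k - algebraMap k (Om k) c'))
    (hp : ∀ a, OnP X (p a).1 ∧ IsValM v (P a) (Q a) (p a))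
    (hp' : ∀ a, OnP X (p' a).1 ∧ IsValM v' (P a) (Q a) (p' a)) :
    (∑ a, w a • (Finsupp.single (p a) (1 : ℚ) - Finsupp.single (p' a) 1)) ∈ ratEq X Z := by
  have h1 : (∑ a, w a • (Finsupp.single (p a) (1 : ℚ) - Finsupp.single (p' a) 1)) =
      ∑ b ∈ Finset.univ.image w, b • ∑ a : {a // w a = b},
        (Finsupp.single (p a) (1 : ℚ) - Finsupp.single (p' a) 1) := by
    rw [← Finset.sum_fiberwise_of_maps_to (g := w) (t := Finset.univ.image w)
      fun a _ => Finset.mem_image_of_mem w (Finset.mem_univ a)]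
    refine Finset.sum_congr rfl fun b _ => ?_
    rw [Finset.smul_sum, ← Finset.sum_subtype_eq_sum_filter, Finset.subtype_univ]
    refine Finset.sum_congr rfl fun a _ => ?_
    rw [a.2]
  rw [h1]
  refine Submodule.sum_mem _ fun b _ => Submodule.smul_mem _ _ ?_
  let ε := Fintype.equivFin {a // w a = b}
  refine mem_fam ⟨Fintype.card {a // w a = b},
    fun i => P (ε.symm i), fun i => Q (ε.symm i), c, c', v, v', fun i => p (ε.symm i),
    fun i => p' (ε.symm i), fun i => hP _, fun g => ?_, hv, hv', fun i => hp _, fun i => hp' _,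
    ?_⟩
  · obtain ⟨e, he, h⟩ := hG g
    let e' : Equiv.Perm {a // w a = b} := e.subtypePerm fun a => by rw [he]
    refine ⟨(ε.symm.trans e').trans ε, fun i => ?_⟩
    have h2 : ε.symm (((ε.symm.trans e').trans ε) i) = e' (ε.symm i) := by
      simp
    have h3 := h (ε.symm i).1
    refine ⟨fun i' => ?_, fun j => ?_⟩
    · change P (ε.symm (((ε.symm.trans e').trans ε) i)).1 i' = _
      rw [h2]
      exact h3.1 i'
    · change IsConj g _ (Q (ε.symm (((ε.symm.trans e').trans ε) i)).1 j)
      rw [h2]
      exact h3.2 j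
  · exact (Equiv.sum_comp ε.symm fun a : {a // w a = b} =>
      (Finsupp.single (p a) (1 : ℚ) - Finsupp.single (p' a) 1)).symm

end Pool.Agent.QTC
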